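import Mathlib

set_option autoImplicit false

/-! Real-rooted polynomials: factorisation, coefficient signs, polar derivatives. -/

namespace Pool.Agent.H415R3.FP

open Polynomial

/-- real-rooted (or zero) -/
def RR (p : ℝ[X]) : Prop := p = 0 ∨ ∀ z : ℂ, aeval z p = 0 → z.im = 0

/-- complex version: no zeros off the real axis -/
def NV (p : ℝ[X]) : Prop := ∀ z : ℂ, aeval z p = 0 → z.im = 0

theorem exists_complex_root {p : ℝ[X]} (hp : 0 < p.natDegree) : ∃ z : ℂ, aeval z p = 0 := by
  apply IsAlgClosed.exists_aeval_eq_zero ℂ p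
  exact (natDegree_pos_iff_degree_pos.mp hp).ne'

theorem NV_factor {p : ℝ[X]} (h : NV p) (hp : 0 < p.natDegree) :
    ∃ (r : ℝ) (q : ℝ[X]), p = (X - C r) * q ∧ NV q ∧ q.natDegree + 1 = p.natDegree ∧
      p.leadingCoeff = q.leadingCoeff := by
  obtain ⟨z, hz⟩ := exists_complex_root hp
  have him := h z hz
  have hzr : z = ((z.re : ℝ) : ℂ) := by
    apply Complex.ext <;> simp [him]
  have hroot : IsRoot p z.re := by
    rw [hzr] at hz
    have h2 : aeval ((z.re : ℝ) : ℂ) p = ((p.eval z.re : ℝ) : ℂ) := by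
      rw [← Complex.coe_algebraMap, aeval_algebraMap_apply]
      simp
    rw [h2] at hz
    exact_mod_cast hz
  obtain ⟨q, hq⟩ := dvd_iff_isRoot.mpr hroot
  have hp0 : p ≠ 0 := by rintro rfl; simp at hp
  have hq0 : q ≠ 0 := by rintro rfl; simp at hq; exact hp0 hq
  refine ⟨z.re, q, hq, ?_, ?_, ?_⟩
  · intro w hw
    apply h
    rw [hq, map_mul, hw, mul_zero]
  · rw [hq, natDegree_mul (X_sub_C_ne_zero _) hq0, natDegree_X_sub_C, add_comm]
  · rw [hq, leadingCoeff_mul, leadingCoeff_X_sub_C, one_mul]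

theorem NV_prod (n : ℕ) : ∀ p : ℝ[X], p.natDegree = n → p ≠ 0 → NV p →
    ∃ s : Multiset ℝ, s.card = n ∧ p = C p.leadingCoeff * (s.map fun r => X - C r).prod := by
  induction n with
  | zero =>
    intro p hn hp _
    refine ⟨0, rfl, ?_⟩
    have := eq_C_of_natDegree_eq_zero hn
    rw [this]; simp
  | succ n ih =>
    intro p hn hp h
    obtain ⟨r, q, hq, hqNV, hdeg, hlc⟩ := NV_factor h (by omega)
    have hq0 : q ≠ 0 := by rintro rfl; simp at hq; exact hp hq
    obtain ⟨s, hs, hqs⟩ := ih q (by omega) hq0 hqNV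
    refine ⟨r ::ₘ s, by simp [hs], ?_⟩
    rw [Multiset.map_cons, Multiset.prod_cons, hlc]
    conv_lhs => rw [hq, hqs]
    ring

/-- All coefficients have the same sign if all roots are real and nonpositive. -/
theorem coeff_same_sign (n : ℕ) : ∀ p : ℝ[X], p.natDegree = n →
    (∀ z : ℂ, aeval z p = 0 → z.im = 0 ∧ z.re ≤ 0) →
    (∀ i, 0 ≤ p.coeff i) ∨ (∀ i, p.coeff i ≤ 0) := by
  induction n with
  | zero =>
    intro p hn _
    obtain ⟨c, hc⟩ : ∃ c : ℝ, p = C c := ⟨_, eq_C_of_natDegree_eq_zero hn⟩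
    subst hc
    rcases le_total 0 c with h | h
    · left; intro i; rw [coeff_C]; split_ifs <;> linarith
    · right; intro i; rw [coeff_C]; split_ifs <;> linarith
  | succ n ih =>
    intro p hn h
    obtain ⟨r, q, hq, -, hdeg, -⟩ := NV_factor (fun z hz => (h z hz).1) (by omega : 0 < p.natDegree)
    have hr : r ≤ 0 := by
      have := (h (r : ℂ) (by
        rw [hq, map_mul]
        have : aeval (r : ℂ) (X - C r) = 0 := by simp
        rw [this, zero_mul])).2
      simpa using this
    have hq' : ∀ z : ℂ, aeval z q = 0 → z.im = 0 ∧ z.re ≤ 0 := by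
      intro z hz
      apply h
      rw [hq, map_mul, hz, mul_zero]
    have hc : ∀ i, p.coeff i = (if i = 0 then 0 else q.coeff (i - 1)) - r * q.coeff i := by
      intro i
      rw [hq, sub_mul, coeff_sub, coeff_C_mul]
      congr 1
      cases i with
      | zero => simp
      | succ i => simp [coeff_X_mul]
    rcases ih q (by omega) hq' with h1 | h1
    · left
      intro i
      rw [hc i]
      have : 0 ≤ (if i = 0 then 0 else q.coeff (i - 1)) := by
        split_ifs
        · exact le_rfl
        · exact h1 _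
      nlinarith [h1 i, mul_nonneg (neg_nonneg.mpr hr) (h1 i)]
    · right
      intro i
      rw [hc i]
      have : (if i = 0 then 0 else q.coeff (i - 1)) ≤ 0 := by
        split_ifs
        · exact le_rfl
        · exact h1 _
      nlinarith [h1 i, mul_nonneg (neg_nonneg.mpr hr) (neg_nonneg.mpr (h1 i))]

end Pool.Agent.H415R3.FP
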