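import Mathlib
import Pool.Agent.H415R3.RR

set_option autoImplicit false

/-! The coefficient polynomials of a Hermite diagonal operator. -/

namespace Pool.Agent.H415R3.FP

open Polynomial

/-- the functional `X^n ↦ γ n` -/
noncomputable def L (γ : ℕ → ℝ) : ℝ[X] →ₗ[ℝ] ℝ :=
  Polynomial.lsum (fun n => γ n • (LinearMap.id : ℝ →ₗ[ℝ] ℝ))

theorem L_X_pow (γ : ℕ → ℝ) (n : ℕ) : L γ (X ^ n) = γ n := by
  unfold L
  rw [Polynomial.lsum_apply, ← monomial_one_right_eq_X_pow, Polynomial.sum_monomial_index]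
  · simp
  · simp

theorem L_one (γ : ℕ → ℝ) : L γ 1 = γ 0 := by
  simpa using L_X_pow γ 0

theorem L_C_mul (γ : ℕ → ℝ) (c : ℝ) (P : ℝ[X]) : L γ (C c * P) = c * L γ P := by
  rw [← smul_eq_C_mul, map_smul, smul_eq_mul]

noncomputable def Qh (γ : ℕ → ℝ) : ℕ → ℝ[X] → ℝ[X]
  | 0, P => C (L γ P)
  | 1, P => C (L γ ((X - 1) * P)) * X
  | (k + 2), P => C (1 / (k + 2 : ℝ)) * (X * Qh γ (k + 1) ((X - 1) * P)
      - C (1 / 2) * Qh γ k ((X ^ 2 - 1) * P))

theorem Qh_rec (γ : ℕ → ℝ) (k : ℕ) (P : ℝ[X]) : Qh γ (k + 2) P =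
    C (1 / (k + 2 : ℝ)) * (X * Qh γ (k + 1) ((X - 1) * P)
      - C (1 / 2) * Qh γ k ((X ^ 2 - 1) * P)) := by
  rw [Qh]

theorem Qh_rec' (γ : ℕ → ℝ) (k : ℕ) (P : ℝ[X]) : C (k + 2 : ℝ) * Qh γ (k + 2) P =
    (X * Qh γ (k + 1) ((X - 1) * P) - C (1 / 2) * Qh γ k ((X ^ 2 - 1) * P)) := by
  rw [Qh_rec, ← mul_assoc, ← C_mul]
  have : ((k : ℝ) + 2) * (1 / (k + 2)) = 1 := by
    have : ((k : ℝ) + 2) ≠ 0 := by positivity
    field_simp
  rw [this, C_1, one_mul]

theorem Qh_add (γ : ℕ → ℝ) (k : ℕ) : ∀ P P' : ℝ[X], Qh γ k (P + P') = Qh γ k P + Qh γ k P' := by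
  induction k using Nat.twoStepInduction with
  | zero => intro P P'; simp [Qh]
  | one => intro P P'; simp [Qh, mul_add, add_mul]
  | more k ih0 ih1 =>
    intro P P'
    rw [Qh_rec, Qh_rec, Qh_rec, mul_add, mul_add, ih0, ih1]
    ring

theorem Qh_neg (γ : ℕ → ℝ) (k : ℕ) : ∀ P : ℝ[X], Qh γ k (-P) = -Qh γ k P := by
  intro P
  have h0 : Qh γ k 0 = 0 := by
    have := Qh_add γ k 0 0
    simpa using this
  have := Qh_add γ k P (-P)
  rw [add_neg_cancel, h0] at this
  linear_combination -this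

theorem Qh_sub (γ : ℕ → ℝ) (k : ℕ) (P P' : ℝ[X]) : Qh γ k (P - P') = Qh γ k P - Qh γ k P' := by
  rw [sub_eq_add_neg, Qh_add, Qh_neg, sub_eq_add_neg]

theorem Qh_deriv (γ : ℕ → ℝ) (k : ℕ) : ∀ P : ℝ[X],
    derivative (Qh γ (k + 1) P) = Qh γ k ((X - 1) * P) := by
  induction k using Nat.twoStepInduction with
  | zero => intro P; simp [Qh]
  | one =>
    intro P
    have h1 : Qh γ 1 ((X - 1) * P) = C (L γ ((X - 1) * ((X - 1) * P))) * X := by simp [Qh]
    have h0 : ∀ R : ℝ[X], Qh γ 0 R = C (L γ R) := by intro R; simp [Qh]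
    rw [Qh_rec, zero_add, h1, h0]
    simp only [derivative_mul, derivative_C, derivative_X, derivative_sub, zero_mul, mul_one,
      zero_add, mul_zero, sub_zero]
    have : (C (1 / (((0:ℕ):ℝ) + 2)) : ℝ[X]) * 2 = 1 := by
      rw [show (2 : ℝ[X]) = C 2 from (map_ofNat C 2).symm, ← C_mul]; norm_num
    linear_combination (X * C (L γ ((X - 1) * ((X - 1) * P)))) * this
  | more k ih0 ih1 =>
    intro P
    have hne : (C ((k : ℝ) + 3) : ℝ[X]) ≠ 0 := by
      rw [ne_eq, C_eq_zero]; positivity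
    apply mul_left_cancel₀ hne
    have e1 := Qh_rec' γ (k + 1) P
    have e2 := congrArg derivative e1
    have c1 : (((k + 1 : ℕ) : ℝ) + 2) = (k : ℝ) + 3 := by push_cast; ring
    rw [c1] at e2
    simp only [derivative_mul, derivative_C, derivative_X, derivative_sub, zero_mul, zero_add,
      one_mul] at e2
    rw [ih1, ih0] at e2
    rw [e2]
    -- (k+3) Q_{k+2}[(X-1)P] = ...
    have e3 := Qh_rec' γ k ((X - 1) * P)
    have e4 : (C ((k : ℝ) + 3) : ℝ[X]) = C ((k : ℝ) + 2) + 1 := by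
      rw [show (1 : ℝ[X]) = C 1 by simp, ← C_add]; congr 1; ring
    rw [e4, add_mul, one_mul, e3]
    have e5 : (X - 1) * ((X ^ 2 - 1) * P) = (X ^ 2 - 1) * ((X - 1) * P) := by ring
    rw [e5]
    ring

/-- the operator truncated at `N` -/
noncomputable def TT (γ : ℕ → ℝ) (N : ℕ) (P p : ℝ[X]) : ℝ[X] :=
  ∑ k ∈ Finset.range N, Qh γ k P * (⇑derivative)^[k] p

theorem TT_add (γ : ℕ → ℝ) (N : ℕ) (P p q : ℝ[X]) : TT γ N P (p + q) = TT γ N P p + TT γ N P q := by
  unfold TT
  rw [← Finset.sum_add_distrib]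
  refine Finset.sum_congr rfl fun k _ => ?_
  rw [iterate_map_add derivative k p q]
  ring

theorem TT_C_mul (γ : ℕ → ℝ) (N : ℕ) (P p : ℝ[X]) (c : ℝ) :
    TT γ N P (C c * p) = C c * TT γ N P p := by
  unfold TT
  rw [Finset.mul_sum]
  refine Finset.sum_congr rfl fun k _ => ?_
  rw [iterate_derivative_C_mul]
  ring

theorem iter_A (k : ℕ) (p : ℝ[X]) : (⇑derivative)^[k + 1] (2 * X * p - derivative p) =
    2 * X * (⇑derivative)^[k + 1] p + C (2 * (k + 1) : ℝ) * (⇑derivative)^[k] p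
      - (⇑derivative)^[k + 2] p := by
  induction k with
  | zero =>
    simp only [Function.iterate_succ, Function.iterate_zero, Function.comp, id, derivative_sub,
      derivative_mul, derivative_X, zero_add]
    have : derivative (2 : ℝ[X]) = 0 := by simp
    rw [this]
    have h2 : (C (2 * (((0:ℕ):ℝ) + 1)) : ℝ[X]) = 2 := by
      rw [show (2 : ℝ[X]) = C 2 from (map_ofNat C 2).symm]; norm_num
    rw [h2]
    ring
  | succ k ih =>
    rw [Function.iterate_succ_apply', ih]
    simp only [derivative_sub, derivative_add, derivative_mul, derivative_X, derivative_C]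
    have : derivative (2 : ℝ[X]) = 0 := by simp
    rw [this]
    rw [← Function.iterate_succ_apply' (⇑derivative) (k + 1) p,
      ← Function.iterate_succ_apply' (⇑derivative) k p,
      ← Function.iterate_succ_apply' (⇑derivative) (k + 2) p]
    have h3 : (C (2 * (((k + 1 : ℕ) : ℝ) + 1)) : ℝ[X]) = C (2 * ((k : ℝ) + 1)) + 2 := by
      rw [show (2 : ℝ[X]) = C 2 from (map_ofNat C 2).symm, ← C_add]; congr 1; push_cast; ring
    rw [h3]
    ring

theorem TT_A_aux (γ : ℕ → ℝ) (P p : ℝ[X]) (N : ℕ) :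
    TT γ (N + 1) P (2 * X * p - derivative p) -
      (2 * X * TT γ (N + 1) (X * P) p - derivative (TT γ (N + 1) (X * P) p)) =
    -C (2 * (N + 1) : ℝ) * Qh γ (N + 1) P * (⇑derivative)^[N] p
      + Qh γ N ((X - 1) * P) * (⇑derivative)^[N + 1] p := by
  induction N with
  | zero =>
    simp only [TT, zero_add, Finset.sum_range_one, Function.iterate_zero, id,
      Function.iterate_one, derivative_mul]
    have h0 : ∀ R : ℝ[X], Qh γ 0 R = C (L γ R) := by intro R; simp [Qh]
    have h1 : Qh γ 1 P = C (L γ ((X - 1) * P)) * X := by simp [Qh]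
    rw [h0, h0, h1, h0]
    have e : L γ ((X - 1) * P) = L γ (X * P) - L γ P := by
      rw [← map_sub]; congr 1; ring
    rw [e, derivative_C, C_sub]
    have h2 : (C (2 * (((0:ℕ):ℝ) + 1)) : ℝ[X]) = 2 := by
      rw [show (2 : ℝ[X]) = C 2 from (map_ofNat C 2).symm]; norm_num
    rw [h2]
    ring
  | succ N ih =>
    have s1 : TT γ (N + 1 + 1) P (2 * X * p - derivative p) =
        TT γ (N + 1) P (2 * X * p - derivative p)
        + Qh γ (N + 1) P * (⇑derivative)^[N + 1] (2 * X * p - derivative p) := by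
      unfold TT; rw [Finset.sum_range_succ]
    have s2 : TT γ (N + 1 + 1) (X * P) p = TT γ (N + 1) (X * P) p
        + Qh γ (N + 1) (X * P) * (⇑derivative)^[N + 1] p := by
      unfold TT; rw [Finset.sum_range_succ]
    rw [s1, s2, iter_A, derivative_add, derivative_mul,
      ← Function.iterate_succ_apply' (⇑derivative) (N + 1) p, Qh_deriv]
    have e1 : Qh γ (N + 1) (X * P) = Qh γ (N + 1) P + Qh γ (N + 1) ((X - 1) * P) := by
      rw [← Qh_add]; congr 1; ring
    rw [e1]
    -- recursion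
    have r := Qh_rec' γ N P
    have e2 : Qh γ N ((X ^ 2 - 1) * P) = Qh γ N ((X - 1) * (X * P)) + Qh γ N ((X - 1) * P) := by
      rw [← Qh_add]; congr 1; ring
    rw [e2] at r
    have h3 : (C (2 * (((N + 1 : ℕ) : ℝ) + 1)) : ℝ[X]) = 2 * C ((N : ℝ) + 2) := by
      rw [show (2 : ℝ[X]) = C 2 from (map_ofNat C 2).symm, ← C_mul]; congr 1; push_cast; ring
    rw [h3]
    have hhalf : (2 : ℝ[X]) * C (1 / 2) = 1 := by
      rw [show (2 : ℝ[X]) = C 2 from (map_ofNat C 2).symm, ← C_mul]; norm_num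
    linear_combination ih + (2 * (⇑derivative)^[N + 1] p) * r - ((⇑derivative)^[N + 1] p * (Qh γ N ((X - 1) * (X * P)) + Qh γ N ((X - 1) * P))) * hhalf

/-- `T_P A = A T_{XP}` -/
theorem TT_A (γ : ℕ → ℝ) (P p : ℝ[X]) (N : ℕ) (hN : p.natDegree < N) :
    TT γ (N + 1) P (2 * X * p - derivative p) =
      2 * X * TT γ (N + 1) (X * P) p - derivative (TT γ (N + 1) (X * P) p) := by
  have h := TT_A_aux γ P p N
  rw [iterate_derivative_eq_zero hN, iterate_derivative_eq_zero (by omega : p.natDegree < N + 1)] at h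
  rw [← sub_eq_zero, h]
  ring

/-- the rescaled Hermite polynomials of the statement -/
noncomputable def hh (n : ℕ) : ℝ[X] :=
  ((Polynomial.hermite n).map (Int.castRingHom ℝ)).comp (C (Real.sqrt 2) * X)

theorem hh_zero : hh 0 = 1 := by
  simp [hh]

theorem hh_succ (n : ℕ) : C (Real.sqrt 2) * hh (n + 1) = 2 * X * hh n - derivative (hh n) := by
  unfold hh
  rw [hermite_succ, Polynomial.map_sub, Polynomial.map_mul, map_X, sub_comp, mul_comp, X_comp,
    derivative_comp, derivative_mul, derivative_C, derivative_X, ← derivative_map]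
  have : (C (Real.sqrt 2) : ℝ[X]) * C (Real.sqrt 2) = 2 := by
    rw [← C_mul, Real.mul_self_sqrt (by norm_num)]; exact map_ofNat C 2
  linear_combination (X * ((hermite n).map (Int.castRingHom ℝ)).comp (C (Real.sqrt 2) * X)) * this

theorem sqrt2_ne : (C (Real.sqrt 2) : ℝ[X]) ≠ 0 := by
  rw [ne_eq, C_eq_zero]; positivity

theorem hh_natDegree (n : ℕ) : (hh n).natDegree = n := by
  unfold hh
  rw [natDegree_comp, natDegree_C_mul_X _ (by positivity), mul_one,
    natDegree_map_eq_of_injective (by exact Int.cast_injective), natDegree_hermite]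

theorem TT_hh (γ : ℕ → ℝ) (n : ℕ) : ∀ (N : ℕ) (_ : n < N) (P : ℝ[X]),
    TT γ (N + 1) P (hh n) = C (L γ (X ^ n * P)) * hh n := by
  induction n with
  | zero =>
    intro N _ P
    rw [hh_zero, pow_zero, one_mul, mul_one]
    unfold TT
    rw [Finset.sum_range_succ']
    simp [Qh]
  | succ n ih =>
    intro N hN P
    apply mul_left_cancel₀ sqrt2_ne
    rw [← TT_C_mul, hh_succ, TT_A γ P (hh n) N (by rw [hh_natDegree]; omega), ih N (by omega)]
    have : X ^ n * (X * P) = X ^ (n + 1) * P := by ring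
    rw [this, derivative_mul, derivative_C]
    linear_combination (-(C (L γ (X ^ (n + 1) * P)))) * hh_succ n

/-- Hermite polynomials span: two linear maps agreeing on them agree. -/
theorem ext_hh {S S' : ℝ[X] → ℝ[X]} (hS : ∀ p q, S (p + q) = S p + S q)
    (hS' : ∀ p q, S' (p + q) = S' p + S' q)
    (hc : ∀ (c : ℝ) p, S (C c * p) = C c * S p) (hc' : ∀ (c : ℝ) p, S' (C c * p) = C c * S' p)
    (N : ℕ) (h : ∀ n ≤ N, S (hh n) = S' (hh n)) :
    ∀ p : ℝ[X], p.natDegree ≤ N → S p = S' p := by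
  have key : ∀ n : ℕ, n ≤ N → ∀ p : ℝ[X], p.natDegree ≤ n → S p = S' p := by
    intro n
    induction n with
    | zero =>
      intro hn p hp
      obtain ⟨c, rfl⟩ : ∃ c : ℝ, p = C c :=
        ⟨_, eq_C_of_natDegree_eq_zero (by omega)⟩
      have h0 := h 0 hn
      rw [hh_zero] at h0
      have e : (C c : ℝ[X]) = C c * 1 := by ring
      rw [e, hc, hc', h0]
    | succ n ih =>
      intro hn p hp
      have hd := hh_natDegree (n + 1)
      have hlc : (hh (n + 1)).coeff (n + 1) ≠ 0 := by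
        have : (hh (n + 1)).leadingCoeff ≠ 0 := by
          rw [leadingCoeff_ne_zero]
          intro h0
          rw [h0] at hd
          simp at hd
        rwa [leadingCoeff, hd] at this
      set c : ℝ := p.coeff (n + 1) / (hh (n + 1)).coeff (n + 1) with hcdef
      have hp' : (p - C c * hh (n + 1)).natDegree ≤ n := by
        rw [natDegree_le_iff_coeff_eq_zero]
        intro i hi
        rw [coeff_sub, coeff_C_mul]
        rcases Nat.lt_or_ge (n + 1) i with h1 | h1
        · rw [coeff_eq_zero_of_natDegree_lt (by omega), coeff_eq_zero_of_natDegree_lt (by omega)]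
          ring
        · have : i = n + 1 := by omega
          subst this
          rw [hcdef]
          field_simp
          ring
      have e : p = (p - C c * hh (n + 1)) + C c * hh (n + 1) := by ring
      rw [e, hS, hS', hc, hc', h _ hn, ih (by omega) _ hp']
  exact key N le_rfl

theorem TT_indep (γ : ℕ → ℝ) (N M : ℕ) (P p : ℝ[X]) (hN : p.natDegree < N) (hNM : N ≤ M) :
    TT γ M P p = TT γ N P p := by
  unfold TT
  symm
  apply Finset.sum_subset
  · intro k hk
    simp only [Finset.mem_range] at *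
    omega
  · intro k _ hk
    simp only [Finset.mem_range, not_lt] at hk
    rw [iterate_derivative_eq_zero (by omega), mul_zero]

/-- The coefficient polynomials are the `Qh`. -/
theorem Q_eq (T : ℝ[X] →ₗ[ℝ] ℝ[X]) (γ : ℕ → ℝ) (Q : ℕ → ℝ[X])
    (hT : ∀ n : ℕ, T (hh n) = γ n • hh n)
    (hQ : ∀ p : ℝ[X], T p = ∑ k ∈ Finset.range (p.natDegree + 1), Q k * (⇑derivative)^[k] p) :
    ∀ k, Q k = Qh γ k 1 := by
  have hTT : ∀ p : ℝ[X], T p = TT γ (p.natDegree + 1) 1 p := by
    intro p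
    have h1 := ext_hh (S := T) (S' := TT γ (p.natDegree + 2) 1) (by intro p q; exact map_add T p q)
      (TT_add γ _ 1) (by intro c p; rw [← smul_eq_C_mul, map_smul, smul_eq_C_mul])
      (by intro c p; exact TT_C_mul γ _ 1 p c) p.natDegree (by
        intro n hn
        rw [hT, TT_hh γ n (p.natDegree + 1) (by omega), mul_one, L_X_pow, smul_eq_C_mul]) p le_rfl
    rw [h1]
    exact TT_indep γ _ _ _ _ (by omega) (by omega)
  intro k
  induction k using Nat.strong_induction_on with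
  | _ k ih =>
    have h1 := hTT (X ^ k)
    rw [hQ (X ^ k), natDegree_X_pow] at h1
    unfold TT at h1
    rw [Finset.sum_range_succ, Finset.sum_range_succ] at h1
    have h2 : ∑ j ∈ Finset.range k, Q j * (⇑derivative)^[j] (X ^ k : ℝ[X]) =
        ∑ j ∈ Finset.range k, Qh γ j 1 * (⇑derivative)^[j] (X ^ k : ℝ[X]) := by
      refine Finset.sum_congr rfl fun j hj => ?_
      rw [ih j (Finset.mem_range.mp hj)]
    rw [h2] at h1
    have h3 := add_left_cancel h1
    rw [iterate_derivative_X_pow_eq_smul, Nat.descFactorial_self, Nat.sub_self, pow_zero,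
      smul_eq_C_mul, mul_one] at h3
    have h4 : (C ((k.factorial : ℕ) : ℝ) : ℝ[X]) ≠ 0 := by
      rw [ne_eq, C_eq_zero]
      exact_mod_cast Nat.factorial_ne_zero k
    exact mul_right_cancel₀ h4 h3

end Pool.Agent.H415R3.FP
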