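import Mathlib
import Pool.Agent.H415R3.HermQ

set_option autoImplicit false

namespace Pool.Agent.H415R3.FP

open Polynomial

/-- weights -/
noncomputable def ww (a l : ℕ) : ℝ := (-1 / 4) ^ l / ((l.factorial : ℝ) * (a.factorial : ℝ))

theorem ww_succ_left (a l : ℕ) : ww a l = (a + 1) * ww (a + 1) l := by
  unfold ww
  rw [Nat.factorial_succ]
  have h1 : ((a.factorial : ℕ) : ℝ) ≠ 0 := by exact_mod_cast Nat.factorial_ne_zero a
  have h2 : ((l.factorial : ℕ) : ℝ) ≠ 0 := by exact_mod_cast Nat.factorial_ne_zero l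
  have h3 : ((a : ℝ) + 1) ≠ 0 := by positivity
  push_cast
  field_simp

theorem ww_succ_right (a l : ℕ) : ww a l = -4 * (l + 1) * ww a (l + 1) := by
  unfold ww
  rw [Nat.factorial_succ]
  have h1 : ((a.factorial : ℕ) : ℝ) ≠ 0 := by exact_mod_cast Nat.factorial_ne_zero a
  have h2 : ((l.factorial : ℕ) : ℝ) ≠ 0 := by exact_mod_cast Nat.factorial_ne_zero l
  have h3 : ((l : ℝ) + 1) ≠ 0 := by positivity
  push_cast
  rw [pow_succ]
  field_simp

theorem Qh_coeff (γ : ℕ → ℝ) (k : ℕ) : ∀ P : ℝ[X],
    (∀ a l : ℕ, a + 2 * l = k → (Qh γ k P).coeff a = ww a l * L γ ((X - 1) ^ a * (X ^ 2 - 1) ^ l * P))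
    ∧ (∀ a : ℕ, (∀ l : ℕ, a + 2 * l ≠ k) → (Qh γ k P).coeff a = 0) := by
  induction k using Nat.twoStepInduction with
  | zero =>
    intro P
    constructor
    · intro a l h
      have ha : a = 0 := by omega
      have hl : l = 0 := by omega
      subst ha hl
      simp [Qh, ww]
    · intro a h
      have ha : a ≠ 0 := by
        rintro rfl
        exact h 0 rfl
      simp [Qh, coeff_C, ha]
  | one =>
    intro P
    constructor
    · intro a l h
      have hl : l = 0 := by omega
      have ha : a = 1 := by omega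
      subst ha hl
      simp [Qh, ww]
    · intro a h
      have ha : a ≠ 1 := by
        rintro rfl
        exact h 0 rfl
      simp only [Qh, coeff_C_mul, coeff_X]
      rw [if_neg (fun h => ha h.symm), mul_zero]
  | more k ih0 ih1 =>
    intro P
    obtain ⟨i0, j0⟩ := ih0 ((X ^ 2 - 1) * P)
    obtain ⟨i1, j1⟩ := ih1 ((X - 1) * P)
    have hk : ((k : ℝ) + 2) ≠ 0 := by positivity
    constructor
    · intro a l h
      rw [Qh_rec, coeff_C_mul, coeff_sub, coeff_C_mul]
      cases a with
      | zero =>
        obtain ⟨l', rfl⟩ : ∃ l', l = l' + 1 := ⟨l - 1, by omega⟩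
        have hk' : k = 2 * l' := by omega
        rw [i0 0 l' (by omega), ww_succ_right 0 l']
        have e : (X - 1 : ℝ[X]) ^ 0 * (X ^ 2 - 1) ^ l' * ((X ^ 2 - 1) * P) =
          (X - 1) ^ 0 * (X ^ 2 - 1) ^ (l' + 1) * P := by ring
        rw [e]
        simp only [mul_coeff_zero, coeff_X_zero, zero_mul, zero_sub]
        have hkr : (k : ℝ) = 2 * l' := by exact_mod_cast hk'
        rw [hkr]
        have : (2 * (l' : ℝ) + 2) ≠ 0 := by positivity
        field_simp
        ring
      | succ a =>
        rw [coeff_X_mul, i1 a l (by omega), ww_succ_left a l]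
        have e1 : (X - 1 : ℝ[X]) ^ a * (X ^ 2 - 1) ^ l * ((X - 1) * P) =
          (X - 1) ^ (a + 1) * (X ^ 2 - 1) ^ l * P := by ring
        rw [e1]
        cases l with
        | zero =>
          rw [j0 (a + 1) (by intro l'; omega)]
          have hkr : (k : ℝ) + 2 = a + 1 := by
            have : k + 2 = a + 1 := by omega
            exact_mod_cast this
          rw [hkr] at hk ⊢
          field_simp
          ring
        | succ l =>
          rw [i0 (a + 1) l (by omega), ww_succ_right (a + 1) l]
          have e2 : (X - 1 : ℝ[X]) ^ (a + 1) * (X ^ 2 - 1) ^ l * ((X ^ 2 - 1) * P) =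
            (X - 1) ^ (a + 1) * (X ^ 2 - 1) ^ (l + 1) * P := by ring
          rw [e2]
          have hkr : (k : ℝ) + 2 = a + 1 + 2 * (l + 1) := by
            have : k + 2 = a + 1 + 2 * (l + 1) := by omega
            exact_mod_cast this
          rw [hkr] at hk ⊢
          field_simp
          ring
    · intro a h
      rw [Qh_rec, coeff_C_mul, coeff_sub, coeff_C_mul]
      cases a with
      | zero =>
        rw [j0 0 (by intro l hl; exact h (l + 1) (by omega))]
        simp
      | succ a =>
        rw [coeff_X_mul, j1 a (by intro l hl; exact h l (by omega)),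
          j0 (a + 1) (by intro l hl; exact h (l + 1) (by omega))]
        simp

theorem Qh_expand (γ : ℕ → ℝ) (d e : ℕ) :
    Qh γ (e + 2 * d) 1 = ∑ j ∈ Finset.range (d + 1),
      C ((Qh γ (e + 2 * d) 1).coeff (e + 2 * j)) * X ^ (e + 2 * j) ∨ 2 ≤ e := by
  by_cases he : 2 ≤ e
  · right; exact he
  left
  ext a
  rw [finsetSum_coeff]
  simp only [coeff_C_mul, coeff_X_pow]
  by_cases h : ∃ j, j < d + 1 ∧ a = e + 2 * j
  · obtain ⟨j, hj, rfl⟩ := h
    rw [Finset.sum_eq_single j]
    · simp
    · intro b _ hb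
      rw [if_neg (by omega), mul_zero]
    · intro hb
      exact absurd (Finset.mem_range.mpr hj) hb
  · rw [(Qh_coeff γ (e + 2 * d) 1).2 a, Finset.sum_eq_zero]
    · intro j hj
      rw [if_neg, mul_zero]
      intro hh
      exact h ⟨j, Finset.mem_range.mp hj, hh⟩
    · intro l hl
      apply h
      refine ⟨d - l, by omega, by omega⟩

/-- The sign condition coming from real-rootedness of `Q_k`. -/
theorem sign_cond (γ : ℕ → ℝ) (k : ℕ)
    (h : Qh γ k 1 = 0 ∨ ∀ z : ℂ, aeval z (Qh γ k 1) = 0 → z.im = 0) :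
    (∀ a l : ℕ, a + 2 * l = k → 0 ≤ L γ ((X - 1) ^ a * (X ^ 2 - 1) ^ l)) ∨
    (∀ a l : ℕ, a + 2 * l = k → L γ ((X - 1) ^ a * (X ^ 2 - 1) ^ l) ≤ 0) := by
  have hco := (Qh_coeff γ k 1).1
  rcases h with h | h
  · left
    intro a l hal
    have h1 := hco a l hal
    rw [h, coeff_zero, mul_one] at h1
    have hw : ww a l ≠ 0 := by
      unfold ww
      have h1 : ((a.factorial : ℕ) : ℝ) ≠ 0 := by exact_mod_cast Nat.factorial_ne_zero a
      have h2 : ((l.factorial : ℕ) : ℝ) ≠ 0 := by exact_mod_cast Nat.factorial_ne_zero l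
      apply div_ne_zero
      · apply pow_ne_zero; norm_num
      · exact mul_ne_zero h2 h1
    rcases mul_eq_zero.mp h1.symm with h2 | h2
    · exact absurd h2 hw
    · rw [h2]
  · obtain ⟨e, d, hk, he⟩ : ∃ e d, k = e + 2 * d ∧ e < 2 := ⟨k % 2, k / 2, by omega, by omega⟩
    have hexp := (Qh_expand γ d e).resolve_right (by omega)
    rw [← hk] at hexp
    set Q := Qh γ k 1 with hQ
    set V : ℝ[X] := ∑ j ∈ Finset.range (d + 1), C ((-1) ^ (d - j) * Q.coeff (e + 2 * j)) * X ^ j with hV
    have hroots : ∀ z : ℂ, aeval z V = 0 → z.im = 0 ∧ z.re ≤ 0 := by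
      intro z hz
      obtain ⟨w, hw⟩ := IsAlgClosed.exists_pow_nat_eq (-z) (n := 2) (by norm_num)
      have h1 : aeval w Q = (-1) ^ d * w ^ e * aeval z V := by
        rw [hexp, hV, map_sum, map_sum, Finset.mul_sum]
        refine Finset.sum_congr rfl fun j hj => ?_
        have hj' : j ≤ d := by
          have := Finset.mem_range.mp hj; omega
        simp only [map_mul, aeval_C, map_pow, aeval_X, Complex.coe_algebraMap]
        rw [pow_add, pow_mul, hw]
        push_cast
        have e1 : (-1 : ℂ) ^ d * (-1) ^ (d - j) = (-1) ^ j := by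
          rw [← pow_add]
          have : d + (d - j) = j + 2 * (d - j) := by omega
          rw [this, pow_add, pow_mul]
          norm_num
        rw [neg_pow z j]
        linear_combination (-(Q.coeff (e + 2 * j) : ℂ) * w ^ e * z ^ j) * e1
      have hwim := h w (by rw [h1, hz, mul_zero])
      have hwr : w = ((w.re : ℝ) : ℂ) := by apply Complex.ext <;> simp [hwim]
      have hz' : z = ((-(w.re ^ 2) : ℝ) : ℂ) := by
        have : z = -(w ^ 2) := by rw [hw]; ring
        rw [this, hwr]
        push_cast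
        simp
      rw [hz']
      constructor
      · exact Complex.ofReal_im _
      · rw [Complex.ofReal_re]
        have := sq_nonneg w.re
        linarith
    have hVc : ∀ j, j ≤ d → V.coeff j = (-1) ^ (d - j) * Q.coeff (e + 2 * j) := by
      intro j hj
      rw [hV, finsetSum_coeff]
      simp only [coeff_C_mul, coeff_X_pow]
      rw [Finset.sum_eq_single j]
      · simp
      · intro b _ hb
        rw [if_neg (by omega), mul_zero]
      · intro hb
        exact absurd (Finset.mem_range.mpr (by omega)) hb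
    have hpos : ∀ a l : ℕ, a + 2 * l = k → ∃ c : ℝ, 0 < c ∧
        V.coeff (d - l) = c * L γ ((X - 1) ^ a * (X ^ 2 - 1) ^ l) := by
      intro a l hal
      have h1 := hco a l hal
      rw [mul_one] at h1
      have ha : a = e + 2 * (d - l) := by omega
      refine ⟨(1 / 4) ^ l / ((l.factorial : ℝ) * (a.factorial : ℝ)), by positivity, ?_⟩
      rw [hVc (d - l) (by omega), ← ha, h1]
      have : d - (d - l) = l := by omega
      rw [this]
      unfold ww
      have e1 : ((-1 : ℝ)) ^ l * (-1 / 4) ^ l = (1 / 4) ^ l := by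
        rw [← mul_pow]; norm_num
      calc (-1 : ℝ) ^ l * ((-1 / 4) ^ l / ((l.factorial : ℝ) * (a.factorial : ℝ)) *
            L γ ((X - 1) ^ a * (X ^ 2 - 1) ^ l))
          = ((-1 : ℝ)) ^ l * (-1 / 4) ^ l / ((l.factorial : ℝ) * (a.factorial : ℝ)) *
            L γ ((X - 1) ^ a * (X ^ 2 - 1) ^ l) := by ring
        _ = _ := by rw [e1]
    rcases coeff_same_sign V.natDegree V rfl hroots with hs | hs
    · left
      intro a l hal
      obtain ⟨c, hc, hc'⟩ := hpos a l hal
      have := hs (d - l)
      rw [hc'] at this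
      exact nonneg_of_mul_nonneg_right this hc
    · right
      intro a l hal
      obtain ⟨c, hc, hc'⟩ := hpos a l hal
      have := hs (d - l)
      rw [hc'] at this
      by_contra hcon
      push Not at hcon
      have := mul_pos hc hcon
      linarith

end Pool.Agent.H415R3.FP
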