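import Mathlib
import Pool.Agent.H415R3.HermSign

set_option autoImplicit false

/-! Polar derivatives of real-rooted polynomials. -/

namespace Pool.Agent.H415R3.FP

open Polynomial

theorem logderiv_real (s : Multiset ℝ) (z : ℂ) (hz : z.im ≠ 0) :
    aeval z (derivative (s.map fun r => (X - C r : ℝ[X])).prod) =
      aeval z (s.map fun r => (X - C r : ℝ[X])).prod * (s.map fun r : ℝ => (z - (r : ℂ))⁻¹).sum := by
  induction s using Multiset.induction_on with
  | empty => simp
  | cons a s ih =>
    rw [Multiset.map_cons, Multiset.prod_cons, Multiset.map_cons, Multiset.sum_cons,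
      derivative_mul, map_add, map_mul, map_mul, ih]
    have hza : z - (a : ℂ) ≠ 0 := by
      intro h
      have := congrArg Complex.im h
      simp at this
      exact hz this
    have h1 : aeval z (derivative (X - C a : ℝ[X])) = 1 := by simp
    have h2 : aeval z (X - C a : ℝ[X]) = z - (a : ℂ) := by simp
    rw [h1, map_mul, h2]
    field_simp

theorem aeval_prod_ne_zero (s : Multiset ℝ) (z : ℂ) (hz : z.im ≠ 0) :
    aeval z (s.map fun r => (X - C r : ℝ[X])).prod ≠ 0 := by
  induction s using Multiset.induction_on with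
  | empty => simp
  | cons a s ih =>
    rw [Multiset.map_cons, Multiset.prod_cons, map_mul]
    refine mul_ne_zero ?_ ih
    intro h
    have := congrArg Complex.im h
    simp at this
    exact hz this

theorem im_sum (s : Multiset ℝ) (z : ℂ) (ξ : ℝ) (hz : z.im ≠ 0) :
    ((z - (ξ : ℂ)) ^ 2 * (s.map fun r : ℝ => (z - (r : ℂ))⁻¹).sum).im =
      z.im * (s.card - (s.map fun r : ℝ => (r - ξ) ^ 2 / Complex.normSq (z - (r : ℂ))).sum) := by
  induction s using Multiset.induction_on with
  | empty => simp
  | cons a s ih =>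
    rw [Multiset.map_cons, Multiset.sum_cons, mul_add, Complex.add_im, ih, Multiset.map_cons,
      Multiset.sum_cons, Multiset.card_cons]
    have hza : z - (a : ℂ) ≠ 0 := by
      intro h
      have := congrArg Complex.im h
      simp at this
      exact hz this
    have h1 : (z - (ξ : ℂ)) ^ 2 * (z - (a : ℂ))⁻¹ =
        (z - ξ) + ((a - ξ : ℝ) : ℂ) + (((a - ξ) ^ 2 : ℝ) : ℂ) * (z - (a : ℂ))⁻¹ := by
      push_cast
      field_simp
      ring
    rw [h1, Complex.add_im, Complex.add_im, Complex.ofReal_im, Complex.sub_im, Complex.ofReal_im,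
      Complex.im_ofReal_mul, Complex.inv_im, Complex.sub_im, Complex.ofReal_im]
    push_cast
    ring

theorem polar {P : ℝ[X]} (n : ℕ) (hd : P.natDegree ≤ n + 1) (hP : P ≠ 0) (h : NV P) (ξ : ℝ) :
    RR (C (n + 1 : ℝ) * P + (C ξ - X) * derivative P) := by
  obtain ⟨s, hs, hPs⟩ := NV_prod P.natDegree P rfl hP h
  set lc := P.leadingCoeff with hlc
  have hlc0 : lc ≠ 0 := leadingCoeff_ne_zero.mpr hP
  by_cases hR : C (n + 1 : ℝ) * P + (C ξ - X) * derivative P = 0
  · left; exact hR
  right
  intro z hz
  by_contra him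
  apply hR
  have hz1 : z - (ξ : ℂ) ≠ 0 := by
    intro h
    have := congrArg Complex.im h
    simp at this
    exact him this
  have hder : derivative P = C lc * derivative (s.map fun r => (X - C r : ℝ[X])).prod := by
    conv_lhs => rw [hPs]
    rw [derivative_mul, derivative_C, zero_mul, zero_add]
  set pr := (s.map fun r => (X - C r : ℝ[X])).prod with hpr
  have hpz : aeval z pr ≠ 0 := aeval_prod_ne_zero s z him
  set SS : ℂ := (s.map fun r : ℝ => (z - (r : ℂ))⁻¹).sum with hSS
  have h1 : aeval z (derivative pr) = aeval z pr * SS := logderiv_real s z him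
  have h2 : ((n : ℂ) + 1) + ((ξ : ℂ) - z) * SS = 0 := by
    have e : aeval z (C (n + 1 : ℝ) * P + (C ξ - X) * derivative P) =
        (lc : ℂ) * aeval z pr * (((n : ℂ) + 1) + ((ξ : ℂ) - z) * SS) := by
      rw [hder]
      conv_lhs => rw [hPs]
      simp only [map_add, map_mul, map_sub, aeval_C, aeval_X, Complex.coe_algebraMap, h1]
      push_cast
      ring
    rw [e] at hz
    rcases mul_eq_zero.mp hz with h3 | h3
    · rcases mul_eq_zero.mp h3 with h4 | h4
      · exact absurd (by exact_mod_cast h4) hlc0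
      · exact absurd h4 hpz
    · exact h3
  have h3 : ((n : ℂ) + 1) * (z - ξ) = (z - (ξ : ℂ)) ^ 2 * SS := by
    linear_combination (z - (ξ : ℂ)) * h2
  have h4 := congrArg Complex.im h3
  rw [im_sum s z ξ him] at h4
  have h5 : (((n : ℂ) + 1) * (z - ξ)).im = (n + 1 : ℝ) * z.im := by
    have : ((n : ℂ) + 1) = (((n : ℝ) + 1 : ℝ) : ℂ) := by push_cast; ring
    rw [this, Complex.im_ofReal_mul, Complex.sub_im, Complex.ofReal_im, sub_zero]
  rw [h5] at h4
  set S := (s.map fun r : ℝ => (r - ξ) ^ 2 / Complex.normSq (z - (r : ℂ))).sum with hS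
  have hterm : ∀ x ∈ (s.map fun r : ℝ => (r - ξ) ^ 2 / Complex.normSq (z - (r : ℂ))), 0 ≤ x := by
    intro x hx
    obtain ⟨r, _, rfl⟩ := Multiset.mem_map.mp hx
    exact div_nonneg (sq_nonneg _) (Complex.normSq_nonneg _)
  have hS0 : 0 ≤ S := Multiset.sum_nonneg hterm
  have h6 : ((n : ℝ) + 1) = s.card - S := by
    have : z.im * (((n : ℝ) + 1) - (s.card - S)) = 0 := by linear_combination h4
    rcases mul_eq_zero.mp this with h7 | h7
    · exact absurd h7 him
    · linarith
  have hcard : (s.card : ℝ) ≤ n + 1 := by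
    have : s.card ≤ n + 1 := by omega
    exact_mod_cast this
  have hSz : S = 0 := by linarith
  have hcn : s.card = n + 1 := by
    have : (s.card : ℝ) = n + 1 := by linarith
    exact_mod_cast this
  have hall : ∀ r ∈ s, r = ξ := by
    intro r hr
    have h8 : (r - ξ) ^ 2 / Complex.normSq (z - (r : ℂ)) ≤ S :=
      Multiset.single_le_sum hterm _ (Multiset.mem_map_of_mem _ hr)
    have h9 : (r - ξ) ^ 2 / Complex.normSq (z - (r : ℂ)) = 0 :=
      le_antisymm (by rw [← hSz]; exact h8) (hterm _ (Multiset.mem_map_of_mem _ hr))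
    have hne : Complex.normSq (z - (r : ℂ)) ≠ 0 := by
      rw [ne_eq, Complex.normSq_eq_zero]
      intro h
      have := congrArg Complex.im h
      simp at this
      exact him this
    rcases div_eq_zero_iff.mp h9 with h10 | h10
    · have := pow_eq_zero_iff (two_ne_zero) |>.mp h10
      linarith
    · exact absurd h10 hne
  have hrep : s = Multiset.replicate (n + 1) ξ := by
    rw [← hcn]; exact Multiset.eq_replicate_card.mpr hall
  have hpr2 : pr = (X - C ξ) ^ (n + 1) := by
    rw [hpr, hrep, Multiset.map_replicate, Multiset.prod_replicate]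
  rw [hder, hpr2]
  conv_lhs => rw [hPs, hpr2]
  rw [derivative_X_sub_C_pow]
  simp only [Nat.add_sub_cancel]
  push_cast
  simp only [C_add, C_1]
  ring

end Pool.Agent.H415R3.FP
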