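import Mathlib
import Pool.Agent.H415R3.RR2

set_option autoImplicit false

/-! Multiplier sequences: the functional calculus `F γ K n (z) = L γ (K (X+z)^n)`. -/

namespace Pool.Agent.H415R3.FP

open Polynomial

theorem prod_coeff_top (s : Multiset ℝ) : (s.map fun r => (X - C r : ℝ[X])).prod.coeff s.card = 1 := by
  have h1 : (s.map fun r => (X - C r : ℝ[X])).prod.Monic := monic_multiset_prod_of_monic _ _
    (fun r _ => monic_X_sub_C r)
  have h2 : (s.map fun r => (X - C r : ℝ[X])).prod.natDegree = s.card := by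
    rw [natDegree_multiset_prod_X_sub_C_eq_card]
  rw [← h2]
  exact h1

theorem vieta1 (s : Multiset ℝ) : ∀ n, s.card = n + 1 →
    (s.map fun r => (X - C r : ℝ[X])).prod.coeff n = -s.sum := by
  induction s using Multiset.induction_on with
  | empty => intro n hn; simp at hn
  | cons a s ih =>
    intro n hn
    rw [Multiset.card_cons] at hn
    rw [Multiset.map_cons, Multiset.prod_cons, sub_mul, coeff_sub, coeff_C_mul, Multiset.sum_cons]
    have hsn : s.card = n := by omega
    have h1 := prod_coeff_top s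
    rw [hsn] at h1
    rw [h1]
    cases n with
    | zero =>
      have : s = 0 := Multiset.card_eq_zero.mp hsn
      subst this
      simp
    | succ n =>
      rw [coeff_X_mul, ih n hsn]
      ring

theorem vieta2 (s : Multiset ℝ) : ∀ n, s.card = n + 2 →
    (s.map fun r => (X - C r : ℝ[X])).prod.coeff n =
      (s.sum ^ 2 - (s.map fun r => r ^ 2).sum) / 2 := by
  induction s using Multiset.induction_on with
  | empty => intro n hn; simp at hn
  | cons a s ih =>
    intro n hn
    rw [Multiset.card_cons] at hn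
    rw [Multiset.map_cons, Multiset.prod_cons, sub_mul, coeff_sub, coeff_C_mul, Multiset.sum_cons,
      Multiset.map_cons, Multiset.sum_cons]
    have hsn : s.card = n + 1 := by omega
    rw [vieta1 s n hsn]
    cases n with
    | zero =>
      obtain ⟨b, rfl⟩ := Multiset.card_eq_one.mp hsn
      simp
      ring
    | succ n =>
      rw [coeff_X_mul, ih n hsn]
      ring

noncomputable def F (γ : ℕ → ℝ) (K : ℝ[X]) (n : ℕ) : ℝ[X] :=
  ∑ j ∈ Finset.range (n + 1), C ((n.choose j : ℝ) * L γ (K * X ^ (n - j))) * X ^ j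

theorem F_coeff (γ : ℕ → ℝ) (K : ℝ[X]) (n j : ℕ) (hj : j ≤ n) :
    (F γ K n).coeff j = (n.choose j : ℝ) * L γ (K * X ^ (n - j)) := by
  unfold F
  rw [finsetSum_coeff]
  simp only [coeff_C_mul, coeff_X_pow]
  rw [Finset.sum_eq_single j]
  · simp
  · intro b _ hb
    rw [if_neg (by omega), mul_zero]
  · intro hb
    exact absurd (Finset.mem_range.mpr (by omega)) hb

theorem F_natDegree (γ : ℕ → ℝ) (K : ℝ[X]) (n : ℕ) : (F γ K n).natDegree ≤ n := by
  unfold F
  apply natDegree_sum_le_of_forall_le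
  intro j hj
  refine (natDegree_C_mul_X_pow_le _ _).trans ?_
  have := Finset.mem_range.mp hj
  omega

theorem F_coeff_gt (γ : ℕ → ℝ) (K : ℝ[X]) (n j : ℕ) (hj : n < j) :
    (F γ K n).coeff j = 0 :=
  coeff_eq_zero_of_natDegree_lt ((F_natDegree γ K n).trans_lt hj)

theorem F_eval (γ : ℕ → ℝ) (K : ℝ[X]) (n : ℕ) (z : ℝ) :
    (F γ K n).eval z = L γ (K * (X + C z) ^ n) := by
  unfold F
  rw [add_comm X (C z), add_pow, Finset.mul_sum, map_sum, eval_finsetSum]
  refine Finset.sum_congr rfl fun j _ => ?_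
  have : K * (C z ^ j * X ^ (n - j) * (n.choose j : ℝ[X])) =
      C ((n.choose j : ℝ) * z ^ j) * (K * X ^ (n - j)) := by
    rw [C_mul, C_pow, C_eq_natCast]
    ring
  rw [this, L_C_mul]
  simp
  ring

theorem F_deriv (γ : ℕ → ℝ) (K : ℝ[X]) (n : ℕ) :
    derivative (F γ K (n + 1)) = C (n + 1 : ℝ) * F γ K n := by
  ext j
  rw [coeff_derivative, coeff_C_mul]
  rcases Nat.lt_or_ge n j with h | h
  · rw [F_coeff_gt _ _ _ _ (by omega), F_coeff_gt _ _ _ _ h]; ring
  · rw [F_coeff _ _ _ _ (by omega), F_coeff _ _ _ _ h]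
    have e : n + 1 - (j + 1) = n - j := by omega
    rw [e]
    have h2 : ((n + 1).choose (j + 1) : ℝ) * (j + 1) = (n + 1) * (n.choose j : ℝ) := by
      have := Nat.add_one_mul_choose_eq n j
      have h3 : ((n + 1 : ℕ) : ℝ) * (n.choose j : ℝ) = ((n + 1).choose (j + 1) : ℝ) * ((j + 1 : ℕ) : ℝ) := by
        exact_mod_cast this
      push_cast at h3
      linarith
    linear_combination (L γ (K * X ^ (n - j))) * h2

theorem F_mul (γ : ℕ → ℝ) (K : ℝ[X]) (n : ℕ) (ξ : ℝ) :
    F γ (K * (X + C ξ)) n = F γ K (n + 1) + (C ξ - X) * F γ K n := by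
  apply Polynomial.funext
  intro z
  rw [eval_add, eval_mul, F_eval, F_eval, F_eval]
  have e : K * (X + C ξ) * (X + C z) ^ n =
      K * (X + C z) ^ (n + 1) + C (ξ - z) * (K * (X + C z) ^ n) := by
    rw [C_sub]; ring
  rw [e, map_add, L_C_mul]
  simp

theorem RR_C_mul {c : ℝ} (hc : c ≠ 0) {p : ℝ[X]} (h : RR (C c * p)) : RR p := by
  rcases h with h | h
  · left
    rcases mul_eq_zero.mp h with h1 | h1
    · exact absurd (C_eq_zero.mp h1) hc
    · exact h1
  · right
    intro z hz
    exact h z (by rw [map_mul, hz, mul_zero])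

/-- all the `F γ K n` are real-rooted -/
def G (γ : ℕ → ℝ) (K : ℝ[X]) : Prop := ∀ n, RR (F γ K n)

theorem G_mul {γ : ℕ → ℝ} {K : ℝ[X]} (h : G γ K) (ξ : ℝ) : G γ (K * (X + C ξ)) := by
  intro n
  rw [F_mul]
  have hn : ((n : ℝ) + 1) ≠ 0 := by positivity
  by_cases h0 : F γ K (n + 1) = 0
  · have h1 := F_deriv γ K n
    rw [h0, derivative_zero] at h1
    rcases mul_eq_zero.mp h1.symm with h2 | h2
    · exact absurd (C_eq_zero.mp h2) hn
    · left; rw [h0, h2]; ring
  · have hNV : NV (F γ K (n + 1)) := (h (n + 1)).resolve_left h0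
    have hp := polar n (F_natDegree γ K (n + 1)) h0 hNV ξ
    rw [F_deriv] at hp
    apply RR_C_mul hn
    have e : C ((n : ℝ) + 1) * (F γ K (n + 1) + (C ξ - X) * F γ K n) =
      C (n + 1 : ℝ) * F γ K (n + 1) + (C ξ - X) * (C (n + 1 : ℝ) * F γ K n) := by ring
    rw [e]
    exact hp

theorem G_mul_X {γ : ℕ → ℝ} {K : ℝ[X]} (h : G γ K) : G γ (K * X) := by
  have := G_mul h 0
  simpa using this

theorem G_mul_X_pow {γ : ℕ → ℝ} {K : ℝ[X]} (h : G γ K) (m : ℕ) : G γ (K * X ^ m) := by
  induction m with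
  | zero => simpa using h
  | succ m ih =>
    rw [pow_succ, ← mul_assoc]
    exact G_mul_X ih

theorem G_mul_pow {γ : ℕ → ℝ} {K : ℝ[X]} (h : G γ K) (ξ : ℝ) (m : ℕ) : G γ (K * (X + C ξ) ^ m) := by
  induction m with
  | zero => simpa using h
  | succ m ih =>
    rw [pow_succ, ← mul_assoc]
    exact G_mul ih ξ

/-- discriminant -/
theorem quad_disc {a b c : ℝ} {p : ℝ[X]} (hp : p = C a * X ^ 2 + C (2 * b) * X + C c) (h : RR p) :
    a * c ≤ b ^ 2 := by
  by_contra hcon
  push Not at hcon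
  have ha : a ≠ 0 := by
    rintro rfl
    nlinarith [sq_nonneg b]
  have hD : 0 < a * c - b ^ 2 := by linarith
  set D := Real.sqrt (a * c - b ^ 2) with hDdef
  have hD0 : 0 < D := Real.sqrt_pos.mpr hD
  have hD2 : D ^ 2 = a * c - b ^ 2 := Real.sq_sqrt hD.le
  have hp0 : p ≠ 0 := by
    intro h0
    have : p.coeff 2 = a := by rw [hp]; simp
    rw [h0] at this
    simp at this
    exact ha this.symm
  have hNV := h.resolve_left hp0
  set z : ℂ := (-(b : ℂ) + D * Complex.I) / a with hz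
  have hac : (a : ℂ) ≠ 0 := by exact_mod_cast ha
  have hD2c : (D : ℂ) ^ 2 = (a : ℂ) * c - (b : ℂ) ^ 2 := by exact_mod_cast hD2
  have hroot : aeval z p = 0 := by
    rw [hp]
    simp only [map_add, map_mul, aeval_C, aeval_X, map_pow, Complex.coe_algebraMap]
    push_cast
    rw [hz]
    field_simp
    linear_combination (-1 : ℂ) * hD2c + (D : ℂ) ^ 2 * Complex.I_sq
  have him := hNV z hroot
  have : z.im = D / a := by
    have e : z = (((-b / a : ℝ)) : ℂ) + ((D / a : ℝ) : ℂ) * Complex.I := by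
      rw [hz]; push_cast; field_simp
    rw [e]
    simp
  rw [this] at him
  rcases div_eq_zero_iff.mp him with h1 | h1
  · exact hD0.ne' h1
  · exact ha h1

/-- log-concavity -/
theorem G_turan {γ : ℕ → ℝ} {K : ℝ[X]} (h : G γ K) :
    L γ K * L γ (K * X ^ 2) ≤ L γ (K * X) ^ 2 := by
  apply quad_disc (p := F γ K 2) _ (h 2)
  unfold F
  rw [Finset.sum_range_succ, Finset.sum_range_succ, Finset.sum_range_succ, Finset.sum_range_zero]
  simp
  ring

/-- vanishing propagates -/
theorem G_zero {γ : ℕ → ℝ} {K : ℝ[X]} (h : G γ K) (h0 : L γ K ≠ 0) (h1 : L γ (K * X) = 0)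
    (h2 : L γ (K * X ^ 2) = 0) (n : ℕ) (hn : 1 ≤ n) : L γ (K * X ^ n) = 0 := by
  rcases Nat.lt_or_ge n 2 with hn2 | hn2
  · have : n = 1 := by omega
    subst this
    simpa using h1
  obtain ⟨m, rfl⟩ : ∃ m, n = m + 2 := ⟨n - 2, by omega⟩
  set P := F γ K (m + 2) with hP
  have ctop : P.coeff (m + 2) = L γ K := by
    rw [hP, F_coeff _ _ _ _ le_rfl]; simp
  have hP0 : P ≠ 0 := by
    intro hh
    rw [hh] at ctop
    simp at ctop
    exact h0 ctop.symm
  have hdeg : P.natDegree = m + 2 := by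
    apply le_antisymm (F_natDegree _ _ _)
    apply le_natDegree_of_ne_zero
    rw [ctop]; exact h0
  have hNV := (h (m + 2)).resolve_left hP0
  obtain ⟨s, hs, hPs⟩ := NV_prod _ P hdeg hP0 hNV
  have hlc : P.leadingCoeff = L γ K := by rw [leadingCoeff, hdeg, ctop]
  rw [hlc] at hPs
  have c1 : P.coeff (m + 1) = 0 := by
    rw [hP, F_coeff _ _ _ _ (by omega)]
    have : m + 2 - (m + 1) = 1 := by omega
    rw [this, pow_one, h1, mul_zero]
  have c2 : P.coeff m = 0 := by
    rw [hP, F_coeff _ _ _ _ (by omega)]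
    have : m + 2 - m = 2 := by omega
    rw [this, h2, mul_zero]
  rw [hPs, coeff_C_mul, vieta1 s (m + 1) hs] at c1
  rw [hPs, coeff_C_mul, vieta2 s m hs] at c2
  have s1 : s.sum = 0 := by
    rcases mul_eq_zero.mp c1 with h | h
    · exact absurd h h0
    · linarith
  have s2 : (s.map fun r => r ^ 2).sum = 0 := by
    rcases mul_eq_zero.mp c2 with h | h
    · exact absurd h h0
    · rw [s1] at h; linarith
  have hall : ∀ r ∈ s, r = 0 := by
    intro r hr
    have h8 : r ^ 2 ≤ (s.map fun r => r ^ 2).sum :=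
      Multiset.single_le_sum (by
        intro x hx
        obtain ⟨y, _, rfl⟩ := Multiset.mem_map.mp hx
        positivity) _ (Multiset.mem_map_of_mem _ hr)
    rw [s2] at h8
    have : r ^ 2 = 0 := le_antisymm h8 (sq_nonneg _)
    exact pow_eq_zero_iff (two_ne_zero) |>.mp this
  have hrep : s = Multiset.replicate (m + 2) 0 := by
    rw [← hs]; exact Multiset.eq_replicate_card.mpr hall
  have c0 : P.coeff 0 = 0 := by
    rw [hPs, hrep, Multiset.map_replicate, Multiset.prod_replicate]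
    simp
  rw [hP, F_coeff _ _ _ _ (by omega)] at c0
  simpa using c0

end Pool.Agent.H415R3.FP
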