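import Mathlib
import Pool.Agent.H415R3.MSeq

set_option autoImplicit false

/-! Descartes' rule and the variance argument. -/

namespace Pool.Agent.H415R3.FP

open Polynomial

theorem sv_nonneg (n : ℕ) : ∀ P : ℝ[X], P.natDegree = n → (∀ i, 0 ≤ P.coeff i) →
    signVariations P = 0 := by
  induction n using Nat.strong_induction_on with
  | _ n ih =>
    intro P hn h
    by_cases hP : P = 0
    · simp [hP]
    rw [signVariations_eq_eraseLead_add_ite hP]
    have hlead : 0 < P.leadingCoeff := lt_of_le_of_ne (h _) (leadingCoeff_ne_zero.mpr hP).symm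
    have hE : ∀ i, 0 ≤ P.eraseLead.coeff i := by
      intro i
      rw [eraseLead_coeff]
      split_ifs
      · exact le_rfl
      · exact h i
    have h1 : signVariations P.eraseLead = 0 := by
      by_cases hE0 : P.eraseLead = 0
      · simp [hE0]
      · apply ih P.eraseLead.natDegree _ _ rfl hE
        rw [← hn]
        have := eraseLead_natDegree_lt_or_eraseLead_eq_zero P
        rcases this with h | h
        · exact h
        · exact absurd h hE0
    rw [h1, zero_add, if_neg]
    rw [sign_pos hlead]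
    have : 0 ≤ SignType.sign P.eraseLead.leadingCoeff := by
      rw [sign_nonneg_iff]; exact hE _
    intro hcon
    have h2 : SignType.sign P.eraseLead.leadingCoeff = -1 := by
      rw [hcon]; simp
    rw [h2] at this
    exact absurd this (by decide)

theorem sv_le_natDegree (n : ℕ) : ∀ P : ℝ[X], P.natDegree = n → signVariations P ≤ n := by
  induction n using Nat.strong_induction_on with
  | _ n ih =>
    intro P hn
    rcases Nat.eq_zero_or_pos n with h0 | h0
    · subst h0
      obtain ⟨c, rfl⟩ : ∃ c : ℝ, P = C c := ⟨_, eq_C_of_natDegree_eq_zero hn⟩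
      rw [← monomial_zero_left, signVariations_monomial]
    · have h1 := signVariations_le_eraseLead_succ (P := P)
      have h2 := eraseLead_natDegree_le P
      have h3 := ih P.eraseLead.natDegree (by omega) _ rfl
      omega

theorem sv_lower (n : ℕ) : ∀ (P : ℝ[X]) (m : ℕ), P.natDegree = n → (∀ i ≤ m, 0 ≤ P.coeff i) →
    signVariations P ≤ n - m := by
  induction n using Nat.strong_induction_on with
  | _ n ih =>
    intro P m hn h
    rcases Nat.lt_or_ge m n with h0 | h0
    · have h1 := signVariations_le_eraseLead_succ (P := P)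
      have h2 := eraseLead_natDegree_le P
      have h3 := ih P.eraseLead.natDegree (by omega) P.eraseLead m rfl (by
        intro i hi
        rw [eraseLead_coeff]
        split_ifs
        · exact le_rfl
        · exact h i hi)
      omega
    · rw [sv_nonneg n P hn]
      · exact Nat.zero_le _
      · intro i
        rcases Nat.lt_or_ge m i with h1 | h1
        · rw [coeff_eq_zero_of_natDegree_lt (by omega)]
        · exact h i h1

theorem sv_upper (n : ℕ) : ∀ (P : ℝ[X]) (u : ℕ), P.natDegree = n → (∀ i, u ≤ i → 0 ≤ P.coeff i) →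
    signVariations P ≤ u := by
  induction n using Nat.strong_induction_on with
  | _ n ih =>
    intro P u hn h
    rcases Nat.lt_or_ge u n with h0 | h0
    · have hP : P ≠ 0 := by
        rintro rfl
        simp at hn
        omega
      have hlead : 0 < P.leadingCoeff :=
        lt_of_le_of_ne (h _ (by omega)) (leadingCoeff_ne_zero.mpr hP).symm
      have h2 := eraseLead_natDegree_le P
      rcases Nat.lt_or_ge P.eraseLead.natDegree u with h3 | h3
      · have h1 := signVariations_le_eraseLead_succ (P := P)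
        have h4 := sv_le_natDegree _ P.eraseLead rfl
        omega
      · have hE : ∀ i, u ≤ i → 0 ≤ P.eraseLead.coeff i := by
          intro i hi
          rw [eraseLead_coeff]
          split_ifs
          · exact le_rfl
          · exact h i hi
        have h4 := ih P.eraseLead.natDegree (by omega) P.eraseLead u rfl hE
        rw [signVariations_eq_eraseLead_add_ite hP, if_neg]
        · simpa using h4
        · rw [sign_pos hlead]
          have : 0 ≤ SignType.sign P.eraseLead.leadingCoeff := by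
            rw [sign_nonneg_iff]; exact hE _ h3
          intro hcon
          have h2 : SignType.sign P.eraseLead.leadingCoeff = -1 := by
            rw [hcon]; simp
          rw [h2] at this
          exact absurd this (by decide)
    · have h4 := sv_le_natDegree _ P hn
      omega

/-- The sign condition, in a form covering both sign patterns (`σ = ±1`). -/
def SC (β : ℕ → ℝ) (σ : ℝ) : Prop := ∀ k : ℕ,
  (∀ a l : ℕ, a + 2 * l = k → 0 ≤ L β ((X - C σ) ^ a * (X ^ 2 - 1) ^ l)) ∨
  (∀ a l : ℕ, a + 2 * l = k → L β ((X - C σ) ^ a * (X ^ 2 - 1) ^ l) ≤ 0)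

theorem X_pow_expand (m : ℕ) : (C (2 ^ m) : ℝ[X]) * X ^ m =
    ∑ j ∈ Finset.range (m + 1), (X + 1) ^ j * (X - 1) ^ (m - j) * (m.choose j : ℝ[X]) := by
  rw [← add_pow, C_pow, ← mul_pow]
  congr 1
  rw [show (C (2:ℝ) : ℝ[X]) = 2 from map_ofNat C 2]
  ring

theorem L_expand (β : ℕ → ℝ) (m i c : ℕ) :
    2 ^ m * L β (X ^ m * (X + 1) ^ i * (X - 1) ^ c) =
    ∑ j ∈ Finset.range (m + 1), (m.choose j : ℝ) * L β ((X + 1) ^ (i + j) * (X - 1) ^ (c + (m - j))) := by
  rw [← L_C_mul]
  have : (C ((2:ℝ) ^ m) * (X ^ m * (X + 1) ^ i * (X - 1) ^ c) : ℝ[X]) =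
      ∑ j ∈ Finset.range (m + 1), C (m.choose j : ℝ) * ((X + 1) ^ (i + j) * (X - 1) ^ (c + (m - j)) : ℝ[X]) := by
    have h := X_pow_expand m
    calc (C ((2:ℝ) ^ m) * (X ^ m * (X + 1) ^ i * (X - 1) ^ c) : ℝ[X])
        = (C ((2:ℝ) ^ m) * X ^ m) * ((X + 1) ^ i * (X - 1) ^ c) := by ring
      _ = _ := by
        rw [h, Finset.sum_mul]
        refine Finset.sum_congr rfl fun j _ => ?_
        rw [C_eq_natCast, pow_add, pow_add]
        ring
  rw [this, map_sum]
  refine Finset.sum_congr rfl fun j _ => ?_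
  rw [L_C_mul]

/-- lower coefficients, `σ = 1` -/
theorem SC_lower {β : ℕ → ℝ} (h : SC β 1) (m d : ℕ) :
    (∀ i ≤ d, 0 ≤ L β (X ^ m * (X + 1) ^ i * (X - 1) ^ (m + 2 * d - i))) ∨
    (∀ i ≤ d, L β (X ^ m * (X + 1) ^ i * (X - 1) ^ (m + 2 * d - i)) ≤ 0) := by
  have e : ∀ i ≤ d, ∀ j ≤ m, ∃ a l : ℕ, a + 2 * l = 2 * m + 2 * d ∧
      ((X + 1) ^ (i + j) * (X - 1) ^ ((m + 2 * d - i) + (m - j)) : ℝ[X]) =
        (X - C 1) ^ a * (X ^ 2 - 1) ^ l := by
    intro i hi j hj
    refine ⟨2 * m + 2 * d - 2 * (i + j), i + j, by omega, ?_⟩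
    have e1 : (m + 2 * d - i) + (m - j) = (2 * m + 2 * d - 2 * (i + j)) + (i + j) := by omega
    have e2 : (X ^ 2 - 1 : ℝ[X]) = (X + 1) * (X - 1) := by ring
    rw [e1, pow_add, e2, mul_pow, C_1]
    ring
  have hp : (0:ℝ) < 2 ^ m := by positivity
  rcases h (2 * m + 2 * d) with h | h
  · left
    intro i hi
    have : 0 ≤ 2 ^ m * L β (X ^ m * (X + 1) ^ i * (X - 1) ^ (m + 2 * d - i)) := by
      rw [L_expand]
      apply Finset.sum_nonneg
      intro j hj
      obtain ⟨a, l, hal, he⟩ := e i hi j (by have := Finset.mem_range.mp hj; omega)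
      rw [he]
      exact mul_nonneg (Nat.cast_nonneg _) (h a l hal)
    exact nonneg_of_mul_nonneg_right this hp
  · right
    intro i hi
    have : 2 ^ m * L β (X ^ m * (X + 1) ^ i * (X - 1) ^ (m + 2 * d - i)) ≤ 0 := by
      rw [L_expand]
      apply Finset.sum_nonpos
      intro j hj
      obtain ⟨a, l, hal, he⟩ := e i hi j (by have := Finset.mem_range.mp hj; omega)
      rw [he]
      exact mul_nonpos_of_nonneg_of_nonpos (Nat.cast_nonneg _) (h a l hal)
    by_contra hcon
    push Not at hcon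
    have := mul_pos hp hcon
    linarith

/-- upper coefficients, `σ = -1` -/
theorem SC_upper {β : ℕ → ℝ} (h : SC β (-1)) (m d : ℕ) :
    (∀ i ≤ m + 2 * d, m + d ≤ i → 0 ≤ L β (X ^ m * (X + 1) ^ i * (X - 1) ^ (m + 2 * d - i))) ∨
    (∀ i ≤ m + 2 * d, m + d ≤ i → L β (X ^ m * (X + 1) ^ i * (X - 1) ^ (m + 2 * d - i)) ≤ 0) := by
  have e : ∀ i ≤ m + 2 * d, m + d ≤ i → ∀ j ≤ m, ∃ a l : ℕ, a + 2 * l = 2 * m + 2 * d ∧
      ((X + 1) ^ (i + j) * (X - 1) ^ ((m + 2 * d - i) + (m - j)) : ℝ[X]) =
        (X - C (-1)) ^ a * (X ^ 2 - 1) ^ l := by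
    intro i hi hi2 j hj
    refine ⟨2 * (i + j) - (2 * m + 2 * d), (m + 2 * d - i) + (m - j), by omega, ?_⟩
    have e1 : i + j = (2 * (i + j) - (2 * m + 2 * d)) + ((m + 2 * d - i) + (m - j)) := by omega
    have e2 : (X ^ 2 - 1 : ℝ[X]) = (X + 1) * (X - 1) := by ring
    have e3 : (X - C (-1) : ℝ[X]) = X + 1 := by rw [C_neg, C_1]; ring
    rw [e3, e2, mul_pow]
    conv_lhs => rw [e1, pow_add]
    ring
  have hp : (0:ℝ) < 2 ^ m := by positivity
  rcases h (2 * m + 2 * d) with h | h
  · left
    intro i hi hi2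
    have : 0 ≤ 2 ^ m * L β (X ^ m * (X + 1) ^ i * (X - 1) ^ (m + 2 * d - i)) := by
      rw [L_expand]
      apply Finset.sum_nonneg
      intro j hj
      obtain ⟨a, l, hal, he⟩ := e i hi hi2 j (by have := Finset.mem_range.mp hj; omega)
      rw [he]
      exact mul_nonneg (Nat.cast_nonneg _) (h a l hal)
    exact nonneg_of_mul_nonneg_right this hp
  · right
    intro i hi hi2
    have : 2 ^ m * L β (X ^ m * (X + 1) ^ i * (X - 1) ^ (m + 2 * d - i)) ≤ 0 := by
      rw [L_expand]
      apply Finset.sum_nonpos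
      intro j hj
      obtain ⟨a, l, hal, he⟩ := e i hi hi2 j (by have := Finset.mem_range.mp hj; omega)
      rw [he]
      exact mul_nonpos_of_nonneg_of_nonpos (Nat.cast_nonneg _) (h a l hal)
    by_contra hcon
    push Not at hcon
    have := mul_pos hp hcon
    linarith

/-- the transformed polynomial -/
noncomputable def Rp (β : ℕ → ℝ) (m n : ℕ) : ℝ[X] :=
  ∑ i ∈ Finset.range (n + 1), C ((n.choose i : ℝ) * L β (X ^ m * (X + 1) ^ i * (X - 1) ^ (n - i))) * X ^ i

theorem Rp_coeff (β : ℕ → ℝ) (m n i : ℕ) (hi : i ≤ n) :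
    (Rp β m n).coeff i = (n.choose i : ℝ) * L β (X ^ m * (X + 1) ^ i * (X - 1) ^ (n - i)) := by
  unfold Rp
  rw [finsetSum_coeff]
  simp only [coeff_C_mul, coeff_X_pow]
  rw [Finset.sum_eq_single i]
  · simp
  · intro b _ hb
    rw [if_neg (by omega), mul_zero]
  · intro hb
    exact absurd (Finset.mem_range.mpr (by omega)) hb

theorem Rp_natDegree (β : ℕ → ℝ) (m n : ℕ) : (Rp β m n).natDegree ≤ n := by
  unfold Rp
  apply natDegree_sum_le_of_forall_le
  intro j hj
  refine (natDegree_C_mul_X_pow_le _ _).trans ?_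
  have := Finset.mem_range.mp hj
  omega

theorem Rp_eval (β : ℕ → ℝ) (m n : ℕ) (t : ℝ) :
    (Rp β m n).eval t = L β (X ^ m * (C (t + 1) * X + C (t - 1)) ^ n) := by
  unfold Rp
  have e : (C (t + 1) * X + C (t - 1) : ℝ[X]) = C t * (X + 1) + (X - 1) := by
    rw [C_add, C_sub, C_1]; ring
  rw [e, add_pow, Finset.mul_sum, map_sum, eval_finsetSum]
  refine Finset.sum_congr rfl fun j _ => ?_
  have : X ^ m * ((C t * (X + 1)) ^ j * (X - 1) ^ (n - j) * (n.choose j : ℝ[X])) =
      C ((n.choose j : ℝ) * t ^ j) * (X ^ m * (X + 1) ^ j * (X - 1) ^ (n - j)) := by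
    rw [C_mul, C_pow, C_eq_natCast, mul_pow]
    ring
  rw [this, L_C_mul]
  simp
  ring

theorem Rp_prod {β : ℕ → ℝ} {m n : ℕ} {s : Multiset ℝ} (hs : s.card = n)
    (hF : F β (X ^ m) n = C (β m) * (s.map fun r => (X - C r : ℝ[X])).prod) :
    Rp β m n = C (β m) * (s.map fun r => (C (1 - r) * X - C (1 + r) : ℝ[X])).prod := by
  apply Polynomial.eq_of_infinite_eval_eq
  apply Set.Infinite.mono (s := {t : ℝ | 0 < t})
  · intro t ht
    simp only [Set.mem_ofPred_eq] at ht ⊢
    have ht1 : t + 1 ≠ 0 := by positivity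
    rw [Rp_eval]
    have e1 : (X ^ m * (C (t + 1) * X + C (t - 1)) ^ n : ℝ[X]) =
        C ((t + 1) ^ n) * (X ^ m * (X + C ((t - 1) / (t + 1))) ^ n) := by
      have : (C (t + 1) * X + C (t - 1) : ℝ[X]) = C (t + 1) * (X + C ((t - 1) / (t + 1))) := by
        rw [mul_add, ← C_mul]
        congr 2
        field_simp
      rw [this, mul_pow, C_pow]
      ring
    rw [e1, L_C_mul, ← F_eval, hF, eval_mul, eval_mul, eval_C, eval_C]
    have e2 : ∀ s : Multiset ℝ, (t + 1) ^ s.card * eval ((t - 1) / (t + 1)) (s.map fun r => (X - C r : ℝ[X])).prod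
        = eval t (s.map fun r => (C (1 - r) * X - C (1 + r) : ℝ[X])).prod := by
      intro s
      induction s using Multiset.induction_on with
      | empty => simp
      | cons a s ih =>
        rw [Multiset.map_cons, Multiset.prod_cons, Multiset.map_cons, Multiset.prod_cons,
          Multiset.card_cons, eval_mul, eval_mul, ← ih]
        simp only [eval_sub, eval_X, eval_C, eval_mul]
        rw [pow_succ]
        field_simp
        ring
    have e3 := e2 s
    rw [hs] at e3
    rw [← e3]
    ring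
  · exact Set.Ioi_infinite (0:ℝ)

theorem Rp_roots {β : ℕ → ℝ} {m n : ℕ} {s : Multiset ℝ} (hs : s.card = n) (hβ : 0 < β m)
    (hneg : ∀ r ∈ s, r ≤ 0)
    (hF : F β (X ^ m) n = C (β m) * (s.map fun r => (X - C r : ℝ[X])).prod) :
    (Rp β m n).roots = s.map (fun r => (1 + r) / (1 - r)) := by
  rw [Rp_prod hs hF]
  have e : ∀ s : Multiset ℝ, (∀ r ∈ s, r ≤ 0) → ∃ c : ℝ, c ≠ 0 ∧
      (s.map fun r => (C (1 - r) * X - C (1 + r) : ℝ[X])).prod =
      C c * ((s.map (fun r => (1 + r) / (1 - r))).map fun r => (X - C r : ℝ[X])).prod := by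
    intro s
    induction s using Multiset.induction_on with
    | empty => intro _; exact ⟨1, one_ne_zero, by simp⟩
    | cons a s ih =>
      intro h
      obtain ⟨c, hc, hc'⟩ := ih (fun r hr => h r (Multiset.mem_cons_of_mem hr))
      have ha : a ≤ 0 := h a (Multiset.mem_cons_self a s)
      have ha1 : (1 - a) ≠ 0 := by linarith
      refine ⟨(1 - a) * c, mul_ne_zero ha1 hc, ?_⟩
      rw [Multiset.map_cons, Multiset.prod_cons, Multiset.map_cons, Multiset.map_cons,
        Multiset.prod_cons, hc']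
      have : (C (1 - a) * X - C (1 + a) : ℝ[X]) = C (1 - a) * (X - C ((1 + a) / (1 - a))) := by
        rw [mul_sub, ← C_mul]
        congr 2
        field_simp
      rw [this, C_mul]
      ring
  obtain ⟨c, hc, hc'⟩ := e s hneg
  rw [hc', ← mul_assoc, ← C_mul, roots_C_mul _ (mul_ne_zero hβ.ne' hc),
    roots_multiset_prod_X_sub_C]

theorem count_le {β : ℕ → ℝ} {m d : ℕ} {s : Multiset ℝ} {σ : ℝ} (hσ : σ = 1 ∨ σ = -1)
    (hSC : SC β σ) (hs : s.card = m + 2 * d) (hβ : 0 < β m) (hneg : ∀ r ∈ s, r ≤ 0)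
    (hF : F β (X ^ m) (m + 2 * d) = C (β m) * (s.map fun r => (X - C r : ℝ[X])).prod) :
    s.countP (fun r => -1 < r) ≤ m + d := by
  have h1 := roots_countP_pos_le_signVariations (Rp β m (m + 2 * d))
  rw [Rp_roots hs hβ hneg hF, Multiset.countP_map] at h1
  have h2 : Multiset.card (Multiset.filter (fun r : ℝ => 0 < (1 + r) / (1 - r)) s) =
      s.countP (fun r => -1 < r) := by
    rw [← Multiset.countP_eq_card_filter]
    apply Multiset.countP_congr rfl
    intro r hr
    have := hneg r hr
    have h3 : 0 < 1 - r := by linarith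
    simp only [eq_iff_iff]
    constructor
    · intro h
      have := (div_pos_iff_of_pos_right h3).mp h
      linarith
    · intro h
      exact div_pos (by linarith) h3
  rw [h2] at h1
  refine h1.trans ?_
  have hdeg := Rp_natDegree β m (m + 2 * d)
  rcases hσ with rfl | rfl
  · rcases SC_lower hSC m d with h | h
    · have := sv_lower _ (Rp β m (m + 2 * d)) d rfl (by
        intro i hi
        rw [Rp_coeff _ _ _ _ (by omega)]
        exact mul_nonneg (Nat.cast_nonneg _) (h i hi))
      omega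
    · have := sv_lower _ (-Rp β m (m + 2 * d)) d rfl (by
        intro i hi
        rw [coeff_neg, Rp_coeff _ _ _ _ (by omega)]
        have := mul_nonpos_of_nonneg_of_nonpos (Nat.cast_nonneg ((m + 2 * d).choose i)) (h i hi)
        linarith)
      rw [signVariations_neg, natDegree_neg] at this
      omega
  · rcases SC_upper hSC m d with h | h
    · exact sv_upper _ (Rp β m (m + 2 * d)) (m + d) rfl (by
        intro i hi
        rcases Nat.lt_or_ge (m + 2 * d) i with h3 | h3
        · rw [coeff_eq_zero_of_natDegree_lt (by omega)]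
        · rw [Rp_coeff _ _ _ _ h3]
          exact mul_nonneg (Nat.cast_nonneg _) (h i h3 hi))
    · have := sv_upper _ (-Rp β m (m + 2 * d)) (m + d) rfl (by
        intro i hi
        rcases Nat.lt_or_ge (m + 2 * d) i with h3 | h3
        · rw [coeff_neg, coeff_eq_zero_of_natDegree_lt (by omega)]; simp
        · rw [coeff_neg, Rp_coeff _ _ _ _ h3]
          have := mul_nonpos_of_nonneg_of_nonpos (Nat.cast_nonneg ((m + 2 * d).choose i)) (h i h3 hi)
          linarith)
      rwa [signVariations_neg] at this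

end Pool.Agent.H415R3.FP
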