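import Mathlib
import Pool.Agent.H415R3.Desc

set_option autoImplicit false

/-! The sign condition forces monotonicity. -/

namespace Pool.Agent.H415R3.FP

open Polynomial

theorem cheb (ρ : ℝ) (hρ : ρ < 1) (s : Multiset ℝ) :
    ((s.countP (fun r => ¬ (-1 < r)) : ℕ) : ℝ) * (1 - ρ) ^ 2 ≤ (s.map fun r => (r + ρ) ^ 2).sum := by
  induction s using Multiset.induction_on with
  | empty => simp
  | cons a s ih =>
    rw [Multiset.map_cons, Multiset.sum_cons, Multiset.countP_cons]
    by_cases h : ¬ (-1 < a)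
    · rw [if_pos h]
      push Not at h
      push_cast
      nlinarith
    · rw [if_neg h]
      push_cast
      nlinarith [sq_nonneg (a + ρ)]

theorem sum_sq_expand (ρ : ℝ) (s : Multiset ℝ) :
    (s.map fun r => (r + ρ) ^ 2).sum = (s.map fun r => r ^ 2).sum + 2 * ρ * s.sum + s.card * ρ ^ 2 := by
  induction s using Multiset.induction_on with
  | empty => simp
  | cons a s ih =>
    rw [Multiset.map_cons, Multiset.sum_cons, Multiset.map_cons, Multiset.sum_cons,
      Multiset.sum_cons, Multiset.card_cons, ih]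
    push_cast
    ring

theorem var_bound {β : ℕ → ℝ} (hβ0 : ∀ n, 0 ≤ β n) (hG : G β 1) {σ : ℝ} (hσ : σ = 1 ∨ σ = -1)
    (hSC : SC β σ) (m d : ℕ) (hm : 0 < β m) (hd : 1 ≤ d) (hlt : β (m + 1) < β m) :
    (d : ℝ) * (1 - β (m + 1) / β m) ^ 2 ≤
      (m + 2 * d) * (m + 2 * d - 1) * ((β (m + 1) / β m) ^ 2 - β (m + 2) / β m) := by
  have hGm : G β (X ^ m) := by simpa using G_mul_X_pow hG m
  set n := m + 2 * d with hn
  obtain ⟨n', hn'⟩ : ∃ n', n = n' + 2 := ⟨n - 2, by omega⟩
  set P := F β (X ^ m) n with hP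
  have ctop : P.coeff n = β m := by
    rw [hP, F_coeff _ _ _ _ le_rfl]; simp [L_X_pow]
  have hP0 : P ≠ 0 := by
    intro hh
    rw [hh] at ctop
    simp at ctop
    exact hm.ne' ctop.symm
  have hdeg : P.natDegree = n := by
    apply le_antisymm (F_natDegree _ _ _)
    apply le_natDegree_of_ne_zero
    rw [ctop]; exact hm.ne'
  have hNV := (hGm n).resolve_left hP0
  obtain ⟨s, hs, hPs⟩ := NV_prod _ P hdeg hP0 hNV
  have hlc : P.leadingCoeff = β m := by rw [leadingCoeff, hdeg, ctop]
  rw [hlc] at hPs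
  have hcn : ∀ i, 0 ≤ P.coeff i := by
    intro i
    rcases Nat.lt_or_ge n i with h | h
    · rw [hP, F_coeff_gt _ _ _ _ h]
    · rw [hP, F_coeff _ _ _ _ h, ← pow_add, L_X_pow]
      exact mul_nonneg (Nat.cast_nonneg _) (hβ0 _)
  have hneg : ∀ r ∈ s, r ≤ 0 := by
    intro r hr
    by_contra hcon
    push Not at hcon
    have h1 : P.eval r = 0 := by
      rw [hPs, eval_mul]
      have : (s.map fun r => (X - C r : ℝ[X])).prod.eval r = 0 := by
        obtain ⟨t, rfl⟩ := Multiset.exists_cons_of_mem hr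
        rw [Multiset.map_cons, Multiset.prod_cons, eval_mul]
        simp
      rw [this, mul_zero]
    rw [eval_eq_sum_range, hdeg] at h1
    have h2 : P.coeff n * r ^ n ≤ ∑ i ∈ Finset.range (n + 1), P.coeff i * r ^ i :=
      Finset.single_le_sum (f := fun i => P.coeff i * r ^ i)
        (fun i _ => mul_nonneg (hcn i) (by positivity)) (Finset.mem_range.mpr (by omega))
    rw [h1, ctop] at h2
    have : 0 < β m * r ^ n := by positivity
    linarith
  have hcount := count_le hσ hSC hs hm hneg hPs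
  -- Vieta
  have hs' : s.card = n' + 2 := by rw [hs, hn']
  have c1 : (n : ℝ) * β (m + 1) = β m * (-s.sum) := by
    have h1 : P.coeff (n' + 1) = β m * (-s.sum) := by
      rw [hPs, coeff_C_mul, vieta1 s (n' + 1) hs']
    rw [← h1, hP, F_coeff _ _ _ _ (by omega), ← pow_add, L_X_pow]
    have e1 : m + (n - (n' + 1)) = m + 1 := by omega
    have e2 : n.choose (n' + 1) = n := by
      rw [hn', show n' + 2 = (n' + 1) + 1 by ring, Nat.choose_succ_self_right]
    rw [e1, e2]
  have c2 : (n : ℝ) * (n - 1) / 2 * β (m + 2) = β m * ((s.sum ^ 2 - (s.map fun r => r ^ 2).sum) / 2) := by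
    have h1 : P.coeff n' = β m * ((s.sum ^ 2 - (s.map fun r => r ^ 2).sum) / 2) := by
      rw [hPs, coeff_C_mul, vieta2 s n' hs']
    rw [← h1, hP, F_coeff _ _ _ _ (by omega), ← pow_add, L_X_pow]
    have e1 : m + (n - n') = m + 2 := by omega
    have e2 : n.choose n' = n.choose 2 := by
      rw [hn']
      exact Nat.choose_symm_of_eq_add (by omega)
    rw [e1, e2, Nat.cast_choose_two]
  set ρ := β (m + 1) / β m with hρ
  have hρ1 : ρ < 1 := (div_lt_one hm).mpr hlt
  have hsum : s.sum = -(n * ρ) := by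
    rw [hρ]; field_simp; linarith
  have hsq : (s.map fun r => r ^ 2).sum = n ^ 2 * ρ ^ 2 - n * (n - 1) * (β (m + 2) / β m) := by
    have h2 : (s.sum ^ 2 - (s.map fun r => r ^ 2).sum) = n * (n - 1) * (β (m + 2) / β m) := by
      field_simp
      linarith
    rw [hsum] at h2
    linear_combination -h2
  have hch := cheb ρ hρ1 s
  rw [sum_sq_expand, hsum, hsq, hs] at hch
  have hcard : s.countP (fun r => -1 < r) + s.countP (fun r => ¬ (-1 < r)) = s.card :=
    (Multiset.card_eq_countP_add_countP _ s).symm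
  have hd2 : (d : ℝ) ≤ ((s.countP (fun r => ¬ (-1 < r)) : ℕ) : ℝ) := by
    have : d ≤ s.countP (fun r => ¬ (-1 < r)) := by omega
    exact_mod_cast this
  have hnr : (n : ℝ) = m + 2 * d := by rw [hn]; push_cast; ring
  rw [hnr] at hch
  have h5 : (d : ℝ) * (1 - ρ) ^ 2 ≤ ((s.countP (fun r => ¬ (-1 < r)) : ℕ) : ℝ) * (1 - ρ) ^ 2 := by
    gcongr
  refine (h5.trans hch).trans (le_of_eq ?_)
  ring

theorem mono {β : ℕ → ℝ} (hβ0 : ∀ n, 0 ≤ β n) (hG : G β 1) {σ : ℝ} (hσ : σ = 1 ∨ σ = -1)
    (hSC : SC β σ) (m : ℕ) : β m ≤ β (m + 1) := by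
  by_contra hcon
  push Not at hcon
  have turan : ∀ i, β i * β (i + 2) ≤ β (i + 1) ^ 2 := by
    intro i
    have h := G_turan (K := (X : ℝ[X]) ^ i) (by simpa using G_mul_X_pow hG i)
    rw [← pow_add, L_X_pow, L_X_pow] at h
    have : (X : ℝ[X]) ^ i * X = X ^ (i + 1) := by ring
    rwa [this, L_X_pow] at h
  -- positivity and strict decrease
  have hpos : ∀ i, 0 < β (m + i) ∧ β (m + i + 1) < β (m + i) ∧
      β (m + i + 1) / β (m + i) ≤ β (m + 1) / β m := by
    intro i
    induction i with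
    | zero =>
      refine ⟨?_, by simpa using hcon, by simp⟩
      have := hβ0 (m + 1)
      simpa using lt_of_le_of_lt this hcon
    | succ i ih =>
      obtain ⟨h1, h2, h3⟩ := ih
      have h4 : 0 < β (m + i + 1) := by
        rcases (hβ0 (m + i + 1)).lt_or_eq with h | h
        · exact h
        · exfalso
          have t := turan (m + i)
          rw [← h] at t
          have hz : β (m + i + 2) = 0 := by
            have h5 := hβ0 (m + i + 2)
            have h6 : β (m + i) * β (m + i + 2) ≤ 0 := by nlinarith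
            by_contra hne
            have : 0 < β (m + i + 2) := lt_of_le_of_ne h5 (Ne.symm hne)
            have := mul_pos h1 this
            linarith
          have v := var_bound hβ0 hG hσ hSC (m + i) 1 h1 le_rfl h2
          rw [← h, hz] at v
          simp at v
          linarith
      have t := turan (m + i)
      have e1 : m + (i + 1) = m + i + 1 := by ring
      have e2 : m + i + 1 + 1 = m + i + 2 := by ring
      rw [e1, e2]
      have h5 : β (m + i + 2) / β (m + i + 1) ≤ β (m + i + 1) / β (m + i) := by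
        rw [div_le_div_iff₀ h4 h1]
        nlinarith
      refine ⟨h4, ?_, h5.trans h3⟩
      have h6 : β (m + i + 1) / β (m + i) < 1 := (div_lt_one h1).mpr h2
      exact (div_lt_one h4).mp (h5.trans_lt h6)
  -- ratios
  set ρ : ℕ → ℝ := fun i => β (m + i + 1) / β (m + i) with hρ
  have hρ0 : ∀ i, 0 ≤ ρ i := fun i => div_nonneg (hβ0 _) (hβ0 _)
  set ρ0 := β (m + 1) / β m with hρ0def
  have hρ01 : ρ0 < 1 := by
    have := hpos 0
    simp only [add_zero] at this
    exact (div_lt_one this.1).mpr this.2.1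
  set c : ℝ := (1 - ρ0) ^ 2 / 9 with hc
  have hc0 : 0 < c := by
    have : 0 < 1 - ρ0 := by linarith
    positivity
  have hgap : ∀ i, 1 ≤ i → c / (m + i) ≤ ρ i - ρ (i + 1) := by
    intro i hi
    obtain ⟨h1, h2, h3⟩ := hpos i
    obtain ⟨h4, -, -⟩ := hpos (i + 1)
    have e1 : m + (i + 1) = m + i + 1 := by ring
    rw [e1] at h4
    have v := var_bound hβ0 hG hσ hSC (m + i) (m + i) h1 (by omega) h2
    have hρi : β (m + i + 1) / β (m + i) = ρ i := rfl
    have hρi1 : β (m + i + 2) / β (m + i) = ρ i * ρ (i + 1) := by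
      simp only [hρ]
      rw [e1]
      field_simp
    rw [hρi, hρi1] at v
    have hM : (0:ℝ) < ((m + i : ℕ) : ℝ) := by
      have : 0 < m + i := by omega
      exact_mod_cast this
    set M : ℝ := ((m + i : ℕ) : ℝ) with hMdef
    have hMc : (m : ℝ) + i = M := by rw [hMdef]; push_cast; ring
    rw [hMc]
    have hle : ρ i ≤ ρ0 := h3
    have hr1 : ρ (i + 1) ≤ ρ i := by
      have t := turan (m + i)
      simp only [hρ]
      rw [e1]
      rw [div_le_div_iff₀ h4 h1]
      have e2 : m + i + 1 + 1 = m + i + 2 := by ring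
      rw [e2]
      nlinarith
    have hsq : (1 - ρ0) ^ 2 ≤ (1 - ρ i) ^ 2 := by
      have : 0 ≤ 1 - ρ0 := by linarith
      apply pow_le_pow_left₀ this
      linarith
    have v2 : M * (1 - ρ0) ^ 2 ≤ 9 * M ^ 2 * (ρ i - ρ (i + 1)) := by
      calc M * (1 - ρ0) ^ 2 ≤ M * (1 - ρ i) ^ 2 := by gcongr
        _ ≤ (M + 2 * M) * (M + 2 * M - 1) * (ρ i ^ 2 - ρ i * ρ (i + 1)) := v
        _ = (3 * M * (3 * M - 1)) * (ρ i * (ρ i - ρ (i + 1))) := by ring
        _ ≤ (9 * M ^ 2) * (ρ i * (ρ i - ρ (i + 1))) := by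
            apply mul_le_mul_of_nonneg_right
            · nlinarith
            · exact mul_nonneg (hρ0 i) (by linarith)
        _ ≤ (9 * M ^ 2) * (1 * (ρ i - ρ (i + 1))) := by
            apply mul_le_mul_of_nonneg_left _ (by positivity)
            apply mul_le_mul_of_nonneg_right _ (by linarith)
            linarith
        _ = _ := by ring
    rw [hc, div_div, div_le_iff₀ (by positivity)]
    have : M * ((1 - ρ0) ^ 2 - 9 * M * (ρ i - ρ (i + 1))) ≤ 0 := by nlinarith
    have h8 : (1 - ρ0) ^ 2 - 9 * M * (ρ i - ρ (i + 1)) ≤ 0 := by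
      by_contra hcon2
      push Not at hcon2
      have := mul_pos hM hcon2
      linarith
    linarith
  -- divergence
  have htel : ∀ N : ℕ, c / (m + 1) * ∑ i ∈ Finset.range N, 1 / ((i : ℝ) + 1) ≤ ρ 1 - ρ (1 + N) := by
    intro N
    induction N with
    | zero => simp
    | succ N ih =>
      rw [Finset.sum_range_succ, mul_add]
      have h1 := hgap (1 + N) (by omega)
      have h2 : c / (m + 1) * (1 / ((N : ℝ) + 1)) ≤ c / (m + ((1 + N : ℕ) : ℝ)) := by
        rw [div_mul_div_comm, mul_one]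
        apply div_le_div_of_nonneg_left hc0.le (by positivity)
        push_cast
        have : (0:ℝ) ≤ m * N := by positivity
        nlinarith
      have e : 1 + (N + 1) = 1 + N + 1 := by ring
      rw [e]
      linarith
  have hdiv := Real.tendsto_sum_range_one_div_nat_succ_atTop
  have hcm : 0 < c / (m + 1) := by positivity
  obtain ⟨N, hN⟩ := (hdiv.eventually_gt_atTop (1 / (c / (m + 1)))).exists
  have h1 := htel N
  have h2 : 1 < c / (m + 1) * ∑ i ∈ Finset.range N, 1 / ((i : ℝ) + 1) := by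
    have := (div_lt_iff₀ hcm).mp hN
    linarith
  have h3 : ρ 1 < 1 := lt_of_le_of_lt (hpos 1).2.2 hρ01
  have h4 := hρ0 (1 + N)
  linarith

end Pool.Agent.H415R3.FP
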