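import Mathlib
import Pool.Agent.H415R3.Mono

set_option autoImplicit false

/-! Nonnegativity of the differences. -/

namespace Pool.Agent.H415R3.FP

open Polynomial

theorem seq_mono {u : ℕ → ℝ} (hu0 : ∀ m, 0 ≤ u m) (ht : ∀ m, u m * u (m + 2) ≤ u (m + 1) ^ 2)
    (hz : ∀ m, u m ≠ 0 → u (m + 1) = 0 → u (m + 2) = 0 → ∀ i, 1 ≤ i → u (m + i) = 0)
    (M : ℕ) (c : ℝ) (hc : 0 < c) (hM : ∀ m, M ≤ m → c ≤ u m) (m : ℕ) : u m ≤ u (m + 1) := by
  by_contra hcon
  push Not at hcon
  have hm : 0 < u m := lt_of_le_of_lt (hu0 _) hcon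
  have hpos : ∀ i, 0 < u (m + i) := by
    intro i
    induction i with
    | zero => simpa using hm
    | succ i ih =>
      rcases (hu0 (m + i + 1)).lt_or_eq with h | h
      · exact h
      · exfalso
        have t := ht (m + i)
        rw [← h] at t
        have h2 : u (m + i + 2) = 0 := by
          have h5 := hu0 (m + i + 2)
          by_contra hne
          have h6 : 0 < u (m + i + 2) := lt_of_le_of_ne h5 (Ne.symm hne)
          have := mul_pos ih h6
          nlinarith
        have h3 := hz (m + i) ih.ne' h.symm h2 (M + 1) (by omega)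
        have h4 := hM (m + i + (M + 1)) (by omega)
        linarith
  set q := u (m + 1) / u m with hq
  have hq1 : q < 1 := (div_lt_one hm).mpr hcon
  have hq0 : 0 ≤ q := div_nonneg (hu0 _) (hu0 _)
  have hr : ∀ i, u (m + i + 1) ≤ q * u (m + i) := by
    intro i
    induction i with
    | zero => rw [hq]; field_simp; simp
    | succ i ih =>
      have h1 := hpos i
      have h2 := hpos (i + 1)
      have e1 : m + (i + 1) = m + i + 1 := by ring
      rw [e1] at h2 ⊢
      have t := ht (m + i)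
      have e2 : m + i + 1 + 1 = m + i + 2 := by ring
      rw [e2]
      have h3 : u (m + i) * u (m + i + 2) ≤ u (m + i) * (q * u (m + i + 1)) := by
        nlinarith
      exact le_of_mul_le_mul_left h3 h1
  have hgeo : ∀ i, u (m + i) ≤ u m * q ^ i := by
    intro i
    induction i with
    | zero => simp
    | succ i ih =>
      have e1 : m + (i + 1) = m + i + 1 := by ring
      rw [e1, pow_succ]
      calc u (m + i + 1) ≤ q * u (m + i) := hr i
        _ ≤ q * (u m * q ^ i) := by gcongr
        _ = _ := by ring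
  have hlim : Filter.Tendsto (fun i => u m * q ^ i) Filter.atTop (nhds 0) := by
    have := (tendsto_pow_atTop_nhds_zero_of_lt_one hq0 hq1).const_mul (u m)
    simpa using this
  obtain ⟨i, hi1, hi2⟩ := ((hlim.eventually_lt_const hc).and
    (Filter.eventually_ge_atTop M)).exists
  have h1 := hgeo i
  have h2 := hM (m + i) (by omega)
  linarith

theorem diff_lower {β : ℕ → ℝ} (hβ0 : ∀ n, 0 ≤ β n) (hG : G β 1) (hmono : ∀ m, β m ≤ β (m + 1))
    (M : ℕ) (hM : 0 < β M) (r : ℝ) (hr1 : r < 1) (j : ℕ) :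
    ∀ m, (1 - r) ^ j * β m ≤ L β ((X - C r) ^ j * X ^ m) := by
  have hβM : ∀ m, M ≤ m → β M ≤ β m := fun m hm => monotone_nat_of_le_succ hmono hm
  have h1r : 0 < 1 - r := by linarith
  induction j with
  | zero => intro m; simp [L_X_pow]
  | succ j ih =>
    intro m
    set u : ℕ → ℝ := fun m => L β ((X - C r) ^ j * X ^ m) with hu
    have hu0 : ∀ m, 0 ≤ u m := fun m => le_trans (mul_nonneg (by positivity) (hβ0 m)) (ih m)
    have hGm : ∀ m, G β ((X - C r) ^ j * X ^ m) := by
      intro m
      have h1 := G_mul_pow hG (-r) j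
      have h2 := G_mul_X_pow h1 m
      have e : (1 : ℝ[X]) * (X + C (-r)) ^ j * X ^ m = (X - C r) ^ j * X ^ m := by
        rw [C_neg]; ring
      rwa [e] at h2
    have ht : ∀ m, u m * u (m + 2) ≤ u (m + 1) ^ 2 := by
      intro m
      have h := G_turan (hGm m)
      have e1 : ((X - C r) ^ j * X ^ m : ℝ[X]) * X ^ 2 = (X - C r) ^ j * X ^ (m + 2) := by ring
      have e2 : ((X - C r) ^ j * X ^ m : ℝ[X]) * X = (X - C r) ^ j * X ^ (m + 1) := by ring
      rwa [e1, e2] at h
    have hz : ∀ m, u m ≠ 0 → u (m + 1) = 0 → u (m + 2) = 0 → ∀ i, 1 ≤ i → u (m + i) = 0 := by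
      intro m h0 h1 h2 i hi
      have e1 : ((X - C r) ^ j * X ^ m : ℝ[X]) * X ^ 2 = (X - C r) ^ j * X ^ (m + 2) := by ring
      have e2 : ((X - C r) ^ j * X ^ m : ℝ[X]) * X = (X - C r) ^ j * X ^ (m + 1) := by ring
      have h := G_zero (hGm m) h0 (by rw [e2]; exact h1) (by rw [e1]; exact h2) i hi
      have e3 : ((X - C r) ^ j * X ^ m : ℝ[X]) * X ^ i = (X - C r) ^ j * X ^ (m + i) := by ring
      rwa [e3] at h
    have hmonou : u m ≤ u (m + 1) := by
      apply seq_mono hu0 ht hz M ((1 - r) ^ j * β M) (by positivity)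
      intro m hm
      refine le_trans ?_ (ih m)
      have := hβM m hm
      gcongr
    have e : ((X - C r) ^ (j + 1) * X ^ m : ℝ[X]) =
        (X - C r) ^ j * X ^ (m + 1) - C r * ((X - C r) ^ j * X ^ m) := by ring
    rw [e, map_sub, L_C_mul]
    have h3 := ih m
    change (1 - r) ^ (j + 1) * β m ≤ u (m + 1) - r * u m
    change (1 - r) ^ j * β m ≤ u m at h3
    calc (1 - r) ^ (j + 1) * β m = (1 - r) * ((1 - r) ^ j * β m) := by ring
      _ ≤ (1 - r) * u m := by gcongr
      _ = u m - r * u m := by ring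
      _ ≤ u (m + 1) - r * u m := by linarith

theorem diff_nonneg {β : ℕ → ℝ} (hβ0 : ∀ n, 0 ≤ β n) (hG : G β 1) (hmono : ∀ m, β m ≤ β (m + 1))
    (j : ℕ) : 0 ≤ L β ((X - 1) ^ j) := by
  have e : ∀ r : ℝ, L β ((X - C r) ^ j) = (F β 1 j).eval (-r) := by
    intro r
    rw [F_eval, one_mul, C_neg, sub_eq_add_neg]
  by_cases h : ∃ M, 0 < β M
  · obtain ⟨M, hM⟩ := h
    have hcont : Continuous (fun r : ℝ => (F β 1 j).eval (-r)) := by
      exact (F β 1 j).continuous.comp continuous_neg
    have hlim : Filter.Tendsto (fun r : ℝ => (F β 1 j).eval (-r)) (nhdsWithin 1 (Set.Iio 1))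
        (nhds ((F β 1 j).eval (-1))) := (hcont.tendsto 1).mono_left nhdsWithin_le_nhds
    have h1 : 0 ≤ (F β 1 j).eval (-1) := by
      refine ge_of_tendsto hlim ?_
      filter_upwards [self_mem_nhdsWithin] with r hr
      rw [← e]
      have h2 := diff_lower hβ0 hG hmono M hM r hr j 0
      rw [pow_zero, mul_one] at h2
      refine le_trans ?_ h2
      have : 0 < 1 - r := by
        have : r < 1 := hr
        linarith
      exact mul_nonneg (by positivity) (hβ0 0)
    rw [← e, C_1] at h1
    exact h1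
  · push Not at h
    have hz : ∀ n, β n = 0 := fun n => le_antisymm (h n) (hβ0 n)
    have h1 : ∀ P : ℝ[X], L β P = 0 := by
      intro P
      unfold L
      rw [Polynomial.lsum_apply]
      simp [hz, Polynomial.sum]
    rw [h1]

end Pool.Agent.H415R3.FP
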