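import Mathlib
import Pool.Agent.H415R3.PosD

set_option autoImplicit false

/-! Stability preservation of the normally ordered operators. -/

namespace Pool.Agent.H415R3.FP

open Polynomial

def Stab (f : ℂ[X]) : Prop := ∀ z : ℂ, 0 < z.im → f.eval z ≠ 0

theorem prod_form (f : ℂ[X]) :
    f = C f.leadingCoeff * (f.roots.map fun a => (X - C a : ℂ[X])).prod :=
  (IsAlgClosed.splits f).eq_prod_roots

theorem logderiv_c (s : Multiset ℂ) (z : ℂ) (hz : ∀ a ∈ s, z - a ≠ 0) :
    (derivative (s.map fun a => (X - C a : ℂ[X])).prod).eval z =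
      (s.map fun a => (X - C a : ℂ[X])).prod.eval z * (s.map fun a => (z - a)⁻¹).sum := by
  induction s using Multiset.induction_on with
  | empty => simp
  | cons a s ih =>
    have ih' := ih (fun b hb => hz b (Multiset.mem_cons_of_mem hb))
    rw [Multiset.map_cons, Multiset.prod_cons, Multiset.map_cons, Multiset.sum_cons,
      derivative_mul, eval_add, eval_mul, eval_mul, eval_mul, ih']
    have hza : z - a ≠ 0 := hz a (Multiset.mem_cons_self a s)
    have h1 : eval z (derivative (X - C a : ℂ[X])) = 1 := by simp
    have h2 : eval z (X - C a : ℂ[X]) = z - a := by simp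
    rw [h1, h2]
    field_simp

theorem im_sum_nonpos (s : Multiset ℂ) (z : ℂ) (hz : ∀ a ∈ s, 0 < (z - a).im) :
    ((s.map fun a => (z - a)⁻¹).sum).im ≤ 0 ∧ (0 < s.card → ((s.map fun a => (z - a)⁻¹).sum).im < 0) := by
  induction s using Multiset.induction_on with
  | empty => simp
  | cons a s ih =>
    obtain ⟨ih1, -⟩ := ih (fun b hb => hz b (Multiset.mem_cons_of_mem hb))
    rw [Multiset.map_cons, Multiset.sum_cons, Complex.add_im, Complex.inv_im]
    have ha := hz a (Multiset.mem_cons_self a s)
    have hn : 0 < Complex.normSq (z - a) := by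
      rw [Complex.normSq_pos]
      intro h
      rw [h] at ha
      simp at ha
    have h1 : -(z - a).im / Complex.normSq (z - a) < 0 := div_neg_of_neg_of_pos (by linarith) hn
    exact ⟨by linarith, fun _ => by linarith⟩

theorem Stab.logderiv {f : ℂ[X]} (hf : Stab f) {z : ℂ} (hz : 0 < z.im) :
    ∃ S : ℂ, (derivative f).eval z = f.eval z * S ∧ S.im ≤ 0 ∧ (0 < f.natDegree → S.im < 0) := by
  have hf0 : f ≠ 0 := by
    rintro rfl
    exact hf z hz (by simp)
  have hroots : ∀ a ∈ f.roots, 0 < (z - a).im := by
    intro a ha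
    have h1 : f.eval a = 0 := (mem_roots hf0).mp ha
    have h2 : a.im ≤ 0 := by
      by_contra hcon
      push Not at hcon
      exact hf a hcon h1
    rw [Complex.sub_im]
    linarith
  have hp := prod_form f
  set s := f.roots with hs
  refine ⟨(s.map fun a => (z - a)⁻¹).sum, ?_, (im_sum_nonpos s z hroots).1, ?_⟩
  · have h1 := logderiv_c s z (by
      intro a ha h
      have := hroots a ha
      rw [h] at this
      simp at this)
    have e1 : (derivative f).eval z = f.leadingCoeff *
        (derivative (s.map fun a => (X - C a : ℂ[X])).prod).eval z := by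
      conv_lhs => rw [hp]
      rw [derivative_C_mul, eval_mul, eval_C]
    have e2 : f.eval z = f.leadingCoeff * (s.map fun a => (X - C a : ℂ[X])).prod.eval z := by
      conv_lhs => rw [hp]
      rw [eval_mul, eval_C]
    rw [e1, e2, h1]
    ring
  · intro hd
    apply (im_sum_nonpos s z hroots).2
    rw [hs, ← (IsAlgClosed.splits f).natDegree_eq_card_roots]
    exact hd

theorem Stab.derivative {f : ℂ[X]} (hf : Stab f) (hd : derivative f ≠ 0) : Stab (derivative f) := by
  intro z hz
  obtain ⟨S, h1, -, h3⟩ := hf.logderiv hz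
  have hdeg : 0 < f.natDegree := by
    by_contra hcon
    push Not at hcon
    apply hd
    rw [eq_C_of_natDegree_eq_zero (Nat.le_zero.mp hcon), derivative_C]
  rw [h1]
  refine mul_ne_zero (hf z hz) ?_
  intro h
  have := h3 hdeg
  rw [h] at this
  simp at this

theorem Stab.add_deriv {f : ℂ[X]} (hf : Stab f) {w : ℂ} (hw : 0 < w.im) :
    Stab (f + C w * Polynomial.derivative f) := by
  intro z hz
  obtain ⟨S, h1, h2, -⟩ := hf.logderiv hz
  rw [eval_add, eval_mul, eval_C, h1]
  intro h
  have h3 : f.eval z * (1 + w * S) = 0 := by linear_combination h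
  rcases mul_eq_zero.mp h3 with h4 | h4
  · exact hf z hz h4
  · have hw0 : w ≠ 0 := by
      rintro rfl
      simp at hw
    have h5 : S = -w⁻¹ := by
      field_simp
      linear_combination h4
    rw [h5, Complex.neg_im, Complex.inv_im] at h2
    have hn : 0 < Complex.normSq w := Complex.normSq_pos.mpr hw0
    have h6 : 0 < w.im / Complex.normSq w := div_pos hw hn
    have h7 : -(-w.im / Complex.normSq w) = w.im / Complex.normSq w := by ring
    linarith

/-- normally ordered product operator -/
noncomputable def op : List (ℝ × ℝ) → ℂ[X] → ℂ[X]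
  | [], f => f
  | (a, c) :: l, f => C (a : ℂ) * op l f + C ((c / 2 : ℝ) : ℂ) *
      (2 * X * op l (derivative f) - derivative (op l (derivative f)))

theorem op_cons (a c : ℝ) (l : List (ℝ × ℝ)) (f : ℂ[X]) :
    op ((a, c) :: l) f = C (a : ℂ) * op l f + C ((c / 2 : ℝ) : ℂ) *
      (2 * X * op l (derivative f) - derivative (op l (derivative f))) := by
  rw [op]

theorem op_add (l : List (ℝ × ℝ)) : ∀ f g : ℂ[X], op l (f + g) = op l f + op l g := by
  induction l with
  | nil => intro f g; simp [op]
  | cons x l ih =>
    obtain ⟨a, c⟩ := x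
    intro f g
    rw [op_cons, op_cons, op_cons, ih, derivative_add, ih, derivative_add]
    ring

theorem op_C_mul (l : List (ℝ × ℝ)) : ∀ (w : ℂ) (f : ℂ[X]), op l (C w * f) = C w * op l f := by
  induction l with
  | nil => intro w f; simp [op]
  | cons x l ih =>
    obtain ⟨a, c⟩ := x
    intro w f
    rw [op_cons, op_cons, ih, derivative_C_mul, ih, derivative_C_mul]
    ring

theorem op_zero (l : List (ℝ × ℝ)) : op l 0 = 0 := by
  have := op_C_mul l 0 0
  simpa using this

theorem op_stab (l : List (ℝ × ℝ)) : (∀ x ∈ l, 0 < x.1 ∧ 0 ≤ x.2) → ∀ f : ℂ[X], Stab f →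
    Stab (op l f) := by
  induction l with
  | nil => intro _ f hf; simpa [op] using hf
  | cons x l ih =>
    obtain ⟨a, c⟩ := x
    intro hl f hf
    have hl' : ∀ x ∈ l, 0 < x.1 ∧ 0 ≤ x.2 := fun x hx => hl x (List.mem_cons_of_mem _ hx)
    obtain ⟨ha, hc⟩ := hl (a, c) List.mem_cons_self
    simp only at ha hc
    have ih' := ih hl'
    intro z hz
    rw [op_cons]
    set u0 := op l f with hu0
    set u1 := op l (derivative f) with hu1
    have h0 : u0.eval z ≠ 0 := ih' f hf z hz
    have hac : (a : ℂ) ≠ 0 := by exact_mod_cast ha.ne'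
    by_cases hd : derivative f = 0
    · have : u1 = 0 := by rw [hu1, hd, op_zero]
      rw [this]
      simp only [mul_zero, derivative_zero, sub_zero, add_zero, eval_mul, eval_C]
      exact mul_ne_zero hac h0
    have hS1 : Stab u1 := ih' _ (hf.derivative hd)
    have h1 : u1.eval z ≠ 0 := hS1 z hz
    set v := u0.eval z / u1.eval z with hv
    have hvim : 0 ≤ v.im := by
      by_contra hcon
      push Not at hcon
      have hw : 0 < (-v).im := by rw [Complex.neg_im]; linarith
      have h2 := ih' _ (hf.add_deriv hw) z hz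
      rw [op_add, op_C_mul, ← hu0, ← hu1, eval_add, eval_mul, eval_C] at h2
      apply h2
      rw [hv]
      field_simp
      ring
    obtain ⟨S, hS, hSim, -⟩ := hS1.logderiv hz
    rcases hc.eq_or_lt with hc0 | hc0
    · rw [← hc0]
      simp only [zero_div, Complex.ofReal_zero, C_0, zero_mul, add_zero, eval_mul, eval_C]
      exact mul_ne_zero hac h0
    intro hcon
    simp only [eval_add, eval_mul, eval_C, eval_sub, eval_X, eval_ofNat] at hcon
    rw [hS] at hcon
    have h3 : u1.eval z * ((a : ℂ) * v + ((c / 2 : ℝ) : ℂ) * (2 * z - S)) = 0 := by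
      rw [hv]
      field_simp
      linear_combination hcon
    rcases mul_eq_zero.mp h3 with h4 | h4
    · exact h1 h4
    · have h5 := congrArg Complex.im h4
      rw [Complex.add_im, Complex.im_ofReal_mul, Complex.im_ofReal_mul, Complex.sub_im] at h5
      have h6 : ((2 : ℂ) * z).im = 2 * z.im := by
        have : (2 : ℂ) = ((2 : ℝ) : ℂ) := by norm_num
        rw [this, Complex.im_ofReal_mul]
      rw [h6] at h5
      have h7 : 0 ≤ a * v.im := mul_nonneg ha.le hvim
      have h8 : 0 < c / 2 * (2 * z.im - S.im) := by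
        apply mul_pos (by linarith)
        linarith
      simp at h5
      linarith

end Pool.Agent.H415R3.FP
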