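import Mathlib
import Pool.Agent.H415R3.Stab

set_option autoImplicit false

/-! The operators `N_j = 2^{-j} A^j D^j` and the quantitative inequality. -/

namespace Pool.Agent.H415R3.FP

open Polynomial

noncomputable def Nj : ℕ → ℝ[X] → ℝ[X]
  | 0, p => p
  | (j + 1), p => C (1 / 2) * (2 * X * Nj j (derivative p) - derivative (Nj j (derivative p)))

theorem Nj_succ (j : ℕ) (p : ℝ[X]) : Nj (j + 1) p =
    C (1 / 2) * (2 * X * Nj j (derivative p) - derivative (Nj j (derivative p))) := by
  rw [Nj]

theorem Nj_add (j : ℕ) : ∀ p q : ℝ[X], Nj j (p + q) = Nj j p + Nj j q := by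
  induction j with
  | zero => intro p q; simp [Nj]
  | succ j ih =>
    intro p q
    rw [Nj_succ, Nj_succ, Nj_succ, derivative_add, ih, derivative_add]
    ring

theorem Nj_C_mul (j : ℕ) : ∀ (c : ℝ) (p : ℝ[X]), Nj j (C c * p) = C c * Nj j p := by
  induction j with
  | zero => intro c p; simp [Nj]
  | succ j ih =>
    intro c p
    rw [Nj_succ, Nj_succ, derivative_C_mul, ih, derivative_C_mul]
    ring

theorem Nj_zero (j : ℕ) : Nj j 0 = 0 := by
  have := Nj_C_mul j 0 0
  simpa using this

/-- degree and top coefficient -/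
theorem Nj_top (j : ℕ) : ∀ (N : ℕ) (p : ℝ[X]), p.natDegree ≤ N →
    (Nj j p).natDegree ≤ N ∧ (Nj j p).coeff N = (N.descFactorial j : ℝ) * p.coeff N := by
  induction j with
  | zero => intro N p hp; simpa [Nj] using hp
  | succ j ih =>
    intro N p hp
    rw [Nj_succ]
    cases N with
    | zero =>
      obtain ⟨c, rfl⟩ : ∃ c : ℝ, p = C c := ⟨_, eq_C_of_natDegree_eq_zero (by omega)⟩
      rw [derivative_C, Nj_zero]
      simp
    | succ N =>
      have hd : (derivative p).natDegree ≤ N := by
        have := natDegree_derivative_le p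
        omega
      obtain ⟨h1, h2⟩ := ih N (derivative p) hd
      have h3 : (derivative (Nj j (derivative p))).natDegree ≤ N := by
        have := natDegree_derivative_le (Nj j (derivative p))
        omega
      constructor
      · refine (natDegree_C_mul_le _ _).trans ?_
        refine (natDegree_sub_le _ _).trans (max_le ?_ (by omega))
        have : (2 * X * Nj j (derivative p) : ℝ[X]) = C 2 * (X * Nj j (derivative p)) := by
          rw [show (C (2:ℝ) : ℝ[X]) = 2 from map_ofNat C 2]; ring
        rw [this]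
        refine (natDegree_C_mul_le _ _).trans ?_
        refine (natDegree_mul_le).trans ?_
        rw [natDegree_X]
        omega
      · rw [coeff_C_mul, coeff_sub]
        have h4 : (derivative (Nj j (derivative p))).coeff (N + 1) = 0 :=
          coeff_eq_zero_of_natDegree_lt (by omega)
        have h5 : (2 * X * Nj j (derivative p) : ℝ[X]).coeff (N + 1) =
            2 * (Nj j (derivative p)).coeff N := by
          have : (2 * X * Nj j (derivative p) : ℝ[X]) = C 2 * (X * Nj j (derivative p)) := by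
            rw [show (C (2:ℝ) : ℝ[X]) = 2 from map_ofNat C 2]; ring
          rw [this, coeff_C_mul, coeff_X_mul]
        rw [h4, h5, h2, coeff_derivative, Nat.succ_descFactorial_succ]
        push_cast
        ring

theorem Nj_gt (j : ℕ) : ∀ (N : ℕ) (p : ℝ[X]), p.natDegree ≤ N → N < j → Nj j p = 0 := by
  induction j with
  | zero => intro N p _ h; omega
  | succ j ih =>
    intro N p hp h
    rw [Nj_succ]
    cases N with
    | zero =>
      obtain ⟨c, rfl⟩ : ∃ c : ℝ, p = C c := ⟨_, eq_C_of_natDegree_eq_zero (by omega)⟩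
      rw [derivative_C, Nj_zero]
      simp
    | succ N =>
      rw [ih N (derivative p) (by have := natDegree_derivative_le p; omega) (by omega)]
      simp

theorem deriv_hh (n : ℕ) : derivative (hh (n + 1)) = C (Real.sqrt 2 * (n + 1)) * hh n := by
  induction n with
  | zero =>
    apply mul_left_cancel₀ sqrt2_ne
    have h := congrArg derivative (hh_succ 0)
    rw [derivative_C_mul] at h
    rw [h, hh_zero]
    simp only [derivative_one, mul_one, sub_zero]
    have : (C (Real.sqrt 2) : ℝ[X]) * C (Real.sqrt 2 * (((0:ℕ):ℝ) + 1)) = 2 := by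
      rw [← C_mul]
      have : Real.sqrt 2 * (Real.sqrt 2 * (((0:ℕ):ℝ) + 1)) = 2 := by
        rw [← mul_assoc, Real.mul_self_sqrt (by norm_num)]; norm_num
      rw [this]
      exact map_ofNat C 2
    rw [this]
    have h2 : (2 * X : ℝ[X]) = C 2 * X := by rw [show (C (2:ℝ) : ℝ[X]) = 2 from map_ofNat C 2]
    rw [h2, derivative_C_mul, derivative_X, mul_one]
    exact map_ofNat C 2
  | succ n ih =>
    apply mul_left_cancel₀ sqrt2_ne
    have h := congrArg derivative (hh_succ (n + 1))
    rw [derivative_C_mul] at h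
    rw [h]
    have h2 : (2 * X * hh (n + 1) : ℝ[X]) = C 2 * (X * hh (n + 1)) := by
      rw [show (C (2:ℝ) : ℝ[X]) = 2 from map_ofNat C 2]; ring
    rw [derivative_sub, h2, derivative_C_mul, derivative_mul, derivative_X, ih, derivative_C_mul]
    rw [show (C (2:ℝ) : ℝ[X]) = 2 from map_ofNat C 2]
    have h3 := hh_succ n
    have hs : (C (Real.sqrt 2) : ℝ[X]) * C (Real.sqrt 2) = 2 := by
      rw [← C_mul, Real.mul_self_sqrt (by norm_num)]; exact map_ofNat C 2
    have e1 : (C (Real.sqrt 2 * (((n + 1 : ℕ) : ℝ) + 1)) : ℝ[X]) =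
        C (Real.sqrt 2) * (C ((n : ℝ) + 1) + 1) := by
      rw [show (1 : ℝ[X]) = C 1 by simp, ← C_add, ← C_mul]; push_cast; ring_nf
    have e2 : (C (Real.sqrt 2 * ((n : ℝ) + 1)) : ℝ[X]) = C (Real.sqrt 2) * C ((n : ℝ) + 1) := by
      rw [← C_mul]
    rw [e1, e2]
    linear_combination (-(C (Real.sqrt 2) * C ((n : ℝ) + 1))) * h3
      + (-hh (n + 1)) * hs

theorem Nj_hh (j : ℕ) : ∀ n, Nj j (hh n) = C (n.descFactorial j : ℝ) * hh n := by
  induction j with
  | zero => intro n; simp [Nj]
  | succ j ih =>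
    intro n
    rw [Nj_succ]
    cases n with
    | zero =>
      rw [hh_zero, derivative_one, Nj_zero]
      simp
    | succ n =>
      rw [deriv_hh, Nj_C_mul, ih, Nat.succ_descFactorial_succ]
      have h3 := hh_succ n
      have e0 : (C (1 / 2) : ℝ[X]) * 2 = 1 := by
        rw [show (2 : ℝ[X]) = C 2 from (map_ofNat C 2).symm, ← C_mul]; norm_num
      have e1 : (2 * X * (C (Real.sqrt 2 * ((n : ℝ) + 1)) * (C (n.descFactorial j : ℝ) * hh n)) -
          derivative (C (Real.sqrt 2 * ((n : ℝ) + 1)) * (C (n.descFactorial j : ℝ) * hh n)) : ℝ[X]) =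
          C (Real.sqrt 2 * ((n : ℝ) + 1)) * C (n.descFactorial j : ℝ) * (2 * X * hh n - derivative (hh n)) := by
        rw [derivative_C_mul, derivative_C_mul]; ring
      rw [e1, ← h3]
      have e2 : (C (1 / 2) : ℝ[X]) * (C (Real.sqrt 2 * ((n : ℝ) + 1)) * C (n.descFactorial j : ℝ) *
          (C (Real.sqrt 2) * hh (n + 1))) =
          C ((1 / 2) * (Real.sqrt 2 * ((n : ℝ) + 1)) * (n.descFactorial j : ℝ) * Real.sqrt 2) * hh (n + 1) := by
        simp only [C_mul]; ring
      rw [e2]
      congr 2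
      have := Real.mul_self_sqrt (show (0:ℝ) ≤ 2 by norm_num)
      push_cast
      linear_combination ((n : ℝ) + 1) * (n.descFactorial j : ℝ) / 2 * this

/-- the operator with coefficient sequence `g` -/
noncomputable def W (g : ℕ → ℝ) (N : ℕ) (p : ℝ[X]) : ℝ[X] :=
  ∑ j ∈ Finset.range (N + 1), C (g j) * Nj j p

theorem W_add (g : ℕ → ℝ) (N : ℕ) (p q : ℝ[X]) : W g N (p + q) = W g N p + W g N q := by
  unfold W
  rw [← Finset.sum_add_distrib]
  refine Finset.sum_congr rfl fun j _ => ?_
  rw [Nj_add]; ring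

theorem W_C_mul (g : ℕ → ℝ) (N : ℕ) (c : ℝ) (p : ℝ[X]) : W g N (C c * p) = C c * W g N p := by
  unfold W
  rw [Finset.mul_sum]
  refine Finset.sum_congr rfl fun j _ => ?_
  rw [Nj_C_mul]; ring

theorem W_hh (g : ℕ → ℝ) (N n : ℕ) : W g N (hh n) =
    C (∑ j ∈ Finset.range (N + 1), g j * (n.descFactorial j : ℝ)) * hh n := by
  unfold W
  rw [map_sum, Finset.sum_mul]
  refine Finset.sum_congr rfl fun j _ => ?_
  rw [Nj_hh, C_mul]; ring

theorem W_indep (g : ℕ → ℝ) {N M : ℕ} {p : ℝ[X]} (hp : p.natDegree ≤ N) (hNM : N ≤ M) :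
    W g M p = W g N p := by
  unfold W
  symm
  apply Finset.sum_subset
  · intro k hk
    simp only [Finset.mem_range] at *
    omega
  · intro k _ hk
    simp only [Finset.mem_range, not_lt] at hk
    rw [Nj_gt k N p hp (by omega), mul_zero]

theorem W_top (g : ℕ → ℝ) (N : ℕ) (p : ℝ[X]) (hp : p.natDegree ≤ N) :
    (W g N p).natDegree ≤ N ∧
    (W g N p).coeff N = (∑ j ∈ Finset.range (N + 1), g j * (N.descFactorial j : ℝ)) * p.coeff N := by
  constructor
  · unfold W
    apply natDegree_sum_le_of_forall_le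
    intro j _
    exact (natDegree_C_mul_le _ _).trans (Nj_top j N p hp).1
  · unfold W
    rw [finsetSum_coeff, Finset.sum_mul]
    refine Finset.sum_congr rfl fun j _ => ?_
    rw [coeff_C_mul, (Nj_top j N p hp).2]
    ring

/-- relation with products -/
theorem W_mul (g : ℝ[X]) (a c : ℝ) (p : ℝ[X]) (N : ℕ) (hp : p.natDegree ≤ N) :
    W (fun j => ((C a + C c * X) * g).coeff j) N p =
      C a * W (fun j => g.coeff j) N p + C (c / 2) *
        (2 * X * W (fun j => g.coeff j) N (derivative p)
          - derivative (W (fun j => g.coeff j) N (derivative p))) := by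
  have hc : ∀ j, ((C a + C c * X) * g).coeff j = a * g.coeff j + c * (if j = 0 then 0 else g.coeff (j - 1)) := by
    intro j
    rw [add_mul, coeff_add, coeff_C_mul, mul_assoc, coeff_C_mul]
    cases j with
    | zero => simp
    | succ j => simp [coeff_X_mul]
  unfold W
  simp only [hc]
  have h1 : ∑ j ∈ Finset.range (N + 1), C (a * g.coeff j + c * (if j = 0 then 0 else g.coeff (j - 1))) * Nj j p
      = C a * ∑ j ∈ Finset.range (N + 1), C (g.coeff j) * Nj j p
        + C c * ∑ j ∈ Finset.range (N + 1), C (if j = 0 then 0 else g.coeff (j - 1)) * Nj j p := by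
    rw [Finset.mul_sum, Finset.mul_sum, ← Finset.sum_add_distrib]
    refine Finset.sum_congr rfl fun j _ => ?_
    rw [C_add, C_mul, C_mul]; ring
  rw [h1]
  congr 1
  rw [Finset.sum_range_succ']
  simp only [if_true, C_0, zero_mul, add_zero, Nat.add_eq_zero_iff, one_ne_zero, and_false, if_false,
    Nat.add_sub_cancel]
  have h2 : ∑ k ∈ Finset.range N, C (g.coeff k) * Nj (k + 1) p
      = ∑ k ∈ Finset.range (N + 1), C (g.coeff k) * Nj (k + 1) p := by
    rw [Finset.sum_range_succ, Nj_gt (N + 1) N p hp (by omega), mul_zero, add_zero]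
  rw [h2]
  have h3 : ∑ k ∈ Finset.range (N + 1), C (g.coeff k) * Nj (k + 1) p =
      C (1 / 2) * (2 * X * (∑ k ∈ Finset.range (N + 1), C (g.coeff k) * Nj k (derivative p))
        - derivative (∑ k ∈ Finset.range (N + 1), C (g.coeff k) * Nj k (derivative p))) := by
    rw [derivative_sum, Finset.mul_sum, ← Finset.sum_sub_distrib, Finset.mul_sum]
    refine Finset.sum_congr rfl fun k _ => ?_
    rw [Nj_succ, derivative_C_mul]
    ring
  rw [h3, ← mul_assoc, ← C_mul]
  congr 2
  ring_nf

noncomputable def gl (l : List (ℝ × ℝ)) : ℝ[X] := (l.map fun x => (C x.1 + C x.2 * X : ℝ[X])).prod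

theorem W_op (l : List (ℝ × ℝ)) : ∀ (N : ℕ) (p : ℝ[X]), p.natDegree ≤ N →
    (W (fun j => (gl l).coeff j) N p).map (algebraMap ℝ ℂ) = op l (p.map (algebraMap ℝ ℂ)) := by
  induction l with
  | nil =>
    intro N p hp
    have : W (fun j => (gl []).coeff j) N p = p := by
      unfold W gl
      rw [Finset.sum_range_succ']
      simp [coeff_one, Nj]
    rw [this]
    simp [op]
  | cons x l ih =>
    obtain ⟨a, c⟩ := x
    intro N p hp
    have e : gl ((a, c) :: l) = (C a + C c * X) * gl l := by
      unfold gl; simp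
    rw [e, W_mul _ _ _ _ _ hp, op_cons, ← ih N p hp, derivative_map,
      ← ih N (derivative p) (by have := natDegree_derivative_le p; omega), derivative_map]
    simp only [Polynomial.map_add, Polynomial.map_mul, Polynomial.map_sub, map_C, map_X,
      Complex.coe_algebraMap, Polynomial.map_ofNat]

theorem NV_of_stab {p : ℝ[X]} (h : Stab (p.map (algebraMap ℝ ℂ))) : NV p := by
  intro z hz
  by_contra him
  rcases lt_or_gt_of_ne him with h1 | h1
  · have h2 : aeval ((starRingEnd ℂ) z) p = 0 := by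
      rw [aeval_conj, hz, map_zero]
    apply h ((starRingEnd ℂ) z) (by rw [Complex.conj_im]; linarith)
    rw [eval_map_algebraMap]
    exact h2
  · apply h z h1
    rw [eval_map_algebraMap]
    exact hz

theorem stab_of_NV {p : ℝ[X]} (h : NV p) : Stab (p.map (algebraMap ℝ ℂ)) := by
  intro z hz h0
  rw [eval_map_algebraMap] at h0
  exact hz.ne' (h z h0)

theorem norm_prod_ge (s : Multiset ℝ) (z : ℂ) :
    |z.im| ^ s.card ≤ ‖aeval z (s.map fun r => (X - C r : ℝ[X])).prod‖ := by
  induction s using Multiset.induction_on with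
  | empty => simp
  | cons a s ih =>
    rw [Multiset.map_cons, Multiset.prod_cons, map_mul, norm_mul, Multiset.card_cons, pow_succ,
      mul_comm]
    have h1 : |z.im| ≤ ‖aeval z (X - C a : ℝ[X])‖ := by
      have : aeval z (X - C a : ℝ[X]) = z - (a : ℂ) := by simp
      rw [this]
      have := Complex.abs_im_le_norm (z - (a : ℂ))
      simpa using this
    gcongr

/-- quantitative inequality -/
def Ineq (p : ℝ[X]) (N : ℕ) (g : ℕ → ℝ) : Prop := ∀ z : ℂ,
  |(∑ j ∈ Finset.range (N + 1), g j * (N.descFactorial j : ℝ)) * p.coeff N| * |z.im| ^ N ≤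
    ‖∑ j ∈ Finset.range (N + 1), (g j : ℂ) * aeval z (Nj j p)‖

theorem aeval_W (g : ℕ → ℝ) (N : ℕ) (p : ℝ[X]) (z : ℂ) :
    aeval z (W g N p) = ∑ j ∈ Finset.range (N + 1), (g j : ℂ) * aeval z (Nj j p) := by
  unfold W
  rw [map_sum]
  refine Finset.sum_congr rfl fun j _ => ?_
  rw [map_mul, aeval_C]
  simp

theorem Ineq_gl (l : List (ℝ × ℝ)) (hl : ∀ x ∈ l, 0 < x.1 ∧ 0 ≤ x.2) (c : ℝ) (p : ℝ[X]) (hp : NV p)
    (N : ℕ) (hN : p.natDegree = N) : Ineq p N (fun j => c * (gl l).coeff j) := by
  intro z
  have hst : NV (W (fun j => (gl l).coeff j) N p) := by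
    apply NV_of_stab
    rw [W_op l N p hN.le]
    exact op_stab l hl _ (stab_of_NV hp)
  obtain ⟨hd, htop⟩ := W_top (fun j => (gl l).coeff j) N p hN.le
  set Q := W (fun j => (gl l).coeff j) N p with hQ
  set lam := ∑ j ∈ Finset.range (N + 1), (gl l).coeff j * (N.descFactorial j : ℝ) with hlam
  have e1 : ∑ j ∈ Finset.range (N + 1), ((c * (gl l).coeff j : ℝ) : ℂ) * aeval z (Nj j p)
      = (c : ℂ) * aeval z Q := by
    rw [hQ, aeval_W, Finset.mul_sum]
    refine Finset.sum_congr rfl fun j _ => ?_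
    push_cast; ring
  have e2 : ∑ j ∈ Finset.range (N + 1), c * (gl l).coeff j * (N.descFactorial j : ℝ) = c * lam := by
    rw [hlam, Finset.mul_sum]
    refine Finset.sum_congr rfl fun j _ => ?_
    ring
  rw [e1, e2, norm_mul, Complex.norm_real, Real.norm_eq_abs, mul_assoc, abs_mul, mul_assoc]
  apply mul_le_mul_of_nonneg_left _ (abs_nonneg c)
  by_cases h0 : lam * p.coeff N = 0
  · rw [h0]; simp
  · have hdeg : Q.natDegree = N := by
      apply le_antisymm hd
      apply le_natDegree_of_ne_zero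
      rw [htop]; exact h0
    have hQ0 : Q ≠ 0 := by
      intro h
      rw [h] at htop
      simp at htop
      rcases htop with h | h
      · exact h0 (by rw [h]; simp)
      · exact h0 (by rw [h]; simp)
    obtain ⟨s, hs, hQs⟩ := NV_prod N Q hdeg hQ0 hst
    have hlc : Q.leadingCoeff = lam * p.coeff N := by rw [leadingCoeff, hdeg, htop]
    rw [hQs, hlc, map_mul, norm_mul, aeval_C, Complex.coe_algebraMap, Complex.norm_real,
      Real.norm_eq_abs]
    have := norm_prod_ge s z
    rw [hs] at this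
    gcongr

/-- closedness under limits -/
theorem Ineq_limit {p : ℝ[X]} {N : ℕ} {ι : Type*} {F' : Filter ι} [F'.NeBot] {G' : ι → ℕ → ℝ}
    {g : ℕ → ℝ} (h : ∀ᶠ i in F', Ineq p N (G' i))
    (hlim : ∀ j ≤ N, Filter.Tendsto (fun i => G' i j) F' (nhds (g j))) : Ineq p N g := by
  intro z
  have h1 : Filter.Tendsto (fun i => |(∑ j ∈ Finset.range (N + 1), G' i j * (N.descFactorial j : ℝ)) *
      p.coeff N| * |z.im| ^ N) F'
      (nhds (|(∑ j ∈ Finset.range (N + 1), g j * (N.descFactorial j : ℝ)) * p.coeff N| * |z.im| ^ N)) := by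
    apply Filter.Tendsto.mul_const
    apply Filter.Tendsto.abs
    apply Filter.Tendsto.mul_const
    apply tendsto_finsetSum
    intro j hj
    exact (hlim j (by have := Finset.mem_range.mp hj; omega)).mul_const _
  have h2 : Filter.Tendsto (fun i => ‖∑ j ∈ Finset.range (N + 1), ((G' i j : ℝ) : ℂ) * aeval z (Nj j p)‖) F'
      (nhds ‖∑ j ∈ Finset.range (N + 1), (g j : ℂ) * aeval z (Nj j p)‖) := by
    apply Filter.Tendsto.norm
    apply tendsto_finsetSum
    intro j hj
    exact ((Complex.continuous_ofReal.tendsto _).comp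
      (hlim j (by have := Finset.mem_range.mp hj; omega))).mul_const _
  refine le_of_tendsto_of_tendsto h1 h2 ?_
  filter_upwards [h] with i hi
  exact hi z

end Pool.Agent.H415R3.FP
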