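import Mathlib
import Pool.Agent.H415R3.WOp

set_option autoImplicit false

/-! Approximation of the exponential-type symbol by products. -/

namespace Pool.Agent.H415R3.FP

open Polynomial

/-- differences -/
noncomputable def bb (β : ℕ → ℝ) (j : ℕ) : ℝ := L β ((X - 1) ^ j)

noncomputable def HM (β : ℕ → ℝ) (M : ℕ) : ℝ[X] :=
  ∑ j ∈ Finset.range (M + 1), C ((M.choose j : ℝ) * bb β (M - j)) * X ^ j

theorem HM_eq (β : ℕ → ℝ) (M : ℕ) : (F β 1 M).comp (X - 1) = HM β M := by
  apply Polynomial.funext
  intro z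
  rw [eval_comp, F_eval, one_mul]
  have e : (X + C (eval z (X - 1 : ℝ[X])) : ℝ[X]) = C z + (X - 1) := by
    simp only [eval_sub, eval_X, eval_one, C_sub, C_1]; ring
  rw [e, add_pow, map_sum]
  unfold HM
  rw [eval_finsetSum]
  refine Finset.sum_congr rfl fun j _ => ?_
  have : (C z ^ j * (X - 1) ^ (M - j) * (M.choose j : ℝ[X])) =
      C ((M.choose j : ℝ) * z ^ j) * ((X - 1) ^ (M - j)) := by
    rw [C_mul, C_pow, C_eq_natCast]
    ring
  rw [this, L_C_mul]
  unfold bb
  simp
  ring

noncomputable def gp (β : ℕ → ℝ) (M : ℕ) : ℝ[X] :=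
  ∑ j ∈ Finset.range (M + 1), C ((M.choose j : ℝ) * bb β j / (M : ℝ) ^ j) * X ^ j

theorem gp_coeff (β : ℕ → ℝ) (M j : ℕ) (hj : j ≤ M) :
    (gp β M).coeff j = (M.choose j : ℝ) * bb β j / (M : ℝ) ^ j := by
  unfold gp
  rw [finsetSum_coeff]
  simp only [coeff_C_mul, coeff_X_pow]
  rw [Finset.sum_eq_single j]
  · simp
  · intro b _ hb
    rw [if_neg (by omega), mul_zero]
  · intro hb
    exact absurd (Finset.mem_range.mpr (by omega)) hb

theorem gp_natDegree (β : ℕ → ℝ) (M : ℕ) : (gp β M).natDegree ≤ M := by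
  unfold gp
  apply natDegree_sum_le_of_forall_le
  intro j hj
  refine (natDegree_C_mul_X_pow_le _ _).trans ?_
  have := Finset.mem_range.mp hj
  omega

theorem gp_aeval (β : ℕ → ℝ) (M : ℕ) (hM : 1 ≤ M) (t : ℂ) (ht : t ≠ 0) :
    aeval t (gp β M) = (t / M) ^ M * aeval ((M : ℂ) / t - 1) (F β 1 M) := by
  have hMc : (M : ℂ) ≠ 0 := by
    have : M ≠ 0 := by omega
    exact_mod_cast this
  have h1 : aeval ((M : ℂ) / t - 1) (F β 1 M) = aeval ((M : ℂ) / t) (HM β M) := by
    rw [← HM_eq, aeval_comp]
    congr 1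
    simp
  rw [h1]
  unfold gp HM
  rw [map_sum, map_sum, Finset.mul_sum,
    ← Finset.sum_range_reflect (fun j => (t / M) ^ M * aeval ((M : ℂ) / t)
      (C ((M.choose j : ℝ) * bb β (M - j)) * X ^ j))]
  refine Finset.sum_congr rfl fun j hj => ?_
  have hj' : j ≤ M := by have := Finset.mem_range.mp hj; omega
  have e1 : M + 1 - 1 - j = M - j := by omega
  have e2 : M - (M - j) = j := by omega
  rw [e1, e2, Nat.choose_symm hj']
  simp only [map_mul, aeval_C, map_pow, aeval_X, Complex.coe_algebraMap]
  push_cast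
  have e3 : (t / (M : ℂ)) ^ M = (t / (M : ℂ)) ^ (M - j) * (t / (M : ℂ)) ^ j := by
    rw [← pow_add]; congr 1; omega
  rw [e3]
  have e4 : (t / (M : ℂ)) ^ (M - j) * ((M : ℂ) / t) ^ (M - j) = 1 := by
    rw [← mul_pow]
    have : t / (M : ℂ) * ((M : ℂ) / t) = 1 := by field_simp
    rw [this, one_pow]
  rw [div_pow t (M : ℂ) j]
  linear_combination (-((M.choose j : ℂ) * (bb β j : ℂ) * (t ^ j / (M : ℂ) ^ j))) * e4

theorem gp_RR {β : ℕ → ℝ} (hG : G β 1) (M : ℕ) (hM : 1 ≤ M) : RR (gp β M) := by
  rcases hG M with h | h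
  · left
    have h1 := HM_eq β M
    rw [h, zero_comp] at h1
    ext j
    rcases Nat.lt_or_ge M j with hj | hj
    · rw [coeff_eq_zero_of_natDegree_lt ((gp_natDegree β M).trans_lt hj), coeff_zero]
    · rw [gp_coeff _ _ _ hj, coeff_zero]
      have h2 : (HM β M).coeff (M - j) = (M.choose (M - j) : ℝ) * bb β j := by
        unfold HM
        rw [finsetSum_coeff]
        simp only [coeff_C_mul, coeff_X_pow]
        rw [Finset.sum_eq_single (M - j)]
        · have : M - (M - j) = j := by omega
          simp [this]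
        · intro b _ hb
          rw [if_neg (by omega), mul_zero]
        · intro hb
          exact absurd (Finset.mem_range.mpr (by omega)) hb
      rw [← h1, coeff_zero, Nat.choose_symm hj] at h2
      rw [← h2, zero_div]
  · right
    intro t ht
    by_contra him
    have ht0 : t ≠ 0 := by rintro rfl; simp at him
    rw [gp_aeval β M hM t ht0] at ht
    have hMc : (M : ℂ) ≠ 0 := by
      have : M ≠ 0 := by omega
      exact_mod_cast this
    rcases mul_eq_zero.mp ht with h1 | h1
    · exact (pow_ne_zero M (div_ne_zero ht0 hMc)) h1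
    · have h2 := h _ h1
      rw [Complex.sub_im, Complex.one_im, sub_zero, div_eq_mul_inv] at h2
      have e : ((M : ℂ) * t⁻¹).im = (M : ℝ) * (t⁻¹).im := by
        have : (M : ℂ) = ((M : ℝ) : ℂ) := by push_cast; rfl
        rw [this, Complex.im_ofReal_mul]
      rw [e, Complex.inv_im] at h2
      have hn : 0 < Complex.normSq t := Complex.normSq_pos.mpr ht0
      have hMr : (M : ℝ) ≠ 0 := by
        have : M ≠ 0 := by omega
        exact_mod_cast this
      rcases mul_eq_zero.mp h2 with h3 | h3
      · exact hMr h3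
      · rcases div_eq_zero_iff.mp h3 with h4 | h4
        · exact him (by linarith)
        · exact hn.ne' h4

theorem Ineq_taylor {g : ℝ[X]} (hg : RR g) (hpos : ∀ j, 0 ≤ g.coeff j) (ε : ℝ) (hε : 0 < ε)
    (p : ℝ[X]) (hp : NV p) (N : ℕ) (hN : p.natDegree = N) :
    Ineq p N (fun j => (taylor ε g).coeff j) := by
  rcases hg with h | h
  · intro z
    simp [h]
  · by_cases hg0 : g = 0
    · intro z
      simp [hg0]
    obtain ⟨s, hs, hgs⟩ := NV_prod _ g rfl hg0 h
    have hlc : 0 < g.leadingCoeff := lt_of_le_of_ne (hpos _) (leadingCoeff_ne_zero.mpr hg0).symm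
    have hneg : ∀ r ∈ s, r ≤ 0 := by
      intro r hr
      by_contra hcon
      push Not at hcon
      have h1 : g.eval r = 0 := by
        rw [hgs, eval_mul]
        have : (s.map fun r => (X - C r : ℝ[X])).prod.eval r = 0 := by
          obtain ⟨t, rfl⟩ := Multiset.exists_cons_of_mem hr
          rw [Multiset.map_cons, Multiset.prod_cons, eval_mul]
          simp
        rw [this, mul_zero]
      rw [eval_eq_sum_range] at h1
      have h2 : g.coeff g.natDegree * r ^ g.natDegree ≤
          ∑ i ∈ Finset.range (g.natDegree + 1), g.coeff i * r ^ i :=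
        Finset.single_le_sum (f := fun i => g.coeff i * r ^ i)
          (fun i _ => mul_nonneg (hpos i) (by positivity)) (Finset.mem_range.mpr (by omega))
      rw [h1] at h2
      have : 0 < g.coeff g.natDegree * r ^ g.natDegree := mul_pos hlc (by positivity)
      linarith
    set l : List (ℝ × ℝ) := s.toList.map (fun r => (ε - r, (1:ℝ))) with hl
    have hl' : ∀ x ∈ l, 0 < x.1 ∧ 0 ≤ x.2 := by
      intro x hx
      rw [hl, List.mem_map] at hx
      obtain ⟨r, hr, rfl⟩ := hx
      have := hneg r (Multiset.mem_toList.mp hr)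
      exact ⟨by simp only; linarith, by simp⟩
    have he : taylor ε g = C g.leadingCoeff * gl l := by
      have h1 : gl l = (s.map fun r => (X + C (ε - r) : ℝ[X])).prod := by
        unfold gl
        rw [hl, List.map_map]
        have : (s.map fun r => (X + C (ε - r) : ℝ[X])) =
            ((s.toList.map fun r => (X + C (ε - r) : ℝ[X]) : List ℝ[X]) : Multiset ℝ[X]) := by
          rw [← Multiset.map_coe, Multiset.coe_toList]
        rw [this, Multiset.prod_coe]
        congr 1
        apply List.map_congr_left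
        intro r _
        simp only [Function.comp, C_1]
        ring
      rw [h1, taylor_apply]
      conv_lhs => rw [hgs]
      rw [mul_comp, C_comp, multiset_prod_comp, Multiset.map_map]
      congr 2
      apply Multiset.map_congr rfl
      intro r _
      simp only [Function.comp, sub_comp, X_comp, C_comp, C_sub]
      ring
    rw [he]
    have := Ineq_gl l hl' g.leadingCoeff p hp N hN
    convert this using 2
    rw [coeff_C_mul]

theorem Ineq_zero_limit {g : ℝ[X]} (hg : RR g) (hpos : ∀ j, 0 ≤ g.coeff j)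
    (p : ℝ[X]) (hp : NV p) (N : ℕ) (hN : p.natDegree = N) :
    Ineq p N (fun j => g.coeff j) := by
  apply Ineq_limit (F' := nhdsWithin (0:ℝ) (Set.Ioi 0)) (G' := fun ε j => (taylor ε g).coeff j)
  · filter_upwards [self_mem_nhdsWithin] with ε hε
    exact Ineq_taylor hg hpos ε hε p hp N hN
  · intro j _
    have h1 : ∀ ε : ℝ, (taylor ε g).coeff j = (hasseDeriv j g).eval ε := fun ε => taylor_coeff ε g j
    simp only [h1]
    have h2 : g.coeff j = (hasseDeriv j g).eval 0 := by
      rw [← h1, taylor_zero]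
    rw [h2]
    exact ((hasseDeriv j g).continuous.tendsto 0).mono_left nhdsWithin_le_nhds

theorem choose_lim (j : ℕ) : Filter.Tendsto (fun M : ℕ => (M.choose j : ℝ) / (M : ℝ) ^ j)
    Filter.atTop (nhds (1 / (j.factorial : ℝ))) := by
  have h : Filter.Tendsto (fun M : ℕ => (M.descFactorial j : ℝ) / (M : ℝ) ^ j)
      Filter.atTop (nhds 1) := by
    induction j with
    | zero => simp
    | succ j ih =>
      have h1 : Filter.Tendsto (fun M : ℕ => ((M : ℝ) - j) / (M : ℝ)) Filter.atTop (nhds 1) := by
        have h2 : Filter.Tendsto (fun M : ℕ => 1 - (j : ℝ) / (M : ℝ)) Filter.atTop (nhds (1 - 0)) :=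
          tendsto_const_nhds.sub (tendsto_const_div_atTop_nhds_zero_nat (j : ℝ))
        rw [sub_zero] at h2
        refine h2.congr' ?_
        filter_upwards [Filter.eventually_gt_atTop 0] with M hM
        have : (M : ℝ) ≠ 0 := by positivity
        field_simp
      have h3 := h1.mul ih
      rw [mul_one] at h3
      refine h3.congr' ?_
      filter_upwards [Filter.eventually_gt_atTop j] with M hM
      rw [Nat.descFactorial_succ]
      have e : ((M - j : ℕ) : ℝ) = (M : ℝ) - j := by
        rw [Nat.cast_sub hM.le]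
      push_cast
      rw [e, pow_succ]
      have hM0 : (M : ℝ) ≠ 0 := by
        have : 0 < M := by omega
        positivity
      field_simp
  have h2 := h.div_const (j.factorial : ℝ)
  refine h2.congr fun M => ?_
  have h3 : (M.descFactorial j : ℝ) = (j.factorial : ℝ) * (M.choose j : ℝ) := by
    exact_mod_cast Nat.descFactorial_eq_factorial_mul_choose M j
  rw [h3]
  have hj : (j.factorial : ℝ) ≠ 0 := by exact_mod_cast Nat.factorial_ne_zero j
  field_simp

/-- the target inequality -/
theorem Ineq_bb {β : ℕ → ℝ} (hG : G β 1) (hb : ∀ j, 0 ≤ bb β j)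
    (p : ℝ[X]) (hp : NV p) (N : ℕ) (hN : p.natDegree = N) :
    Ineq p N (fun j => bb β j / (j.factorial : ℝ)) := by
  apply Ineq_limit (F' := (Filter.atTop : Filter ℕ)) (G' := fun M j => (gp β M).coeff j)
  · filter_upwards [Filter.eventually_ge_atTop 1] with M hM
    apply Ineq_zero_limit (gp_RR hG M hM) _ p hp N hN
    intro j
    rcases Nat.lt_or_ge M j with hj | hj
    · rw [coeff_eq_zero_of_natDegree_lt ((gp_natDegree β M).trans_lt hj)]
    · rw [gp_coeff _ _ _ hj]
      have := hb j
      positivity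
  · intro j _
    have h1 := (choose_lim j).mul_const (bb β j)
    have h2 : 1 / (j.factorial : ℝ) * bb β j = bb β j / (j.factorial : ℝ) := by ring
    rw [h2] at h1
    refine h1.congr' ?_
    filter_upwards [Filter.eventually_ge_atTop j] with M hM
    rw [gp_coeff _ _ _ hM]
    ring

/-- eigenvalues -/
theorem eig_bb (β : ℕ → ℝ) (N n : ℕ) (hn : n ≤ N) :
    ∑ j ∈ Finset.range (N + 1), bb β j / (j.factorial : ℝ) * (n.descFactorial j : ℝ) = β n := by
  have h1 : (X : ℝ[X]) ^ n = ∑ j ∈ Finset.range (n + 1), (X - 1) ^ j * (n.choose j : ℝ[X]) := by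
    have h := add_pow (X - 1 : ℝ[X]) 1 n
    rw [sub_add_cancel] at h
    rw [h]
    simp
  have h2 : β n = ∑ j ∈ Finset.range (n + 1), (n.choose j : ℝ) * bb β j := by
    rw [← L_X_pow β n, h1, map_sum]
    refine Finset.sum_congr rfl fun j _ => ?_
    rw [mul_comm, ← C_eq_natCast, L_C_mul]
    rfl
  rw [h2]
  symm
  have h3 : ∀ j, bb β j / (j.factorial : ℝ) * (n.descFactorial j : ℝ) = (n.choose j : ℝ) * bb β j := by
    intro j
    have h3 : (n.descFactorial j : ℝ) = (j.factorial : ℝ) * (n.choose j : ℝ) := by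
      exact_mod_cast Nat.descFactorial_eq_factorial_mul_choose n j
    rw [h3]
    have hj : (j.factorial : ℝ) ≠ 0 := by exact_mod_cast Nat.factorial_ne_zero j
    field_simp
  simp only [h3]
  apply Finset.sum_subset
  · intro k hk
    simp only [Finset.mem_range] at *
    omega
  · intro k _ hk
    simp only [Finset.mem_range, not_lt] at hk
    rw [Nat.choose_eq_zero_of_lt (by omega)]
    simp

/-- Piotrowski's theorem in the form needed. -/
theorem W_RR {β : ℕ → ℝ} (hβ0 : ∀ n, 0 ≤ β n) (hG : G β 1) (hmono : ∀ m, β m ≤ β (m + 1))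
    (p : ℝ[X]) (hp : RR p) : RR (W (fun j => bb β j / (j.factorial : ℝ)) p.natDegree p) := by
  by_cases hp0 : p = 0
  · left
    rw [hp0]
    unfold W
    simp [Nj_zero]
  have hNV := hp.resolve_left hp0
  have hb : ∀ j, 0 ≤ bb β j := fun j => diff_nonneg hβ0 hG hmono j
  have hI := Ineq_bb hG hb p hNV p.natDegree rfl
  set N := p.natDegree with hN
  rcases (hβ0 N).lt_or_eq with h | h
  · right
    intro z hz
    by_contra him
    have h1 := hI z
    rw [← aeval_W, hz, norm_zero, eig_bb β N N le_rfl] at h1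
    have h2 : p.coeff N ≠ 0 := by
      have := leadingCoeff_ne_zero.mpr hp0
      rwa [leadingCoeff] at this
    have h3 : 0 < |β N * p.coeff N| * |z.im| ^ N := by
      apply mul_pos (abs_pos.mpr (mul_ne_zero h.ne' h2))
      apply pow_pos (abs_pos.mpr him)
    linarith
  · left
    have hmon := monotone_nat_of_le_succ hmono
    have hz : ∀ n ≤ N, β n = 0 := fun n hn => le_antisymm (by rw [h]; exact hmon hn) (hβ0 n)
    -- all differences vanish
    have hbz : ∀ j ≤ N, bb β j = 0 := by
      intro j hj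
      unfold bb
      have : ((X - 1 : ℝ[X]) ^ j) = ∑ i ∈ Finset.range (j + 1), C ((-1 : ℝ) ^ (j - i) * (j.choose i : ℝ)) * X ^ i := by
        rw [sub_eq_add_neg, add_pow]
        refine Finset.sum_congr rfl fun i _ => ?_
        rw [C_mul, C_pow, C_neg, C_1, C_eq_natCast]
        ring
      rw [this, map_sum]
      apply Finset.sum_eq_zero
      intro i hi
      rw [L_C_mul, L_X_pow, hz i (by have := Finset.mem_range.mp hi; omega), mul_zero]
    unfold W
    apply Finset.sum_eq_zero
    intro j hj
    have h0 := hbz j (by have := Finset.mem_range.mp hj; omega)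
    simp [h0]

end Pool.Agent.H415R3.FP
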