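import Mathlib

namespace Pool.Agent.H415R3.CZ

open scoped InnerProductSpace ComplexConjugate

variable {H K : Type*} [NormedAddCommGroup H] [InnerProductSpace ℂ H]
  [NormedAddCommGroup K] [InnerProductSpace ℂ K]

/-- The Hilbert space sum of `m` copies of `H`. -/
abbrev Copies (H : Type*) [NormedAddCommGroup H] (m : ℕ) : Type _ := PiLp 2 (fun _ : Fin m => H)

/-- The operator on the sum of `m` copies of `H` given by an `m` by `m` matrix of operators. -/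
noncomputable def matOp {m : ℕ} (F : Matrix (Fin m) (Fin m) (H →L[ℂ] H)) :
    Copies H m →L[ℂ] Copies H m :=
  (PiLp.continuousLinearEquiv 2 ℂ (fun _ : Fin m => H)).symm.toContinuousLinearMap ∘L
   (ContinuousLinearMap.pi fun i => ∑ j, (F i j) ∘L (ContinuousLinearMap.proj j)) ∘L
   (PiLp.continuousLinearEquiv 2 ℂ (fun _ : Fin m => H)).toContinuousLinearMap

theorem matOp_apply {m : ℕ} (F : Matrix (Fin m) (Fin m) (H →L[ℂ] H)) (x : Copies H m) (i : Fin m) :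
    matOp F x i = ∑ j, F i j (x j) := by
  simp [matOp]

/-- For a unital subalgebra `A` of `B(H)` and a map `φ : A → B(K)`, the statement that every
amplification of `φ` to matrices over `A` has norm at most `C`. -/
def CBLe (A : Subalgebra ℂ (H →L[ℂ] H)) (φ : A → (K →L[ℂ] K)) (C : ℝ) : Prop :=
  ∀ (m : ℕ) (F : Matrix (Fin m) (Fin m) A),
    ‖matOp (F.map φ)‖ ≤ C * ‖matOp (F.map (fun a => (a : H →L[ℂ] H)))‖

/-- Compression type maps are completely bounded. -/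
theorem cb_of_factor (A : Subalgebra ℂ (H →L[ℂ] H)) (φ : A → (K →L[ℂ] K))
    (L : H →L[ℂ] K) (R : K →L[ℂ] H) (h : ∀ a : A, φ a = L ∘L (a : H →L[ℂ] H) ∘L R) :
    CBLe A φ (‖L‖ * ‖R‖) := by
  intro m F
  refine ContinuousLinearMap.opNorm_le_bound _ (by positivity) fun x => ?_
  set G := matOp (F.map (fun a => (a : H →L[ℂ] H))) with hG
  set Rx : Copies H m := WithLp.toLp 2 (fun j => R (x j)) with hRx
  have key : ∀ i, matOp (F.map φ) x i = L (G Rx i) := by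
    intro i
    rw [matOp_apply, hG, matOp_apply, map_sum]
    refine Finset.sum_congr rfl fun j _ => ?_
    simp [h, hRx]
  have h1 : ‖matOp (F.map φ) x‖ ≤ ‖L‖ * ‖G Rx‖ := by
    rw [PiLp.norm_eq_of_L2, PiLp.norm_eq_of_L2]
    rw [show ‖L‖ * √(∑ i, ‖G Rx i‖ ^ 2) = √(‖L‖ ^ 2 * ∑ i, ‖G Rx i‖ ^ 2) by
      rw [Real.sqrt_mul (by positivity), Real.sqrt_sq (norm_nonneg _)]]
    apply Real.sqrt_le_sqrt
    rw [Finset.mul_sum]
    refine Finset.sum_le_sum fun i _ => ?_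
    rw [key i, ← mul_pow]
    exact pow_le_pow_left₀ (norm_nonneg _) (L.le_opNorm _) 2
  have h2 : ‖Rx‖ ≤ ‖R‖ * ‖x‖ := by
    rw [PiLp.norm_eq_of_L2, PiLp.norm_eq_of_L2]
    rw [show ‖R‖ * √(∑ i, ‖x i‖ ^ 2) = √(‖R‖ ^ 2 * ∑ i, ‖x i‖ ^ 2) by
      rw [Real.sqrt_mul (by positivity), Real.sqrt_sq (norm_nonneg _)]]
    apply Real.sqrt_le_sqrt
    rw [Finset.mul_sum]
    refine Finset.sum_le_sum fun i _ => ?_
    rw [← mul_pow]
    exact pow_le_pow_left₀ (norm_nonneg _) (R.le_opNorm _) 2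
  calc ‖matOp (F.map φ) x‖ ≤ ‖L‖ * ‖G Rx‖ := h1
    _ ≤ ‖L‖ * (‖G‖ * (‖R‖ * ‖x‖)) := by
        gcongr
        exact (G.le_opNorm _).trans (by gcongr)
    _ = ‖L‖ * ‖R‖ * ‖G‖ * ‖x‖ := by ring

/-- A sum of two compressions with orthogonal-type estimates is completely contractive
(the maps involved may be conjugate linear). -/
theorem cc_of_two (A : Subalgebra ℂ (H →L[ℂ] H)) (φ : A → (H →L[ℂ] H))
    (B1 B2 C1 C2 : H → H)
    (hB : ∀ x, ‖B1 x‖ ^ 2 + ‖B2 x‖ ^ 2 ≤ ‖x‖ ^ 2)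
    (hC : ∀ x y, ‖C1 x + C2 y‖ ^ 2 ≤ ‖x‖ ^ 2 + ‖y‖ ^ 2)
    (hC1 : ∀ x y, C1 (x + y) = C1 x + C1 y) (hC2 : ∀ x y, C2 (x + y) = C2 x + C2 y)
    (h : ∀ (a : A) (x : H), φ a x = C1 ((a : H →L[ℂ] H) (B1 x)) + C2 ((a : H →L[ℂ] H) (B2 x))) :
    CBLe A φ 1 := by
  intro m F
  rw [one_mul]
  refine ContinuousLinearMap.opNorm_le_bound _ (by positivity) fun x => ?_
  set G := matOp (F.map (fun a => (a : H →L[ℂ] H))) with hG
  set x1 : Copies H m := WithLp.toLp 2 (fun j => B1 (x j)) with hx1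
  set x2 : Copies H m := WithLp.toLp 2 (fun j => B2 (x j)) with hx2
  have z1 : C1 0 = 0 := by simpa using hC1 0 0
  have z2 : C2 0 = 0 := by simpa using hC2 0 0
  have s1 : ∀ (s : Finset (Fin m)) (y : Fin m → H), C1 (∑ j ∈ s, y j) = ∑ j ∈ s, C1 (y j) := by
    intro s y
    exact map_sum (AddMonoidHom.mk' C1 hC1) y s
  have s2 : ∀ (s : Finset (Fin m)) (y : Fin m → H), C2 (∑ j ∈ s, y j) = ∑ j ∈ s, C2 (y j) := by
    intro s y
    exact map_sum (AddMonoidHom.mk' C2 hC2) y s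
  have key : ∀ i, matOp (F.map φ) x i = C1 (G x1 i) + C2 (G x2 i) := by
    intro i
    rw [matOp_apply, hG, matOp_apply, matOp_apply, s1, s2, ← Finset.sum_add_distrib]
    refine Finset.sum_congr rfl fun j _ => ?_
    simp [h, hx1, hx2]
  have h1 : ‖matOp (F.map φ) x‖ ^ 2 ≤ ‖G x1‖ ^ 2 + ‖G x2‖ ^ 2 := by
    rw [PiLp.norm_sq_eq_of_L2, PiLp.norm_sq_eq_of_L2, PiLp.norm_sq_eq_of_L2,
      ← Finset.sum_add_distrib]
    refine Finset.sum_le_sum fun i _ => ?_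
    rw [key i]
    exact hC _ _
  have h2 : ‖x1‖ ^ 2 + ‖x2‖ ^ 2 ≤ ‖x‖ ^ 2 := by
    rw [PiLp.norm_sq_eq_of_L2, PiLp.norm_sq_eq_of_L2, PiLp.norm_sq_eq_of_L2,
      ← Finset.sum_add_distrib]
    refine Finset.sum_le_sum fun i _ => ?_
    exact hB _
  have h3 : ‖G x1‖ ^ 2 ≤ ‖G‖ ^ 2 * ‖x1‖ ^ 2 := by
    rw [← mul_pow]; exact pow_le_pow_left₀ (norm_nonneg _) (G.le_opNorm _) 2
  have h4 : ‖G x2‖ ^ 2 ≤ ‖G‖ ^ 2 * ‖x2‖ ^ 2 := by
    rw [← mul_pow]; exact pow_le_pow_left₀ (norm_nonneg _) (G.le_opNorm _) 2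
  have h5 : ‖matOp (F.map φ) x‖ ^ 2 ≤ (‖G‖ * ‖x‖) ^ 2 := by
    rw [mul_pow]
    nlinarith [sq_nonneg ‖G‖]
  exact (pow_le_pow_iff_left₀ (norm_nonneg _) (by positivity) two_ne_zero).1 h5

end Pool.Agent.H415R3.CZ
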