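import Pool.Agent.H415R3.CZ1

namespace Pool.Agent.H415R3.CZ

open scoped InnerProductSpace ComplexConjugate
open Matrix

abbrev M2 := Matrix (Fin 2) (Fin 2) ℂ
abbrev I4 := Fin 2 ⊕ Fin 2
abbrev I8 := I4 ⊕ I4

noncomputable def W : M2 := !![2, 6; 0, 1/2]
noncomputable def Wi : M2 := !![1/2, -6; 0, 2]
noncomputable def T : M2 := !![1/2, 469/250; 0, -(1/2)]
noncomputable def D : M2 := !![-(3/20), 0; 0, 3/20]

theorem W_Wi : W * Wi = 1 := by
  ext i j; fin_cases i <;> fin_cases j <;> norm_num [W, Wi, Matrix.mul_apply, Fin.sum_univ_two]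

theorem Wi_W : Wi * W = 1 := by
  ext i j; fin_cases i <;> fin_cases j <;> norm_num [W, Wi, Matrix.mul_apply, Fin.sum_univ_two]

noncomputable def Om1 (p q : M2) : Matrix I4 I4 ℂ :=
  Matrix.fromBlocks ((1/2:ℂ) • (p + q)) ((1/2:ℂ) • ((p - q) * Wi))
    ((1/2:ℂ) • (W * (p - q))) ((1/2:ℂ) • (W * (p + q) * Wi))

theorem Om1_one : Om1 1 1 = 1 := by
  have h : (1/2:ℂ) • ((1:M2) + 1) = 1 := by
    rw [← two_smul ℂ (1:M2), smul_smul]; norm_num
  rw [Om1, sub_self, Matrix.zero_mul, Matrix.mul_zero, smul_zero, h,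
    ← Matrix.fromBlocks_one]
  congr 1
  rw [← two_smul ℂ (1:M2), Matrix.mul_smul, Matrix.smul_mul, smul_smul, Matrix.mul_one, W_Wi]
  norm_num

theorem Om1_add (p q p' q' : M2) : Om1 (p + p') (q + q') = Om1 p q + Om1 p' q' := by
  rw [Om1, Om1, Om1, Matrix.fromBlocks_add]
  congr 1
  · module
  · rw [← smul_add, ← Matrix.add_mul]; congr 2; abel
  · rw [← smul_add, ← Matrix.mul_add]; congr 2; abel
  · rw [← smul_add, ← Matrix.add_mul, ← Matrix.mul_add]; congr 3; abel

theorem Om1_smul (c : ℂ) (p q : M2) : Om1 (c • p) (c • q) = c • Om1 p q := by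
  rw [Om1, Om1, Matrix.fromBlocks_smul]
  congr 1
  · module
  · rw [← smul_sub, Matrix.smul_mul, smul_comm]
  · rw [← smul_sub, Matrix.mul_smul, smul_comm]
  · rw [← smul_add, Matrix.mul_smul, Matrix.smul_mul, smul_comm]

theorem mid (x y : M2) : (x * Wi) * (W * y) = x * y := by
  rw [Matrix.mul_assoc, ← Matrix.mul_assoc Wi, Wi_W, Matrix.one_mul]

theorem Om1_mul (p q p' q' : M2) : Om1 (p * p') (q * q') = Om1 p q * Om1 p' q' := by
  rw [Om1, Om1, Om1, Matrix.fromBlocks_multiply]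
  simp only [Matrix.smul_mul, Matrix.mul_smul, smul_smul]
  congr 1
  · rw [mid, ← smul_add]
    have : (p + q) * (p' + q') + (p - q) * (p' - q') = (2:ℂ) • (p * p' + q * q') := by
      rw [two_smul]; noncomm_ring
    rw [this, smul_smul]; norm_num
  · have e1 : (p - q) * Wi * (W * (p' + q') * Wi) = (p - q) * (p' + q') * Wi := by
      rw [Matrix.mul_assoc W, mid, Matrix.mul_assoc]
    rw [e1, ← Matrix.mul_assoc, ← smul_add, ← Matrix.add_mul]
    have : (p + q) * (p' - q') + (p - q) * (p' + q') = (2:ℂ) • (p * p' - q * q') := by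
      rw [two_smul]; noncomm_ring
    rw [this, Matrix.smul_mul, smul_smul]; norm_num
  · have e1 : W * (p + q) * Wi * (W * (p' - q')) = W * ((p + q) * (p' - q')) := by
      rw [mid, Matrix.mul_assoc]
    rw [e1, Matrix.mul_assoc W, ← smul_add, ← Matrix.mul_add]
    have : (p - q) * (p' + q') + (p + q) * (p' - q') = (2:ℂ) • (p * p' - q * q') := by
      rw [two_smul]; noncomm_ring
    rw [this, Matrix.mul_smul, smul_smul]; norm_num
  · have e1 : W * (p + q) * Wi * (W * (p' + q') * Wi) = W * ((p + q) * (p' + q')) * Wi := by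
      rw [Matrix.mul_assoc W (p' + q') Wi, mid]; noncomm_ring
    have e2 : W * (p - q) * ((p' - q') * Wi) = W * ((p - q) * (p' - q')) * Wi := by
      noncomm_ring
    rw [e1, e2, ← smul_add, ← Matrix.add_mul, ← Matrix.mul_add]
    have : (p - q) * (p' - q') + (p + q) * (p' + q') = (2:ℂ) • (p * p' + q * q') := by
      rw [two_smul]; noncomm_ring
    rw [this, Matrix.mul_smul, Matrix.smul_mul, smul_smul]; norm_num

noncomputable def OmL : (M2 × M2 × M2) →ₗ[ℂ] Matrix I8 I8 ℂ where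
  toFun t := Matrix.fromBlocks (Om1 t.1 t.2.1) 0 0 (Om1 t.2.1 t.2.2)
  map_add' t t' := by
    simp only [Prod.fst_add, Prod.snd_add, Om1_add, Matrix.fromBlocks_add, add_zero]
  map_smul' c t := by
    simp only [Prod.smul_fst, Prod.smul_snd, Om1_smul, Matrix.fromBlocks_smul, smul_zero,
      RingHom.id_apply]

noncomputable def Om : (M2 × M2 × M2) →ₐ[ℂ] Matrix I8 I8 ℂ :=
  AlgHom.ofLinearMap OmL
    (by
      change Matrix.fromBlocks (Om1 1 1) 0 0 (Om1 1 1) = 1
      rw [Om1_one, Matrix.fromBlocks_one])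
    (by
      intro t t'
      change Matrix.fromBlocks (Om1 (t.1 * t'.1) (t.2.1 * t'.2.1)) 0 0
        (Om1 (t.2.1 * t'.2.1) (t.2.2 * t'.2.2)) =
        Matrix.fromBlocks (Om1 t.1 t.2.1) 0 0 (Om1 t.2.1 t.2.2) *
        Matrix.fromBlocks (Om1 t'.1 t'.2.1) 0 0 (Om1 t'.2.1 t'.2.2)
      rw [Matrix.fromBlocks_multiply, Om1_mul, Om1_mul]
      simp)

theorem Om_apply (t : M2 × M2 × M2) :
    Om t = Matrix.fromBlocks (Om1 t.1 t.2.1) 0 0 (Om1 t.2.1 t.2.2) := rfl

/-- entrywise conjugation -/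
noncomputable def cj : M2 →+* M2 := (starRingEnd ℂ).mapMatrix

theorem cj_smul (c : ℂ) (p : M2) : cj (c • p) = conj c • cj p := by
  ext i j; simp [cj]

theorem cj_W : cj W = W := by
  ext i j; fin_cases i <;> fin_cases j <;> simp [cj, W, map_ofNat]

theorem cj_Wi : cj Wi = Wi := by
  ext i j; fin_cases i <;> fin_cases j <;> simp [cj, Wi, map_ofNat]

theorem cj_D : cj D = D := by
  ext i j; fin_cases i <;> fin_cases j <;> simp [cj, D, map_ofNat]

noncomputable def g1 : M2 × M2 × M2 := (T, D, -D)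
noncomputable def g2 : M2 × M2 × M2 := (D, -D, D)

/-- the algebra generated by the two triples -/
noncomputable def R : Subalgebra ℂ (M2 × M2 × M2) := Algebra.adjoin ℂ {g1, g2}

/-- the conjugate linear shift on triples -/
noncomputable def sh (t : M2 × M2 × M2) : M2 × M2 × M2 := (cj t.2.1, cj t.2.2, cj t.2.1)

theorem sh_mem {t : M2 × M2 × M2} (ht : t ∈ R) : sh t ∈ R := by
  induction ht using Algebra.adjoin_induction with
  | mem x hx =>
    have h2 : g2 ∈ R := Algebra.subset_adjoin (by simp)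
    simp only [Set.mem_insert_iff, Set.mem_singleton_iff] at hx
    rcases hx with rfl | rfl
    · have : sh g1 = g2 := by
        simp only [sh, g1, g2, map_neg, cj_D]
      rw [this]; exact h2
    · have : sh g2 = -g2 := by
        simp only [sh, g2, map_neg, cj_D, Prod.neg_mk, neg_neg]
      rw [this]; exact R.neg_mem h2
  | algebraMap r =>
    have : sh (algebraMap ℂ (M2 × M2 × M2) r) = algebraMap ℂ (M2 × M2 × M2) (conj r) := by
      simp only [Algebra.algebraMap_eq_smul_one, sh, Prod.smul_snd, Prod.smul_fst, Prod.snd_one,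
        Prod.fst_one, cj_smul, map_one]
      rfl
    rw [this]
    exact R.algebraMap_mem _
  | add x y _ _ hx hy =>
    have : sh (x + y) = sh x + sh y := by
      simp only [sh, Prod.snd_add, Prod.fst_add, map_add, Prod.mk_add_mk]
    rw [this]; exact R.add_mem hx hy
  | mul x y _ _ hx hy =>
    have : sh (x * y) = sh x * sh y := by
      simp only [sh, Prod.snd_mul, Prod.fst_mul, map_mul, Prod.mk_mul_mk]
    rw [this]; exact R.mul_mem hx hy

/-- shape of the second and third components -/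
def Shape (t : M2 × M2 × M2) : Prop :=
  t.2.1 0 1 = 0 ∧ t.2.1 1 0 = 0 ∧ t.2.2 0 1 = 0 ∧ t.2.2 1 0 = 0 ∧
    t.2.2 0 0 = t.2.1 1 1 ∧ t.2.2 1 1 = t.2.1 0 0

theorem shape_of_mem {t : M2 × M2 × M2} (ht : t ∈ R) : Shape t := by
  induction ht using Algebra.adjoin_induction with
  | mem x hx =>
    simp only [Set.mem_insert_iff, Set.mem_singleton_iff] at hx
    rcases hx with rfl | rfl
    · simp [Shape, g1, D]
    · simp [Shape, g2, D]
  | algebraMap r =>
    simp [Shape, Algebra.algebraMap_eq_smul_one]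
  | add x y _ _ hx hy =>
    obtain ⟨a1, a2, a3, a4, a5, a6⟩ := hx
    obtain ⟨b1, b2, b3, b4, b5, b6⟩ := hy
    refine ⟨?_, ?_, ?_, ?_, ?_, ?_⟩ <;>
      simp [*]
  | mul x y _ _ hx hy =>
    obtain ⟨a1, a2, a3, a4, a5, a6⟩ := hx
    obtain ⟨b1, b2, b3, b4, b5, b6⟩ := hy
    refine ⟨?_, ?_, ?_, ?_, ?_, ?_⟩ <;>
      simp [Matrix.mul_apply, Fin.sum_univ_two, *]

end Pool.Agent.H415R3.CZ
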