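import Pool.Agent.H415R3.CZ2

namespace Pool.Agent.H415R3.CZ

open scoped InnerProductSpace ComplexConjugate
open Matrix

abbrev H8 := EuclideanSpace ℂ I8
abbrev C2 := EuclideanSpace ℂ (Fin 2)

/-- square matrices as operators -/
noncomputable def cl (M : Matrix I8 I8 ℂ) : H8 →L[ℂ] H8 := Matrix.toEuclideanCLM (n := I8) (𝕜 := ℂ) M

noncomputable def cl2 (M : M2) : C2 →L[ℂ] C2 := Matrix.toEuclideanCLM (n := Fin 2) (𝕜 := ℂ) M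

/-- rectangular matrices as operators -/
noncomputable def rc {m n : Type} [Fintype m] [Fintype n] [DecidableEq m] [DecidableEq n]
    (M : Matrix m n ℂ) : EuclideanSpace ℂ n →L[ℂ] EuclideanSpace ℂ m :=
  LinearMap.toContinuousLinearMap (Matrix.toEuclideanLin M)

theorem rc_apply {m n : Type} [Fintype m] [Fintype n] [DecidableEq m] [DecidableEq n]
    (M : Matrix m n ℂ) (x : EuclideanSpace ℂ n) : rc M x = WithLp.toLp 2 (M *ᵥ x.ofLp) := rfl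

theorem cl_apply (M : Matrix I8 I8 ℂ) (x : H8) : cl M x = WithLp.toLp 2 (M *ᵥ x.ofLp) := rfl

theorem cl2_apply (M : M2) (x : C2) : cl2 M x = WithLp.toLp 2 (M *ᵥ x.ofLp) := rfl

theorem rc_cl_rc (L : Matrix (Fin 2) I8 ℂ) (M : Matrix I8 I8 ℂ) (R : Matrix I8 (Fin 2) ℂ) :
    rc L ∘L cl M ∘L rc R = cl2 (L * M * R) := by
  ext x : 1
  simp only [ContinuousLinearMap.comp_apply, rc_apply, cl_apply, cl2_apply, Matrix.mulVec_mulVec,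
    Matrix.mul_assoc]

noncomputable def Lt : Matrix (Fin 2) I8 ℂ := Matrix.fromCols (Matrix.fromCols 1 Wi) 0
noncomputable def Rt : Matrix I8 (Fin 2) ℂ :=
  Matrix.fromRows (Matrix.fromRows ((1/2:ℂ) • (1 : M2)) ((1/2:ℂ) • W)) 0
noncomputable def Vs : Matrix (Fin 2) I8 ℂ := Matrix.fromCols (Matrix.fromCols (1 : M2) 0) 0
noncomputable def Vr : Matrix I8 (Fin 2) ℂ := Matrix.fromRows (Matrix.fromRows (1 : M2) 0) 0

theorem theta_formula (t : M2 × M2 × M2) : Lt * Om t * Rt = t.1 := by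
  rw [Om_apply, Lt, Rt, Matrix.fromCols_mul_fromBlocks, Matrix.fromCols_mul_fromRows]
  simp only [Matrix.mul_zero, Matrix.zero_mul, add_zero]
  rw [Om1, Matrix.fromCols_mul_fromBlocks, Matrix.fromCols_mul_fromRows]
  simp only [Matrix.one_mul, Matrix.mul_smul, Matrix.mul_one]
  rw [← Matrix.mul_assoc Wi W (t.1 - t.2.1), Wi_W, Matrix.one_mul,
    ← Matrix.mul_assoc Wi (W * (t.1 + t.2.1)) Wi, ← Matrix.mul_assoc Wi W, Wi_W, Matrix.one_mul]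
  simp only [Matrix.add_mul, Matrix.smul_mul, Matrix.sub_mul, Matrix.mul_assoc, Wi_W,
    Matrix.mul_one]
  module

theorem psi_formula (t : M2 × M2 × M2) : Vs * Om t * Vr = (1/2:ℂ) • (t.1 + t.2.1) := by
  rw [Om_apply, Vs, Vr, Matrix.fromCols_mul_fromBlocks, Matrix.fromCols_mul_fromRows]
  simp only [Matrix.mul_zero, Matrix.zero_mul, add_zero]
  rw [Om1, Matrix.fromCols_mul_fromBlocks, Matrix.fromCols_mul_fromRows]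
  simp

theorem norm_Vr_le : ‖rc Vr‖ ≤ 1 := by
  refine ContinuousLinearMap.opNorm_le_bound _ zero_le_one fun x => ?_
  rw [one_mul]
  refine (pow_le_pow_iff_left₀ (norm_nonneg _) (norm_nonneg _) two_ne_zero).1 ?_
  rw [EuclideanSpace.norm_sq_eq, EuclideanSpace.norm_sq_eq]
  simp [rc_apply, Vr, Matrix.fromRows_mulVec, Fintype.sum_sum_type]

theorem norm_Vs_le : ‖rc Vs‖ ≤ 1 := by
  refine ContinuousLinearMap.opNorm_le_bound _ zero_le_one fun x => ?_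
  rw [one_mul]
  refine (pow_le_pow_iff_left₀ (norm_nonneg _) (norm_nonneg _) two_ne_zero).1 ?_
  rw [EuclideanSpace.norm_sq_eq, EuclideanSpace.norm_sq_eq]
  simp only [rc_apply, Vs, Matrix.fromCols_mulVec, Fintype.sum_sum_type, Matrix.one_mulVec,
    Matrix.zero_mulVec, add_zero, Function.comp_apply, Fin.sum_univ_two]
  have := sq_nonneg ‖x.ofLp (Sum.inl (Sum.inr 0))‖
  have := sq_nonneg ‖x.ofLp (Sum.inl (Sum.inr 1))‖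
  have := sq_nonneg ‖x.ofLp (Sum.inr (Sum.inl 0))‖
  have := sq_nonneg ‖x.ofLp (Sum.inr (Sum.inl 1))‖
  have := sq_nonneg ‖x.ofLp (Sum.inr (Sum.inr 0))‖
  have := sq_nonneg ‖x.ofLp (Sum.inr (Sum.inr 1))‖
  linarith

/-! ### norm of the generator -/

theorem QX (a b c d : ℝ) :
    (7/40*a + 469/500*b + 13/80*c + -37/500*d)^2 + (-7/40*b + -13/20*d)^2
    + (13/20*a + -37/500*b + 7/40*c + -56/125*d)^2 + (-13/80*b + -7/40*d)^2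
    ≤ a^2 + b^2 + c^2 + d^2 := by
  have h : a^2 + b^2 + c^2 + d^2 - ((7/40*a + 469/500*b + 13/80*c + -37/500*d)^2
    + (-7/40*b + -13/20*d)^2
    + (13/20*a + -37/500*b + 7/40*c + -56/125*d)^2 + (-13/80*b + -7/40*d)^2)
    = 35/64 * (a - 4642/21875*b - 13/50*c + 1738/3125*d)^2
    + 115577969/3500000000 * (b - 593768000/115577969*c - 144847962/115577969*d)^2
    + 15928345/462311876 * (c - 19928956/15928345*d)^2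
    + 1047113/15928345 * d^2 := by ring
  have : 0 ≤ 35/64 * (a - 4642/21875*b - 13/50*c + 1738/3125*d)^2
    + 115577969/3500000000 * (b - 593768000/115577969*c - 144847962/115577969*d)^2
    + 15928345/462311876 * (c - 19928956/15928345*d)^2
    + 1047113/15928345 * d^2 := by positivity
  linarith

theorem QXp (a b c d : ℝ) :
    (0*a + 0*b + -3/40*c + 9/10*d)^2 + (0*a + 0*b + 0*c + 3/10*d)^2
    + (-3/10*a + 9/10*b + 0*c + 0*d)^2 + (0*a + 3/40*b + 0*c + 0*d)^2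
    ≤ a^2 + b^2 + c^2 + d^2 := by
  nlinarith [sq_nonneg (a + 27/91*b), sq_nonneg b, sq_nonneg (c + 108/1591*d), sq_nonneg d]

theorem nsq (r0 r1 r2 r3 : ℝ) (z0 z1 z2 z3 : ℂ) :
    ‖(r0:ℂ)*z0 + (r1:ℂ)*z1 + (r2:ℂ)*z2 + (r3:ℂ)*z3‖^2 =
    (r0*z0.re + r1*z1.re + r2*z2.re + r3*z3.re)^2 + (r0*z0.im + r1*z1.im + r2*z2.im + r3*z3.im)^2 := by
  rw [Complex.sq_norm, Complex.normSq_apply]
  simp
  ring

theorem nsq1 (z : ℂ) : ‖z‖^2 = z.re^2 + z.im^2 := by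
  rw [Complex.sq_norm, Complex.normSq_apply]; ring

theorem QXc (z0 z1 z2 z3 : ℂ) :
    ‖((7/40:ℝ):ℂ)*z0 + ((469/500:ℝ):ℂ)*z1 + ((13/80:ℝ):ℂ)*z2 + ((-37/500:ℝ):ℂ)*z3‖^2
    + ‖((0:ℝ):ℂ)*z0 + ((-7/40:ℝ):ℂ)*z1 + ((0:ℝ):ℂ)*z2 + ((-13/20:ℝ):ℂ)*z3‖^2
    + (‖((13/20:ℝ):ℂ)*z0 + ((-37/500:ℝ):ℂ)*z1 + ((7/40:ℝ):ℂ)*z2 + ((-56/125:ℝ):ℂ)*z3‖^2
    + ‖((0:ℝ):ℂ)*z0 + ((-13/80:ℝ):ℂ)*z1 + ((0:ℝ):ℂ)*z2 + ((-7/40:ℝ):ℂ)*z3‖^2)
    ≤ ‖z0‖^2 + ‖z1‖^2 + (‖z2‖^2 + ‖z3‖^2) := by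
  rw [nsq, nsq, nsq, nsq, nsq1 z0, nsq1 z1, nsq1 z2, nsq1 z3]
  have h1 := QX z0.re z1.re z2.re z3.re
  have h2 := QX z0.im z1.im z2.im z3.im
  nlinarith [h1, h2]

theorem QXpc (z0 z1 z2 z3 : ℂ) :
    ‖((0:ℝ):ℂ)*z0 + ((0:ℝ):ℂ)*z1 + ((-3/40:ℝ):ℂ)*z2 + ((9/10:ℝ):ℂ)*z3‖^2
    + ‖((0:ℝ):ℂ)*z0 + ((0:ℝ):ℂ)*z1 + ((0:ℝ):ℂ)*z2 + ((3/10:ℝ):ℂ)*z3‖^2
    + (‖((-3/10:ℝ):ℂ)*z0 + ((9/10:ℝ):ℂ)*z1 + ((0:ℝ):ℂ)*z2 + ((0:ℝ):ℂ)*z3‖^2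
    + ‖((0:ℝ):ℂ)*z0 + ((3/40:ℝ):ℂ)*z1 + ((0:ℝ):ℂ)*z2 + ((0:ℝ):ℂ)*z3‖^2)
    ≤ ‖z0‖^2 + ‖z1‖^2 + (‖z2‖^2 + ‖z3‖^2) := by
  rw [nsq, nsq, nsq, nsq, nsq1 z0, nsq1 z1, nsq1 z2, nsq1 z3]
  have h1 := QXp z0.re z1.re z2.re z3.re
  have h2 := QXp z0.im z1.im z2.im z3.im
  nlinarith [h1, h2]

theorem Om1_TD : Om1 T D = Matrix.fromBlocks
    !![((7/40:ℝ):ℂ), ((469/500:ℝ):ℂ); ((0:ℝ):ℂ), ((-7/40:ℝ):ℂ)]
    !![((13/80:ℝ):ℂ), ((-37/500:ℝ):ℂ); ((0:ℝ):ℂ), ((-13/20:ℝ):ℂ)]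
    !![((13/20:ℝ):ℂ), ((-37/500:ℝ):ℂ); ((0:ℝ):ℂ), ((-13/80:ℝ):ℂ)]
    !![((7/40:ℝ):ℂ), ((-56/125:ℝ):ℂ); ((0:ℝ):ℂ), ((-7/40:ℝ):ℂ)] := by
  rw [Om1]
  congr 1 <;> ext i j <;> fin_cases i <;> fin_cases j <;>
    norm_num [T, D, W, Wi, Matrix.mul_apply, Fin.sum_univ_two, Matrix.add_apply, Matrix.sub_apply]

theorem Om1_DD : Om1 D (-D) = Matrix.fromBlocks
    !![((0:ℝ):ℂ), ((0:ℝ):ℂ); ((0:ℝ):ℂ), ((0:ℝ):ℂ)]
    !![((-3/40:ℝ):ℂ), ((9/10:ℝ):ℂ); ((0:ℝ):ℂ), ((3/10:ℝ):ℂ)]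
    !![((-3/10:ℝ):ℂ), ((9/10:ℝ):ℂ); ((0:ℝ):ℂ), ((3/40:ℝ):ℂ)]
    !![((0:ℝ):ℂ), ((0:ℝ):ℂ); ((0:ℝ):ℂ), ((0:ℝ):ℂ)] := by
  rw [Om1]
  congr 1 <;> ext i j <;> fin_cases i <;> fin_cases j <;>
    norm_num [T, D, W, Wi, Matrix.mul_apply, Fin.sum_univ_two, Matrix.add_apply, Matrix.sub_apply]

theorem norm_gen_le : ‖cl (Om g1)‖ ≤ 1 := by
  refine ContinuousLinearMap.opNorm_le_bound _ zero_le_one fun x => ?_
  rw [one_mul]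
  refine (pow_le_pow_iff_left₀ (norm_nonneg _) (norm_nonneg _) two_ne_zero).1 ?_
  rw [EuclideanSpace.norm_sq_eq, EuclideanSpace.norm_sq_eq]
  have e1 : Om g1 = Matrix.fromBlocks (Om1 T D) 0 0 (Om1 D (-D)) := rfl
  rw [cl_apply, e1, Om1_TD, Om1_DD]
  have h1 := QXc (x.ofLp (Sum.inl (Sum.inl 0))) (x.ofLp (Sum.inl (Sum.inl 1)))
    (x.ofLp (Sum.inl (Sum.inr 0))) (x.ofLp (Sum.inl (Sum.inr 1)))
  have h2 := QXpc (x.ofLp (Sum.inr (Sum.inl 0))) (x.ofLp (Sum.inr (Sum.inl 1)))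
    (x.ofLp (Sum.inr (Sum.inr 0))) (x.ofLp (Sum.inr (Sum.inr 1)))
  simp only [Fintype.sum_sum_type, Fin.sum_univ_two]
  refine le_trans (le_of_eq ?_) (add_le_add h1 h2)
  simp only [Matrix.mulVec, dotProduct, Fintype.sum_sum_type, Fin.sum_univ_two,
    Matrix.fromBlocks_apply₁₁, Matrix.fromBlocks_apply₁₂, Matrix.fromBlocks_apply₂₁,
    Matrix.fromBlocks_apply₂₂, Matrix.of_apply, Matrix.cons_val_zero, Matrix.cons_val_one,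
    Matrix.zero_apply, zero_mul, add_zero, zero_add, Matrix.cons_val_fin_one, add_assoc]

/-- the image of the generator has norm larger than two -/
theorem norm_T : 2 < ‖cl2 T‖ := by
  by_contra hcon
  rw [not_lt] at hcon
  set h : C2 := WithLp.toLp 2 ![1/4, 1] with hh
  have h1 := (cl2 T).le_opNorm h
  have h2 : ‖cl2 T h‖ ≤ 2 * ‖h‖ := h1.trans (by gcongr)
  have h3 : ‖cl2 T h‖ ^ 2 ≤ 4 * ‖h‖ ^ 2 := by
    have := pow_le_pow_left₀ (norm_nonneg _) h2 2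
    rw [mul_pow] at this; linarith
  rw [EuclideanSpace.norm_sq_eq, EuclideanSpace.norm_sq_eq] at h3
  simp only [cl2_apply, hh, Matrix.mulVec, dotProduct, Fin.sum_univ_two, T, Matrix.of_apply,
    Matrix.cons_val_zero, Matrix.cons_val_one, Matrix.cons_val_fin_one, zero_mul, zero_add] at h3
  norm_num [Complex.sq_norm, Complex.normSq_apply] at h3

end Pool.Agent.H415R3.CZ
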