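import Pool.Agent.H415R3.CZ3

namespace Pool.Agent.H415R3.CZ

open scoped InnerProductSpace ComplexConjugate
open Matrix

noncomputable def u : I4 → ℂ := Sum.elim (fun _ => 1) (fun _ => -1)

theorem u_conj (i : I4) : conj (u i) = u i := by
  rcases i with i | i <;> simp [u]

theorem u_norm (i : I4) : ‖u i‖ = 1 := by
  rcases i with i | i <;> simp [u]

noncomputable def B1 (x : H8) : H8 :=
  WithLp.toLp 2 (Sum.elim (fun _ => 0) (fun i => conj (x.ofLp (Sum.inl i))))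
noncomputable def B2 (x : H8) : H8 :=
  WithLp.toLp 2 (Sum.elim (fun _ => 0) (fun i => u i * conj (x.ofLp (Sum.inr i))))
noncomputable def C1 (x : H8) : H8 :=
  WithLp.toLp 2 (Sum.elim (fun i => conj (x.ofLp (Sum.inr i))) (fun _ => 0))
noncomputable def D1 (x : H8) : H8 :=
  WithLp.toLp 2 (Sum.elim (fun _ => 0) (fun i => u i * conj (x.ofLp (Sum.inr i))))

theorem hB (x : H8) : ‖B1 x‖ ^ 2 + ‖B2 x‖ ^ 2 ≤ ‖x‖ ^ 2 := by
  apply le_of_eq
  rw [EuclideanSpace.norm_sq_eq, EuclideanSpace.norm_sq_eq, EuclideanSpace.norm_sq_eq,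
    Fintype.sum_sum_type, Fintype.sum_sum_type, Fintype.sum_sum_type (f := fun i => ‖x.ofLp i‖ ^ 2)]
  simp only [B1, B2, Sum.elim_inl, Sum.elim_inr, norm_zero, RCLike.norm_conj]
  simp [u_norm]

theorem hC (x y : H8) : ‖C1 x + D1 y‖ ^ 2 ≤ ‖x‖ ^ 2 + ‖y‖ ^ 2 := by
  rw [EuclideanSpace.norm_sq_eq, EuclideanSpace.norm_sq_eq, EuclideanSpace.norm_sq_eq,
    Fintype.sum_sum_type, Fintype.sum_sum_type (f := fun i => ‖x.ofLp i‖ ^ 2),
    Fintype.sum_sum_type (f := fun i => ‖y.ofLp i‖ ^ 2)]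
  simp only [C1, D1, PiLp.add_apply, Sum.elim_inl, Sum.elim_inr, norm_mul, u_norm, one_mul,
    add_zero, zero_add, RCLike.norm_conj]
  have h1 : 0 ≤ ∑ i, ‖x.ofLp (Sum.inl i : I8)‖ ^ 2 := Finset.sum_nonneg fun i _ => sq_nonneg _
  have h2 : 0 ≤ ∑ i, ‖y.ofLp (Sum.inl i : I8)‖ ^ 2 := Finset.sum_nonneg fun i _ => sq_nonneg _
  linarith

theorem B1_add (x y : H8) : B1 (x + y) = B1 x + B1 y := by
  ext i; rcases i with i | i <;> simp [B1]
theorem B2_add (x y : H8) : B2 (x + y) = B2 x + B2 y := by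
  ext i; rcases i with i | i <;> simp [B2, mul_add]
theorem C1_add (x y : H8) : C1 (x + y) = C1 x + C1 y := by
  ext i; rcases i with i | i <;> simp [C1]
theorem D1_add (x y : H8) : D1 (x + y) = D1 x + D1 y := by
  ext i; rcases i with i | i <;> simp [D1, mul_add]
theorem B1_smul (c : ℂ) (x : H8) : B1 (c • x) = conj c • B1 x := by
  ext i; rcases i with i | i <;> simp [B1]
theorem B2_smul (c : ℂ) (x : H8) : B2 (c • x) = conj c • B2 x := by
  ext i; rcases i with i | i <;> simp [B2, mul_left_comm]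
theorem C1_smul (c : ℂ) (x : H8) : C1 (c • x) = conj c • C1 x := by
  ext i; rcases i with i | i <;> simp [C1]
theorem D1_smul (c : ℂ) (x : H8) : D1 (c • x) = conj c • D1 x := by
  ext i; rcases i with i | i <;> simp [D1, mul_left_comm]

noncomputable def alOp (a : H8 →L[ℂ] H8) : H8 →L[ℂ] H8 :=
  LinearMap.toContinuousLinearMap
    { toFun := fun x => C1 (a (B1 x)) + D1 (a (B2 x))
      map_add' := by
        intro x y
        rw [B1_add, B2_add, map_add, map_add, C1_add, D1_add]; abel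
      map_smul' := by
        intro c x
        rw [B1_smul, B2_smul, map_smul, map_smul, C1_smul, D1_smul, Complex.conj_conj,
          RingHom.id_apply, smul_add] }

theorem alOp_apply (a : H8 →L[ℂ] H8) (x : H8) :
    alOp a x = C1 (a (B1 x)) + D1 (a (B2 x)) := rfl

theorem alOp_add (a b : H8 →L[ℂ] H8) : alOp (a + b) = alOp a + alOp b := by
  refine ContinuousLinearMap.ext fun x => ?_
  simp only [alOp_apply, _root_.add_apply, C1_add, D1_add]
  abel

theorem alOp_smul (c : ℂ) (a : H8 →L[ℂ] H8) : alOp (c • a) = conj c • alOp a := by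
  refine ContinuousLinearMap.ext fun x => ?_
  simp only [alOp_apply, _root_.smul_apply, C1_smul, D1_smul, smul_add]

theorem conj_mulVec (M : Matrix I4 I4 ℂ) (v : I4 → ℂ) (i : I4) :
    conj ((M *ᵥ v) i) = ((M.map (starRingEnd ℂ)) *ᵥ (fun j => conj (v j))) i := by
  simp [Matrix.mulVec, dotProduct]

theorem Om1_conj (p q : M2) : (Om1 p q).map (starRingEnd ℂ) = Om1 (cj p) (cj q) := by
  rw [Om1, Om1, Matrix.fromBlocks_map]
  have e : ∀ x : M2, x.map (starRingEnd ℂ) = cj x := fun x => rfl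
  have h2 : conj (1/2 : ℂ) = 1/2 := by simp [map_ofNat]
  simp only [e, cj_smul, map_mul, map_add, map_sub, cj_W, cj_Wi, h2]

theorem Om1_swap (q r : M2) (v : I4 → ℂ) (i : I4) :
    u i * (Om1 q r *ᵥ (fun j => u j * v j)) i = (Om1 r q *ᵥ v) i := by
  have e1 : (fun j => u j * v j) ∘ Sum.inl = v ∘ Sum.inl := by
    funext j; simp [u]
  have e2 : (fun j => u j * v j) ∘ Sum.inr = -(v ∘ Sum.inr) := by
    funext j; simp [u]
  have e3 : r - q = -(q - r) := by abel
  rw [Om1, Om1, Matrix.fromBlocks_mulVec, Matrix.fromBlocks_mulVec, e1, e2, e3, add_comm r q]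
  rcases i with i | i
  · simp only [u, Sum.elim_inl, one_mul, Matrix.mulVec_neg, Matrix.neg_mul, smul_neg,
      Matrix.neg_mulVec]
  · simp only [u, Sum.elim_inr, Matrix.mulVec_neg, Matrix.mul_neg, smul_neg,
      Matrix.neg_mulVec, Pi.add_apply, Pi.neg_apply]
    ring

theorem alOp_Om (t : M2 × M2 × M2) : alOp (cl (Om t)) = cl (Om (sh t)) := by
  refine ContinuousLinearMap.ext fun x => ?_
  have hs : Om (sh t) = Matrix.fromBlocks (Om1 (cj t.2.1) (cj t.2.2)) 0 0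
    (Om1 (cj t.2.2) (cj t.2.1)) := rfl
  rw [alOp_apply, cl_apply, cl_apply, cl_apply, hs, Om_apply, Matrix.fromBlocks_mulVec,
    Matrix.fromBlocks_mulVec, Matrix.fromBlocks_mulVec]
  ext i
  rcases i with i | i
  · have e1 : (B1 x).ofLp ∘ Sum.inr = fun j => conj (x.ofLp (Sum.inl j)) := rfl
    have e2 : (x.ofLp ∘ Sum.inl : I4 → ℂ) = fun j => conj (conj (x.ofLp (Sum.inl j))) := by
      funext j; simp
    simp only [C1, D1, PiLp.add_apply, Sum.elim_inl, Sum.elim_inr, add_zero, Matrix.zero_mulVec,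
      zero_add, e1]
    rw [conj_mulVec, Om1_conj, ← e2]
  · have e1 : (B2 x).ofLp ∘ Sum.inr = fun j => u j * conj (x.ofLp (Sum.inr j)) := rfl
    have e2 : (x.ofLp ∘ Sum.inr : I4 → ℂ) = fun j => conj (conj (x.ofLp (Sum.inr j))) := by
      funext j; simp
    simp only [C1, D1, PiLp.add_apply, Sum.elim_inl, Sum.elim_inr, add_zero, Matrix.zero_mulVec,
      zero_add, e1]
    rw [conj_mulVec, Om1_conj]
    have e3 : (fun j => conj (u j * conj (x.ofLp (Sum.inr j : I8)))) =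
        fun j => u j * (x.ofLp (Sum.inr j : I8)) := by
      funext j; rw [map_mul, u_conj, Complex.conj_conj]
    rw [e3, Om1_swap (cj t.2.1) (cj t.2.2) (fun j => x.ofLp (Sum.inr j : I8)) i]
    rfl

/-- matrices as operators, as an algebra homomorphism -/
noncomputable def clA : Matrix I8 I8 ℂ →ₐ[ℂ] (H8 →L[ℂ] H8) :=
  AlgHomClass.toAlgHom (Matrix.toEuclideanCLM (n := I8) (𝕜 := ℂ))

theorem clA_apply (M : Matrix I8 I8 ℂ) : clA M = cl M := rfl

/-- the operator algebra of the counterexample -/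
noncomputable def AA : Subalgebra ℂ (H8 →L[ℂ] H8) := R.map (clA.comp Om)

theorem AA_mem (a : AA) : ∃ t ∈ R, (a : H8 →L[ℂ] H8) = cl (Om t) := by
  obtain ⟨a, ha⟩ := a
  obtain ⟨t, ht, rfl⟩ := ha
  exact ⟨t, ht, rfl⟩

theorem mem_AA {t : M2 × M2 × M2} (ht : t ∈ R) : cl (Om t) ∈ AA := ⟨t, ht, rfl⟩

theorem cl2_mul (p q : M2) : cl2 (p * q) = cl2 p * cl2 q := map_mul (Matrix.toEuclideanCLM (n := Fin 2) (𝕜 := ℂ)) p q

theorem cl2_one : cl2 1 = 1 := map_one (Matrix.toEuclideanCLM (n := Fin 2) (𝕜 := ℂ))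

theorem th_formula (t : M2 × M2 × M2) : rc Lt ∘L cl (Om t) ∘L rc Rt = cl2 t.1 := by
  rw [rc_cl_rc, theta_formula]

noncomputable def thL : AA →ₗ[ℂ] (C2 →L[ℂ] C2) where
  toFun a := rc Lt ∘L (a : H8 →L[ℂ] H8) ∘L rc Rt
  map_add' a b := by
    refine ContinuousLinearMap.ext fun x => ?_
    simp
  map_smul' c a := by
    refine ContinuousLinearMap.ext fun x => ?_
    simp

noncomputable def th : AA →ₐ[ℂ] (C2 →L[ℂ] C2) :=
  AlgHom.ofLinearMap thL
    (by
      have h : ((1 : AA) : H8 →L[ℂ] H8) = cl (Om 1) := by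
        rw [map_one, ← clA_apply, map_one]; rfl
      change rc Lt ∘L ((1 : AA) : H8 →L[ℂ] H8) ∘L rc Rt = 1
      rw [h, th_formula]
      exact cl2_one)
    (by
      intro a b
      obtain ⟨s, hs, hs'⟩ := AA_mem a
      obtain ⟨t, ht, ht'⟩ := AA_mem b
      have h : ((a * b : AA) : H8 →L[ℂ] H8) = cl (Om (s * t)) := by
        rw [map_mul, ← clA_apply, map_mul, clA_apply, clA_apply, ← hs', ← ht']; rfl
      change rc Lt ∘L ((a * b : AA) : H8 →L[ℂ] H8) ∘L rc Rt =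
        (rc Lt ∘L (a : H8 →L[ℂ] H8) ∘L rc Rt) * (rc Lt ∘L (b : H8 →L[ℂ] H8) ∘L rc Rt)
      rw [h, hs', ht', th_formula, th_formula, th_formula]
      exact cl2_mul _ _)

theorem th_apply (a : AA) : th a = rc Lt ∘L (a : H8 →L[ℂ] H8) ∘L rc Rt := rfl

noncomputable def al (a : AA) : AA := ⟨alOp (a : H8 →L[ℂ] H8), by
  obtain ⟨t, ht, ht'⟩ := AA_mem a
  rw [ht', alOp_Om]
  exact mem_AA (sh_mem ht)⟩

theorem al_add (a b : AA) : al (a + b) = al a + al b := by
  apply Subtype.ext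
  exact alOp_add _ _

theorem al_smul (c : ℂ) (a : AA) : al (c • a) = conj c • al a := by
  apply Subtype.ext
  exact alOp_smul _ _

theorem al_one : al 1 = 1 := by
  apply Subtype.ext
  have h : ((1 : AA) : H8 →L[ℂ] H8) = cl (Om 1) := by
    rw [map_one, ← clA_apply, map_one]; rfl
  change alOp ((1 : AA) : H8 →L[ℂ] H8) = ((1 : AA) : H8 →L[ℂ] H8)
  rw [h, alOp_Om]
  congr 2
  simp [sh]

theorem al_cc : CBLe AA (fun a => (al a : H8 →L[ℂ] H8)) 1 :=
  cc_of_two AA _ B1 B2 C1 D1 hB hC C1_add D1_add (fun _ _ => rfl)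

theorem th_cb : CBLe AA th (‖rc Lt‖ * ‖rc Rt‖) :=
  cb_of_factor AA th _ _ (fun _ => rfl)

theorem adj_th_al (a : AA) (t : M2 × M2 × M2) (ht : t ∈ R) (ha : (a : H8 →L[ℂ] H8) = cl (Om t)) :
    ContinuousLinearMap.adjoint (th (al a)) = cl2 t.2.1 := by
  have h1 : th (al a) = cl2 (cj t.2.1) := by
    rw [th_apply]
    change rc Lt ∘L (alOp (a : H8 →L[ℂ] H8)) ∘L rc Rt = _
    rw [ha, alOp_Om, th_formula]; rfl
  rw [h1, ← ContinuousLinearMap.star_eq_adjoint]
  have h2 : star (cl2 (cj t.2.1)) = cl2 (star (cj t.2.1)) :=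
    (map_star (Matrix.toEuclideanCLM (n := Fin 2) (𝕜 := ℂ)) (cj t.2.1)).symm
  rw [h2]
  congr 1
  obtain ⟨h01, h10, -⟩ := shape_of_mem ht
  ext i j
  fin_cases i <;> fin_cases j <;> simp [cj, Matrix.star_eq_conjTranspose, h01, h10]

theorem psi_eq (a : AA) : (1/2 : ℂ) • (th a + ContinuousLinearMap.adjoint (th (al a))) =
    rc Vs ∘L (a : H8 →L[ℂ] H8) ∘L rc Vr := by
  obtain ⟨t, ht, ha⟩ := AA_mem a
  rw [adj_th_al a t ht ha, th_apply, ha, th_formula, rc_cl_rc, psi_formula]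
  refine ContinuousLinearMap.ext fun x => ?_
  simp only [_root_.smul_apply, _root_.add_apply, cl2_apply,
    Matrix.smul_mulVec, Matrix.add_mulVec]
  rfl

theorem psi_cc : CBLe AA
    (fun a => (1/2 : ℂ) • (th a + ContinuousLinearMap.adjoint (th (al a)))) 1 := by
  intro m F
  have h := cb_of_factor AA
    (fun a => (1/2 : ℂ) • (th a + ContinuousLinearMap.adjoint (th (al a)))) (rc Vs) (rc Vr)
    psi_eq m F
  refine h.trans ?_
  have h1 : ‖rc Vs‖ * ‖rc Vr‖ ≤ 1 := by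
    calc ‖rc Vs‖ * ‖rc Vr‖ ≤ 1 * 1 := by
          gcongr
          · exact norm_Vs_le
          · exact norm_Vr_le
      _ = 1 := one_mul 1
  gcongr

/-- the generator -/
noncomputable def fg : AA := ⟨cl (Om g1), mem_AA (Algebra.subset_adjoin (by simp))⟩

theorem fg_norm : ‖(fg : H8 →L[ℂ] H8)‖ ≤ 1 := norm_gen_le

theorem th_fg : 2 < ‖th fg‖ := by
  have : th fg = cl2 T := by
    rw [th_apply]
    change rc Lt ∘L (cl (Om g1)) ∘L rc Rt = _
    rw [th_formula]; rfl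
  rw [this]
  exact norm_T

section one
variable {H : Type*} [NormedAddCommGroup H] [InnerProductSpace ℂ H]

theorem matOp_one_norm (F : Matrix (Fin 1) (Fin 1) (H →L[ℂ] H)) : ‖matOp F‖ = ‖F 0 0‖ := by
  apply le_antisymm
  · refine ContinuousLinearMap.opNorm_le_bound _ (norm_nonneg _) fun x => ?_
    have h1 : ‖matOp F x‖ = ‖F 0 0 (x 0)‖ := by
      rw [PiLp.norm_eq_of_L2]
      simp [matOp_apply]
    have h2 : ‖x‖ = ‖x 0‖ := by
      rw [PiLp.norm_eq_of_L2]
      simp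
    rw [h1, h2]
    exact (F 0 0).le_opNorm _
  · refine ContinuousLinearMap.opNorm_le_bound _ (ContinuousLinearMap.opNorm_nonneg _) fun y => ?_
    have h := (matOp F).le_opNorm (WithLp.toLp 2 (fun _ => y))
    have h1 : ‖matOp F (WithLp.toLp 2 (fun _ => y))‖ = ‖F 0 0 y‖ := by
      rw [PiLp.norm_eq_of_L2]
      simp [matOp_apply]
    have h2 : ‖(WithLp.toLp 2 (fun _ => y) : Copies H 1)‖ = ‖y‖ := by
      rw [PiLp.norm_eq_of_L2]
      simp
    rwa [h1, h2] at h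

end one

theorem not_cb_two : ¬ CBLe AA th 2 := by
  intro h
  have h1 := h 1 (fun _ _ => fg)
  rw [matOp_one_norm, matOp_one_norm] at h1
  have h2 : ‖th fg‖ ≤ 2 * ‖(fg : H8 →L[ℂ] H8)‖ := h1
  have h3 := fg_norm
  have h4 := th_fg
  linarith

end Pool.Agent.H415R3.CZ
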