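import Pool.Agent.H415R3.CZ4

namespace Pool.Agent.H415R3.CZ

open scoped InnerProductSpace ComplexConjugate
open Matrix

section adj
variable {H : Type*} [NormedAddCommGroup H] [InnerProductSpace ℂ H] [CompleteSpace H]

theorem matOp_adjoint {m : ℕ} (G : Matrix (Fin m) (Fin m) (H →L[ℂ] H)) :
    matOp (fun i j => ContinuousLinearMap.adjoint (G j i)) = ContinuousLinearMap.adjoint (matOp G) := by
  rw [ContinuousLinearMap.eq_adjoint_iff]
  intro x y
  rw [PiLp.inner_apply, PiLp.inner_apply]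
  have e : ∀ i, (matOp (fun i j => ContinuousLinearMap.adjoint (G j i)) x).ofLp i =
      ∑ j, ContinuousLinearMap.adjoint (G j i) (x.ofLp j) := fun i => matOp_apply _ x i
  have e' : ∀ i, (matOp G y).ofLp i = ∑ j, G i j (y.ofLp j) := fun i => matOp_apply _ y i
  simp only [e, e', sum_inner, inner_sum, ContinuousLinearMap.adjoint_inner_left]
  rw [Finset.sum_comm]

theorem matOp_adjoint_norm {m : ℕ} (G : Matrix (Fin m) (Fin m) (H →L[ℂ] H)) :
    ‖matOp (fun i j => ContinuousLinearMap.adjoint (G j i))‖ = ‖matOp G‖ := by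
  rw [matOp_adjoint]
  exact LinearIsometryEquiv.norm_map _ _

end adj

/-- The analogue of `CBLe` for the amplifications that also transpose the matrix:
the matrix with entries `a i j` is sent to the matrix with entries `φ (a j i)`. -/
def CBLeT {H K : Type*} [NormedAddCommGroup H] [InnerProductSpace ℂ H]
    [NormedAddCommGroup K] [InnerProductSpace ℂ K]
    (A : Subalgebra ℂ (H →L[ℂ] H)) (φ : A → (K →L[ℂ] K)) (C : ℝ) : Prop :=
  ∀ (m : ℕ) (F : Matrix (Fin m) (Fin m) A),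
    ‖matOp ((F.map φ).transpose)‖ ≤ C * ‖matOp (F.map (fun a => (a : H →L[ℂ] H)))‖

noncomputable def o (v : I4 → ℂ) : I4 → ℂ :=
  Sum.elim ![v (Sum.inl 1), -v (Sum.inl 0)] ![-v (Sum.inr 1), v (Sum.inr 0)]
noncomputable def ot (v : I4 → ℂ) : I4 → ℂ :=
  Sum.elim ![-v (Sum.inl 1), v (Sum.inl 0)] ![v (Sum.inr 1), -v (Sum.inr 0)]

theorem Om1_xy (x y : ℂ) : Om1 !![x, 0; 0, y] !![y, 0; 0, x] = Matrix.fromBlocks
    !![(x + y) / 2, 0; 0, (x + y) / 2]
    !![(x - y) / 4, -3 * (x - y); 0, -(x - y)]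
    !![(x - y), -3 * (x - y); 0, -(x - y) / 4]
    !![(x + y) / 2, 0; 0, (x + y) / 2] := by
  rw [Om1]
  congr 1 <;> ext i j <;> fin_cases i <;> fin_cases j <;>
    simp [W, Wi] <;> ring

theorem Om1_yx (x y : ℂ) : Om1 !![y, 0; 0, x] !![x, 0; 0, y] = Matrix.fromBlocks
    !![(x + y) / 2, 0; 0, (x + y) / 2]
    !![-(x - y) / 4, 3 * (x - y); 0, (x - y)]
    !![-(x - y), 3 * (x - y); 0, (x - y) / 4]
    !![(x + y) / 2, 0; 0, (x + y) / 2] := by
  rw [Om1]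
  congr 1 <;> ext i j <;> fin_cases i <;> fin_cases j <;>
    simp [W, Wi] <;> ring

theorem shape_xy (t : M2 × M2 × M2) (ht : Shape t) :
    ∃ x y : ℂ, t.2.1 = !![x, 0; 0, y] ∧ t.2.2 = !![y, 0; 0, x] := by
  obtain ⟨h1, h2, h3, h4, h5, h6⟩ := ht
  refine ⟨t.2.1 0 0, t.2.1 1 1, ?_, ?_⟩
  · ext i j; fin_cases i <;> fin_cases j <;> simp [h1, h2]
  · ext i j; fin_cases i <;> fin_cases j <;> simp [h3, h4, h5, h6]

theorem Om1_transpose (t : M2 × M2 × M2) (ht : Shape t) (v : I4 → ℂ) :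
    (Om1 t.2.1 t.2.2)ᵀ *ᵥ v = o (Om1 t.2.1 t.2.2 *ᵥ ot v) := by
  obtain ⟨x, y, hx, hy⟩ := shape_xy t ht
  rw [hx, hy, Om1_xy]
  funext i
  rcases i with i | i <;> fin_cases i <;>
    simp [o, ot, Matrix.mulVec, dotProduct, Fintype.sum_sum_type, Fin.sum_univ_two] <;> ring

theorem Om1_transpose' (t : M2 × M2 × M2) (ht : Shape t) (v : I4 → ℂ) :
    (Om1 t.2.2 t.2.1)ᵀ *ᵥ v = fun i => u i * o (Om1 t.2.1 t.2.2 *ᵥ ot (fun j => u j * v j)) i := by
  obtain ⟨x, y, hx, hy⟩ := shape_xy t ht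
  rw [hx, hy, Om1_xy, Om1_yx]
  funext i
  rcases i with i | i <;> fin_cases i <;>
    simp [o, ot, u, Matrix.mulVec, dotProduct, Fintype.sum_sum_type, Fin.sum_univ_two] <;> ring

noncomputable def B1t (x : H8) : H8 :=
  WithLp.toLp 2 (Sum.elim (fun _ => 0) (ot (fun i => x.ofLp (Sum.inl i))))
noncomputable def B2t (x : H8) : H8 :=
  WithLp.toLp 2 (Sum.elim (fun _ => 0) (ot (fun i => u i * x.ofLp (Sum.inr i))))
noncomputable def C1t (x : H8) : H8 :=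
  WithLp.toLp 2 (Sum.elim (o (fun i => x.ofLp (Sum.inr i))) (fun _ => 0))
noncomputable def D1t (x : H8) : H8 :=
  WithLp.toLp 2 (Sum.elim (fun _ => 0) (fun i => u i * o (fun i => x.ofLp (Sum.inr i)) i))

theorem hBt (x : H8) : ‖B1t x‖ ^ 2 + ‖B2t x‖ ^ 2 ≤ ‖x‖ ^ 2 := by
  apply le_of_eq
  rw [EuclideanSpace.norm_sq_eq, EuclideanSpace.norm_sq_eq, EuclideanSpace.norm_sq_eq,
    Fintype.sum_sum_type, Fintype.sum_sum_type, Fintype.sum_sum_type (f := fun i => ‖x.ofLp i‖ ^ 2)]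
  simp only [B1t, B2t, Sum.elim_inl, Sum.elim_inr, norm_zero, Fintype.sum_sum_type,
    Fin.sum_univ_two, ot, Matrix.cons_val_zero, Matrix.cons_val_one, Matrix.cons_val_fin_one,
    norm_neg, norm_mul, u_norm, one_mul]
  ring

theorem hCt (x y : H8) : ‖C1t x + D1t y‖ ^ 2 ≤ ‖x‖ ^ 2 + ‖y‖ ^ 2 := by
  rw [EuclideanSpace.norm_sq_eq, EuclideanSpace.norm_sq_eq, EuclideanSpace.norm_sq_eq,
    Fintype.sum_sum_type, Fintype.sum_sum_type (f := fun i => ‖x.ofLp i‖ ^ 2),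
    Fintype.sum_sum_type (f := fun i => ‖y.ofLp i‖ ^ 2)]
  have h1 : 0 ≤ ∑ i, ‖x.ofLp (Sum.inl i : I8)‖ ^ 2 := Finset.sum_nonneg fun i _ => sq_nonneg _
  have h2 : 0 ≤ ∑ i, ‖y.ofLp (Sum.inl i : I8)‖ ^ 2 := Finset.sum_nonneg fun i _ => sq_nonneg _
  have h3 : ∑ i : I4, ‖(C1t x + D1t y).ofLp (Sum.inl i)‖ ^ 2 = ∑ i, ‖x.ofLp (Sum.inr i : I8)‖ ^ 2 := by
    simp only [C1t, D1t, PiLp.add_apply, Sum.elim_inl, Sum.elim_inr, add_zero,
      Fintype.sum_sum_type, Fin.sum_univ_two, o, Matrix.cons_val_zero, Matrix.cons_val_one,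
      Matrix.cons_val_fin_one, norm_neg]
    ring
  have h4 : ∑ i : I4, ‖(C1t x + D1t y).ofLp (Sum.inr i)‖ ^ 2 = ∑ i, ‖y.ofLp (Sum.inr i : I8)‖ ^ 2 := by
    simp only [C1t, D1t, PiLp.add_apply, Sum.elim_inl, Sum.elim_inr, zero_add, norm_mul, u_norm,
      one_mul, Fintype.sum_sum_type, Fin.sum_univ_two, o, Matrix.cons_val_zero,
      Matrix.cons_val_one, Matrix.cons_val_fin_one, norm_neg]
    ring
  rw [h3, h4]
  linarith

theorem C1t_add (x y : H8) : C1t (x + y) = C1t x + C1t y := by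
  ext i; rcases i with (i | i) | (i | i) <;> fin_cases i <;> simp [C1t, o] <;> ring
theorem D1t_add (x y : H8) : D1t (x + y) = D1t x + D1t y := by
  ext i; rcases i with (i | i) | (i | i) <;> fin_cases i <;> simp [D1t, o] <;> ring

theorem adj_al (a : AA) (x : H8) : ContinuousLinearMap.adjoint (al a : H8 →L[ℂ] H8) x =
    C1t ((a : H8 →L[ℂ] H8) (B1t x)) + D1t ((a : H8 →L[ℂ] H8) (B2t x)) := by
  obtain ⟨t, ht, ha⟩ := AA_mem a
  have hsh := shape_of_mem ht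
  have h1 : (al a : H8 →L[ℂ] H8) = cl (Om (sh t)) := by
    change alOp (a : H8 →L[ℂ] H8) = _
    rw [ha, alOp_Om]
  have h2 : ContinuousLinearMap.adjoint (cl (Om (sh t))) = cl (star (Om (sh t))) := by
    rw [← ContinuousLinearMap.star_eq_adjoint]
    exact (map_star (Matrix.toEuclideanCLM (n := I8) (𝕜 := ℂ)) (Om (sh t))).symm
  have tr : ∀ p q : M2, (Om1 (cj p) (cj q))ᴴ = (Om1 p q)ᵀ := by
    intro p q
    rw [← Om1_conj]
    ext i j
    simp
  have h3 : star (Om (sh t)) = Matrix.fromBlocks (Om1 t.2.1 t.2.2)ᵀ 0 0 (Om1 t.2.2 t.2.1)ᵀ := by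
    have hs : Om (sh t) = Matrix.fromBlocks (Om1 (cj t.2.1) (cj t.2.2)) 0 0
      (Om1 (cj t.2.2) (cj t.2.1)) := rfl
    rw [hs, Matrix.star_eq_conjTranspose, Matrix.fromBlocks_conjTranspose, tr, tr]
    simp
  rw [h1, h2, h3, ha, cl_apply, cl_apply, cl_apply, Om_apply, Matrix.fromBlocks_mulVec,
    Matrix.fromBlocks_mulVec, Matrix.fromBlocks_mulVec, Om1_transpose t hsh,
    Om1_transpose' t hsh]
  ext i
  rcases i with i | i
  · simp only [C1t, D1t, PiLp.add_apply, Sum.elim_inl, Sum.elim_inr, add_zero,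
      Matrix.zero_mulVec, zero_add]
    rfl
  · simp only [C1t, D1t, PiLp.add_apply, Sum.elim_inr, Sum.elim_inl, add_zero,
      Matrix.zero_mulVec, zero_add]
    rfl

theorem adj_al_cc : CBLe AA (fun a => ContinuousLinearMap.adjoint (al a : H8 →L[ℂ] H8)) 1 :=
  cc_of_two AA _ B1t B2t C1t D1t hBt hCt C1t_add D1t_add adj_al

theorem al_ccT : CBLeT AA (fun a => (al a : H8 →L[ℂ] H8)) 1 := by
  intro m F
  have h := adj_al_cc m F
  rw [← matOp_adjoint_norm]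
  exact h

end Pool.Agent.H415R3.CZ
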