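import Pool.Agent.H415R3.CZ5

namespace Pool.Agent.H415R3.CZ

open scoped ComplexConjugate

section defs
variable {H K : Type} [NormedAddCommGroup H] [InnerProductSpace ℂ H]
  [NormedAddCommGroup K] [InnerProductSpace ℂ K]

/-- Bounded operators on `H`. -/
abbrev B (H : Type) [NormedAddCommGroup H] [InnerProductSpace ℂ H] : Type := H →L[ℂ] H

/-- The matrix `F` of operators on `H` has norm at most `c` as an operator on the Hilbert sum of
`m` copies of `H`. -/
def MatLe {m : ℕ} (F : Fin m → Fin m → B H) (c : ℝ) : Prop :=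
  ∀ x : Fin m → H, ∑ i, ‖∑ j, F i j (x j)‖ ^ 2 ≤ c ^ 2 * ∑ j, ‖x j‖ ^ 2

/-- The completely bounded norm of `φ` on `A` is at most `C`: if a matrix over `A` has norm at
most `c`, then its image under `φ` applied entrywise has norm at most `C * c`. -/
def CBOn (A : Set (B H)) (φ : B H → B K) (C : ℝ) : Prop :=
  ∀ (m : ℕ) (F : Fin m → Fin m → B H), (∀ i j, F i j ∈ A) → ∀ c : ℝ, 0 ≤ c → MatLe F c →
    MatLe (fun i j => φ (F i j)) (C * c)

/-- As `CBOn`, for the amplifications that also transpose the matrix. -/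
def CBTOn (A : Set (B H)) (φ : B H → B K) (C : ℝ) : Prop :=
  ∀ (m : ℕ) (F : Fin m → Fin m → B H), (∀ i j, F i j ∈ A) → ∀ c : ℝ, 0 ≤ c → MatLe F c →
    MatLe (fun i j => φ (F j i)) (C * c)

/-- `A` is closed under addition and scalar multiplication. -/
def LinClosed (A : Set (B H)) : Prop :=
  (∀ a ∈ A, ∀ b ∈ A, a + b ∈ A) ∧ ∀ (c : ℂ), ∀ a ∈ A, c • a ∈ A

/-- `A` is a unital subalgebra of `B(H)`. -/
def IsOpAlg (A : Set (B H)) : Prop :=
  LinClosed A ∧ (1 : B H) ∈ A ∧ ∀ a ∈ A, ∀ b ∈ A, a * b ∈ A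

/-- `θ` is linear on `A`. -/
def LinOn (A : Set (B H)) (θ : B H → B K) : Prop :=
  (∀ a ∈ A, ∀ b ∈ A, θ (a + b) = θ a + θ b) ∧ ∀ (c : ℂ), ∀ a ∈ A, θ (c • a) = c • θ a

/-- `α` is antilinear on `A`. -/
def AntilinOn (A : Set (B H)) (α : B H → B H) : Prop :=
  (∀ a ∈ A, ∀ b ∈ A, α (a + b) = α a + α b) ∧ ∀ (c : ℂ), ∀ a ∈ A, α (c • a) = conj c • α a

/-- `θ` is a unital homomorphism on `A`. -/
def HomOn (A : Set (B H)) (θ : B H → B K) : Prop :=
  LinOn A θ ∧ θ 1 = 1 ∧ ∀ a ∈ A, ∀ b ∈ A, θ (a * b) = θ a * θ b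

/-- The map `a ↦ (θ a + (θ (α a))^*) / 2`. -/
noncomputable def half [CompleteSpace K] (θ : B H → B K) (α : B H → B H) (a : B H) : B K :=
  (1/2 : ℂ) • (θ a + star (θ (α a)))

/-- `α` maps `A` to `A` and is a unital antilinear complete contraction of `A`, both for the
amplification `[a i j] ↦ [α (a i j)]` and for `[a i j] ↦ [α (a j i)]`. -/
def IsUACC (A : Set (B H)) (α : B H → B H) : Prop :=
  (∀ a ∈ A, α a ∈ A) ∧ AntilinOn A α ∧ α 1 = 1 ∧ CBOn A α 1 ∧ CBTOn A α 1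

/-- `A` is an operator algebra, `θ` a unital completely bounded homomorphism on `A`, `α` a unital
antilinear complete contraction of `A` and `(θ + (θ ∘ α)^*) / 2` is completely contractive. -/
def Hyp [CompleteSpace K] (A : Set (B H)) (θ : B H → B K) (α : B H → B H) : Prop :=
  IsOpAlg A ∧ HomOn A θ ∧ (∃ C : ℝ, CBOn A θ C) ∧ IsUACC A α ∧ CBOn A (half θ α) 1

/-- `θ f` has norm larger than `2` for an `f` in the closed unit ball of `A`. -/
def Large (A : Set (B H)) (θ : B H → B K) : Prop :=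
  ∃ f ∈ A, ‖f‖ ≤ 1 ∧ 2 < ‖θ f‖

end defs
end Pool.Agent.H415R3.CZ
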