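import Pool.Agent.H415R3.CZ6

namespace Pool.Agent.H415R3.CZ

open scoped ComplexConjugate

section bridge
variable {H K : Type} [NormedAddCommGroup H] [InnerProductSpace ℂ H]
  [NormedAddCommGroup K] [InnerProductSpace ℂ K]

theorem matLe_iff {m : ℕ} (F : Fin m → Fin m → B H) (c : ℝ) (hc : 0 ≤ c) :
    MatLe F c ↔ ‖matOp (Matrix.of F)‖ ≤ c := by
  have key : ∀ x : Copies H m, ‖matOp (Matrix.of F) x‖ ^ 2 = ∑ i, ‖∑ j, F i j (x j)‖ ^ 2 := by
    intro x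
    rw [PiLp.norm_sq_eq_of_L2]
    refine Finset.sum_congr rfl fun i _ => ?_
    rw [matOp_apply]; rfl
  constructor
  · intro h
    refine ContinuousLinearMap.opNorm_le_bound _ hc fun x => ?_
    refine (pow_le_pow_iff_left₀ (norm_nonneg _) (by positivity) two_ne_zero).1 ?_
    rw [key, mul_pow, PiLp.norm_sq_eq_of_L2]
    exact h _
  · intro h x
    have h1 := (matOp (Matrix.of F)).le_of_opNorm_le h (WithLp.toLp 2 x)
    have h2 := pow_le_pow_left₀ (norm_nonneg _) h1 2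
    rw [key, mul_pow, PiLp.norm_sq_eq_of_L2] at h2
    exact h2

theorem cbOn_of_cbLe (A : Subalgebra ℂ (H →L[ℂ] H)) (φ : B H → B K) (C : ℝ) (hC : 0 ≤ C)
    (h : CBLe A (fun a => φ a) C) : CBOn (A : Set (B H)) φ C := by
  intro m F hF c hc hle
  rw [matLe_iff _ _ (by positivity)]
  rw [matLe_iff _ _ hc] at hle
  have h1 := h m (Matrix.of fun i j => (⟨F i j, hF i j⟩ : A))
  refine le_trans (le_of_eq rfl) (h1.trans ?_)
  gcongr
  exact hle

theorem cbtOn_of_cbLeT (A : Subalgebra ℂ (H →L[ℂ] H)) (φ : B H → B K) (C : ℝ) (hC : 0 ≤ C)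
    (h : CBLeT A (fun a => φ a) C) : CBTOn (A : Set (B H)) φ C := by
  intro m F hF c hc hle
  rw [matLe_iff _ _ (by positivity)]
  rw [matLe_iff _ _ hc] at hle
  have h1 := h m (Matrix.of fun i j => (⟨F i j, hF i j⟩ : A))
  refine le_trans (le_of_eq rfl) (h1.trans ?_)
  gcongr
  exact hle

theorem matLe_one (a : B H) (c : ℝ) (hc : 0 ≤ c) :
    MatLe (fun _ _ : Fin 1 => a) c ↔ ‖a‖ ≤ c := by
  rw [matLe_iff _ _ hc, matOp_one_norm]
  rfl

end bridge

/-- the homomorphism -/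
noncomputable def thB (a : B H8) : B C2 := rc Lt ∘L a ∘L rc Rt

theorem thB_eq (a : AA) : thB (a : H8 →L[ℂ] H8) = th a := rfl

theorem final_isOpAlg : IsOpAlg (AA : Set (B H8)) :=
  ⟨⟨fun _ ha _ hb => AA.add_mem ha hb, fun c _ ha => AA.smul_mem ha c⟩, AA.one_mem,
    fun _ ha _ hb => AA.mul_mem ha hb⟩

theorem final_hom : HomOn (AA : Set (B H8)) thB := by
  refine ⟨⟨fun a ha b hb => ?_, fun c a ha => ?_⟩, ?_, fun a ha b hb => ?_⟩
  · exact map_add th (⟨a, ha⟩ : AA) ⟨b, hb⟩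
  · exact map_smul th c (⟨a, ha⟩ : AA)
  · exact map_one th
  · exact map_mul th (⟨a, ha⟩ : AA) ⟨b, hb⟩

theorem final_uacc : IsUACC (AA : Set (B H8)) alOp := by
  refine ⟨fun a ha => (al ⟨a, ha⟩).2, ⟨fun a _ b _ => alOp_add a b, fun c a _ => alOp_smul c a⟩,
    ?_, ?_, ?_⟩
  · have h := al_one
    have h' := congrArg Subtype.val h
    exact h'
  · exact cbOn_of_cbLe AA alOp 1 zero_le_one al_cc
  · exact cbtOn_of_cbLeT AA alOp 1 zero_le_one al_ccT

theorem final_hyp : Hyp (AA : Set (B H8)) thB alOp := by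
  refine ⟨final_isOpAlg, final_hom, ⟨‖rc Lt‖ * ‖rc Rt‖, ?_⟩, final_uacc, ?_⟩
  · exact cbOn_of_cbLe AA thB _ (mul_nonneg (norm_nonneg _) (norm_nonneg _)) th_cb
  · refine cbOn_of_cbLe AA (half thB alOp) 1 zero_le_one ?_
    exact psi_cc

theorem final_large : Large (AA : Set (B H8)) thB :=
  ⟨(fg : H8 →L[ℂ] H8), fg.2, fg_norm, th_fg⟩

theorem not_cbOn_two : ¬ CBOn (AA : Set (B H8)) thB 2 := by
  intro h
  have h1 := h 1 (fun _ _ => (fg : H8 →L[ℂ] H8)) (fun _ _ => fg.2) 1 zero_le_one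
    ((matLe_one _ _ zero_le_one).2 fg_norm)
  rw [matLe_one _ _ (by norm_num)] at h1
  have h2 : 2 < ‖thB (fg : H8 →L[ℂ] H8)‖ := th_fg
  linarith

end Pool.Agent.H415R3.CZ
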