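import Mathlib

set_option autoImplicit false
set_option linter.unusedSectionVars false
set_option linter.dupNamespace false
set_option linter.deprecated false
set_option linter.unusedVariables false
open scoped NNReal ENNReal InnerProductSpace ComplexConjugate

namespace Pool.Agent.H415R3.HS

variable {H : Type} [NormedAddCommGroup H] [InnerProductSpace ℂ H] [CompleteSpace H]
variable (b : HilbertBasis ℕ ℂ H)

/-- squared Hilbert-Schmidt norm (extended) -/
noncomputable def n2 (X : H →L[ℂ] H) : ℝ≥0∞ := ∑' n : ℕ, ENNReal.ofReal (‖X (b n)‖ ^ 2)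

lemma ofReal_norm_sq (y : H) :
    ENNReal.ofReal (‖y‖ ^ 2) = ∑' m : ℕ, ENNReal.ofReal (‖⟪b m, y⟫_ℂ‖ ^ 2) := by
  have h := b.hasSum_inner_mul_inner y y
  have h2 : ∀ m, ⟪y, b m⟫_ℂ * ⟪b m, y⟫_ℂ = ((‖⟪b m, y⟫_ℂ‖ ^ 2 : ℝ) : ℂ) := by
    intro m
    rw [← inner_conj_symm y (b m), Complex.conj_mul']
    push_cast; rfl
  simp only [h2] at h
  have h3 : ⟪y, y⟫_ℂ = ((‖y‖ ^ 2 : ℝ) : ℂ) := by
    rw [inner_self_eq_norm_sq_to_K]; push_cast; rfl
  rw [h3] at h
  have h4 : HasSum (fun m => ‖⟪b m, y⟫_ℂ‖ ^ 2) (‖y‖ ^ 2) := by exact_mod_cast h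
  rw [← h4.tsum_eq, ENNReal.ofReal_tsum_of_nonneg (fun _ => by positivity) h4.summable]

lemma n2_star (X : H →L[ℂ] H) : n2 b (star X) = n2 b X := by
  unfold n2
  simp_rw [ofReal_norm_sq b]
  rw [ENNReal.tsum_comm]
  refine tsum_congr fun n => tsum_congr fun m => ?_
  congr 2
  rw [ContinuousLinearMap.star_eq_adjoint, ContinuousLinearMap.adjoint_inner_right,
    ← inner_conj_symm, RCLike.norm_conj]

/-- Hilbert-Schmidt operators -/
def HS (X : H →L[ℂ] H) : Prop := n2 b X < ⊤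

/-- real squared HS norm -/
noncomputable def N (X : H →L[ℂ] H) : ℝ := ∑' n : ℕ, ‖X (b n)‖ ^ 2

noncomputable def ip (X Y : H →L[ℂ] H) : ℂ := ∑' n : ℕ, ⟪X (b n), Y (b n)⟫_ℂ

variable {b}

lemma hs_iff {X : H →L[ℂ] H} : HS b X ↔ Summable (fun n : ℕ => ‖X (b n)‖ ^ 2) := by
  unfold HS n2
  constructor
  · intro h
    have := ENNReal.summable_toReal h.ne
    refine this.congr fun n => ?_
    rw [ENNReal.toReal_ofReal (by positivity)]
  · intro h
    rw [← ENNReal.ofReal_tsum_of_nonneg (fun _ => by positivity) h]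
    exact ENNReal.ofReal_lt_top

lemma n2_eq {X : H →L[ℂ] H} (h : HS b X) : n2 b X = ENNReal.ofReal (N b X) := by
  unfold n2 N
  rw [ENNReal.ofReal_tsum_of_nonneg (fun _ => by positivity) (hs_iff.1 h)]

lemma N_nonneg (X : H →L[ℂ] H) : 0 ≤ N b X := tsum_nonneg fun _ => by positivity

lemma N_eq_of_n2 {X Y : H →L[ℂ] H} (hX : HS b X) (hY : HS b Y) (h : n2 b X = n2 b Y) :
    N b X = N b Y := by
  rw [n2_eq hX, n2_eq hY] at h
  exact (ENNReal.ofReal_eq_ofReal_iff (N_nonneg _) (N_nonneg _)).1 h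

lemma N_le_of_n2 {X Y : H →L[ℂ] H} (hX : HS b X) (hY : HS b Y) (h : n2 b X ≤ n2 b Y) :
    N b X ≤ N b Y := by
  rw [n2_eq hX, n2_eq hY] at h
  exact (ENNReal.ofReal_le_ofReal_iff (N_nonneg _)).1 h

lemma hs_star {X : H →L[ℂ] H} (h : HS b X) : HS b (star X) := by
  unfold HS at *; rwa [n2_star]

lemma hs_star' {X : H →L[ℂ] H} : HS b (star X) ↔ HS b X := by
  unfold HS; rw [n2_star]

lemma N_star {X : H →L[ℂ] H} (h : HS b X) : N b (star X) = N b X :=
  N_eq_of_n2 (hs_star h) h (n2_star b X)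

lemma n2_mono {X Y : H →L[ℂ] H} (h : ∀ v, ‖X v‖ ≤ ‖Y v‖) : n2 b X ≤ n2 b Y := by
  unfold n2
  exact ENNReal.tsum_le_tsum fun n => ENNReal.ofReal_le_ofReal (by gcongr; exact h _)

lemma n2_congr {X Y : H →L[ℂ] H} (h : ∀ v, ‖X v‖ = ‖Y v‖) : n2 b X = n2 b Y :=
  le_antisymm (n2_mono fun v => (h v).le) (n2_mono fun v => (h v).ge)

lemma hs_mono {X Y : H →L[ℂ] H} (hY : HS b Y) (h : ∀ v, ‖X v‖ ≤ ‖Y v‖) : HS b X :=
  lt_of_le_of_lt (n2_mono h) hY

lemma hs_mul_left {X : H →L[ℂ] H} (C : H →L[ℂ] H) (h : HS b X) : HS b (C * X) := by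
  rw [hs_iff] at *
  refine Summable.of_nonneg_of_le (fun n => by positivity) (fun n => ?_) (h.mul_left (‖C‖ ^ 2))
  rw [← mul_pow]
  gcongr
  exact C.le_opNorm _

lemma hs_mul_right {X : H →L[ℂ] H} (C : H →L[ℂ] H) (h : HS b X) : HS b (X * C) := by
  rw [← hs_star', star_mul]
  exact hs_mul_left _ (hs_star h)

lemma hs_smul {X : H →L[ℂ] H} (c : ℂ) (h : HS b X) : HS b (c • X) := by
  rw [hs_iff] at *
  refine (h.mul_left (‖c‖ ^ 2)).congr fun n => ?_
  simp [norm_smul, mul_pow]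

lemma hs_add {X Y : H →L[ℂ] H} (hX : HS b X) (hY : HS b Y) : HS b (X + Y) := by
  rw [hs_iff] at *
  refine Summable.of_nonneg_of_le (fun n => by positivity) (fun n => ?_)
    ((hX.mul_left 2).add (hY.mul_left 2))
  have h1 : ‖(X + Y) (b n)‖ ≤ ‖X (b n)‖ + ‖Y (b n)‖ := by
    rw [ContinuousLinearMap.add_apply]; exact norm_add_le _ _
  nlinarith [norm_nonneg ((X + Y) (b n)), sq_nonneg (‖X (b n)‖ - ‖Y (b n)‖)]

lemma hs_neg {X : H →L[ℂ] H} (h : HS b X) : HS b (-X) := by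
  have := hs_smul (-1 : ℂ) h
  simpa using this

lemma hs_sub {X Y : H →L[ℂ] H} (hX : HS b X) (hY : HS b Y) : HS b (X - Y) := by
  rw [sub_eq_add_neg]; exact hs_add hX (hs_neg hY)

lemma hs_zero : HS b (0 : H →L[ℂ] H) := by
  unfold HS n2; simp

lemma ip_summable {X Y : H →L[ℂ] H} (hX : HS b X) (hY : HS b Y) :
    Summable (fun n : ℕ => ⟪X (b n), Y (b n)⟫_ℂ) := by
  rw [hs_iff] at *
  refine Summable.of_norm_bounded (hX.add hY) fun n => ?_
  have h1 := norm_inner_le_norm (𝕜 := ℂ) (X (b n)) (Y (b n))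
  nlinarith [sq_nonneg (‖X (b n)‖ - ‖Y (b n)‖), norm_nonneg (X (b n)), norm_nonneg (Y (b n))]

lemma ip_conj (X Y : H →L[ℂ] H) : conj (ip b X Y) = ip b Y X := by
  unfold ip
  rw [Complex.conj_tsum]
  exact tsum_congr fun n => by rw [inner_conj_symm]

lemma ip_add_left {X Y Z : H →L[ℂ] H} (hX : HS b X) (hY : HS b Y) (hZ : HS b Z) :
    ip b (X + Y) Z = ip b X Z + ip b Y Z := by
  unfold ip
  rw [← (ip_summable hX hZ).tsum_add (ip_summable hY hZ)]
  exact tsum_congr fun n => by rw [ContinuousLinearMap.add_apply, inner_add_left]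

lemma ip_add_right {X Y Z : H →L[ℂ] H} (hX : HS b X) (hY : HS b Y) (hZ : HS b Z) :
    ip b Z (X + Y) = ip b Z X + ip b Z Y := by
  unfold ip
  rw [← (ip_summable hZ hX).tsum_add (ip_summable hZ hY)]
  exact tsum_congr fun n => by rw [ContinuousLinearMap.add_apply, inner_add_right]

lemma ip_smul_left (c : ℂ) (X Y : H →L[ℂ] H) : ip b (c • X) Y = conj c * ip b X Y := by
  unfold ip
  rw [← tsum_mul_left]
  exact tsum_congr fun n => by rw [ContinuousLinearMap.smul_apply, inner_smul_left]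

lemma ip_smul_right (c : ℂ) (X Y : H →L[ℂ] H) : ip b X (c • Y) = c * ip b X Y := by
  unfold ip
  rw [← tsum_mul_left]
  exact tsum_congr fun n => by rw [ContinuousLinearMap.smul_apply, inner_smul_right]

lemma ip_neg_left (X Y : H →L[ℂ] H) : ip b (-X) Y = - ip b X Y := by
  have := ip_smul_left (b := b) (-1 : ℂ) X Y
  simpa using this

lemma ip_neg_right (X Y : H →L[ℂ] H) : ip b X (-Y) = - ip b X Y := by
  have := ip_smul_right (b := b) (-1 : ℂ) X Y
  simpa using this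

lemma ip_sub_left {X Y Z : H →L[ℂ] H} (hX : HS b X) (hY : HS b Y) (hZ : HS b Z) :
    ip b (X - Y) Z = ip b X Z - ip b Y Z := by
  rw [sub_eq_add_neg, ip_add_left hX (hs_neg hY) hZ, ip_neg_left, sub_eq_add_neg]

lemma ip_sub_right {X Y Z : H →L[ℂ] H} (hX : HS b X) (hY : HS b Y) (hZ : HS b Z) :
    ip b Z (X - Y) = ip b Z X - ip b Z Y := by
  rw [sub_eq_add_neg, ip_add_right hX (hs_neg hY) hZ, ip_neg_right, sub_eq_add_neg]

lemma ip_self {X : H →L[ℂ] H} (hX : HS b X) : ip b X X = ((N b X : ℝ) : ℂ) := by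
  unfold ip N
  rw [Complex.ofReal_tsum]
  refine tsum_congr fun n => ?_
  rw [inner_self_eq_norm_sq_to_K]; push_cast; rfl

lemma N_add {X Y : H →L[ℂ] H} (hX : HS b X) (hY : HS b Y) :
    N b (X + Y) = N b X + N b Y + 2 * (ip b X Y).re := by
  have h := ip_self (hs_add hX hY)
  rw [ip_add_left hX hY (hs_add hX hY), ip_add_right hX hY hX, ip_add_right hX hY hY,
    ip_self hX, ip_self hY, ← ip_conj X Y] at h
  have h2 := congrArg Complex.re h
  simp at h2
  linarith

lemma N_smul (c : ℂ) {X : H →L[ℂ] H} : N b (c • X) = ‖c‖ ^ 2 * N b X := by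
  unfold N
  rw [← tsum_mul_left]
  exact tsum_congr fun n => by simp [norm_smul, mul_pow]

lemma N_neg (X : H →L[ℂ] H) : N b (-X) = N b X := by
  unfold N; simp

lemma N_sub {X Y : H →L[ℂ] H} (hX : HS b X) (hY : HS b Y) :
    N b (X - Y) = N b X + N b Y - 2 * (ip b X Y).re := by
  rw [sub_eq_add_neg, N_add hX (hs_neg hY), N_neg, ip_neg_right, Complex.neg_re]; ring

lemma eq_zero_of_basis {X : H →L[ℂ] H} (h : ∀ n, X (b n) = 0) : X = 0 := by
  have h1 : ∀ v, X v = 0 := by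
    intro v
    have hs := (b.hasSum_repr v).mapL X
    have : (fun n => X ((b.repr v) n • b n)) = fun _ => 0 := by
      funext n; rw [map_smul, h n, smul_zero]
    rw [this] at hs
    exact hs.unique hasSum_zero
  ext v; simpa using h1 v

lemma N_eq_zero {X : H →L[ℂ] H} (hX : HS b X) (h : N b X = 0) : X = 0 := by
  apply eq_zero_of_basis (b := b)
  intro n
  have h0 : HasSum (fun n : ℕ => ‖X (b n)‖ ^ 2) 0 := by
    have := (hs_iff.1 hX).hasSum
    rwa [show (∑' n : ℕ, ‖X (b n)‖ ^ 2) = 0 from h] at this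
  have h1 := (hasSum_zero_iff_of_nonneg (f := fun n : ℕ => ‖X (b n)‖ ^ 2)
    (fun n => by positivity)).1 h0
  have h2 := congrFun h1 n
  simpa using h2

lemma N_le_zero {X : H →L[ℂ] H} (hX : HS b X) (h : N b X ≤ 0) : X = 0 :=
  N_eq_zero hX (le_antisymm h (N_nonneg _))

lemma ip_star {X Y : H →L[ℂ] H} (hX : HS b X) (hY : HS b Y) :
    ip b (star Y) (star X) = ip b X Y := by
  have key : ∀ {X Y : H →L[ℂ] H}, HS b X → HS b Y →
      (ip b (star Y) (star X)).re = (ip b X Y).re := by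
    intro X Y hX hY
    have h1 := N_add hX hY
    have h2 := N_add (hs_star hY) (hs_star hX)
    have h3 : star Y + star X = star (X + Y) := by rw [star_add, add_comm]
    rw [h3, N_star (hs_add hX hY), N_star hX, N_star hY] at h2
    linarith
  apply Complex.ext
  · exact key hX hY
  · have h := key hX (hs_smul Complex.I hY)
    rw [star_smul, ip_smul_left, ip_smul_right] at h
    simp at h
    linarith

lemma ip_mul_left (C X Y : H →L[ℂ] H) : ip b (C * X) Y = ip b X (star C * Y) := by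
  unfold ip
  refine tsum_congr fun n => ?_
  rw [ContinuousLinearMap.mul_apply, ContinuousLinearMap.mul_apply,
    ContinuousLinearMap.star_eq_adjoint, ContinuousLinearMap.adjoint_inner_right]

lemma ip_mul_right {X Y : H →L[ℂ] H} (C : H →L[ℂ] H) (hX : HS b X) (hY : HS b Y) :
    ip b (X * C) Y = ip b X (Y * star C) := by
  rw [← ip_star (hs_mul_right C hX) hY, star_mul, ← ip_star hX (hs_mul_right (star C) hY),
    star_mul, star_star, ip_mul_left]

lemma norm_ip_le {X Y : H →L[ℂ] H} (hX : HS b X) (hY : HS b Y) :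
    ‖ip b X Y‖ ^ 2 ≤ N b X * N b Y := by
  set z := ip b X Y with hz
  by_cases hz0 : z = 0
  · rw [hz0]; simp; exact mul_nonneg (N_nonneg _) (N_nonneg _)
  have hpos : 0 < ‖z‖ := norm_pos_iff.2 hz0
  -- N (t X' - Y) ≥ 0
  have key : ∀ t : ℝ, 0 ≤ t ^ 2 * N b X + N b Y - 2 * t * ‖z‖ := by
    intro t
    set c : ℂ := (t : ℂ) * (z / ‖z‖) with hc
    have h1 := N_sub (hs_smul c hX) hY
    have h2 := N_nonneg (b := b) (c • X - Y)
    rw [h1, N_smul, ip_smul_left, ← hz] at h2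
    have h3 : ‖c‖ ^ 2 = t ^ 2 := by
      rw [hc, norm_mul, norm_div]
      simp [hpos.ne']
    have h4 : (conj c * z).re = t * ‖z‖ := by
      have : conj c * z = ((t * ‖z‖ : ℝ) : ℂ) := by
        rw [hc, map_mul, map_div₀, Complex.conj_ofReal, Complex.conj_ofReal]
        have h5 : conj z * z = ((‖z‖ ^ 2 : ℝ) : ℂ) := by
          rw [Complex.conj_mul']; push_cast; rfl
        have h6 : (‖z‖ : ℂ) ≠ 0 := by exact_mod_cast hpos.ne'
        have h7 : (t : ℂ) * (conj z / ‖z‖) * z = (t : ℂ) * (conj z * z) / ‖z‖ := by ring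
        rw [h7, h5]; push_cast; field_simp
      rw [this, Complex.ofReal_re]
    rw [h3, h4] at h2
    linarith
  have hd := discrim_le_zero (a := N b X) (b := -2 * ‖z‖) (c := N b Y) (fun t => by
    have := key t
    nlinarith)
  unfold discrim at hd
  nlinarith

end Pool.Agent.H415R3.HS
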