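import Pool.Agent.H415R3.HS9

set_option autoImplicit false
set_option linter.unusedSectionVars false
set_option linter.dupNamespace false
set_option linter.deprecated false
set_option linter.unusedVariables false
open scoped NNReal ENNReal InnerProductSpace ComplexConjugate
open Filter Topology

namespace Pool.Agent.H415R3.HS

variable {H : Type} [NormedAddCommGroup H] [InnerProductSpace ℂ H] [CompleteSpace H]

/-! ### absolute value by functional calculus -/

noncomputable def ab (x : H →L[ℂ] H) : H →L[ℂ] H := cfc (fun t : ℝ => √t) (star x * x)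

noncomputable def dd (x : H →L[ℂ] H) : H →L[ℂ] H := cfc (fun t : ℝ => √(√t)) (star x * x)

noncomputable def yy (ε : ℝ) (x : H →L[ℂ] H) : H →L[ℂ] H :=
  x * cfc (fun t : ℝ => (√t + ε)⁻¹) (star x * x)

lemma sa (x : H →L[ℂ] H) : IsSelfAdjoint (star x * x) := IsSelfAdjoint.star_mul_self x

lemma spec_nonneg (x : H →L[ℂ] H) {t : ℝ} (ht : t ∈ spectrum ℝ (star x * x)) : 0 ≤ t :=
  spectrum_nonneg_of_nonneg (star_mul_self_nonneg x) ht

lemma cont_f {ε : ℝ} (hε : 0 < ε) : Continuous (fun t : ℝ => (√t + ε)⁻¹) := by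
  refine Continuous.inv₀ (by fun_prop) fun t => ?_
  have := Real.sqrt_nonneg t
  positivity

lemma dd_star (x : H →L[ℂ] H) : star (dd x) = dd x :=
  (cfc_predicate (fun t : ℝ => √(√t)) (star x * x))

lemma dd_mul (x : H →L[ℂ] H) : dd x * dd x = ab x := by
  unfold dd ab
  rw [← cfc_mul (fun t : ℝ => √(√t)) (fun t : ℝ => √(√t)) (star x * x) (by fun_prop) (by fun_prop)]
  congr 1
  funext t
  exact Real.mul_self_sqrt (Real.sqrt_nonneg t)

lemma ab_star (x : H →L[ℂ] H) : star (ab x) = ab x :=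
  (cfc_predicate (fun t : ℝ => √t) (star x * x))

lemma ab_mul (x : H →L[ℂ] H) : ab x * ab x = star x * x := by
  unfold ab
  rw [← cfc_mul (fun t : ℝ => √t) (fun t : ℝ => √t) (star x * x) (by fun_prop) (by fun_prop)]
  conv_rhs => rw [← cfc_id' ℝ (star x * x) (sa x)]
  refine cfc_congr fun t ht => ?_
  exact Real.mul_self_sqrt (spec_nonneg x ht)

lemma ab_norm (x : H →L[ℂ] H) (v : H) : ‖ab x v‖ = ‖x v‖ :=
  norm_eq_of_star_mul (by rw [ab_star, ab_mul]) v

lemma yy_norm {ε : ℝ} (hε : 0 < ε) (x : H →L[ℂ] H) : ‖yy ε x‖ ≤ 1 := by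
  have h1 : star (yy ε x) * yy ε x = cfc (fun t : ℝ => (√t + ε)⁻¹ * (t * (√t + ε)⁻¹)) (star x * x) := by
    have h2 : star (cfc (fun t : ℝ => (√t + ε)⁻¹) (star x * x))
        = cfc (fun t : ℝ => (√t + ε)⁻¹) (star x * x) :=
      (cfc_predicate (fun t : ℝ => (√t + ε)⁻¹) (star x * x))
    rw [cfc_mul (fun t : ℝ => (√t + ε)⁻¹) (fun t : ℝ => t * (√t + ε)⁻¹) (star x * x)
        (cont_f hε).continuousOn ((continuous_id.mul (cont_f hε)).continuousOn),
      cfc_mul (fun t : ℝ => t) (fun t : ℝ => (√t + ε)⁻¹) (star x * x)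
        continuousOn_id (cont_f hε).continuousOn, cfc_id' ℝ (star x * x) (sa x)]
    unfold yy
    rw [star_mul, h2]
    noncomm_ring
  have h3 : ‖star (yy ε x) * yy ε x‖ ≤ 1 := by
    rw [h1]
    refine norm_cfc_le zero_le_one fun t ht => ?_
    have h0 := spec_nonneg x ht
    have h4 := Real.sqrt_nonneg t
    have h5 : √t * √t = t := Real.mul_self_sqrt h0
    rw [Real.norm_eq_abs, abs_of_nonneg (by positivity)]
    have h6 : (√t + ε)⁻¹ * (t * (√t + ε)⁻¹) = t / (√t + ε) ^ 2 := by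
      field_simp
    rw [h6, div_le_one (by positivity)]
    nlinarith
  rw [CStarRing.norm_star_mul_self] at h3
  nlinarith [norm_nonneg (yy ε x)]

lemma yy_ab {ε : ℝ} (hε : 0 < ε) (x : H →L[ℂ] H) : ‖x - yy ε x * ab x‖ ≤ ε := by
  have h1 : x - yy ε x * ab x = (ε : ℂ) • yy ε x := by
    unfold yy ab
    rw [mul_assoc, ← cfc_mul (fun t : ℝ => (√t + ε)⁻¹) (fun t : ℝ => √t) (star x * x)
      (cont_f hε).continuousOn (by fun_prop)]
    have h2 : cfc (fun t : ℝ => (√t + ε)⁻¹ * √t) (star x * x)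
        = 1 - ε • cfc (fun t : ℝ => (√t + ε)⁻¹) (star x * x) := by
      rw [← cfc_smul ε (fun t : ℝ => (√t + ε)⁻¹) (star x * x) (cont_f hε).continuousOn,
        ← cfc_one ℝ (star x * x) (sa x),
        ← cfc_sub (1 : ℝ → ℝ) (fun t : ℝ => ε • (√t + ε)⁻¹) (star x * x) (by fun_prop)
          ((cont_f hε).const_smul ε).continuousOn]
      refine cfc_congr fun t ht => ?_
      have h4 := Real.sqrt_nonneg t
      simp only [Pi.one_apply, smul_eq_mul]
      field_simp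
      ring
    rw [h2, mul_sub, mul_one, sub_sub_cancel, mul_smul_comm]
    rfl
  rw [h1, norm_smul, Complex.norm_real, Real.norm_eq_abs, abs_of_pos hε]
  have := yy_norm hε x
  nlinarith

lemma ab_yy {ε : ℝ} (hε : 0 < ε) (x : H →L[ℂ] H) : ‖ab x - star (yy ε x) * x‖ ≤ ε := by
  have h1 : ab x - star (yy ε x) * x
      = cfc (fun t : ℝ => √t - (√t + ε)⁻¹ * t) (star x * x) := by
    have h2 : star (cfc (fun t : ℝ => (√t + ε)⁻¹) (star x * x))
        = cfc (fun t : ℝ => (√t + ε)⁻¹) (star x * x) :=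
      (cfc_predicate (fun t : ℝ => (√t + ε)⁻¹) (star x * x))
    rw [cfc_sub (fun t : ℝ => √t) (fun t : ℝ => (√t + ε)⁻¹ * t) (star x * x) (by fun_prop)
        ((cont_f hε).mul continuous_id).continuousOn,
      cfc_mul (fun t : ℝ => (√t + ε)⁻¹) (fun t : ℝ => t) (star x * x)
        (cont_f hε).continuousOn continuousOn_id, cfc_id' ℝ (star x * x) (sa x)]
    unfold yy ab
    rw [star_mul, h2, mul_assoc]
  rw [h1]
  refine norm_cfc_le hε.le fun t ht => ?_
  have h0 := spec_nonneg x ht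
  have h4 := Real.sqrt_nonneg t
  have h5 : √t * √t = t := Real.mul_self_sqrt h0
  have h6 : √t - (√t + ε)⁻¹ * t = ε * √t / (√t + ε) := by
    rw [eq_div_iff (by positivity)]
    have : (√t + ε) ≠ 0 := by positivity
    field_simp
    nlinarith
  rw [h6, Real.norm_eq_abs, abs_of_nonneg (by positivity), div_le_iff₀ (by positivity)]
  nlinarith

variable (b : HilbertBasis ℕ ℂ H)

lemma n2_dd (x : H →L[ℂ] H) : ∑' n : ℕ, ENNReal.ofReal
    (inner ℂ (b n) ((cfc (fun t : ℝ => t ^ ((1 : ℝ) / 2)) (star x * x)) (b n))).re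
      = n2 b (dd x) := by
  have h1 : cfc (fun t : ℝ => t ^ ((1 : ℝ) / 2)) (star x * x) = ab x := by
    unfold ab
    congr 1
    funext t
    rw [Real.sqrt_eq_rpow]
  rw [h1]
  unfold n2
  refine tsum_congr fun n => ?_
  rw [norm_sq_apply, dd_star, dd_mul]

lemma tr3_norm (x : H →L[ℂ] H) : ‖tr3 b x‖ ≤ 3 * ‖x‖ := by
  unfold tr3
  have h0 := ent_norm b 0 x
  have h1 := ent_norm b 1 x
  have h2 := ent_norm b 2 x
  have := norm_add_le (⟪b 0, x (b 0)⟫_ℂ + ⟪b 1, x (b 1)⟫_ℂ) (⟪b 2, x (b 2)⟫_ℂ)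
  have := norm_add_le (⟪b 0, x (b 0)⟫_ℂ) (⟪b 1, x (b 1)⟫_ℂ)
  linarith

lemma tr3_sub (x y : H →L[ℂ] H) : tr3 b (x - y) = tr3 b x - tr3 b y := by
  unfold tr3
  simp only [ContinuousLinearMap.sub_apply, inner_sub_right]
  ring

lemma tr3_le {h x : H →L[ℂ] H} (hh : EE b * h = h) (hn : ‖h‖ ≤ 1) (hx : HS b (dd x)) :
    (tr3 b (h * x)).re ≤ N b (dd x) := by
  refine le_of_forall_pos_le_add fun δ hδ => ?_
  set ε := δ / 3 with hεd
  have hε : 0 < ε := by positivity
  have h1 : ‖tr3 b (h * x) - tr3 b (h * (yy ε x * ab x))‖ ≤ δ := by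
    rw [← tr3_sub, ← mul_sub]
    calc _ ≤ 3 * ‖h * (x - yy ε x * ab x)‖ := tr3_norm b _
      _ ≤ 3 * (‖h‖ * ‖x - yy ε x * ab x‖) := by gcongr; exact norm_mul_le _ _
      _ ≤ 3 * (1 * ε) := by gcongr; exact yy_ab hε x
      _ = δ := by rw [hεd]; ring
  set w := h * yy ε x * dd x with hw
  have h2 : tr3 b (h * (yy ε x * ab x)) = ip b (star w) (dd x) := by
    have e1 : h * (yy ε x * ab x) = w * dd x := by
      rw [hw, ← dd_mul]; noncomm_ring
    have e2 : ∀ n, ⟪(star w) (b n), dd x (b n)⟫_ℂ = ⟪b n, (w * dd x) (b n)⟫_ℂ := by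
      intro n
      rw [ContinuousLinearMap.star_eq_adjoint, ContinuousLinearMap.adjoint_inner_left]
      rfl
    have e3 : ∀ n, n ∉ Finset.range 3 → ⟪(star w) (b n), dd x (b n)⟫_ℂ = 0 := by
      intro n hn
      have e4 : star w = star w * EE b := by
        have : w = EE b * w := by rw [hw, ← mul_assoc, ← mul_assoc, hh]
        conv_lhs => rw [this, star_mul, EE_star]
      rw [e4, ContinuousLinearMap.mul_apply, EE_basis' b (by simpa using hn), map_zero,
        inner_zero_left]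
    unfold ip
    rw [tsum_eq_sum e3, Finset.sum_range_succ, Finset.sum_range_succ, Finset.sum_range_one, e2, e2,
      e2, e1]
    rfl
  have h3 : ∀ v, ‖w v‖ ≤ ‖dd x v‖ := by
    intro v
    rw [hw, ContinuousLinearMap.mul_apply]
    calc _ ≤ ‖h * yy ε x‖ * ‖dd x v‖ := ContinuousLinearMap.le_opNorm _ _
      _ ≤ (‖h‖ * ‖yy ε x‖) * ‖dd x v‖ := by gcongr; exact norm_mul_le _ _
      _ ≤ (1 * 1) * ‖dd x v‖ := by gcongr; exact yy_norm hε x
      _ = _ := by ring
  have hwS : HS b w := hs_mono hx h3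
  have h4 : N b (star w) ≤ N b (dd x) := by
    rw [N_star hwS]
    exact N_le_of_n2 hwS hx (n2_mono h3)
  have h5 := norm_ip_le (hs_star hwS) hx
  have h6 : ‖ip b (star w) (dd x)‖ ≤ N b (dd x) := by
    have h7 := N_nonneg (b := b) (dd x)
    have h8 : ‖ip b (star w) (dd x)‖ ^ 2 ≤ N b (dd x) ^ 2 := by
      calc _ ≤ _ := h5
        _ ≤ N b (dd x) * N b (dd x) := by gcongr
        _ = _ := by ring
    exact (sq_le_sq₀ (norm_nonneg _) h7).1 h8
  have h9 : (tr3 b (h * x)).re ≤ ‖tr3 b (h * x)‖ := Complex.re_le_norm _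
  have h10 : ‖tr3 b (h * x)‖ ≤ ‖tr3 b (h * x) - tr3 b (h * (yy ε x * ab x))‖
      + ‖tr3 b (h * (yy ε x * ab x))‖ := by
    have := norm_add_le (tr3 b (h * x) - tr3 b (h * (yy ε x * ab x))) (tr3 b (h * (yy ε x * ab x)))
    rwa [sub_add_cancel] at this
  rw [h2] at h10
  rw [h2] at h1
  linarith

lemma N_dd_corner {c : H →L[ℂ] H} (hc : InC (EE b) c) :
    n2 b (dd c) = ENNReal.ofReal (tr3 b (ab c)).re := by
  have h1 : ∀ n, n ∉ Finset.range 3 → ENNReal.ofReal (‖dd c (b n)‖ ^ 2) = 0 := by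
    intro n hn
    have h2 : ab c (b n) = 0 := by
      rw [← norm_eq_zero, ab_norm, ← hc.right, ContinuousLinearMap.mul_apply,
        EE_basis' b (by simpa using hn), map_zero, norm_zero]
    rw [norm_sq_apply, dd_star, dd_mul, h2, inner_zero_right]
    simp
  have h3 : ∀ n, (⟪b n, ab c (b n)⟫_ℂ).re = ‖dd c (b n)‖ ^ 2 := by
    intro n
    rw [norm_sq_apply, dd_star, dd_mul]
  unfold n2 tr3
  rw [tsum_eq_sum h1, Finset.sum_range_succ, Finset.sum_range_succ, Finset.sum_range_one,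
    Complex.add_re, Complex.add_re, h3, h3, h3, ENNReal.ofReal_add (by positivity) (by positivity),
    ENNReal.ofReal_add (by positivity) (by positivity)]

theorem TT_trace {x : H →L[ℂ] H} (hx : n2 b (dd x) < ⊤) : n2 b (dd (TT b x)) ≤ n2 b (dd x) := by
  have hx' : HS b (dd x) := hx
  have hcor : InC (EE b) (TT b x) := Cm_corner b 2 0 1 x
  rw [N_dd_corner b hcor, n2_eq hx']
  apply ENNReal.ofReal_le_ofReal
  show (tr3 b (ab (TT b x))).re ≤ _
  refine le_of_forall_pos_le_add fun δ hδ => ?_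
  set ε := δ / 3 with hεd
  have hε : 0 < ε := by positivity
  have h1 : ‖tr3 b (ab (TT b x)) - tr3 b (star (yy ε (TT b x)) * TT b x)‖ ≤ δ := by
    rw [← tr3_sub]
    calc _ ≤ 3 * ‖ab (TT b x) - star (yy ε (TT b x)) * TT b x‖ := tr3_norm b _
      _ ≤ 3 * ε := by gcongr; exact ab_yy hε _
      _ = δ := by rw [hεd]; ring
  rw [tr_adj] at h1
  set g := star (yy ε (TT b x)) with hg
  have hgn : ‖g‖ ≤ 1 := by rw [hg, norm_star]; exact yy_norm hε _
  have h2 : (tr3 b (TA b g * x)).re ≤ N b (dd x) :=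
    tr3_le b (Cm_corner b 1 2 0 g).left ((TA_norm b g).trans hgn) hx'
  have h3 := Complex.re_le_norm (tr3 b (ab (TT b x)) - tr3 b (TA b g * x))
  rw [Complex.sub_re] at h3
  linarith

lemma N_ge_norm {X : H →L[ℂ] H} (hX : HS b X) : ‖X‖ ^ 2 ≤ N b X := by
  have h1 : ∀ v, ‖X v‖ ≤ √(N b X) * ‖v‖ := by
    intro v
    have h2 : ENNReal.ofReal (‖X v‖ ^ 2) ≤ ENNReal.ofReal (N b X * ‖v‖ ^ 2) := by
      rw [ofReal_norm_sq b (X v), ENNReal.ofReal_mul (N_nonneg _), ← n2_eq hX, ← n2_star]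
      unfold n2
      rw [← ENNReal.tsum_mul_right]
      refine ENNReal.tsum_le_tsum fun m => ?_
      rw [← ENNReal.ofReal_mul (by positivity)]
      apply ENNReal.ofReal_le_ofReal
      rw [← mul_pow]
      gcongr
      rw [← ContinuousLinearMap.adjoint_inner_left, ← ContinuousLinearMap.star_eq_adjoint]
      exact norm_inner_le_norm _ _
    have h3 : ‖X v‖ ^ 2 ≤ N b X * ‖v‖ ^ 2 :=
      (ENNReal.ofReal_le_ofReal_iff (mul_nonneg (N_nonneg _) (by positivity))).1 h2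
    have h4 : (√(N b X) * ‖v‖) ^ 2 = N b X * ‖v‖ ^ 2 := by
      rw [mul_pow, Real.sq_sqrt (N_nonneg _)]
    rw [← h4] at h3
    exact (sq_le_sq₀ (norm_nonneg _) (by positivity)).1 h3
  have h5 := ContinuousLinearMap.opNorm_le_bound X (Real.sqrt_nonneg _) h1
  calc ‖X‖ ^ 2 ≤ √(N b X) ^ 2 := by gcongr
    _ = N b X := Real.sq_sqrt (N_nonneg _)

theorem TT_four {x : H →L[ℂ] H} (hx : n2 b (star x * x) < ⊤) :
    n2 b (star (TT b x) * TT b x) ≤ ((3 : ℝ≥0) : ℝ≥0∞) * n2 b (star x * x) := by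
  have hx' : HS b (star x * x) := hx
  have h1 := N_ge_norm b hx'
  rw [CStarRing.norm_star_mul_self] at h1
  set c := TT b x with hc
  have hcor : InC (EE b) c := Cm_corner b 2 0 1 x
  have h2 : ∀ n, n ∉ Finset.range 3 → ENNReal.ofReal (‖(star c * c) (b n)‖ ^ 2) = 0 := by
    intro n hn
    have : (star c * c) (b n) = 0 := by
      rw [← hcor.right, ContinuousLinearMap.mul_apply, ContinuousLinearMap.mul_apply,
        EE_basis' b (by simpa using hn), map_zero, map_zero]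
    rw [this]; simp
  have h3 : ∀ n, ENNReal.ofReal (‖(star c * c) (b n)‖ ^ 2) ≤ n2 b (star x * x) := by
    intro n
    rw [n2_eq hx']
    apply ENNReal.ofReal_le_ofReal
    have h4 : ‖(star c * c) (b n)‖ ≤ ‖x‖ * ‖x‖ := by
      calc _ ≤ ‖star c * c‖ * ‖b n‖ := ContinuousLinearMap.le_opNorm _ _
        _ = ‖c‖ * ‖c‖ := by rw [b.orthonormal.1 n, mul_one, CStarRing.norm_star_mul_self]
        _ ≤ ‖x‖ * ‖x‖ := by
          have := TT_norm b x
          gcongr
    calc _ ≤ (‖x‖ * ‖x‖) ^ 2 := by gcongr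
      _ ≤ _ := h1
  unfold n2 at *
  rw [tsum_eq_sum h2]
  calc _ ≤ ∑ n ∈ Finset.range 3, ∑' n : ℕ, ENNReal.ofReal (‖(star x * x) (b n)‖ ^ 2) :=
        Finset.sum_le_sum fun n _ => h3 n
    _ = _ := by
      rw [Finset.sum_const, Finset.card_range, nsmul_eq_mul]
      norm_cast

end Pool.Agent.H415R3.HS
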