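import Pool.Agent.H415R3.HS10

set_option autoImplicit false
set_option linter.unusedSectionVars false
set_option linter.dupNamespace false
set_option linter.deprecated false
set_option linter.unusedVariables false
open scoped NNReal ENNReal InnerProductSpace ComplexConjugate
open Filter Topology

namespace Pool.Agent.H415R3.HS

variable {H : Type} [NormedAddCommGroup H] [InnerProductSpace ℂ H] [CompleteSpace H]
variable (b : HilbertBasis ℕ ℂ H)

lemma el_hs (i j : ℕ) : HS b (el b i j) := by
  rw [hs_iff]
  refine summable_of_ne_finset_zero (s := {j}) fun m hm => ?_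
  rw [el_apply, on, if_neg (by
    intro h; exact hm (by rw [h]; exact Finset.mem_singleton_self _))]
  simp

lemma EE_hs : HS b (EE b) := hs_add (hs_add (el_hs b 0 0) (el_hs b 1 1)) (el_hs b 2 2)

lemma EE_corner : Corner b (EE b) := ⟨EE_star b, EE_mul_EE b, EE_hs b⟩

lemma el_corner {i j : ℕ} (hi : i < 3) (hj : j < 3) : InC (EE b) (el b i j) :=
  ⟨EE_mul_el b hi j, el_mul_EE b hj i⟩

lemma ip_el (i j : ℕ) (X : H →L[ℂ] H) : ip b (el b i j) X = ⟪b i, X (b j)⟫_ℂ := by
  unfold ip
  rw [tsum_eq_single j]
  · rw [el_apply, on, if_pos rfl, one_smul]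
  · intro n hn
    rw [el_apply, on, if_neg (Ne.symm hn), zero_smul, inner_zero_left]

/-- diagonal pair system -/
lemma pair {i j k : ℕ} (hi : i < 3) (hj : j < 3) (hk : k < 3) (hij : i ≠ j) (hik : i ≠ k)
    (hjk : j ≠ k) (hsum : EE b = el b i i + el b j j + el b k k) :
    Pair (EE b) (el b i i) (el b j j) (el b k k) (el b i j + el b j i) := by
  have hji := hij.symm
  have hki := hik.symm
  have hkj := hjk.symm
  refine ⟨el_corner b hi hi, el_corner b hj hj, el_corner b hk hk,
    (el_corner b hi hj).add (el_corner b hj hi), el_star b i i, el_star b j j, el_star b k k, ?_,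
    ?_, ?_, ?_, ?_, ?_, hsum, ?_, ?_, ?_, ?_, ?_⟩
  · rw [star_add, el_star, el_star, add_comm]
  all_goals simp [mul_add, add_mul, el_mul, hij, hji, hik, hki, hjk, hkj]
  all_goals abel

lemma sys : Sys b (EE b) (el b 0 0) (el b 1 1) (el b 2 2) (el b 0 1 + el b 1 0)
    (el b 1 2 + el b 2 1) (el b 2 0 + el b 0 2) (TT b) := by
  have p12 := pair b (i := 0) (j := 1) (k := 2) (by norm_num) (by norm_num) (by norm_num)
    (by norm_num) (by norm_num) (by norm_num) rfl
  have p23 := pair b (i := 1) (j := 2) (k := 0) (by norm_num) (by norm_num) (by norm_num)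
    (by norm_num) (by norm_num) (by norm_num) (by unfold EE; abel)
  have p31 := pair b (i := 2) (j := 0) (k := 1) (by norm_num) (by norm_num) (by norm_num)
    (by norm_num) (by norm_num) (by norm_num) (by unfold EE; abel)
  have tE : TT b (EE b) = EE b := by
    unfold TT
    rw [Cm_apply]
    simp only [EE_basis b (show 0 < 3 by norm_num), EE_basis b (show 1 < 3 by norm_num),
      EE_basis b (show 2 < 3 by norm_num), on, if_true, mul_one]
    rw [EE_mul_EE, EE_mul_EE]
    unfold EE
    module
  have hn : ∀ n, ‖b n‖ = 1 := b.orthonormal.1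
  have dia : ∀ {k i : ℕ}, k < 3 → i < 3 → ip b (el b k k) (TT b (el b i i)) =
      (1 / 2) * ((if k = i then 1 else 0) + (if i + 1 = k ∨ (i = 2 ∧ k = 0) then 1 else 0)) := by
    intro k i hk hi
    rw [ip_el]
    unfold TT
    rw [Cm_apply]
    simp only [ContinuousLinearMap.smul_apply, ContinuousLinearMap.sub_apply,
      ContinuousLinearMap.add_apply, ContinuousLinearMap.mul_apply, el_apply, on, EE_basis b hk,
      map_smul, EE_basis b hi]
    interval_cases k <;> interval_cases i <;>
      simp [on, inner_smul_right, inner_sub_right, hn] <;> norm_num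
  have off : ∀ {i j : ℕ}, i < 3 → j < 3 → i ≠ j →
      (ip b (el b i j + el b j i) (TT b (el b i j + el b j i))).re = -1 := by
    intro i j hi hj hij
    have hcor : InC (EE b) (TT b (el b i j + el b j i)) := Cm_corner b 2 0 1 _
    rw [ip_add_left (el_hs b i j) (el_hs b j i) (hcor.hs (EE_corner b)), ip_el, ip_el]
    unfold TT
    rw [Cm_apply]
    simp only [ContinuousLinearMap.smul_apply, ContinuousLinearMap.sub_apply,
      ContinuousLinearMap.add_apply, ContinuousLinearMap.mul_apply, el_apply, on, EE_basis b hi,
      EE_basis b hj, map_smul, map_add]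
    interval_cases i <;> interval_cases j <;>
      first
      | exact absurd rfl hij
      | (simp [on, inner_smul_right, inner_sub_right, inner_add_right, inner_neg_right, hn]
         <;> norm_num)
  refine ⟨EE_corner b, p12, p23, p31, ?_, fun x _ => Cm_corner b 2 0 1 x, tE, ?_, ?_, ?_, ?_, ?_,
    ?_, off (by norm_num) (by norm_num) (by norm_num), off (by norm_num) (by norm_num) (by norm_num),
    off (by norm_num) (by norm_num) (by norm_num)⟩
  · simp [mul_add, add_mul, el_mul]
    abel
  all_goals
    rw [dia (by norm_num) (by norm_num)]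
    norm_num

end Pool.Agent.H415R3.HS
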