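import Pool.Agent.H415R3.HS11

set_option autoImplicit false
set_option linter.unusedSectionVars false
set_option linter.dupNamespace false
set_option linter.deprecated false
set_option linter.unusedVariables false
open scoped NNReal ENNReal InnerProductSpace ComplexConjugate
open Filter Topology

namespace Pool.Agent.H415R3.HS

theorem no_dilation (H : Type) [NormedAddCommGroup H] [InnerProductSpace ℂ H] [CompleteSpace H]
    (b : HilbertBasis ℕ ℂ H)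
    (hall : ∀ (Q : ℝ → (H →L[ℂ] H) → ℝ≥0∞),
      (∀ (r : ℝ) (x : H →L[ℂ] H),
        Q r x = ∑' n : ℕ, ENNReal.ofReal
          (inner ℂ (b n) ((cfc (fun t : ℝ => t ^ (r / 2)) (star x * x)) (b n))).re) →
      ∀ p : ℝ, 1 < p →
      ∀ T : (H →L[ℂ] H) →ₗ[ℂ] (H →L[ℂ] H),
        (∀ x, Q p x < ⊤ → Q p (T x) < ⊤) →
        (∃ C : ℝ≥0, ∀ x, Q p x < ⊤ → Q p (T x) ≤ (C : ℝ≥0∞) * Q p x) →
        (∀ x, Q p x < ⊤ → Q 1 x < ⊤ → Q 1 (T x) ≤ Q 1 x) →
        (∀ x, Q p x < ⊤ → ‖T x‖ ≤ ‖x‖) →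
        ∃ J P U : (H →L[ℂ] H) →ₗ[ℂ] (H →L[ℂ] H),
          (∀ x, Q p x < ⊤ → Q p (J x) = Q p x) ∧
          (∀ y, Q p y < ⊤ → ∃ x, Q p x < ⊤ ∧ P y = J x) ∧
          (∀ x, Q p x < ⊤ → P (J x) = J x) ∧
          (∀ y, Q p y < ⊤ → Q p (P y) ≤ Q p y) ∧
          (∀ x, Q p x < ⊤ → Q p (U x) = Q p x) ∧
          (∀ n : ℕ, ∀ x, Q p x < ⊤ → P ((U ^ n) (J x)) = J ((T ^ n) x))) : False := by
  obtain ⟨J, P, U, hJ, -, hPJ, hP, hU, hd⟩ := hall
    (fun r x => ∑' n : ℕ, ENNReal.ofReal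
      (inner ℂ (b n) ((cfc (fun t : ℝ => t ^ (r / 2)) (star x * x)) (b n))).re)
    (fun r x => rfl) 4 (by norm_num) (TT b)
    (by
      intro x hx
      simp only [Q4_eq] at hx ⊢
      exact lt_of_le_of_lt (TT_four b hx)
        (ENNReal.mul_lt_top ENNReal.coe_lt_top hx))
    ⟨3, by
      intro x hx
      simp only [Q4_eq] at hx ⊢
      exact TT_four b hx⟩
    (by
      intro x _ hx
      simp only [n2_dd] at hx ⊢
      exact TT_trace b hx)
    (fun x _ => TT_norm b x)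
  simp only [Q4_eq] at hJ hPJ hP hU hd
  exact main_contra (sys b) hJ hPJ hP hU
    (fun x hx => by simpa using hd 1 x hx)

end Pool.Agent.H415R3.HS
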