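import Pool.Agent.H415R3.HS1

set_option autoImplicit false
set_option linter.unusedSectionVars false
set_option linter.dupNamespace false
set_option linter.deprecated false
set_option linter.unusedVariables false
open scoped NNReal ENNReal InnerProductSpace ComplexConjugate
open Filter Topology

namespace Pool.Agent.H415R3.HS

variable {H : Type} [NormedAddCommGroup H] [InnerProductSpace ℂ H] [CompleteSpace H]
variable {b : HilbertBasis ℕ ℂ H}

lemma norm_sq_apply (R : H →L[ℂ] H) (v : H) : ‖R v‖ ^ 2 = (⟪v, (star R * R) v⟫_ℂ).re := by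
  rw [ContinuousLinearMap.mul_apply, ContinuousLinearMap.star_eq_adjoint,
    ContinuousLinearMap.adjoint_inner_right, inner_self_eq_norm_sq_to_K]
  norm_cast

lemma norm_eq_of_star_mul {R X : H →L[ℂ] H} (h : star R * R = star X * X) (v : H) :
    ‖R v‖ = ‖X v‖ := by
  have : ‖R v‖ ^ 2 = ‖X v‖ ^ 2 := by rw [norm_sq_apply, norm_sq_apply, h]
  exact (sq_eq_sq₀ (norm_nonneg _) (norm_nonneg _)).1 this

lemma norm_sq_of_add {R X Y : H →L[ℂ] H} (h : star R * R = star X * X + star Y * Y) (v : H) :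
    ‖R v‖ ^ 2 = ‖X v‖ ^ 2 + ‖Y v‖ ^ 2 := by
  rw [norm_sq_apply, norm_sq_apply, norm_sq_apply, h, ContinuousLinearMap.add_apply,
    inner_add_right, Complex.add_re]

lemma exists_sqrt {M : H →L[ℂ] H} (hM : 0 ≤ M) : ∃ R : H →L[ℂ] H, star R = R ∧ R * R = M := by
  refine ⟨CFC.sqrt M, ?_, CFC.sqrt_mul_sqrt_self M hM⟩
  exact (CFC.sqrt_nonneg M).isSelfAdjoint

lemma exists_abs (X : H →L[ℂ] H) : ∃ R : H →L[ℂ] H, star R = R ∧ R * R = star X * X ∧
    ∀ v, ‖R v‖ = ‖X v‖ := by
  obtain ⟨R, h1, h2⟩ := exists_sqrt (star_mul_self_nonneg X)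
  refine ⟨R, h1, h2, fun v => norm_eq_of_star_mul (by rw [h1, h2]) v⟩

lemma exists_abs2 (X Y : H →L[ℂ] H) : ∃ R : H →L[ℂ] H, star R = R ∧
    R * R = star X * X + star Y * Y ∧ ∀ v, ‖R v‖ ^ 2 = ‖X v‖ ^ 2 + ‖Y v‖ ^ 2 := by
  obtain ⟨R, h1, h2⟩ := exists_sqrt
    (add_nonneg (star_mul_self_nonneg X) (star_mul_self_nonneg Y))
  refine ⟨R, h1, h2, fun v => norm_sq_of_add (by rw [h1, h2]) v⟩

lemma n2_congr_left {X R : H →L[ℂ] H} (Z : H →L[ℂ] H) (h : ∀ v, ‖X v‖ = ‖R v‖) :
    n2 b (X * Z) = n2 b (R * Z) := n2_congr fun v => h (Z v)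

lemma n2_mono_left {X R : H →L[ℂ] H} (Z : H →L[ℂ] H) (h : ∀ v, ‖X v‖ ≤ ‖R v‖) :
    n2 b (X * Z) ≤ n2 b (R * Z) := n2_mono fun v => h (Z v)

lemma n2_mul_star (X : H →L[ℂ] H) : n2 b (X * star X) = n2 b (star X * X) := by
  obtain ⟨R, h1, h2, h3⟩ := exists_abs X
  rw [n2_congr_left (star X) (fun v => (h3 v).symm), ← n2_star, star_mul, star_star, h1,
    n2_congr_left R (fun v => (h3 v).symm), h2]

lemma n2_mul_star_le (X Y : H →L[ℂ] H) : n2 b (X * star Y) ≤ n2 b (star X * X + star Y * Y) := by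
  obtain ⟨R, h1, h2, h3⟩ := exists_abs2 X Y
  have hX : ∀ v, ‖X v‖ ≤ ‖R v‖ := fun v => by
    have := h3 v
    nlinarith [norm_nonneg (X v), norm_nonneg (R v), sq_nonneg ‖Y v‖,
      abs_le_of_sq_le_sq' (by nlinarith [sq_nonneg ‖Y v‖] : ‖X v‖ ^ 2 ≤ ‖R v‖ ^ 2) (norm_nonneg _)]
  have hY : ∀ v, ‖Y v‖ ≤ ‖R v‖ := fun v => by
    have := h3 v
    nlinarith [norm_nonneg (Y v), norm_nonneg (R v), sq_nonneg ‖X v‖,
      abs_le_of_sq_le_sq' (by nlinarith [sq_nonneg ‖X v‖] : ‖Y v‖ ^ 2 ≤ ‖R v‖ ^ 2) (norm_nonneg _)]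
  calc n2 b (X * star Y) ≤ n2 b (R * star Y) := n2_mono_left _ hX
    _ = n2 b (Y * R) := by rw [← n2_star, star_mul, star_star, h1]
    _ ≤ n2 b (R * R) := n2_mono_left _ hY
    _ = _ := by rw [h2]

variable (b) in
/-- the Schatten class of order 4 -/
def S4 (X : H →L[ℂ] H) : Prop := HS b (star X * X)

lemma S4.star {X : H →L[ℂ] H} (h : S4 b X) : S4 b (star X) := by
  unfold S4 HS at *
  rw [star_star, n2_mul_star]; exact h

lemma S4.hs {X : H →L[ℂ] H} (h : S4 b X) : HS b (Star.star X * X) := h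

lemma S4.mul_star {X Y : H →L[ℂ] H} (hX : S4 b X) (hY : S4 b Y) : HS b (X * Star.star Y) :=
  lt_of_le_of_lt (n2_mul_star_le X Y) (hs_add hX hY)

lemma S4.star_mul {X Y : H →L[ℂ] H} (hX : S4 b X) (hY : S4 b Y) : HS b (Star.star X * Y) := by
  have := hX.star.mul_star hY.star
  rwa [star_star] at this

lemma S4.add {X Y : H →L[ℂ] H} (hX : S4 b X) (hY : S4 b Y) : S4 b (X + Y) := by
  unfold S4
  rw [star_add, add_mul, mul_add, mul_add]
  exact hs_add (hs_add hX (hX.star_mul hY)) (hs_add (hY.star_mul hX) hY)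

lemma S4.smul {X : H →L[ℂ] H} (c : ℂ) (hX : S4 b X) : S4 b (c • X) := by
  unfold S4
  rw [star_smul, smul_mul_assoc, mul_smul_comm]
  exact hs_smul _ (hs_smul _ hX)

lemma S4.neg {X : H →L[ℂ] H} (hX : S4 b X) : S4 b (-X) := by
  have := hX.smul (-1 : ℂ); simpa using this

lemma S4.sub {X Y : H →L[ℂ] H} (hX : S4 b X) (hY : S4 b Y) : S4 b (X - Y) := by
  rw [sub_eq_add_neg]; exact hX.add hY.neg

lemma N_mul_star {X : H →L[ℂ] H} (hX : S4 b X) : N b (X * Star.star X) = N b (Star.star X * X) :=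
  N_eq_of_n2 (hX.mul_star hX) hX (n2_mul_star X)

/-! ### finite rank projections -/

variable (b) in
noncomputable def Pn (n : ℕ) : H →L[ℂ] H :=
  ∑ i ∈ Finset.range n, (innerSL ℂ (b i)).smulRight (b i)

lemma Pn_apply (n : ℕ) (v : H) : Pn b n v = ∑ i ∈ Finset.range n, ⟪b i, v⟫_ℂ • b i := by
  simp [Pn]

lemma Pn_basis (n m : ℕ) : Pn b n (b m) = if m < n then b m else 0 := by
  rw [Pn_apply]
  have ho := b.orthonormal
  rw [orthonormal_iff_ite] at ho
  simp only [ho, ite_smul, one_smul, zero_smul]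
  rw [Finset.sum_ite_eq']
  simp

lemma Pn_star (n : ℕ) : star (Pn b n) = Pn b n := by
  rw [ContinuousLinearMap.star_eq_adjoint]
  symm
  rw [ContinuousLinearMap.eq_adjoint_iff]
  intro x y
  rw [Pn_apply, Pn_apply, sum_inner, inner_sum]
  refine Finset.sum_congr rfl fun i _ => ?_
  rw [inner_smul_left, inner_smul_right, inner_conj_symm]
  ring

lemma ext_basis {X Y : H →L[ℂ] H} (h : ∀ n, X (b n) = Y (b n)) : X = Y := by
  have : X - Y = 0 := eq_zero_of_basis (b := b) fun n => by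
    rw [ContinuousLinearMap.sub_apply, h n, sub_self]
  exact sub_eq_zero.1 this

lemma Pn_mul_self (n : ℕ) : Pn b n * Pn b n = Pn b n := by
  apply ext_basis (b := b)
  intro m
  rw [ContinuousLinearMap.mul_apply, Pn_basis]
  split_ifs with h
  · rw [Pn_basis, if_pos h]
  · simp

lemma Pn_hs (n : ℕ) : HS b (Pn b n) := by
  rw [hs_iff]
  refine summable_of_ne_finset_zero (s := Finset.range n) fun m hm => ?_
  rw [Pn_basis, if_neg (by simpa using hm)]
  simp

lemma Qn_norm (n : ℕ) (w : H) : ‖(1 - Pn b n) w‖ ≤ ‖w‖ := by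
  set Q := 1 - Pn b n with hQ
  have h1 : star Q = Q := by rw [hQ, star_sub, star_one, Pn_star]
  have h2 : Q * Q = Q := by
    rw [hQ, mul_sub, sub_mul, sub_mul, Pn_mul_self]; simp
  have h3 : ‖Q w‖ ^ 2 = (⟪w, Q w⟫_ℂ).re := by rw [norm_sq_apply, h1, h2]
  have h4 : (⟪w, Q w⟫_ℂ).re ≤ ‖w‖ * ‖Q w‖ :=
    (Complex.re_le_norm _).trans (norm_inner_le_norm _ _)
  by_contra hc
  rw [not_le] at hc
  nlinarith [norm_nonneg w, norm_nonneg (Q w)]

lemma tendsto_N_tail {C : H →L[ℂ] H} (hC : HS b C) :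
    Tendsto (fun n => N b (C * (1 - Pn b n))) atTop (𝓝 0) := by
  have hs := hs_iff.1 hC
  have h1 : ∀ n, N b (C * (1 - Pn b n)) = N b C - ∑ i ∈ Finset.range n, ‖C (b i)‖ ^ 2 := by
    intro n
    have h2 : ∀ m, ‖(C * (1 - Pn b n)) (b m)‖ ^ 2
        = ‖C (b m)‖ ^ 2 - (if m ∈ Finset.range n then ‖C (b m)‖ ^ 2 else 0) := by
      intro m
      rw [ContinuousLinearMap.mul_apply, ContinuousLinearMap.sub_apply, Pn_basis]
      by_cases h : m < n <;> simp [h]
    unfold N
    simp_rw [h2]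
    have h3 : Summable (fun m => if m ∈ Finset.range n then ‖C (b m)‖ ^ 2 else 0) :=
      summable_of_ne_finset_zero (s := Finset.range n) fun m hm => if_neg hm
    rw [hs.tsum_sub h3]
    congr 1
    rw [tsum_eq_sum (s := Finset.range n) (fun m hm => if_neg hm)]
    exact Finset.sum_congr rfl fun m hm => if_pos hm
  simp_rw [h1]
  have h4 := hs.hasSum.tendsto_sum_nat
  have h5 := h4.const_sub (N b C)
  have h6 : N b C - ∑' n, ‖C (b n)‖ ^ 2 = 0 := by unfold N; ring
  rw [h6] at h5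
  exact h5

/-- cyclicity of the trace for products of four operators of the Schatten class of order 4 -/
lemma tr4 {u v w z : H →L[ℂ] H} (hu : S4 b u) (hv : S4 b v) (hw : S4 b w) (hz : S4 b z) :
    ip b (star v * u) (star w * z) = ip b (w * star v) (z * star u) := by
  have hX : HS b (star v * u) := hv.star_mul hu
  have hY : HS b (star w * z) := hw.star_mul hz
  have hM : HS b (w * star v) := hw.mul_star hv
  have hK : HS b (z * star u) := hz.mul_star hu
  have e1 : ∀ n, ip b (star v * u * Pn b n) (star w * z)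
      = ∑ i ∈ Finset.range n, ⟪(star v * u) (b i), (star w * z) (b i)⟫_ℂ := by
    intro n
    unfold ip
    rw [tsum_eq_sum (s := Finset.range n)]
    · refine Finset.sum_congr rfl fun i hi => ?_
      rw [ContinuousLinearMap.mul_apply _ (Pn b n), Pn_basis, if_pos (by simpa using hi)]
    · intro i hi
      rw [ContinuousLinearMap.mul_apply _ (Pn b n), Pn_basis, if_neg (by simpa using hi)]
      simp
  have t1 : Tendsto (fun n => ip b (star v * u * Pn b n) (star w * z)) atTop
      (𝓝 (ip b (star v * u) (star w * z))) := by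
    simp_rw [e1]
    exact (ip_summable hX hY).hasSum.tendsto_sum_nat
  have e2 : ∀ n, ip b (star v * u * Pn b n) (star w * z)
      = ip b (w * star v) (z * (Pn b n * star u)) := by
    intro n
    have huP : HS b (u * Pn b n) := hs_mul_left _ (Pn_hs n)
    have h1 : HS b (v * (star w * z)) := hs_mul_left _ hY
    rw [mul_assoc, ip_mul_left, star_star, ← ip_star huP h1]
    have h2 : star (v * (star w * z)) = star z * (w * star v) := by
      simp only [star_mul, star_star, mul_assoc]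
    rw [h2, ip_mul_left, star_star, star_mul, Pn_star]
  have e3 : ∀ n, ip b (w * star v) (z * (Pn b n * star u))
      = ip b (w * star v) (z * star u) - ip b (w * star v) (z * ((1 - Pn b n) * star u)) := by
    intro n
    have h1 : HS b (z * (Pn b n * star u)) := by
      refine hs_mul_left _ ?_
      exact hs_mul_right _ (Pn_hs n)
    have h2 : z * ((1 - Pn b n) * star u) = z * star u - z * (Pn b n * star u) := by
      rw [sub_mul, one_mul, mul_sub]
    rw [h2, ip_sub_right hK h1 hM]; ring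
  have hC : HS b (star z * z + star u * u) := hs_add hz hu
  have e4 : ∀ n, N b (z * ((1 - Pn b n) * star u)) ≤ N b ((star z * z + star u * u) * (1 - Pn b n)) ∧
      HS b (z * ((1 - Pn b n) * star u)) := by
    intro n
    set Q := 1 - Pn b n with hQ
    have h1 : star Q = Q := by rw [hQ, star_sub, star_one, Pn_star]
    have h2 : Q * Q = Q := by
      rw [hQ, mul_sub, sub_mul, sub_mul, Pn_mul_self]; simp
    have h3 : z * (Q * star u) = (z * Q) * star (u * Q) := by
      rw [star_mul, h1, mul_assoc, ← mul_assoc Q Q, h2]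
    have h4 := n2_mul_star_le (b := b) (z * Q) (u * Q)
    have h5 : star (z * Q) * (z * Q) + star (u * Q) * (u * Q) = Q * ((star z * z + star u * u) * Q) := by
      rw [star_mul, star_mul, h1]; noncomm_ring
    rw [h5] at h4
    have h6 : n2 b (Q * ((star z * z + star u * u) * Q)) ≤ n2 b ((star z * z + star u * u) * Q) :=
      n2_mono fun w => Qn_norm n _
    have h7 : HS b ((star z * z + star u * u) * Q) := hs_mul_right _ hC
    have h8 : n2 b (z * (Q * star u)) ≤ n2 b ((star z * z + star u * u) * Q) := by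
      rw [h3]; exact h4.trans h6
    have h9 : HS b (z * (Q * star u)) := lt_of_le_of_lt h8 h7
    exact ⟨N_le_of_n2 h9 h7 h8, h9⟩
  have t2 : Tendsto (fun n => ip b (w * star v) (z * ((1 - Pn b n) * star u))) atTop (𝓝 0) := by
    rw [tendsto_zero_iff_norm_tendsto_zero]
    have h1 : Tendsto (fun n => Real.sqrt (N b (w * star v) *
        N b ((star z * z + star u * u) * (1 - Pn b n)))) atTop (𝓝 0) := by
      have h2 := (tendsto_N_tail hC).const_mul (N b (w * star v))
      rw [mul_zero] at h2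
      have h3 := (Real.continuous_sqrt.tendsto 0).comp h2
      rw [Real.sqrt_zero] at h3
      exact h3
    refine squeeze_zero (fun n => norm_nonneg _) (fun n => ?_) h1
    apply Real.le_sqrt_of_sq_le
    refine (norm_ip_le hM (e4 n).2).trans ?_
    exact mul_le_mul_of_nonneg_left (e4 n).1 (N_nonneg _)
  have t3 : Tendsto (fun n => ip b (star v * u * Pn b n) (star w * z)) atTop
      (𝓝 (ip b (w * star v) (z * star u))) := by
    simp_rw [e2, e3]
    have := t2.const_sub (ip b (w * star v) (z * star u))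
    rwa [sub_zero] at this
  exact tendsto_nhds_unique t1 t3

end Pool.Agent.H415R3.HS
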