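import Pool.Agent.H415R3.HS2

set_option autoImplicit false
set_option linter.unusedSectionVars false
set_option linter.dupNamespace false
set_option linter.deprecated false
set_option linter.unusedVariables false
open scoped NNReal ENNReal InnerProductSpace ComplexConjugate
open Filter Topology

namespace Pool.Agent.H415R3.HS

variable {H : Type} [NormedAddCommGroup H] [InnerProductSpace ℂ H] [CompleteSpace H]
variable {b : HilbertBasis ℕ ℂ H}

variable (b) in
/-- linear maps preserving the Schatten 4-norm -/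
def Iso4 (J : (H →L[ℂ] H) →ₗ[ℂ] (H →L[ℂ] H)) : Prop :=
  ∀ x, S4 b x → S4 b (J x) ∧ N b (star (J x) * J x) = N b (star x * x)

noncomputable def c2 (u v : H →L[ℂ] H) : H →L[ℂ] H := star u * v + star v * u

lemma c2_hs {u v : H →L[ℂ] H} (hu : S4 b u) (hv : S4 b v) : HS b (c2 u v) :=
  hs_add (hu.star_mul hv) (hv.star_mul hu)

lemma sq_add (u v : H →L[ℂ] H) :
    star (u + v) * (u + v) = star u * u + star v * v + c2 u v := by
  unfold c2; rw [star_add]; noncomm_ring

lemma sq_sub (u v : H →L[ℂ] H) :
    star (u - v) * (u - v) = star u * u + star v * v - c2 u v := by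
  unfold c2; rw [star_sub]; noncomm_ring

lemma N_par {X Y : H →L[ℂ] H} (hX : HS b X) (hY : HS b Y) :
    N b (X + Y) + N b (X - Y) = 2 * N b X + 2 * N b Y := by
  rw [N_add hX hY, N_sub hX hY]; ring

lemma N_diff {X Y : H →L[ℂ] H} (hX : HS b X) (hY : HS b Y) :
    N b (X + Y) - N b (X - Y) = 4 * (ip b X Y).re := by
  rw [N_add hX hY, N_sub hX hY]; ring

lemma ip_re_comm (X Y : H →L[ℂ] H) : (ip b X Y).re = (ip b Y X).re := by
  rw [← ip_conj, Complex.conj_re]

noncomputable def q2 (b : HilbertBasis ℕ ℂ H) (u v : H →L[ℂ] H) : ℝ :=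
  N b (c2 u v) + 2 * (ip b (star u * u) (star v * v)).re

lemma q2_eq {u v : H →L[ℂ] H} (hu : S4 b u) (hv : S4 b v) :
    2 * q2 b u v = N b (star (u + v) * (u + v)) + N b (star (u - v) * (u - v))
      - 2 * N b (star u * u) - 2 * N b (star v * v) := by
  have h := N_par (b := b) (hs_add hu hv) (c2_hs hu hv)
  rw [← sq_add, ← sq_sub, N_add hu hv] at h
  unfold q2
  linarith

variable {J : (H →L[ℂ] H) →ₗ[ℂ] (H →L[ℂ] H)}

lemma Iso4.q2 (hJ : Iso4 b J) {u v : H →L[ℂ] H} (hu : S4 b u) (hv : S4 b v) :
    HS.q2 b (J u) (J v) = HS.q2 b u v := by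
  have h1 := q2_eq hu hv
  have h2 := q2_eq (hJ u hu).1 (hJ v hv).1
  rw [← map_add, ← map_sub, (hJ _ (hu.add hv)).2, (hJ _ (hu.sub hv)).2, (hJ u hu).2,
    (hJ v hv).2] at h2
  linarith

lemma c2_add_left (u w v : H →L[ℂ] H) : c2 (u + w) v = c2 u v + c2 w v := by
  unfold c2; rw [star_add]; noncomm_ring

lemma c2_sub_left (u w v : H →L[ℂ] H) : c2 (u - w) v = c2 u v - c2 w v := by
  unfold c2; rw [star_sub]; noncomm_ring

noncomputable def q3 (b : HilbertBasis ℕ ℂ H) (u v w : H →L[ℂ] H) : ℝ :=
  (ip b (c2 u v) (c2 w v)).re + (ip b (c2 u w) (star v * v)).re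

lemma q3_eq {u v w : H →L[ℂ] H} (hu : S4 b u) (hv : S4 b v) (hw : S4 b w) :
    4 * q3 b u v w = q2 b (u + w) v - q2 b (u - w) v := by
  unfold q2
  rw [c2_add_left, c2_sub_left, sq_add, sq_sub]
  have h1 := N_diff (b := b) (c2_hs hu hv) (c2_hs hw hv)
  rw [ip_add_left (hs_add hu hw) (c2_hs hu hw) hv, ip_sub_left (hs_add hu hw) (c2_hs hu hw) hv]
  unfold q3
  simp only [Complex.add_re, Complex.sub_re]
  linarith

lemma Iso4.q3 (hJ : Iso4 b J) {u v w : H →L[ℂ] H} (hu : S4 b u) (hv : S4 b v) (hw : S4 b w) :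
    HS.q3 b (J u) (J v) (J w) = HS.q3 b u v w := by
  have h1 := q3_eq hu hv hw
  have h2 := q3_eq (hJ u hu).1 (hJ v hv).1 (hJ w hw).1
  rw [← map_add, ← map_sub, hJ.q2 (hu.add hw) hv, hJ.q2 (hu.sub hw) hv] at h2
  linarith

lemma c2_I_right (u v : H →L[ℂ] H) : c2 u (Complex.I • v) = Complex.I • (star u * v - star v * u) := by
  unfold c2
  rw [star_smul, mul_smul_comm, smul_mul_assoc, smul_sub]
  have : star Complex.I = - Complex.I := by simp
  rw [this, neg_smul, sub_eq_add_neg]

lemma sq_I (v : H →L[ℂ] H) : star (Complex.I • v) * (Complex.I • v) = star v * v := by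
  rw [star_smul, smul_mul_assoc, mul_smul_comm, smul_smul]
  have : star Complex.I = - Complex.I := by simp
  rw [this]; simp

/-- preserved quantity -/
lemma Iso4.n2 (hJ : Iso4 b J) {u v : H →L[ℂ] H} (hu : S4 b u) (hv : S4 b v) :
    N b (star (J u) * J v) + N b (J v * star (J u)) = N b (star u * v) + N b (v * star u) := by
  have key : ∀ {u v : H →L[ℂ] H}, S4 b u → S4 b v →
      HS.q2 b u v + HS.q2 b u (Complex.I • v) = 4 * (N b (star u * v) + N b (v * star u)) := by
    intro u v hu hv
    unfold HS.q2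
    rw [c2_I_right, sq_I, N_smul, tr4 hu hu hv hv, ip_self (hv.mul_star hu)]
    have h1 := N_par (b := b) (hu.star_mul hv) (hv.star_mul hu)
    have h2 : N b (star v * u) = N b (star u * v) := by
      rw [← N_star (hu.star_mul hv), star_mul, star_star]
    rw [h2] at h1
    unfold c2
    simp only [Complex.norm_I, Complex.ofReal_re]
    linarith
  have h1 := key hu hv
  have h2 := key (hJ u hu).1 (hJ v hv).1
  rw [← map_smul, hJ.q2 hu hv, hJ.q2 hu (hv.smul _)] at h2
  linarith

lemma Iso4.p1 (hJ : Iso4 b J) {u v : H →L[ℂ] H} (hu : S4 b u) (hv : S4 b v) :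
    (ip b (star (J u) * J v) (star (J v) * J u)).re = (ip b (star u * v) (star v * u)).re := by
  have key : ∀ {u v : H →L[ℂ] H}, S4 b u → S4 b v →
      HS.q2 b u v - HS.q2 b u (Complex.I • v) = 4 * (ip b (star u * v) (star v * u)).re := by
    intro u v hu hv
    unfold HS.q2
    rw [c2_I_right, sq_I, N_smul]
    have h1 := N_diff (b := b) (hu.star_mul hv) (hv.star_mul hu)
    unfold c2
    simp only [Complex.norm_I]
    linarith
  have h1 := key hu hv
  have h2 := key (hJ u hu).1 (hJ v hv).1
  rw [← map_smul, hJ.q2 hu hv, hJ.q2 hu (hv.smul _)] at h2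
  linarith

lemma c2_I_right' (w v : H →L[ℂ] H) : c2 w (Complex.I • v) = Complex.I • (star w * v - star v * w) :=
  c2_I_right w v

lemma Iso4.k (hJ : Iso4 b J) {u x w : H →L[ℂ] H} (hu : S4 b u) (hx : S4 b x) (hw : S4 b w) :
    (ip b (J x * star (J x)) (J w * star (J u))).re + (ip b (star (J x) * J x) (star (J u) * J w)).re
      = (ip b (x * star x) (w * star u)).re + (ip b (star x * x) (star u * w)).re := by
  have key : ∀ {u x w : H →L[ℂ] H}, S4 b u → S4 b x → S4 b w →
      HS.q3 b u x w + HS.q3 b u (Complex.I • x) w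
        = 4 * ((ip b (x * star x) (w * star u)).re + (ip b (star x * x) (star u * w)).re) := by
    intro u x w hu hx hw
    have hux := hu.star_mul hx
    have hxu := hx.star_mul hu
    have hwx := hw.star_mul hx
    have hxw := hx.star_mul hw
    have huw := hu.star_mul hw
    have hwu := hw.star_mul hu
    unfold HS.q3
    rw [c2_I_right, c2_I_right, sq_I, ip_smul_left, ip_smul_right]
    have e0 : conj Complex.I * (Complex.I * ip b (star u * x - star x * u) (star w * x - star x * w))
        = ip b (star u * x - star x * u) (star w * x - star x * w) := by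
      rw [← mul_assoc]; simp
    rw [e0]
    unfold c2
    rw [ip_add_left hux hxu (hs_add hwx hxw), ip_add_right hwx hxw hux, ip_add_right hwx hxw hxu,
      ip_sub_left hux hxu (hs_sub hwx hxw), ip_sub_right hwx hxw hux, ip_sub_right hwx hxw hxu,
      ip_add_left huw hwu hx]
    -- relations
    have r1 : ip b (star x * u) (star x * w) = ip b (x * star x) (w * star u) := tr4 hu hx hx hw
    have r2 : (ip b (star u * x) (star w * x)).re = (ip b (x * star x) (w * star u)).re := by
      rw [tr4 hx hu hw hx, ip_re_comm]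
    have r3 : (ip b (star u * w) (star x * x)).re = (ip b (star x * x) (star u * w)).re :=
      ip_re_comm _ _
    have r4 : (ip b (star w * u) (star x * x)).re = (ip b (star x * x) (star u * w)).re := by
      rw [← ip_star hwu hx]
      simp only [star_mul, star_star]
    simp only [Complex.add_re, Complex.sub_re]
    rw [r1, r2, r3, r4]
    ring
  have h1 := key hu hx hw
  have h2 := key (hJ u hu).1 (hJ x hx).1 (hJ w hw).1
  rw [← map_smul, hJ.q3 hu hx hw, hJ.q3 hu (hx.smul _) hw] at h2
  linarith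

/-! ### the corner -/

variable (b) in
structure Corner (E : H →L[ℂ] H) : Prop where
  star : star E = E
  mul : E * E = E
  hs : HS b E

variable {E : H →L[ℂ] H}

/-- elements of the corner -/
structure InC (E x : H →L[ℂ] H) : Prop where
  left : E * x = x
  right : x * E = x

lemma InC.hs (hE : Corner b E) {x : H →L[ℂ] H} (hx : InC E x) : HS b x := by
  rw [← hx.left]; exact hs_mul_right _ hE.hs

lemma InC.s4 (hE : Corner b E) {x : H →L[ℂ] H} (hx : InC E x) : S4 b x :=
  hs_mul_left _ (hx.hs hE)

lemma InC.mul {x y : H →L[ℂ] H} (hx : InC E x) (hy : InC E y) : InC E (x * y) :=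
  ⟨by rw [← mul_assoc, hx.left], by rw [mul_assoc, hy.right]⟩

lemma InC.add {x y : H →L[ℂ] H} (hx : InC E x) (hy : InC E y) : InC E (x + y) :=
  ⟨by rw [mul_add, hx.left, hy.left], by rw [add_mul, hx.right, hy.right]⟩

lemma InC.sub {x y : H →L[ℂ] H} (hx : InC E x) (hy : InC E y) : InC E (x - y) :=
  ⟨by rw [mul_sub, hx.left, hy.left], by rw [sub_mul, hx.right, hy.right]⟩

lemma InC.smul (c : ℂ) {x : H →L[ℂ] H} (hx : InC E x) : InC E (c • x) :=
  ⟨by rw [mul_smul_comm, hx.left], by rw [smul_mul_assoc, hx.right]⟩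

lemma InC.one (hE : Corner b E) : InC E E := ⟨hE.mul, hE.mul⟩

lemma Corner.s4 (hE : Corner b E) : S4 b E := (InC.one hE).s4 hE

structure R1 (b : HilbertBasis ℕ ℂ H) (a X x : H →L[ℂ] H) : Prop where
  l : star a * X = star X * a
  r : X * star a = a * star X
  nl : N b (star a * X) = N b x
  nr : N b (X * star a) = N b x

lemma Iso4.r1 (hJ : Iso4 b J) (hE : Corner b E) {x : H →L[ℂ] H} (hx : InC E x)
    (hs : star x = x) : R1 b (J E) (J x) x := by
  have hES := hE.s4
  have hxS := hx.s4 hE
  have hA := (hJ E hES).1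
  have hX := (hJ x hxS).1
  have n := hJ.n2 hES hxS
  have p := hJ.p1 hES hxS
  rw [hE.star, hx.left, hx.right] at n
  rw [hE.star, hx.left, hs, hx.right, ip_self (hx.hs hE), Complex.ofReal_re] at p
  have haX := hA.star_mul hX
  have hXa := hX.star_mul hA
  have h1 := N_sub haX hXa
  have h2 : N b (star (J x) * J E) = N b (star (J E) * J x) := by
    rw [← N_star haX, star_mul, star_star]
  have hXa' := hX.mul_star hA
  have haX' := hA.mul_star hX
  have h3 := N_sub haX' hXa'
  have h4 : N b (J E * star (J x)) = N b (J x * star (J E)) := by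
    rw [← N_star hXa', star_mul, star_star]
  have h5 : (ip b (J E * star (J x)) (J x * star (J E))).re = N b x := by
    rw [← tr4 hA hX hA hX, ip_re_comm, p]
  rw [h2, p] at h1
  rw [h4, h5] at h3
  have h6 := N_nonneg (b := b) (star (J E) * J x - star (J x) * J E)
  have h7 := N_nonneg (b := b) (J E * star (J x) - J x * star (J E))
  have z1 := N_le_zero (hs_sub haX hXa) (by linarith)
  have z2 := N_le_zero (hs_sub haX' hXa') (by linarith)
  refine ⟨sub_eq_zero.1 z1, (sub_eq_zero.1 z2).symm, by linarith, by linarith⟩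

lemma Iso4.r2 (hJ : Iso4 b J) (hE : Corner b E) {x : H →L[ℂ] H} (hx : InC E x)
    (hs : star x = x) : star (J x) * J x = star (J E) * J (x * x) ∧
      J x * star (J x) = J (x * x) * star (J E) := by
  have hES := hE.s4
  have hxS := hx.s4 hE
  have hxx := hx.mul hx
  have hxxS := hxx.s4 hE
  have hsx : star (x * x) = x * x := by rw [star_mul, hs]
  have hA := (hJ E hES).1
  have hX := (hJ x hxS).1
  have hY := (hJ _ hxxS).1
  have r := hJ.r1 hE hxx hsx
  have k := hJ.k hES hxS hxxS
  rw [hE.star, hxx.left, hxx.right, hs, ip_self (hxx.hs hE), Complex.ofReal_re] at k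
  have n1 : N b (star (J x) * J x) = N b (x * x) := by rw [(hJ x hxS).2, hs]
  have n2 : N b (J x * star (J x)) = N b (x * x) := by rw [N_mul_star hX, n1]
  have h1 := N_sub hX (hA.star_mul hY)
  have h2 := N_sub (hX.mul_star hX) (hY.mul_star hA)
  rw [n1, r.nl] at h1
  rw [n2, r.nr] at h2
  have h6 := N_nonneg (b := b) (star (J x) * J x - star (J E) * J (x * x))
  have h7 := N_nonneg (b := b) (J x * star (J x) - J (x * x) * star (J E))
  have z1 := N_le_zero (hs_sub hX (hA.star_mul hY)) (by linarith)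
  have z2 := N_le_zero (hs_sub (hX.mul_star hX) (hY.mul_star hA)) (by linarith)
  exact ⟨sub_eq_zero.1 z1, sub_eq_zero.1 z2⟩

lemma Iso4.r3 (hJ : Iso4 b J) (hE : Corner b E) {x y : H →L[ℂ] H} (hx : InC E x)
    (hs : star x = x) (hy : InC E y) (hsy : star y = y) :
    star (J x) * J y + star (J y) * J x = star (J E) * J (x * y + y * x) ∧
      J x * star (J y) + J y * star (J x) = J (x * y + y * x) * star (J E) := by
  have h1 := hJ.r2 hE hx hs
  have h2 := hJ.r2 hE hy hsy
  have h3 := hJ.r2 hE (hx.add hy) (by rw [star_add, hs, hsy])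
  have e : (x + y) * (x + y) = x * x + y * y + (x * y + y * x) := by noncomm_ring
  rw [e, map_add J x y, map_add J (x * x + y * y), map_add J (x * x), star_add] at h3
  constructor
  · have h4 := h3.1
    have h5 : (star (J x) + star (J y)) * (J x + J y)
        = star (J x) * J x + star (J y) * J y + (star (J x) * J y + star (J y) * J x) := by
      noncomm_ring
    rw [h5, mul_add, mul_add, h1.1, h2.1] at h4
    exact add_left_cancel h4
  · have h4 := h3.2
    have h5 : (J x + J y) * (star (J x) + star (J y))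
        = J x * star (J x) + J y * star (J y) + (J x * star (J y) + J y * star (J x)) := by
      noncomm_ring
    rw [h5, add_mul, add_mul, h1.2, h2.2] at h4
    exact add_left_cancel h4

/-- orthogonality -/
lemma Iso4.orth (hJ : Iso4 b J) (hE : Corner b E) {x y : H →L[ℂ] H} (hx : InC E x)
    (hy : InC E y) (h1 : star x * y = 0) (h2 : y * star x = 0) :
    star (J x) * J y = 0 ∧ J y * star (J x) = 0 := by
  have hxS := hx.s4 hE
  have hyS := hy.s4 hE
  have n := hJ.n2 hxS hyS
  rw [h1, h2] at n
  have h0 : N b (0 : H →L[ℂ] H) = 0 := by unfold N; simp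
  rw [h0] at n
  have h6 := N_nonneg (b := b) (star (J x) * J y)
  have h7 := N_nonneg (b := b) (J y * star (J x))
  exact ⟨N_le_zero ((hJ x hxS).1.star_mul (hJ y hyS).1) (by linarith),
    N_le_zero ((hJ y hyS).1.mul_star (hJ x hxS).1) (by linarith)⟩

end Pool.Agent.H415R3.HS
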