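import Pool.Agent.H415R3.HS3

set_option autoImplicit false
set_option linter.unusedSectionVars false
set_option linter.dupNamespace false
set_option linter.deprecated false
set_option linter.unusedVariables false
open scoped NNReal ENNReal InnerProductSpace ComplexConjugate
open Filter Topology

namespace Pool.Agent.H415R3.HS

variable {H : Type} [NormedAddCommGroup H] [InnerProductSpace ℂ H] [CompleteSpace H]
variable {b : HilbertBasis ℕ ℂ H}

lemma exists_rp (X : H →L[ℂ] H) : ∃ R : H →L[ℂ] H, star R = R ∧ R * X = X ∧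
    (∀ v, (star X) v = 0 → R v = 0) ∧ ∀ v, ‖R v‖ ≤ ‖v‖ := by
  let K : Submodule ℂ H := (star X : H →L[ℂ] H).ker
  have : CompleteSpace K := ContinuousLinearMap.completeSpace_ker _
  refine ⟨Kᗮ.starProjection, ?_, ?_, ?_, ?_⟩
  · exact isStarProjection_starProjection.isSelfAdjoint
  · ext v
    rw [ContinuousLinearMap.mul_apply, Submodule.starProjection_eq_self_iff]
    intro k hk
    have hk' : (star X) k = 0 := hk
    rw [← ContinuousLinearMap.adjoint_inner_left, ← ContinuousLinearMap.star_eq_adjoint, hk',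
      inner_zero_left]
  · intro v hv
    exact Submodule.starProjection_orthogonal_apply_eq_zero (by exact hv)
  · intro v
    exact Submodule.norm_starProjection_apply_le _ _

/-- block bound -/
lemma blk {Ai Aj S R : H →L[ℂ] H} (hR : ∀ v, (star Ai) v = 0 → R v = 0)
    (hRn : ∀ v, ‖R v‖ ≤ ‖v‖) (o2 : Aj * star Ai = 0)
    (sw : star S * Aj = star Ai * S) (sq : star S * S = star Ai * Ai + star Aj * Aj) (w : H) :
    ‖R (S w)‖ ≤ ‖Aj w‖ := by
  let K : Submodule ℂ H := (Aj : H →L[ℂ] H).ker
  have : CompleteSpace K := ContinuousLinearMap.completeSpace_ker _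
  set k := K.starProjection w with hk
  set u := w - k with hu
  have hkK : Aj k = 0 := by
    have : k ∈ K := Submodule.starProjection_apply_mem _ _
    exact this
  have huK : u ∈ Kᗮ := Submodule.sub_starProjection_mem_orthogonal w
  have hw : w = k + u := by rw [hu]; abel
  have h1 : R (S k) = 0 := by
    apply hR
    have h2 : (star Ai * S) k = (star S * Aj) k := by rw [sw]
    rw [ContinuousLinearMap.mul_apply, ContinuousLinearMap.mul_apply, hkK, map_zero] at h2
    exact h2
  have h3 : R (S w) = R (S u) := by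
    conv_lhs => rw [hw]
    rw [map_add, map_add, h1, zero_add]
  have h4 : Ai u = 0 := by
    have h5 : (star Ai) (Ai u) ∈ K := by
      show Aj ((star Ai) (Ai u)) = 0
      have := congrArg (fun Z : H →L[ℂ] H => Z (Ai u)) o2
      simpa using this
    have h6 : ⟪(star Ai) (Ai u), u⟫_ℂ = 0 := huK _ h5
    rw [ContinuousLinearMap.star_eq_adjoint, ContinuousLinearMap.adjoint_inner_left] at h6
    exact inner_self_eq_zero.1 h6
  have h7 := norm_sq_of_add sq u
  rw [h4, norm_zero] at h7
  have h8 : ‖S u‖ = ‖Aj u‖ := by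
    have : ‖S u‖ ^ 2 = ‖Aj u‖ ^ 2 := by rw [h7]; ring
    exact (sq_eq_sq₀ (norm_nonneg _) (norm_nonneg _)).1 this
  have h9 : Aj w = Aj u := by
    conv_lhs => rw [hw]
    rw [map_add, hkK, zero_add]
  rw [h3, h9, ← h8]
  exact hRn _

lemma rel1 {Ai Aj S Bi Bj S' : H →L[ℂ] H} (hAi : S4 b Ai) (hAj : S4 b Aj) (hS : S4 b S)
    (hBi : S4 b Bi) (hBj : S4 b Bj) (hS' : S4 b S')
    (o2 : Aj * star Ai = 0) (sw : star S * Aj = star Ai * S)
    (sq : star S * S = star Ai * Ai + star Aj * Aj)
    (o2' : Bj * star Bi = 0) (sw' : star S' * Bj = star Bi * S')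
    (sq' : star S' * S' = star Bi * Bi + star Bj * Bj)
    {c : ℝ} (hi : N b (Bi * star Ai) = c) (hj : N b (Bj * star Aj) = c)
    (hre : (ip b (Bi * star Ai) (S' * star S)).re = - c) :
    star Bi * (S' * star S) * Ai = - (star Bi * Bi * (star Ai * Ai)) := by
  obtain ⟨P, hPs, hPA, hPk, hPn⟩ := exists_rp Ai
  obtain ⟨Q, hQs, hQB, hQk, hQn⟩ := exists_rp Bi
  have hG : HS b (S' * star S) := hS'.mul_star hS
  have hK : HS b (Bi * star Ai) := hBi.mul_star hAi
  have hblk : HS b (Q * (S' * star S) * P) := hs_mul_right _ (hs_mul_left _ hG)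
  have hBA : HS b (Bj * star Aj) := hBj.mul_star hAj
  have n1 : n2 b (Q * (S' * star S) * P) ≤ n2 b (Bj * star Aj) := by
    calc n2 b (Q * (S' * star S) * P) = n2 b ((Q * S') * (star S * P)) := by
          rw [show Q * (S' * star S) * P = (Q * S') * (star S * P) from by noncomm_ring]
      _ ≤ n2 b (Bj * (star S * P)) := n2_mono_left _ fun w => blk hQk hQn o2' sw' sq' w
      _ = n2 b ((P * S) * star Bj) := by
          rw [← n2_star]
          rw [star_mul, star_mul, star_star, hPs]
      _ ≤ n2 b (Aj * star Bj) := n2_mono_left _ fun w => blk hPk hPn o2 sw sq w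
      _ = n2 b (Bj * star Aj) := by
          rw [← n2_star, star_mul, star_star]
  have n2' : N b (Q * (S' * star S) * P) ≤ c := by
    rw [← hj]; exact N_le_of_n2 hblk hBA n1
  have e1 : star Ai * P = star Ai := by
    have := congrArg star hPA
    rwa [star_mul, hPs] at this
  have e3 : ip b (Q * (S' * star S) * P) (Bi * star Ai) = ip b (S' * star S) (Bi * star Ai) := by
    rw [ip_mul_right P (hs_mul_left _ hG) hK, ip_mul_left, hPs, hQs, mul_assoc Bi, e1,
      ← mul_assoc Q, hQB]
  have h1 := N_add hblk hK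
  rw [e3, ip_re_comm, hre, hi] at h1
  have h2 := N_le_zero (hs_add hblk hK) (by linarith)
  have h3 : Q * (S' * star S) * P = - (Bi * star Ai) := eq_neg_of_add_eq_zero_left h2
  have e2 : star Bi * Q = star Bi := by
    have := congrArg star hQB
    rwa [star_mul, hQs] at this
  calc star Bi * (S' * star S) * Ai = star Bi * (Q * (S' * star S) * P) * Ai := by
        have : star Bi * (Q * (S' * star S) * P) * Ai
            = (star Bi * Q) * (S' * star S) * (P * Ai) := by noncomm_ring
        rw [this, e2, hPA]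
    _ = - (star Bi * Bi * (star Ai * Ai)) := by rw [h3]; noncomm_ring

/-- relations satisfied by the images of two orthogonal projections and of a symmetry
exchanging them -/
structure Tri (b : HilbertBasis ℕ ℂ H) (a Ai Aj S : H →L[ℂ] H) : Prop where
  hi : S4 b Ai
  hj : S4 b Aj
  hS : S4 b S
  oij : Ai * star Aj = 0
  oji : Aj * star Ai = 0
  swi : star S * Ai = star Aj * S
  swj : star S * Aj = star Ai * S
  sq : star S * S = star Ai * Ai + star Aj * Aj
  as : star a * S = star Ai * S + star Aj * S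

lemma Tri.symm {a Ai Aj S : H →L[ℂ] H} (h : Tri b a Ai Aj S) : Tri b a Aj Ai S :=
  ⟨h.hj, h.hi, h.hS, h.oji, h.oij, h.swj, h.swi, by rw [h.sq, add_comm], by rw [h.as, add_comm]⟩

lemma rel {a Ai Aj S Bi Bj S' : H →L[ℂ] H} (hA : Tri b a Ai Aj S) (hB : Tri b a Bi Bj S')
    (hz : Bj * star Ai = 0) {c : ℝ} (hi : N b (Bi * star Ai) = c) (hj : N b (Bj * star Aj) = c)
    (hre : (ip b (star a * S) (star a * S')).re = - (2 * c)) :
    star Bi * (S' * star S) * Ai = - (star Bi * Bi * (star Ai * Ai)) ∧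
    star Bj * (S' * star S) * Aj = - (star Bj * Bj * (star Aj * Aj)) := by
  have a1 := hA.hi.star_mul hA.hS
  have a2 := hA.hj.star_mul hA.hS
  have b1 := hB.hi.star_mul hB.hS
  have b2 := hB.hj.star_mul hB.hS
  rw [hA.as, hB.as, ip_add_left a1 a2 (hs_add b1 b2), ip_add_right b1 b2 a1,
    ip_add_right b1 b2 a2] at hre
  have tii : ip b (star Ai * S) (star Bi * S') = ip b (Bi * star Ai) (S' * star S) :=
    tr4 hA.hS hA.hi hB.hi hB.hS
  have tjj : ip b (star Aj * S) (star Bj * S') = ip b (Bj * star Aj) (S' * star S) :=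
    tr4 hA.hS hA.hj hB.hj hB.hS
  have tij : ip b (star Ai * S) (star Bj * S') = 0 := by
    rw [tr4 hA.hS hA.hi hB.hj hB.hS, hz]
    unfold ip; simp
  have tji : ip b (star Aj * S) (star Bi * S') = 0 := by
    rw [← hA.swi, ← hB.swj, tr4 hA.hi hA.hS hB.hS hB.hj, hz]
    unfold ip; simp
  have tc : ip b (star Ai * S) (star Bi * S') = ip b (S' * star S) (Bj * star Aj) := by
    rw [← hA.swj, ← hB.swj, tr4 hA.hj hA.hS hB.hS hB.hj]
  rw [tij, tji, tjj] at hre
  have h1 : (ip b (star Ai * S) (star Bi * S')).re = (ip b (Bj * star Aj) (S' * star S)).re := by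
    rw [tc, ip_re_comm]
  simp only [Complex.add_re, add_zero, Complex.zero_re, zero_add] at hre
  have h2 : (ip b (Bi * star Ai) (S' * star S)).re = - c := by rw [← tii]; linarith
  have h3 : (ip b (Bj * star Aj) (S' * star S)).re = - c := by rw [← h1]; linarith
  exact ⟨rel1 hA.hi hA.hj hA.hS hB.hi hB.hj hB.hS hA.oji hA.swj hA.sq hB.oji hB.swj hB.sq hi hj h2,
    rel1 hA.hj hA.hi hA.hS hB.hj hB.hi hB.hS hA.oij hA.swi (by rw [hA.sq, add_comm])
      hB.oij hB.swi (by rw [hB.sq, add_comm]) hj hi h3⟩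

end Pool.Agent.H415R3.HS
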