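import Pool.Agent.H415R3.HS4

set_option autoImplicit false
set_option linter.unusedSectionVars false
set_option linter.dupNamespace false
set_option linter.deprecated false
set_option linter.unusedVariables false
open scoped NNReal ENNReal InnerProductSpace ComplexConjugate
open Filter Topology

namespace Pool.Agent.H415R3.HS

variable {H : Type} [NormedAddCommGroup H] [InnerProductSpace ℂ H] [CompleteSpace H]
variable {b : HilbertBasis ℕ ℂ H}

/-- the trilinear expansion -/
lemma expand3 {P0 P1 P2 R0 R1 : H →L[ℂ] H} (h0 : HS b P0) (h1 : HS b P1) (h2 : HS b P2)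
    (g0 : HS b R0) (g1 : HS b R1) (t : ℝ) :
    ip b (P0 + (t : ℂ) • P1 + ((t : ℂ) ^ 2) • P2) (R0 + (t : ℂ) • R1)
      = ip b P0 R0 + t * (ip b P1 R0 + ip b P0 R1) + t ^ 2 * (ip b P2 R0 + ip b P1 R1)
        + t ^ 3 * ip b P2 R1 := by
  have s1 := hs_smul (b := b) (t : ℂ) h1
  have s2 := hs_smul (b := b) ((t : ℂ) ^ 2) h2
  have s3 := hs_smul (b := b) (t : ℂ) g1
  rw [ip_add_right g0 s3 (hs_add (hs_add h0 s1) s2), ip_add_left (hs_add h0 s1) s2 g0,
    ip_add_left h0 s1 g0, ip_add_left (hs_add h0 s1) s2 s3, ip_add_left h0 s1 s3]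
  simp only [ip_smul_left, ip_smul_right, map_pow, Complex.conj_ofReal]
  ring

lemma sq_expand (a Y : H →L[ℂ] H) (t : ℝ) :
    star (a + (t : ℂ) • Y) * (a + (t : ℂ) • Y)
      = star a * a + (t : ℂ) • c2 a Y + ((t : ℂ) ^ 2) • (star Y * Y) := by
  unfold c2
  rw [star_add, star_smul]
  have : star (t : ℂ) = (t : ℂ) := Complex.conj_ofReal t
  rw [this]
  simp only [add_mul, mul_add, smul_mul_assoc, mul_smul_comm, smul_add, smul_smul]
  rw [show (t : ℂ) ^ 2 = t * t from sq _]
  abel

lemma lin_expand (a Y X : H →L[ℂ] H) (t : ℝ) :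
    star (a + (t : ℂ) • Y) * X = star a * X + (t : ℂ) • (star Y * X) := by
  rw [star_add, star_smul]
  have : star (t : ℂ) = (t : ℂ) := Complex.conj_ofReal t
  rw [this, add_mul, smul_mul_assoc]

lemma g_expand {a Y X : H →L[ℂ] H} (ha : S4 b a) (hY : S4 b Y) (hX : S4 b X) (t : ℝ) :
    ip b (star (a + (t : ℂ) • Y) * (a + (t : ℂ) • Y)) (star (a + (t : ℂ) • Y) * X)
      = ip b (star a * a) (star a * X)
        + t * (ip b (c2 a Y) (star a * X) + ip b (star a * a) (star Y * X))
        + t ^ 2 * (ip b (star Y * Y) (star a * X) + ip b (c2 a Y) (star Y * X))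
        + t ^ 3 * ip b (star Y * Y) (star Y * X) := by
  rw [sq_expand, lin_expand, expand3 ha (c2_hs ha hY) hY (ha.star_mul hX) (hY.star_mul hX)]

lemma cubic_coeff {c0 c1 c2 c3 d0 d1 d2 d3 : ℂ}
    (h : ∀ t : ℝ, c0 + t * c1 + t ^ 2 * c2 + t ^ 3 * c3 = d0 + t * d1 + t ^ 2 * d2 + t ^ 3 * d3) :
    c1 = d1 := by
  have h1 := h 1
  have h2 := h (-1)
  have h3 := h 2
  have h4 := h (-2)
  push_cast at h1 h2 h3 h4
  linear_combination (2 / 3 : ℂ) * (h1 - h2) - (1 / 12 : ℂ) * (h3 - h4)

variable {A B T : (H →L[ℂ] H) →ₗ[ℂ] (H →L[ℂ] H)} {E : H →L[ℂ] H}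

/-- the key duality relation between the two isometries -/
def Dual (b : HilbertBasis ℕ ℂ H) (E : H →L[ℂ] H) (A B T : (H →L[ℂ] H) →ₗ[ℂ] (H →L[ℂ] H)) : Prop :=
  ∀ y x, InC E y → InC E x →
    ip b (star (A y) * A y) (star (A y) * B x) = ip b (star y * y) (star y * T x)

lemma Dual.first (hD : Dual b E A B T) (hA : Iso4 b A) (hB : Iso4 b B) (hE : Corner b E)
    (hT : ∀ x, InC E x → InC E (T x)) {y x : H →L[ℂ] H} (hy : InC E y) (hx : InC E x) :
    ip b (c2 (A E) (A y)) (star (A E) * B x) + ip b (star (A E) * A E) (star (A y) * B x)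
      = ip b (c2 E y) (star E * T x) + ip b (star E * E) (star y * T x) := by
  have hEC := InC.one hE
  have h1 := (hA E hE.s4).1
  have h2 := (hA y (hy.s4 hE)).1
  have h3 := (hB x (hx.s4 hE)).1
  have h4 := (hT x hx).s4 hE
  apply cubic_coeff (c0 := ip b (star (A E) * A E) (star (A E) * B x))
    (c2 := ip b (star (A y) * A y) (star (A E) * B x) + ip b (c2 (A E) (A y)) (star (A y) * B x))
    (c3 := ip b (star (A y) * A y) (star (A y) * B x))
    (d0 := ip b (star E * E) (star E * T x))
    (d2 := ip b (star y * y) (star E * T x) + ip b (c2 E y) (star y * T x))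
    (d3 := ip b (star y * y) (star y * T x))
  intro t
  rw [← g_expand h1 h2 h3, ← g_expand hE.s4 (hy.s4 hE) h4, ← map_smul, ← map_add]
  exact hD _ _ (hEC.add (hy.smul _)) hx

lemma Dual.beta (hD : Dual b E A B T) (hA : Iso4 b A) (hB : Iso4 b B) (hE : Corner b E)
    (hT : ∀ x, InC E x → InC E (T x)) {y x : H →L[ℂ] H} (hy : InC E y) (hx : InC E x) :
    ip b (star (A y) * A E) (star (A E) * B x) = ip b (star y) (T x) := by
  have h1 := (hA E hE.s4).1
  have h2 := (hA y (hy.s4 hE)).1
  have h3 := (hB x (hx.s4 hE)).1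
  have hTx := hT x hx
  have h4 := hTx.s4 hE
  have k1 := hD.first hA hB hE hT hy hx
  have k2 := hD.first hA hB hE hT (hy.smul Complex.I) hx
  rw [map_smul, c2_I_right, c2_I_right, star_smul, star_smul, smul_mul_assoc, smul_mul_assoc,
    ip_smul_left, ip_smul_left, ip_smul_right, ip_smul_right] at k2
  unfold c2 at k1
  have hyS := hy.s4 hE
  have a1 := h1.star_mul h2
  have a2 := h2.star_mul h1
  have a3 := h1.star_mul h3
  have b1 := hE.s4.star_mul hyS
  have b2 := hyS.star_mul hE.s4
  have b3 := hE.s4.star_mul h4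
  rw [ip_add_left a1 a2 a3, ip_add_left b1 b2 b3] at k1
  rw [ip_sub_left a1 a2 a3, ip_sub_left b1 b2 b3] at k2
  have e1 : star y * E = star y := by
    have := congrArg star hy.left
    rwa [star_mul, hE.star] at this
  have e2 : star E * T x = T x := by rw [hE.star, hTx.left]
  rw [e1, e2] at k1 k2
  have hI : star Complex.I = - Complex.I := by simp
  have hI' : conj Complex.I = - Complex.I := by simp
  rw [hI, hI'] at k2
  have hII : Complex.I * Complex.I = -1 := Complex.I_mul_I
  have hI0 := Complex.I_ne_zero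
  apply mul_left_cancel₀ hI0
  linear_combination (Complex.I / 2 : ℂ) * k1 + (1 / 2) * k2

/-- the two isometries agree at the unit of the corner -/
lemma Dual.agree (hD : Dual b E A B T) (hA : Iso4 b A) (hB : Iso4 b B) (hE : Corner b E)
    (hTE : T E = E) : B E = A E := by
  have h := hD E E (InC.one hE) (InC.one hE)
  have hEE : star E * E = E := by rw [hE.star, hE.mul]
  rw [hTE, hEE, ip_self hE.hs] at h
  set a := A E with ha
  set c := B E with hc
  have h1 : S4 b a := (hA E hE.s4).1
  have h3 : S4 b c := (hB E hE.s4).1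
  have n1 : N b (star a * a) = N b E := by rw [ha, (hA E hE.s4).2, hEE]
  have n3 : N b (star c * c) = N b E := by rw [hc, (hB E hE.s4).2, hEE]
  have n2 : N b (a * star a) = N b E := by rw [N_mul_star h1, n1]
  have n4 : N b (c * star c) = N b E := by rw [N_mul_star h3, n3]
  have aa := h1.star_mul h1
  have ac := h1.star_mul h3
  have aa' := h1.mul_star h1
  have cc' := h3.mul_star h3
  have cc := h3.star_mul h3
  have ca' := h3.mul_star h1
  -- left
  have p1 := N_sub aa ac
  rw [h, n1, Complex.ofReal_re] at p1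
  have p2 := N_sub aa' cc'
  rw [n2, n4] at p2
  have p3 : N b (star a * c) = (ip b (a * star a) (c * star c)).re := by
    rw [← tr4 h3 h1 h1 h3, ip_self ac, Complex.ofReal_re]
  have p4 := N_nonneg (b := b) (star a * a - star a * c)
  have p5 := N_nonneg (b := b) (a * star a - c * star c)
  have z1 := N_le_zero (hs_sub aa ac) (by linarith)
  have z2 := N_le_zero (hs_sub aa' cc') (by linarith)
  -- right
  have q0 : ip b (a * star a) (c * star a) = ((N b E : ℝ) : ℂ) := by
    rw [← tr4 h1 h1 h1 h3, h]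
  have q1 := N_sub aa' ca'
  rw [q0, n2, Complex.ofReal_re] at q1
  have q2 := N_sub aa cc
  rw [n1, n3] at q2
  have q3 : N b (c * star a) = (ip b (star a * a) (star c * c)).re := by
    rw [tr4 h1 h1 h3 h3, ip_self ca', Complex.ofReal_re]
  have q4 := N_nonneg (b := b) (a * star a - c * star a)
  have q5 := N_nonneg (b := b) (star a * a - star c * c)
  have z3 := N_le_zero (hs_sub aa' ca') (by linarith)
  have w1 : star a * (c - a) = 0 := by
    rw [mul_sub]
    have := sub_eq_zero.1 z1
    rw [this, sub_self]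
  have w3 : (c - a) * star a = 0 := by
    rw [sub_mul]
    have := sub_eq_zero.1 z3
    rw [this, sub_self]
  have w4 : a * star (c - a) = 0 := by
    have := congrArg star w3
    rwa [star_mul, star_star, star_zero] at this
  have w2 : (c - a) * star (c - a) = 0 := by
    have e1 : c * star c = (a + (c - a)) * star (a + (c - a)) := by congr 1 <;> [abel; (congr 1; abel)]
    rw [star_add, add_mul, mul_add, mul_add, w4, w3] at e1
    have e2 := sub_eq_zero.1 z2
    rw [e2] at e1
    simpa using e1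
  have w5 : c - a = 0 := (CStarRing.mul_star_self_eq_zero_iff _).1 w2
  exact sub_eq_zero.1 w5

end Pool.Agent.H415R3.HS
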