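import Pool.Agent.H415R3.HS5

set_option autoImplicit false
set_option linter.unusedSectionVars false
set_option linter.dupNamespace false
set_option linter.deprecated false
set_option linter.unusedVariables false
open scoped NNReal ENNReal InnerProductSpace ComplexConjugate
open Filter Topology

namespace Pool.Agent.H415R3.HS

variable {H : Type} [NormedAddCommGroup H] [InnerProductSpace ℂ H] [CompleteSpace H]
variable {b : HilbertBasis ℕ ℂ H}

/-- pair data: two orthogonal projections and a symmetry exchanging them -/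
structure Pair (E ei ej ek s : H →L[ℂ] H) : Prop where
  ci : InC E ei
  cj : InC E ej
  ck : InC E ek
  cs : InC E s
  hi : star ei = ei
  hj : star ej = ej
  hk : star ek = ek
  hs : star s = s
  pi : ei * ei = ei
  pj : ej * ej = ej
  pk : ek * ek = ek
  oij : ei * ej = 0
  oji : ej * ei = 0
  sum : E = ei + ej + ek
  eis : ei * s + s * ei = s
  ejs : ej * s + s * ej = s
  eks : ek * s = 0
  ske : s * ek = 0
  ss : s * s = ei + ej

variable {J : (H →L[ℂ] H) →ₗ[ℂ] (H →L[ℂ] H)} {E : H →L[ℂ] H}

lemma Pair.ks {ei ej ek s : H →L[ℂ] H} (h : Pair E ei ej ek s) (hJ : Iso4 b J) (hE : Corner b E) :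
    star (J ek) * J s = 0 ∧ J s * star (J ek) = 0 :=
  hJ.orth hE h.ck h.cs (by rw [h.hk, h.eks]) (by rw [h.hk, h.ske])

lemma Pair.as {ei ej ek s : H →L[ℂ] H} (h : Pair E ei ej ek s) (hJ : Iso4 b J) (hE : Corner b E) :
    star (J E) * J s = star (J ei) * J s + star (J ej) * J s := by
  have : J E = J ei + J ej + J ek := by rw [h.sum, map_add, map_add]
  rw [this, star_add, star_add, add_mul, add_mul, (h.ks hJ hE).1, add_zero]

lemma Pair.tri {ei ej ek s : H →L[ℂ] H} (h : Pair E ei ej ek s) (hJ : Iso4 b J) (hE : Corner b E) :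
    Tri b (J E) (J ei) (J ej) (J s) := by
  have o1 := hJ.orth hE h.ci h.cj (by rw [h.hi, h.oij]) (by rw [h.hi, h.oji])
  have o2 := hJ.orth hE h.cj h.ci (by rw [h.hj, h.oji]) (by rw [h.hj, h.oij])
  have has := h.as hJ hE
  have r1 := (hJ.r3 hE h.ci h.hi h.cs h.hs).1
  have r2 := (hJ.r3 hE h.cj h.hj h.cs h.hs).1
  rw [h.eis, has] at r1
  rw [h.ejs, has, add_comm (star (J ei) * J s)] at r2
  refine ⟨(hJ _ (h.ci.s4 hE)).1, (hJ _ (h.cj.s4 hE)).1, (hJ _ (h.cs.s4 hE)).1, o2.2, o1.2,
    add_left_cancel r1, add_left_cancel r2, ?_, has⟩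
  rw [(hJ.r2 hE h.cs h.hs).1, h.ss, map_add, mul_add, (hJ.r2 hE h.ci h.hi).1, h.pi,
    (hJ.r2 hE h.cj h.hj).1, h.pj]

/-- relations of the image of a projection -/
structure PR (a P : H →L[ℂ] H) : Prop where
  l : star a * P = star P * P
  l' : star P * a = star P * P
  r : P * star a = P * star P
  r' : a * star P = P * star P

lemma mkPR (hJ : Iso4 b J) (hE : Corner b E) {e : H →L[ℂ] H} (hc : InC E e) (hs : star e = e)
    (hp : e * e = e) : PR (J E) (J e) := by
  have h1 := hJ.r1 hE hc hs
  have h2 := hJ.r2 hE hc hs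
  rw [hp] at h2
  exact ⟨h2.1.symm, by rw [← h1.l, h2.1], h2.2.symm, by rw [← h1.r, h2.2]⟩

lemma PR.cube {a P : H →L[ℂ] H} (h : PR a P) : P * star P * P = a * star a * P := by
  rw [← h.r', mul_assoc, ← h.l, mul_assoc]

lemma PR.sq {a P : H →L[ℂ] H} (h : PR a P) :
    star a * a * (star P * P) = star P * P * (star P * P) := by
  rw [show star a * a * (star P * P) = star a * (a * star P) * P from by noncomm_ring, h.r',
    ← mul_assoc, h.l]
  noncomm_ring

lemma PR.sq' {a P : H →L[ℂ] H} (h : PR a P) :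
    star P * P * (star a * a) = star P * P * (star P * P) := by
  rw [show star P * P * (star a * a) = star P * (P * star a) * a from by noncomm_ring, h.r,
    show star P * (P * star P) * a = star P * P * (star P * a) from by noncomm_ring, h.l']

/-- the composition relation -/
lemma L1 {a A1 A2 A3 S12 S23 S13 : H →L[ℂ] H} (h12 : Tri b a A1 A2 S12)
    (h13 : star S13 * A3 = star A1 * S13) (h3 : PR a A3)
    (hsum : S12 * star S23 + S23 * star S12 = S13 * star a)
    (h0 : star S12 * A3 = 0)
    (hl : star S13 * a = star a * S13) (hr : S13 * star a = a * star S13) :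
    star S12 * A2 * (star S23 * A3) = star a * a * (star S13 * A3) := by
  have h1 : S12 * star S23 = S13 * star a - S23 * star S12 := by rw [← hsum]; abel
  calc star S12 * A2 * (star S23 * A3) = star A1 * (S12 * star S23) * A3 := by
        rw [h12.swj]; noncomm_ring
    _ = (star A1 * S13) * (star a * A3) - star A1 * S23 * (star S12 * A3) := by
        rw [h1]; noncomm_ring
    _ = star S13 * (A3 * star A3 * A3) := by
        rw [h0, ← h13, h3.l]; noncomm_ring
    _ = star S13 * a * (star a * A3) := by rw [h3.cube]; noncomm_ring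
    _ = star a * (S13 * star a) * A3 := by rw [hl]; noncomm_ring
    _ = star a * a * (star S13 * A3) := by rw [hr]; noncomm_ring

lemma cancel_star {X Y : H →L[ℂ] H} (h : star X * X * Y = 0) : X * Y = 0 := by
  apply (CStarRing.star_mul_self_eq_zero_iff _).1
  rw [star_mul, show star Y * star X * (X * Y) = star Y * (star X * X * Y) from by noncomm_ring, h,
    mul_zero]

lemma final {A1 B1 : H →L[ℂ] H}
    (h : star B1 * B1 * (star B1 * B1) * (star A1 * A1 * (star A1 * A1)) = 0) :
    B1 * star A1 = 0 := by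
  set D := star B1 * B1 with hD
  set C := star A1 * A1 with hC
  have hDs : star D = D := by rw [hD, star_mul, star_star]
  have hCs : star C = C := by rw [hC, star_mul, star_star]
  have h1 : D * (C * C) = 0 := cancel_star (by rw [hDs]; exact h)
  have h2 : C * C * D = 0 := by
    have := congrArg star h1
    rwa [star_mul, star_mul, hDs, hCs, star_zero] at this
  have h3 : C * D = 0 := cancel_star (by rw [hCs]; exact h2)
  have h4 : D * C = 0 := by
    have := congrArg star h3
    rwa [star_mul, hDs, hCs, star_zero] at this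
  have h5 : B1 * C = 0 := cancel_star h4
  have h6 : C * star B1 = 0 := by
    have := congrArg star h5
    rwa [star_mul, hCs, star_zero] at this
  have h7 : A1 * star B1 = 0 := cancel_star h6
  have := congrArg star h7
  rwa [star_mul, star_star, star_zero] at this

variable {A B T : (H →L[ℂ] H) →ₗ[ℂ] (H →L[ℂ] H)}

/-- all the data in the corner -/
structure Sys (b : HilbertBasis ℕ ℂ H) (E e1 e2 e3 s12 s23 s13 : H →L[ℂ] H)
    (T : (H →L[ℂ] H) →ₗ[ℂ] (H →L[ℂ] H)) : Prop where
  hE : Corner b E
  p12 : Pair E e1 e2 e3 s12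
  p23 : Pair E e2 e3 e1 s23
  p31 : Pair E e3 e1 e2 s13
  comp : s12 * s23 + s23 * s12 = s13
  TC : ∀ x, InC E x → InC E (T x)
  TE : T E = E
  z12 : ip b e1 (T e2) = 0
  z23 : ip b e2 (T e3) = 0
  z31 : ip b e3 (T e1) = 0
  d1 : ip b e1 (T e1) = 1 / 2
  d2 : ip b e2 (T e2) = 1 / 2
  d3 : ip b e3 (T e3) = 1 / 2
  t12 : (ip b s12 (T s12)).re = -1
  t23 : (ip b s23 (T s23)).re = -1
  t31 : (ip b s13 (T s13)).re = -1

theorem contra {E e1 e2 e3 s12 s23 s13 : H →L[ℂ] H} (h : Sys b E e1 e2 e3 s12 s23 s13 T)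
    (hA : Iso4 b A) (hB : Iso4 b B) (hD : Dual b E A B T) : False := by
  have hE := h.hE
  have hag : B E = A E := hD.agree hA hB hE h.TE
  have pA1 : PR (A E) (A e1) := mkPR hA hE h.p12.ci h.p12.hi h.p12.pi
  have pA2 : PR (A E) (A e2) := mkPR hA hE h.p12.cj h.p12.hj h.p12.pj
  have pA3 : PR (A E) (A e3) := mkPR hA hE h.p12.ck h.p12.hk h.p12.pk
  have pB1 : PR (A E) (B e1) := hag ▸ mkPR hB hE h.p12.ci h.p12.hi h.p12.pi
  have pB2 : PR (A E) (B e2) := hag ▸ mkPR hB hE h.p12.cj h.p12.hj h.p12.pj
  have pB3 : PR (A E) (B e3) := hag ▸ mkPR hB hE h.p12.ck h.p12.hk h.p12.pk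
  have tA12 : Tri b (A E) (A e1) (A e2) (A s12) := h.p12.tri hA hE
  have tA23 : Tri b (A E) (A e2) (A e3) (A s23) := h.p23.tri hA hE
  have tA31 : Tri b (A E) (A e3) (A e1) (A s13) := h.p31.tri hA hE
  have tB12 : Tri b (A E) (B e1) (B e2) (B s12) := hag ▸ h.p12.tri hB hE
  have tB23 : Tri b (A E) (B e2) (B e3) (B s23) := hag ▸ h.p23.tri hB hE
  have tB31 : Tri b (A E) (B e3) (B e1) (B s13) := hag ▸ h.p31.tri hB hE
  -- values
  have val : ∀ {k i : H →L[ℂ] H}, InC E k → InC E i → star k = k → PR (A E) (A k) →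
      PR (A E) (B i) → ((N b (B i * star (A k)) : ℝ) : ℂ) = ip b k (T i) := by
    intro k i hk hi hks pk pi
    have hb := hD.beta hA hB hE h.TC hk hi
    rw [hks, pk.l', pi.l] at hb
    have s1 := (hA k (hk.s4 hE)).1
    have s2 := (hB i (hi.s4 hE)).1
    rw [tr4 s1 s1 s2 s2, ip_self (s2.mul_star s1)] at hb
    exact hb
  have zero : ∀ {k i : H →L[ℂ] H}, InC E k → InC E i → star k = k → PR (A E) (A k) →
      PR (A E) (B i) → ip b k (T i) = 0 → B i * star (A k) = 0 := by
    intro k i hk hi hks pk pi h0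
    have := val hk hi hks pk pi
    rw [h0] at this
    have h1 : N b (B i * star (A k)) = 0 := by exact_mod_cast this
    exact N_eq_zero ((hB i (hi.s4 hE)).1.mul_star (hA k (hk.s4 hE)).1) h1
  have half : ∀ {k : H →L[ℂ] H}, InC E k → star k = k → PR (A E) (A k) →
      PR (A E) (B k) → ip b k (T k) = 1 / 2 → N b (B k * star (A k)) = 1 / 2 := by
    intro k hk hks pk pi h0
    have := val hk hk hks pk pi
    rw [h0] at this
    have h2 : ((N b (B k * star (A k)) : ℝ) : ℂ) = ((1 / 2 : ℝ) : ℂ) := by rw [this]; norm_num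
    exact_mod_cast h2
  have z12 : B e2 * star (A e1) = 0 := zero h.p12.ci h.p12.cj h.p12.hi pA1 pB2 h.z12
  have z23 : B e3 * star (A e2) = 0 := zero h.p12.cj h.p12.ck h.p12.hj pA2 pB3 h.z23
  have z31 : B e1 * star (A e3) = 0 := zero h.p12.ck h.p12.ci h.p12.hk pA3 pB1 h.z31
  have n1 := half h.p12.ci h.p12.hi pA1 pB1 h.d1
  have n2 := half h.p12.cj h.p12.hj pA2 pB2 h.d2
  have n3 := half h.p12.ck h.p12.hk pA3 pB3 h.d3
  have sval : ∀ {s : H →L[ℂ] H}, InC E s → star s = s → (ip b s (T s)).re = -1 →
      (ip b (star (A E) * A s) (star (A E) * B s)).re = -(2 * (1 / 2)) := by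
    intro s hs hss h0
    have hb := hD.beta hA hB hE h.TC hs hs
    rw [hss, ← (hA.r1 hE hs hss).l] at hb
    rw [hb, h0]; norm_num
  have v12 := sval h.p12.cs h.p12.hs h.t12
  have v23 := sval h.p23.cs h.p23.hs h.t23
  have v31 := sval h.p31.cs h.p31.hs h.t31
  obtain ⟨q1, -⟩ := rel tA12 tB12 z12 n1 n2 v12
  obtain ⟨q2, -⟩ := rel tA23 tB23 z23 n2 n3 v23
  obtain ⟨-, q3⟩ := rel tA31 tB31 z31 n3 n1 v31
  -- abbreviations
  set a := A E with ha
  have rA12 := hA.r1 hE h.p12.cs h.p12.hs
  have rA13 := hA.r1 hE h.p31.cs h.p31.hs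
  have rB12 := hB.r1 hE h.p12.cs h.p12.hs
  have rB13 := hB.r1 hE h.p31.cs h.p31.hs
  rw [hag] at rB12 rB13
  rw [← ha] at rA12 rA13
  have kA : star (A s12) * A e3 = 0 := by
    have := congrArg star (h.p12.ks hA hE).1
    rwa [star_mul, star_star, star_zero] at this
  have kB : star (B s12) * B e3 = 0 := by
    have := congrArg star (h.p12.ks hB hE).1
    rwa [star_mul, star_star, star_zero] at this
  have cA := (hA.r3 hE h.p12.cs h.p12.hs h.p23.cs h.p23.hs).2
  have cB := (hB.r3 hE h.p12.cs h.p12.hs h.p23.cs h.p23.hs).2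
  rw [h.comp, ← ha] at cA
  rw [h.comp, hag] at cB
  have lA := L1 tA12 tA31.swi pA3 cA kA rA13.l.symm rA13.r
  have lB := L1 tB12 tB31.swi pB3 cB kB rB13.l.symm rB13.r
  have lA' : star (A e3) * A s23 * (star (A e2) * A s12) = star (A e3) * A s13 * (star a * a) := by
    have := congrArg star lA
    simp only [star_mul, star_star] at this
    exact this
  -- rewritten relations
  have Q1 : star (B s12) * B e2 * (star (A e2) * A s12)
      = -(star (B e1) * B e1 * (star (A e1) * A e1)) := by
    rw [← q1, tB12.swj, ← tA12.swi]; noncomm_ring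
  have Q2 : star (B s23) * B e3 * (star (A e3) * A s23)
      = -(star (B e2) * B e2 * (star (A e2) * A e2)) := by
    rw [← q2, tB23.swj, ← tA23.swi]; noncomm_ring
  have Q3 : star (B s13) * B e3 * (star (A e3) * A s13)
      = -(star (B e1) * B e1 * (star (A e1) * A e1)) := by
    rw [← q3, tB31.swi, ← tA31.swj]; noncomm_ring
  have wB : star (B s12) * (a * star a) = star a * a * star (B s12) := by
    calc star (B s12) * (a * star a) = (star (B s12) * a) * star a := by noncomm_ring
      _ = star a * (B s12 * star a) := by rw [← rB12.l]; noncomm_ring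
      _ = star a * a * star (B s12) := by rw [rB12.r]; noncomm_ring
  have wA : (a * star a) * A s12 = A s12 * (star a * a) := by
    calc (a * star a) * A s12 = a * (star a * A s12) := by noncomm_ring
      _ = (a * star (A s12)) * a := by rw [rA12.l]; noncomm_ring
      _ = A s12 * (star a * a) := by rw [← rA12.r]; noncomm_ring
  have cuA : star (A e2) * A e2 * star (A e2) = star (A e2) * (a * star a) := by
    have := congrArg star pA2.cube
    simp only [star_mul, star_star] at this
    rw [mul_assoc, this]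
  have big : star a * a * (star (B e1) * B e1 * (star (A e1) * A e1)) * (star a * a)
      = - (star a * a * (star (B e1) * B e1 * (star (A e1) * A e1)) * (star a * a)) := by
    have f1 : star (B s12) * B e2 * (star (B s23) * B e3 * (star (A e3) * A s23)) *
        (star (A e2) * A s12)
        = star a * a * (star (B s13) * B e3 * (star (A e3) * A s13)) * (star a * a) := by
      calc _ = (star (B s12) * B e2 * (star (B s23) * B e3)) *
            (star (A e3) * A s23 * (star (A e2) * A s12)) := by noncomm_ring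
        _ = _ := by rw [lB, lA']; noncomm_ring
    rw [Q2, Q3] at f1
    have f2 : star (B s12) * B e2 * -(star (B e2) * B e2 * (star (A e2) * A e2)) *
        (star (A e2) * A s12) = 
        star a * a * (star (B e1) * B e1 * (star (A e1) * A e1)) * (star a * a) := by
      calc _ = - (star (B s12) * (B e2 * star (B e2) * B e2) *
            ((star (A e2) * A e2 * star (A e2)) * A s12)) := by noncomm_ring
        _ = - ((star (B s12) * (a * star a)) * B e2 * (star (A e2) * ((a * star a) * A s12))) := by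
            rw [pB2.cube, cuA]; noncomm_ring
        _ = - (star a * a * (star (B s12) * B e2 * (star (A e2) * A s12)) * (star a * a)) := by
            rw [wB, wA]; noncomm_ring
        _ = _ := by rw [Q1]; noncomm_ring
    rw [f2] at f1
    exact f1.trans (by noncomm_ring)
  have big0 : star a * a * (star (B e1) * B e1 * (star (A e1) * A e1)) * (star a * a) = 0 :=
    by
      have h2 := add_eq_zero_iff_eq_neg.2 big
      rw [← two_smul ℂ] at h2
      exact (smul_eq_zero.1 h2).resolve_left two_ne_zero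
  have big1 : star (B e1) * B e1 * (star (B e1) * B e1) *
      (star (A e1) * A e1 * (star (A e1) * A e1)) = 0 := by
    rw [← pB1.sq, ← pA1.sq', ← big0]; noncomm_ring
  have fin := final big1
  rw [fin] at n1
  have h0 : N b (0 : H →L[ℂ] H) = 0 := by unfold N; simp
  rw [h0] at n1
  norm_num at n1

end Pool.Agent.H415R3.HS
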