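import Pool.Agent.H415R3.HS6

set_option autoImplicit false
set_option linter.unusedSectionVars false
set_option linter.dupNamespace false
set_option linter.deprecated false
set_option linter.unusedVariables false
open scoped NNReal ENNReal InnerProductSpace ComplexConjugate
open Filter Topology

namespace Pool.Agent.H415R3.HS

variable {H : Type} [NormedAddCommGroup H] [InnerProductSpace ℂ H] [CompleteSpace H]
variable {b : HilbertBasis ℕ ℂ H}

lemma N4_expand {a Y : H →L[ℂ] H} (ha : S4 b a) (hY : S4 b Y) (t : ℝ) :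
    N b (star (a + (t : ℂ) • Y) * (a + (t : ℂ) • Y))
      = N b (star a * a) + t * (2 * (ip b (star a * a) (c2 a Y)).re)
        + t ^ 2 * (N b (c2 a Y) + 2 * (ip b (star a * a) (star Y * Y)).re)
        + t ^ 3 * (2 * (ip b (c2 a Y) (star Y * Y)).re) + t ^ 4 * N b (star Y * Y) := by
  have h1 := c2_hs ha hY
  have s1 := hs_smul (b := b) (t : ℂ) h1
  have s2 := hs_smul (b := b) ((t : ℂ) ^ 2) hY.hs
  have e2 : ∀ z : ℂ, ((t : ℂ) ^ 2 * z).re = t ^ 2 * z.re := by
    intro z
    have : (t : ℂ) ^ 2 = ((t ^ 2 : ℝ) : ℂ) := by push_cast; rfl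
    rw [this, Complex.re_ofReal_mul]
  rw [sq_expand, N_add (hs_add ha.hs s1) s2, N_add ha.hs s1, N_smul, N_smul,
    ip_add_left ha.hs s1 s2]
  simp only [ip_smul_left, ip_smul_right, map_pow, Complex.conj_ofReal, Complex.add_re,
    Complex.re_ofReal_mul, e2, norm_pow, Complex.norm_real, Real.norm_eq_abs, sq_abs]
  ring

lemma lin_coeff {c0 c1 c2 c3 c4 d1 d2 d3 d4 : ℝ}
    (h : ∀ t : ℝ, c0 + t * c1 + t ^ 2 * c2 + t ^ 3 * c3 + t ^ 4 * c4
      ≤ c0 + t * d1 + t ^ 2 * d2 + t ^ 3 * d3 + t ^ 4 * d4) : c1 = d1 := by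
  have hd : HasDerivAt (fun t : ℝ => t * (d1 - c1) + t ^ 2 * (d2 - c2) + t ^ 3 * (d3 - c3)
      + t ^ 4 * (d4 - c4)) (d1 - c1) 0 := by
    have h1 := ((hasDerivAt_id (0 : ℝ)).mul_const (d1 - c1))
    have h2 := ((hasDerivAt_pow 2 (0 : ℝ)).mul_const (d2 - c2))
    have h3 := ((hasDerivAt_pow 3 (0 : ℝ)).mul_const (d3 - c3))
    have h4 := ((hasDerivAt_pow 4 (0 : ℝ)).mul_const (d4 - c4))
    exact (((h1.add h2).add h3).add h4).congr_deriv (by norm_num)
  have hm : IsLocalMin (fun t : ℝ => t * (d1 - c1) + t ^ 2 * (d2 - c2) + t ^ 3 * (d3 - c3)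
      + t ^ 4 * (d4 - c4)) 0 := by
    refine Filter.Eventually.of_forall fun t => ?_
    have := h t
    simp only [zero_mul, ne_eq, OfNat.ofNat_ne_zero, not_false_eq_true, zero_pow, add_zero]
    linarith
  have := hm.hasDerivAt_eq_zero hd
  linarith

lemma re_c2 {a Y : H →L[ℂ] H} (ha : S4 b a) (hY : S4 b Y) :
    (ip b (star a * a) (c2 a Y)).re = 2 * (ip b (star a * a) (star a * Y)).re := by
  unfold c2
  rw [ip_add_right (ha.star_mul hY) (hY.star_mul ha) ha.hs, Complex.add_re]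
  have : (ip b (star a * a) (star Y * a)).re = (ip b (star a * a) (star a * Y)).re := by
    rw [← ip_star ha.hs (hY.star_mul ha)]
    simp only [star_mul, star_star]
    exact ip_re_comm _ _
  rw [this]; ring

variable {J P U T : (H →L[ℂ] H) →ₗ[ℂ] (H →L[ℂ] H)}

lemma iso4_of (hJ : ∀ x, n2 b (star x * x) < ⊤ → n2 b (star (J x) * J x) = n2 b (star x * x)) :
    Iso4 b J := by
  intro x hx
  have h1 := hJ x hx
  have h2 : S4 b (J x) := by
    unfold S4 HS
    rw [h1]; exact hx
  exact ⟨h2, N_eq_of_n2 h2 hx h1⟩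

theorem main_contra {E e1 e2 e3 s12 s23 s13 : H →L[ℂ] H} (h : Sys b E e1 e2 e3 s12 s23 s13 T)
    (hJ : ∀ x, n2 b (star x * x) < ⊤ → n2 b (star (J x) * J x) = n2 b (star x * x))
    (hPJ : ∀ x, n2 b (star x * x) < ⊤ → P (J x) = J x)
    (hP : ∀ x, n2 b (star x * x) < ⊤ → n2 b (star (P x) * P x) ≤ n2 b (star x * x))
    (hU : ∀ x, n2 b (star x * x) < ⊤ → n2 b (star (U x) * U x) = n2 b (star x * x))
    (hd : ∀ x, n2 b (star x * x) < ⊤ → P (U (J x)) = J (T x)) : False := by
  have iJ := iso4_of hJ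
  have iU := iso4_of hU
  have iB : Iso4 b (U ∘ₗ J) := by
    intro x hx
    have h1 := iJ x hx
    have h2 := iU _ h1.1
    exact ⟨h2.1, h2.2.trans h1.2⟩
  refine contra h iJ iB ?_
  have hE := h.hE
  have key : ∀ y x, InC E y → InC E x →
      (ip b (star (J y) * J y) (star (J y) * U (J x))).re = (ip b (star y * y) (star y * T x)).re := by
    intro y x hy hx
    have yS := hy.s4 hE
    have xS := hx.s4 hE
    have tS := (h.TC x hx).s4 hE
    have JyS := (iJ y yS).1
    have UxS : S4 b (U (J x)) := (iB x xS).1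
    have hineq : ∀ t : ℝ, N b (star (y + (t : ℂ) • T x) * (y + (t : ℂ) • T x))
        ≤ N b (star (J y + (t : ℂ) • U (J x)) * (J y + (t : ℂ) • U (J x))) := by
      intro t
      have z1 : S4 b (y + (t : ℂ) • T x) := yS.add (tS.smul _)
      have z2 : S4 b (J y + (t : ℂ) • U (J x)) := JyS.add (UxS.smul _)
      have e1 : P (J y + (t : ℂ) • U (J x)) = J (y + (t : ℂ) • T x) := by
        rw [map_add, map_smul, hPJ y yS, hd x xS, map_add, map_smul]
      have h1 := hP _ z2
      rw [e1, hJ _ z1] at h1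
      exact N_le_of_n2 z1 z2 h1
    have hineq2 := fun t : ℝ => hineq t
    simp only [N4_expand yS tS, N4_expand JyS UxS, (iJ y yS).2] at hineq2
    have := lin_coeff hineq2
    rw [re_c2 yS tS, re_c2 JyS UxS] at this
    linarith
  intro y x hy hx
  show ip b (star (J y) * J y) (star (J y) * U (J x)) = ip b (star y * y) (star y * T x)
  apply Complex.ext
  · exact key y x hy hx
  · have := key y (Complex.I • x) hy (hx.smul _)
    rw [map_smul, map_smul, map_smul, mul_smul_comm, mul_smul_comm, ip_smul_right,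
      ip_smul_right] at this
    simp only [Complex.mul_re, Complex.I_re, Complex.I_im, zero_mul, one_mul, zero_sub] at this
    linarith

/-- the fourth Schatten quantity -/
lemma Q4_eq (x : H →L[ℂ] H) : ∑' n : ℕ, ENNReal.ofReal
    (inner ℂ (b n) ((cfc (fun t : ℝ => t ^ ((4 : ℝ) / 2)) (star x * x)) (b n))).re
      = n2 b (star x * x) := by
  have h1 : cfc (fun t : ℝ => t ^ ((4 : ℝ) / 2)) (star x * x) = (star x * x) ^ 2 := by
    rw [show (fun t : ℝ => t ^ ((4 : ℝ) / 2)) = fun t : ℝ => t ^ 2 from by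
      funext t
      rw [show (4 : ℝ) / 2 = 2 from by norm_num, Real.rpow_two]]
    exact cfc_pow_id (R := ℝ) (star x * x) 2 (IsSelfAdjoint.star_mul_self x)
  rw [h1]
  unfold n2
  refine tsum_congr fun n => ?_
  have h2 : star (star x * x) = star x * x := by rw [star_mul, star_star]
  rw [norm_sq_apply, h2, sq]

end Pool.Agent.H415R3.HS
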