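import Mathlib

set_option autoImplicit false
set_option linter.unusedSectionVars false
set_option linter.dupNamespace false
set_option linter.deprecated false
set_option linter.unusedVariables false
open scoped NNReal ENNReal InnerProductSpace ComplexConjugate
open Filter Topology

namespace Pool.Agent.H415R3.HS

variable {H : Type} [NormedAddCommGroup H] [InnerProductSpace ℂ H] [CompleteSpace H]

lemma sum_root {N : ℕ} (hN : 0 < N) {ζ : ℂ} (h : IsPrimitiveRoot ζ N) (a c : ℕ) :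
    ∑ k ∈ Finset.range N, (ζ ^ a * (ζ⁻¹) ^ c) ^ k = if a ≡ c [MOD N] then (N : ℂ) else 0 := by
  have hz : ζ ≠ 0 := h.ne_zero hN.ne'
  have hr : ζ ^ a * (ζ⁻¹) ^ c = 1 ↔ a ≡ c [MOD N] := by
    rw [inv_pow, mul_inv_eq_one₀ (pow_ne_zero _ hz)]
    rw [← Units.val_mk0 hz, ← Units.val_pow_eq_pow_val, ← Units.val_pow_eq_pow_val,
      Units.val_inj, pow_eq_pow_iff_modEq, ← orderOf_units, Units.val_mk0, ← h.eq_orderOf]
  split_ifs with hm
  · rw [hr.2 hm]; simp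
  · have h1 : ζ ^ a * (ζ⁻¹) ^ c ≠ 1 := fun h' => hm (hr.1 h')
    rw [geom_sum_eq h1]
    have : (ζ ^ a * (ζ⁻¹) ^ c) ^ N = 1 := by
      rw [mul_pow, ← pow_mul, ← pow_mul, mul_comm a, mul_comm c, pow_mul, pow_mul, h.pow_eq_one,
        inv_pow, h.pow_eq_one]
      simp
    rw [this]; simp

/-- the discrete Poisson kernel -/
noncomputable def Gk (N : ℕ) (ζ : ℂ) (x : H →L[ℂ] H) (k : ℕ) : H →L[ℂ] H :=
  ∑ n ∈ Finset.range N, ((ζ⁻¹) ^ n) ^ k • x ^ n

lemma star_Gk {N : ℕ} {ζ : ℂ} (hζ : conj ζ = ζ⁻¹) (x : H →L[ℂ] H) (k : ℕ) :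
    star (Gk N ζ x k) = ∑ n ∈ Finset.range N, (ζ ^ n) ^ k • (star x) ^ n := by
  unfold Gk
  rw [star_sum]
  refine Finset.sum_congr rfl fun n _ => ?_
  rw [star_smul]
  have h1 : star (((ζ⁻¹) ^ n) ^ k) = (ζ ^ n) ^ k := by
    rw [show star (((ζ⁻¹) ^ n) ^ k) = conj (((ζ⁻¹) ^ n) ^ k) from rfl, map_pow, map_pow, map_inv₀, hζ,
      inv_inv]
  rw [← h1]
  simp only [star_pow]

lemma sum_K {N : ℕ} (hN : 0 < N) {ζ : ℂ} (h : IsPrimitiveRoot ζ N) (hζ : conj ζ = ζ⁻¹)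
    (x D : H →L[ℂ] H) (s : ℕ) :
    ∑ k ∈ Finset.range N, (ζ ^ s) ^ k • (star (Gk N ζ x k) * D * Gk N ζ x k)
      = ∑ m ∈ Finset.range N, ∑ n ∈ Finset.range N,
        (if s + m ≡ n [MOD N] then (N : ℂ) else 0) • ((star x) ^ m * D * x ^ n) := by
  have h1 : ∀ k ∈ Finset.range N, (ζ ^ s) ^ k • (star (Gk N ζ x k) * D * Gk N ζ x k)
      = ∑ m ∈ Finset.range N, ∑ n ∈ Finset.range N,
        (ζ ^ (s + m) * (ζ⁻¹) ^ n) ^ k • ((star x) ^ m * D * x ^ n) := by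
    intro k _
    rw [star_Gk hζ]
    unfold Gk
    rw [Finset.sum_mul, Finset.sum_mul, Finset.smul_sum]
    refine Finset.sum_congr rfl fun m _ => ?_
    rw [Finset.mul_sum, Finset.smul_sum]
    refine Finset.sum_congr rfl fun n _ => ?_
    rw [smul_mul_assoc, smul_mul_assoc, mul_smul_comm, smul_smul, smul_smul, mul_pow, pow_add,
      mul_pow]
    try congr 1
    try ring
  rw [Finset.sum_congr rfl h1, Finset.sum_comm]
  refine Finset.sum_congr rfl fun m _ => ?_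
  rw [Finset.sum_comm]
  refine Finset.sum_congr rfl fun n _ => ?_
  rw [← Finset.sum_smul, sum_root hN h]

lemma telescope (x : H →L[ℂ] H) (M : ℕ) :
    ∑ m ∈ Finset.range M, (star x) ^ m * (1 - star x * x) * x ^ m = 1 - (star x) ^ M * x ^ M := by
  induction M with
  | zero => simp
  | succ M ih =>
    rw [Finset.sum_range_succ, ih, pow_succ, pow_succ']
    noncomm_ring

lemma sum0 {M : ℕ} {ζ : ℂ} (h : IsPrimitiveRoot ζ (M + 1)) (hζ : conj ζ = ζ⁻¹)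
    (x : H →L[ℂ] H) :
    ∑ k ∈ Finset.range (M + 1), (star (Gk (M + 1) ζ x k) * (1 - star x * x) * Gk (M + 1) ζ x k)
      = ((M + 1 : ℕ) : ℂ) • (1 - (star x) ^ (M + 1) * x ^ (M + 1)) := by
  have h1 := sum_K (Nat.succ_pos M) h hζ x (1 - star x * x) 0
  simp only [pow_zero, one_pow, one_smul, zero_add] at h1
  rw [Nat.succ_eq_add_one] at h1
  rw [h1, ← telescope, Finset.smul_sum]
  refine Finset.sum_congr rfl fun m hm => ?_
  rw [Finset.sum_eq_single m]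
  · rw [if_pos (Nat.ModEq.refl m)]
  · intro n hn hne
    rw [if_neg, zero_smul]
    intro hmod
    exact hne (Nat.ModEq.eq_of_lt_of_lt hmod (Finset.mem_range.1 hm) (Finset.mem_range.1 hn)).symm
  · intro h'; exact absurd hm h'

lemma sum1 {M : ℕ} {ζ : ℂ} (h : IsPrimitiveRoot ζ (M + 1)) (hζ : conj ζ = ζ⁻¹)
    (x : H →L[ℂ] H) :
    ∑ k ∈ Finset.range (M + 1), ζ ^ k •
        (star (Gk (M + 1) ζ x k) * (1 - star x * x) * Gk (M + 1) ζ x k)
      = ((M + 1 : ℕ) : ℂ) • ((1 - (star x) ^ M * x ^ M) * x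
        + (star x) ^ M * (1 - star x * x)) := by
  have h1 := sum_K (Nat.succ_pos M) h hζ x (1 - star x * x) 1
  simp only [pow_one] at h1
  rw [Nat.succ_eq_add_one] at h1
  rw [h1, ← telescope, Finset.sum_mul, Finset.sum_range_succ, smul_add, Finset.smul_sum]
  congr 1
  · refine Finset.sum_congr rfl fun m hm => ?_
    have hm' := Finset.mem_range.1 hm
    rw [Finset.sum_eq_single (m + 1)]
    · rw [if_pos (by rw [add_comm 1 m]), pow_succ, mul_assoc _ (x ^ m) x]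
    · intro n hn hne
      rw [if_neg, zero_smul]
      intro hmod
      have := Nat.ModEq.eq_of_lt_of_lt hmod (by omega) (Finset.mem_range.1 hn)
      omega
    · intro h'; exact absurd (Finset.mem_range.2 (by omega)) h'
  · rw [Finset.sum_eq_single 0]
    · rw [if_pos, pow_zero, mul_one]
      rw [add_comm]
      exact Nat.modEq_zero_iff_dvd.2 (dvd_refl _)
    · intro n hn hne
      rw [if_neg, zero_smul]
      intro hmod
      have h2 : 0 ≡ n [MOD (M + 1)] := by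
        refine Nat.ModEq.trans ?_ hmod
        rw [add_comm]
        exact (Nat.modEq_zero_iff_dvd.2 (dvd_refl _)).symm
      have := Nat.ModEq.eq_of_lt_of_lt h2 (Nat.succ_pos M) (Finset.mem_range.1 hn)
      omega
    · intro h'; exact absurd (Finset.mem_range.2 (by omega)) h'

lemma pos_form {S : H →L[ℂ] H} (hS : 0 ≤ S) (u v : H) :
    ‖⟪u, S v⟫_ℂ‖ ≤ ((⟪u, S u⟫_ℂ).re + (⟪v, S v⟫_ℂ).re) / 2 := by
  have h1 : CFC.sqrt S * CFC.sqrt S = S := CFC.sqrt_mul_sqrt_self S hS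
  have h2 : star (CFC.sqrt S) = CFC.sqrt S := (CFC.sqrt_nonneg S).isSelfAdjoint
  set R := CFC.sqrt S
  have h3 : ∀ u v : H, ⟪u, S v⟫_ℂ = ⟪R u, R v⟫_ℂ := by
    intro u v
    rw [← h1, ContinuousLinearMap.mul_apply, ← ContinuousLinearMap.adjoint_inner_left,
      ← ContinuousLinearMap.star_eq_adjoint, h2]
  have h4 : ∀ u : H, (⟪u, S u⟫_ℂ).re = ‖R u‖ ^ 2 := by
    intro u
    rw [h3, inner_self_eq_norm_sq_to_K]
    norm_cast
  rw [h3, h4, h4]
  have := norm_inner_le_norm (𝕜 := ℂ) (R u) (R v)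
  nlinarith [sq_nonneg (‖R u‖ - ‖R v‖)]

lemma norm_le_one_of_form {Z : H →L[ℂ] H}
    (h : ∀ u v : H, ‖⟪u, Z v⟫_ℂ‖ ≤ (‖u‖ ^ 2 + ‖v‖ ^ 2) / 2) : ‖Z‖ ≤ 1 := by
  refine ContinuousLinearMap.opNorm_le_bound _ zero_le_one fun v => ?_
  rw [one_mul]
  by_cases hv : Z v = 0
  · rw [hv, norm_zero]; exact norm_nonneg _
  have hw : 0 < ‖Z v‖ := norm_pos_iff.2 hv
  have h1 := h (((‖v‖ / ‖Z v‖ : ℝ) : ℂ) • Z v) v
  rw [inner_smul_left, Complex.conj_ofReal, norm_mul, Complex.norm_real, norm_smul,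
    Complex.norm_real, inner_self_eq_norm_sq_to_K] at h1
  have h2 : ‖((‖Z v‖ : ℂ)) ^ 2‖ = ‖Z v‖ ^ 2 := by simp
  have h3 : ‖(‖v‖ / ‖Z v‖ : ℝ)‖ = ‖v‖ / ‖Z v‖ := by
    rw [Real.norm_eq_abs, abs_of_nonneg (by positivity)]
  have h4 : ‖(((‖Z v‖ : ℝ) : ℂ)) ^ 2‖ = ‖Z v‖ ^ 2 := by simp
  rw [h3] at h1
  erw [h4] at h1
  have h5 : ‖v‖ / ‖Z v‖ * ‖Z v‖ ^ 2 = ‖v‖ * ‖Z v‖ := by field_simp
  have h6 : (‖v‖ / ‖Z v‖ * ‖Z v‖) = ‖v‖ := by field_simp
  rw [h5, h6] at h1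
  have h7 : ‖v‖ * ‖Z v‖ ≤ ‖v‖ * ‖v‖ := by nlinarith
  have h8 : 0 < ‖v‖ := by
    rw [norm_pos_iff]
    intro h0
    exact hv (by rw [h0, map_zero])
  exact le_of_mul_le_mul_left h7 h8

theorem RD_aux {T : (H →L[ℂ] H) →ₗ[ℂ] (H →L[ℂ] H)} (hpos : ∀ y, 0 ≤ T (star y * y))
    (h1 : T 1 ≤ 1) {x R : H →L[ℂ] H} (hR : star R * R = 1 - star x * x) (M : ℕ) :
    ‖T ((1 - (star x) ^ M * x ^ M) * x + (star x) ^ M * (1 - star x * x))‖ ≤ 1 := by
  have hN : (M + 1) ≠ 0 := Nat.succ_ne_zero M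
  set ζ : ℂ := Complex.exp (2 * Real.pi * Complex.I / ((M + 1 : ℕ) : ℂ)) with hζd
  have hprim : IsPrimitiveRoot ζ (M + 1) := Complex.isPrimitiveRoot_exp (M + 1) hN
  have hnorm : ‖ζ‖ = 1 := hprim.norm'_eq_one hN
  have hconj : conj ζ = ζ⁻¹ := by
    rw [Complex.inv_def, Complex.normSq_eq_norm_sq, hnorm]; simp
  set K : ℕ → H →L[ℂ] H := fun k =>
    star (Gk (M + 1) ζ x k) * (1 - star x * x) * Gk (M + 1) ζ x k with hK
  have hKpos : ∀ k, 0 ≤ T (K k) := by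
    intro k
    have : K k = star (R * Gk (M + 1) ζ x k) * (R * Gk (M + 1) ζ x k) := by
      rw [hK]
      simp only
      rw [← hR, star_mul]
      noncomm_ring
    rw [this]
    exact hpos _
  have s0 := sum0 hprim hconj x
  have s1 := sum1 hprim hconj x
  have hNr : (0 : ℝ) < ((M + 1 : ℕ) : ℝ) := by positivity
  apply norm_le_one_of_form
  intro u v
  set Y := (1 - (star x) ^ M * x ^ M) * x + (star x) ^ M * (1 - star x * x)
  have e1 : ((M + 1 : ℕ) : ℂ) * ⟪u, T Y v⟫_ℂ = ∑ k ∈ Finset.range (M + 1), ζ ^ k * ⟪u, T (K k) v⟫_ℂ := by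
    have := congrArg (fun Z => ⟪u, T Z v⟫_ℂ) s1
    simp only [map_sum, map_smul, ContinuousLinearMap.sum_apply, ContinuousLinearMap.smul_apply,
      inner_sum, inner_smul_right] at this
    exact this.symm
  have e2 : ∀ w : H, ∑ k ∈ Finset.range (M + 1), (⟪w, T (K k) w⟫_ℂ).re ≤ ((M + 1 : ℕ) : ℝ) * ‖w‖ ^ 2 := by
    intro w
    have := congrArg (fun Z => (⟪w, T Z w⟫_ℂ).re) s0
    simp only [map_sum, map_smul, ContinuousLinearMap.sum_apply, ContinuousLinearMap.smul_apply,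
      inner_sum, inner_smul_right, Complex.re_sum, map_sub, ContinuousLinearMap.sub_apply,
      inner_sub_right] at this
    rw [this]
    have h2 : (0 : ℝ) ≤ (⟪w, T ((star x) ^ (M + 1) * x ^ (M + 1)) w⟫_ℂ).re := by
      have h3 : 0 ≤ T ((star x) ^ (M + 1) * x ^ (M + 1)) := by
        rw [← star_pow]; exact hpos _
      rw [ContinuousLinearMap.nonneg_iff_isPositive] at h3
      have := h3.re_inner_nonneg_right w
      simpa using this
    have h4 : (⟪w, T 1 w⟫_ℂ).re ≤ ‖w‖ ^ 2 := by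
      have h5 : 0 ≤ 1 - T 1 := sub_nonneg.2 h1
      rw [ContinuousLinearMap.nonneg_iff_isPositive] at h5
      have h6 := h5.re_inner_nonneg_right w
      rw [ContinuousLinearMap.sub_apply, inner_sub_right, ContinuousLinearMap.one_apply,
        inner_self_eq_norm_sq_to_K] at h6
      simp only [map_sub] at h6
      have h7 : RCLike.re (((‖w‖ : ℝ) : ℂ) ^ 2) = ‖w‖ ^ 2 := by
        norm_cast
      have h8 : RCLike.re (⟪w, T 1 w⟫_ℂ) = (⟪w, T 1 w⟫_ℂ).re := rfl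
      erw [h7] at h6
      rw [h8] at h6
      linarith
    have h9 : ∀ z : ℂ, (((M + 1 : ℕ) : ℂ) * z).re = ((M + 1 : ℕ) : ℝ) * z.re := by
      intro z
      rw [← Complex.ofReal_natCast, Complex.re_ofReal_mul]
    rw [h9]
    rw [Complex.sub_re]
    gcongr
    linarith
  have e3 : ((M + 1 : ℕ) : ℝ) * ‖⟪u, T Y v⟫_ℂ‖ ≤ ((M + 1 : ℕ) : ℝ) * ((‖u‖ ^ 2 + ‖v‖ ^ 2) / 2) := by
    calc ((M + 1 : ℕ) : ℝ) * ‖⟪u, T Y v⟫_ℂ‖ = ‖((M + 1 : ℕ) : ℂ) * ⟪u, T Y v⟫_ℂ‖ := by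
          rw [norm_mul, Complex.norm_natCast]
      _ = ‖∑ k ∈ Finset.range (M + 1), ζ ^ k * ⟪u, T (K k) v⟫_ℂ‖ := by rw [e1]
      _ ≤ ∑ k ∈ Finset.range (M + 1), ‖ζ ^ k * ⟪u, T (K k) v⟫_ℂ‖ := norm_sum_le _ _
      _ = ∑ k ∈ Finset.range (M + 1), ‖⟪u, T (K k) v⟫_ℂ‖ := by
          refine Finset.sum_congr rfl fun k _ => ?_
          rw [norm_mul, norm_pow, hnorm, one_pow, one_mul]
      _ ≤ ∑ k ∈ Finset.range (M + 1), ((⟪u, T (K k) u⟫_ℂ).re + (⟪v, T (K k) v⟫_ℂ).re) / 2 :=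
          Finset.sum_le_sum fun k _ => pos_form (hKpos k) u v
      _ = (∑ k ∈ Finset.range (M + 1), (⟪u, T (K k) u⟫_ℂ).re
            + ∑ k ∈ Finset.range (M + 1), (⟪v, T (K k) v⟫_ℂ).re) / 2 := by
          rw [← Finset.sum_add_distrib, Finset.sum_div]
      _ ≤ _ := by
          have := e2 u
          have := e2 v
          linarith
  exact le_of_mul_le_mul_left e3 hNr

theorem RD {T : (H →L[ℂ] H) →ₗ[ℂ] (H →L[ℂ] H)} (hpos : ∀ y, 0 ≤ T (star y * y))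
    (h1 : T 1 ≤ 1) {C : ℝ} (hC : ∀ x, ‖T x‖ ≤ C * ‖x‖) (x : H →L[ℂ] H) : ‖T x‖ ≤ ‖x‖ := by
  have step : ∀ x : H →L[ℂ] H, ‖x‖ < 1 → ‖T x‖ ≤ 1 := by
    intro x hx
    have hD : 0 ≤ 1 - star x * x := by
      rw [sub_nonneg]
      rw [← CStarAlgebra.norm_le_one_iff_of_nonneg _ (star_mul_self_nonneg x)]
      rw [CStarRing.norm_star_mul_self]
      nlinarith [norm_nonneg x]
    set R := CFC.sqrt (1 - star x * x) with hRd
    have hR : star R * R = 1 - star x * x := by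
      have h2 : star R = R := (CFC.sqrt_nonneg _).isSelfAdjoint
      rw [h2]
      exact CFC.sqrt_mul_sqrt_self _ hD
    have hb : ∀ M : ℕ, ‖T x‖ ≤ 1 + |C| * (3 * ‖x‖ ^ M) := by
      intro M
      have h3 := RD_aux hpos h1 hR M
      set Y := (1 - (star x) ^ M * x ^ M) * x + (star x) ^ M * (1 - star x * x) with hY
      have h4 : x - Y = (star x) ^ M * x ^ M * x - (star x) ^ M + (star x) ^ M * (star x * x) := by
        rw [hY]; noncomm_ring
      have h5 : ‖x - Y‖ ≤ 3 * ‖x‖ ^ M := by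
        rw [h4]
        have a1 : ‖(star x) ^ M‖ ≤ ‖x‖ ^ M := by
          rcases Nat.eq_zero_or_pos M with h | h
          · subst h
            simp only [pow_zero]
            exact ContinuousLinearMap.norm_id_le
          · calc ‖(star x) ^ M‖ ≤ ‖star x‖ ^ M := norm_pow_le' _ h
              _ = ‖x‖ ^ M := by rw [norm_star]
        have a2 : ‖x ^ M * x‖ ≤ 1 := by
          rw [← pow_succ]
          calc ‖x ^ (M + 1)‖ ≤ ‖x‖ ^ (M + 1) := norm_pow_le' _ (Nat.succ_pos M)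
            _ ≤ 1 := pow_le_one₀ (norm_nonneg _) hx.le
        have a3 : ‖star x * x‖ ≤ 1 := by
          rw [CStarRing.norm_star_mul_self]; nlinarith [norm_nonneg x]
        have a4 : ‖(star x) ^ M * x ^ M * x‖ ≤ ‖x‖ ^ M := by
          rw [mul_assoc]
          calc _ ≤ ‖(star x) ^ M‖ * ‖x ^ M * x‖ := norm_mul_le _ _
            _ ≤ ‖x‖ ^ M * 1 := by gcongr
            _ = _ := mul_one _
        have a5 : ‖(star x) ^ M * (star x * x)‖ ≤ ‖x‖ ^ M := by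
          calc _ ≤ ‖(star x) ^ M‖ * ‖star x * x‖ := norm_mul_le _ _
            _ ≤ ‖x‖ ^ M * 1 := by gcongr
            _ = _ := mul_one _
        calc _ ≤ ‖(star x) ^ M * x ^ M * x - (star x) ^ M‖ + ‖(star x) ^ M * (star x * x)‖ :=
              norm_add_le _ _
          _ ≤ (‖(star x) ^ M * x ^ M * x‖ + ‖(star x) ^ M‖) + ‖(star x) ^ M * (star x * x)‖ := by
              gcongr; exact norm_sub_le _ _
          _ ≤ _ := by linarith
      calc ‖T x‖ = ‖T Y + T (x - Y)‖ := by rw [← map_add]; congr 2; abel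
        _ ≤ ‖T Y‖ + ‖T (x - Y)‖ := norm_add_le _ _
        _ ≤ 1 + |C| * (3 * ‖x‖ ^ M) := by
          have := hC (x - Y)
          have h6 : C * ‖x - Y‖ ≤ |C| * (3 * ‖x‖ ^ M) := by
            calc C * ‖x - Y‖ ≤ |C| * ‖x - Y‖ := by gcongr; exact le_abs_self C
              _ ≤ _ := by gcongr
          linarith
    have hlim : Tendsto (fun M : ℕ => 1 + |C| * (3 * ‖x‖ ^ M)) atTop (𝓝 (1 + |C| * (3 * 0))) :=
      (((tendsto_pow_atTop_nhds_zero_of_lt_one (norm_nonneg x) hx).const_mul 3).const_mul _).const_add _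
    have := ge_of_tendsto' hlim hb
    simpa using this
  by_contra hcon
  rw [not_le] at hcon
  obtain ⟨r, hr1, hr2⟩ := exists_between hcon
  have hr0 : 0 < r := lt_of_le_of_lt (norm_nonneg _) hr1
  have h2 : ‖((r⁻¹ : ℝ) : ℂ) • x‖ < 1 := by
    rw [norm_smul, Complex.norm_real, Real.norm_eq_abs, abs_of_pos (inv_pos.2 hr0)]
    rw [inv_mul_lt_iff₀ hr0]; linarith
  have h3 := step _ h2
  rw [map_smul, norm_smul, Complex.norm_real, Real.norm_eq_abs, abs_of_pos (inv_pos.2 hr0),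
    inv_mul_le_iff₀ hr0] at h3
  linarith

end Pool.Agent.H415R3.HS
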