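import Pool.Agent.H415R3.HS7
import Pool.Agent.H415R3.HS8

set_option autoImplicit false
set_option linter.unusedSectionVars false
set_option linter.dupNamespace false
set_option linter.deprecated false
set_option linter.unusedVariables false
open scoped NNReal ENNReal InnerProductSpace ComplexConjugate
open Filter Topology

namespace Pool.Agent.H415R3.HS

variable {H : Type} [NormedAddCommGroup H] [InnerProductSpace ℂ H] [CompleteSpace H]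

/-! ### the scalar inequality -/

lemma amgm3 {a c d : ℝ} (ha : 0 ≤ a) (hc : 0 ≤ c) (hd : 0 ≤ d) :
    3 * (a * c * d) ≤ a ^ 2 * c + c ^ 2 * d + d ^ 2 * a := by
  rcases le_total a c with h1 | h1 <;> rcases le_total c d with h2 | h2 <;>
    rcases le_total a d with h3 | h3 <;>
    nlinarith [mul_nonneg ha (sq_nonneg (c - d)), mul_nonneg hc (sq_nonneg (a - d)),
      mul_nonneg hd (sq_nonneg (a - c)), mul_nonneg ha hc, mul_nonneg hc hd, mul_nonneg ha hd,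
      mul_nonneg (mul_nonneg ha (sub_nonneg.2 h1)) (sub_nonneg.2 h2),
      mul_nonneg (mul_nonneg hc (sub_nonneg.2 h1)) (sub_nonneg.2 h2),
      mul_nonneg (mul_nonneg hd (sub_nonneg.2 h1)) (sub_nonneg.2 h2),
      mul_nonneg (mul_nonneg ha (sub_nonneg.2 h1)) (sub_nonneg.2 h3),
      mul_nonneg (mul_nonneg hc (sub_nonneg.2 h1)) (sub_nonneg.2 h3),
      mul_nonneg (mul_nonneg hd (sub_nonneg.2 h1)) (sub_nonneg.2 h3),
      mul_nonneg (mul_nonneg ha (sub_nonneg.2 h2)) (sub_nonneg.2 h3),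
      mul_nonneg (mul_nonneg hc (sub_nonneg.2 h2)) (sub_nonneg.2 h3),
      mul_nonneg (mul_nonneg hd (sub_nonneg.2 h2)) (sub_nonneg.2 h3)]

lemma cs3 {A1 A2 A3 : ℝ} (h1 : 0 < A1) (h2 : 0 < A2) (h3 : 0 < A3) (s1 s2 s3 w1 w2 w3 : ℝ) :
    (s1 * w1 + s2 * w2 + s3 * w3) ^ 2
      ≤ (A1 * s1 ^ 2 + A2 * s2 ^ 2 + A3 * s3 ^ 2) * (w1 ^ 2 / A1 + w2 ^ 2 / A2 + w3 ^ 2 / A3) := by
  have key : (A1 * s1 ^ 2 + A2 * s2 ^ 2 + A3 * s3 ^ 2) * (w1 ^ 2 / A1 + w2 ^ 2 / A2 + w3 ^ 2 / A3)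
      - (s1 * w1 + s2 * w2 + s3 * w3) ^ 2
      = (A1 * s1 * w2 - A2 * s2 * w1) ^ 2 / (A1 * A2) + (A1 * s1 * w3 - A3 * s3 * w1) ^ 2 / (A1 * A3)
        + (A2 * s2 * w3 - A3 * s3 * w2) ^ 2 / (A2 * A3) := by
    field_simp
    ring
  have : 0 ≤ (A1 * s1 * w2 - A2 * s2 * w1) ^ 2 / (A1 * A2)
      + (A1 * s1 * w3 - A3 * s3 * w1) ^ 2 / (A1 * A3)
        + (A2 * s2 * w3 - A3 * s3 * w2) ^ 2 / (A2 * A3) := by positivity
  linarith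

lemma frac3 {a c d : ℝ} (ha : 0 ≤ a) (hc : 0 ≤ c) (hd : 0 ≤ d) (h1 : 0 < 2 * a + c)
    (h2 : 0 < 2 * c + d) (h3 : 0 < 2 * d + a) :
    a / (2 * a + c) + c / (2 * c + d) + d / (2 * d + a) ≤ 1 := by
  rw [div_add_div _ _ h1.ne' h2.ne', div_add_div _ _ (mul_pos h1 h2).ne' h3.ne', div_le_one (by positivity)]
  have := amgm3 ha hd hc
  nlinarith [amgm3 ha hd hc, amgm3 ha hc hd]

lemma choi3 (s1 s2 s3 w1 w2 w3 : ℝ) :
    (s1 * w1 + s2 * w2 + s3 * w3) ^ 2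
      ≤ (2 * w1 ^ 2 + w2 ^ 2) * s1 ^ 2 + (2 * w2 ^ 2 + w3 ^ 2) * s2 ^ 2
        + (2 * w3 ^ 2 + w1 ^ 2) * s3 ^ 2 := by
  by_cases h1 : 0 < 2 * w1 ^ 2 + w2 ^ 2
  · by_cases h2 : 0 < 2 * w2 ^ 2 + w3 ^ 2
    · by_cases h3 : 0 < 2 * w3 ^ 2 + w1 ^ 2
      · have k1 := cs3 h1 h2 h3 s1 s2 s3 w1 w2 w3
        have k2 := frac3 (sq_nonneg w1) (sq_nonneg w2) (sq_nonneg w3) h1 h2 h3
        have k3 : 0 ≤ (2 * w1 ^ 2 + w2 ^ 2) * s1 ^ 2 + (2 * w2 ^ 2 + w3 ^ 2) * s2 ^ 2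
          + (2 * w3 ^ 2 + w1 ^ 2) * s3 ^ 2 := by positivity
        calc _ ≤ _ := k1
          _ ≤ _ := mul_le_of_le_one_right k3 k2
      · have e1 : w3 = 0 := by nlinarith [sq_nonneg w3, sq_nonneg w1]
        have e2 : w1 = 0 := by nlinarith [sq_nonneg w3, sq_nonneg w1]
        subst e1; subst e2
        nlinarith [sq_nonneg (s2 * w2), sq_nonneg (s1 * w2)]
    · have e1 : w2 = 0 := by nlinarith [sq_nonneg w2, sq_nonneg w3]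
      have e2 : w3 = 0 := by nlinarith [sq_nonneg w2, sq_nonneg w3]
      subst e1; subst e2
      nlinarith [sq_nonneg (s1 * w1), sq_nonneg (s3 * w1)]
  · have e1 : w1 = 0 := by nlinarith [sq_nonneg w2, sq_nonneg w1]
    have e2 : w2 = 0 := by nlinarith [sq_nonneg w2, sq_nonneg w1]
    subst e1; subst e2
    nlinarith [sq_nonneg (s3 * w3), sq_nonneg (s2 * w3)]

variable (b : HilbertBasis ℕ ℂ H)

/-- matrix units -/
noncomputable def el (i j : ℕ) : H →L[ℂ] H := (innerSL ℂ (b j)).smulRight (b i)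

lemma el_apply (i j : ℕ) (v : H) : el b i j v = ⟪b j, v⟫_ℂ • b i := by simp [el]

lemma on (i j : ℕ) : ⟪b i, b j⟫_ℂ = if i = j then 1 else 0 := by
  have ho := b.orthonormal
  rw [orthonormal_iff_ite] at ho
  exact ho i j

lemma el_mul (i j k l : ℕ) : el b i j * el b k l = if j = k then el b i l else 0 := by
  ext v
  rw [ContinuousLinearMap.mul_apply, el_apply, el_apply, inner_smul_right, on]
  split_ifs with h
  · rw [mul_one, el_apply]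
  · simp

lemma el_star (i j : ℕ) : star (el b i j) = el b j i := by
  rw [ContinuousLinearMap.star_eq_adjoint]
  symm
  rw [ContinuousLinearMap.eq_adjoint_iff]
  intro x y
  rw [el_apply, el_apply, inner_smul_left, inner_smul_right, inner_conj_symm, mul_comm]

lemma Pn3 : Pn b 3 = el b 0 0 + el b 1 1 + el b 2 2 := by
  unfold Pn el
  rw [Finset.sum_range_succ, Finset.sum_range_succ, Finset.sum_range_one]

/-- the unit of the corner -/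
noncomputable def EE : H →L[ℂ] H := el b 0 0 + el b 1 1 + el b 2 2

lemma EE_star : star (EE b) = EE b := by
  unfold EE; simp [el_star]

lemma EE_mul_el {i : ℕ} (hi : i < 3) (j : ℕ) : EE b * el b i j = el b i j := by
  unfold EE
  rw [add_mul, add_mul, el_mul, el_mul, el_mul]
  interval_cases i <;> simp

lemma el_mul_EE {j : ℕ} (hj : j < 3) (i : ℕ) : el b i j * EE b = el b i j := by
  unfold EE
  rw [mul_add, mul_add, el_mul, el_mul, el_mul]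
  interval_cases j <;> simp

lemma EE_mul_EE : EE b * EE b = EE b := by
  conv_lhs => rw [show EE b * EE b = EE b * (el b 0 0 + el b 1 1 + el b 2 2) from rfl]
  rw [mul_add, mul_add, EE_mul_el b (by norm_num), EE_mul_el b (by norm_num),
    EE_mul_el b (by norm_num)]
  rfl

lemma EE_basis {i : ℕ} (hi : i < 3) : EE b (b i) = b i := by
  unfold EE
  simp only [ContinuousLinearMap.add_apply, el_apply, on]
  interval_cases i <;> simp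

lemma EE_basis' {i : ℕ} (hi : ¬ i < 3) : EE b (b i) = 0 := by
  unfold EE
  simp only [ContinuousLinearMap.add_apply, el_apply, on]
  rw [if_neg (by omega), if_neg (by omega), if_neg (by omega)]
  simp

lemma inner_EE (u v : H) : ⟪EE b u, v⟫_ℂ = ⟪u, EE b v⟫_ℂ := by
  rw [← ContinuousLinearMap.adjoint_inner_right, ← ContinuousLinearMap.star_eq_adjoint, EE_star]

lemma EE_norm (u : H) : ‖EE b u‖ ≤ ‖u‖ := by
  by_contra h
  rw [not_le] at h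
  have h1 : ‖EE b u‖ ^ 2 = (⟪u, EE b u⟫_ℂ).re := by
    rw [norm_sq_apply, EE_star, EE_mul_EE]
  have h2 : (⟪u, EE b u⟫_ℂ).re ≤ ‖u‖ * ‖EE b u‖ :=
    (Complex.re_le_norm _).trans (norm_inner_le_norm _ _)
  nlinarith [norm_nonneg u, norm_nonneg (EE b u)]

/-- half of the Choi map, compressed to the corner -/
noncomputable def Cm (p q r : ℕ) : (H →L[ℂ] H) →ₗ[ℂ] (H →L[ℂ] H) where
  toFun x := (1 / 2 : ℂ) • ((2 * ⟪b 0, x (b 0)⟫_ℂ + ⟪b p, x (b p)⟫_ℂ) • el b 0 0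
    + (2 * ⟪b 1, x (b 1)⟫_ℂ + ⟪b q, x (b q)⟫_ℂ) • el b 1 1
    + (2 * ⟪b 2, x (b 2)⟫_ℂ + ⟪b r, x (b r)⟫_ℂ) • el b 2 2 - EE b * x * EE b)
  map_add' x y := by
    rw [← smul_add]
    congr 1
    simp only [ContinuousLinearMap.add_apply, inner_add_right, mul_add, add_mul]
    module
  map_smul' c x := by
    rw [RingHom.id_apply, smul_comm c]
    congr 1
    simp only [ContinuousLinearMap.smul_apply, inner_smul_right, mul_smul_comm, smul_mul_assoc]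
    module

lemma Cm_apply (p q r : ℕ) (x : H →L[ℂ] H) : Cm b p q r x =
    (1 / 2 : ℂ) • ((2 * ⟪b 0, x (b 0)⟫_ℂ + ⟪b p, x (b p)⟫_ℂ) • el b 0 0
    + (2 * ⟪b 1, x (b 1)⟫_ℂ + ⟪b q, x (b q)⟫_ℂ) • el b 1 1
    + (2 * ⟪b 2, x (b 2)⟫_ℂ + ⟪b r, x (b r)⟫_ℂ) • el b 2 2 - EE b * x * EE b) := rfl

lemma inner_el (i : ℕ) (u : H) : ⟪u, el b i i u⟫_ℂ = ((‖⟪b i, u⟫_ℂ‖ ^ 2 : ℝ) : ℂ) := by
  rw [el_apply, inner_smul_right, ← inner_conj_symm u (b i), Complex.mul_conj,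
    Complex.normSq_eq_norm_sq]

lemma inner_sq (y : H →L[ℂ] H) (v : H) : ⟪v, (star y * y) v⟫_ℂ = ((‖y v‖ ^ 2 : ℝ) : ℂ) := by
  rw [ContinuousLinearMap.mul_apply, ContinuousLinearMap.star_eq_adjoint,
    ContinuousLinearMap.adjoint_inner_right, inner_self_eq_norm_sq_to_K]
  norm_cast

lemma Cm_form (p q r : ℕ) (y : H →L[ℂ] H) (u : H) :
    ⟪u, Cm b p q r (star y * y) u⟫_ℂ =
      (((1 / 2) * ((2 * ‖y (b 0)‖ ^ 2 + ‖y (b p)‖ ^ 2) * ‖⟪b 0, u⟫_ℂ‖ ^ 2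
        + (2 * ‖y (b 1)‖ ^ 2 + ‖y (b q)‖ ^ 2) * ‖⟪b 1, u⟫_ℂ‖ ^ 2
        + (2 * ‖y (b 2)‖ ^ 2 + ‖y (b r)‖ ^ 2) * ‖⟪b 2, u⟫_ℂ‖ ^ 2 - ‖y (EE b u)‖ ^ 2) : ℝ) : ℂ) := by
  have h1 : ⟪u, (EE b * (star y * y) * EE b) u⟫_ℂ = ((‖y (EE b u)‖ ^ 2 : ℝ) : ℂ) := by
    rw [ContinuousLinearMap.mul_apply, ContinuousLinearMap.mul_apply, ← inner_EE, inner_sq]
  rw [Cm_apply, ContinuousLinearMap.smul_apply, inner_smul_right, ContinuousLinearMap.sub_apply,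
    inner_sub_right, h1, ContinuousLinearMap.add_apply, ContinuousLinearMap.add_apply,
    inner_add_right, inner_add_right]
  simp only [ContinuousLinearMap.smul_apply, inner_smul_right, inner_el, inner_sq]
  push_cast
  ring

lemma EE_apply (u : H) : EE b u = ⟪b 0, u⟫_ℂ • b 0 + ⟪b 1, u⟫_ℂ • b 1 + ⟪b 2, u⟫_ℂ • b 2 := by
  unfold EE
  simp only [ContinuousLinearMap.add_apply, el_apply]

lemma norm_y_EE (y : H →L[ℂ] H) (u : H) : ‖y (EE b u)‖ ≤ ‖⟪b 0, u⟫_ℂ‖ * ‖y (b 0)‖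
    + ‖⟪b 1, u⟫_ℂ‖ * ‖y (b 1)‖ + ‖⟪b 2, u⟫_ℂ‖ * ‖y (b 2)‖ := by
  rw [EE_apply, map_add, map_add, map_smul, map_smul, map_smul]
  calc _ ≤ ‖⟪b 0, u⟫_ℂ • y (b 0) + ⟪b 1, u⟫_ℂ • y (b 1)‖ + ‖⟪b 2, u⟫_ℂ • y (b 2)‖ := norm_add_le _ _
    _ ≤ ‖⟪b 0, u⟫_ℂ • y (b 0)‖ + ‖⟪b 1, u⟫_ℂ • y (b 1)‖ + ‖⟪b 2, u⟫_ℂ • y (b 2)‖ := by
        gcongr; exact norm_add_le _ _
    _ = _ := by rw [norm_smul, norm_smul, norm_smul]

lemma Cm_pos_of (p q r : ℕ) (h : ∀ s0 s1 s2 : ℝ, ∀ y : H →L[ℂ] H,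
    (s0 * ‖y (b 0)‖ + s1 * ‖y (b 1)‖ + s2 * ‖y (b 2)‖) ^ 2
      ≤ (2 * ‖y (b 0)‖ ^ 2 + ‖y (b p)‖ ^ 2) * s0 ^ 2
        + (2 * ‖y (b 1)‖ ^ 2 + ‖y (b q)‖ ^ 2) * s1 ^ 2
        + (2 * ‖y (b 2)‖ ^ 2 + ‖y (b r)‖ ^ 2) * s2 ^ 2) (y : H →L[ℂ] H) :
    0 ≤ Cm b p q r (star y * y) := by
  rw [ContinuousLinearMap.nonneg_iff_isPositive, ContinuousLinearMap.isPositive_iff_complex]
  intro u
  have h1 := Cm_form b p q r y u
  have h2 := h ‖⟪b 0, u⟫_ℂ‖ ‖⟪b 1, u⟫_ℂ‖ ‖⟪b 2, u⟫_ℂ‖ y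
  have h3 := norm_y_EE b y u
  have h4 : ‖y (EE b u)‖ ^ 2 ≤ (‖⟪b 0, u⟫_ℂ‖ * ‖y (b 0)‖
    + ‖⟪b 1, u⟫_ℂ‖ * ‖y (b 1)‖ + ‖⟪b 2, u⟫_ℂ‖ * ‖y (b 2)‖) ^ 2 := by
    gcongr
  rw [← inner_conj_symm, h1]
  rw [Complex.conj_ofReal]
  have this : ∀ R : ℝ, RCLike.re ((R : ℝ) : ℂ) = R := fun R => Complex.ofReal_re R
  rw [this]
  refine ⟨rfl, ?_⟩
  linarith

/-- the map of the counterexample -/
noncomputable def TT : (H →L[ℂ] H) →ₗ[ℂ] (H →L[ℂ] H) := Cm b 2 0 1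

/-- its trace adjoint -/
noncomputable def TA : (H →L[ℂ] H) →ₗ[ℂ] (H →L[ℂ] H) := Cm b 1 2 0

lemma TA_pos (y : H →L[ℂ] H) : 0 ≤ TA b (star y * y) :=
  Cm_pos_of b 1 2 0 (fun s0 s1 s2 y => choi3 s0 s1 s2 _ _ _) y

lemma TT_pos (y : H →L[ℂ] H) : 0 ≤ TT b (star y * y) := by
  refine Cm_pos_of b 2 0 1 (fun s0 s1 s2 y => ?_) y
  have := choi3 s0 s2 s1 ‖y (b 0)‖ ‖y (b 2)‖ ‖y (b 1)‖
  linarith

lemma Cm_one (p q r : ℕ) : Cm b p q r 1 = EE b := by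
  rw [Cm_apply]
  simp only [ContinuousLinearMap.one_apply, on, if_true, mul_one]
  rw [EE_mul_EE]
  unfold EE
  module

lemma EE_le_one : EE b ≤ 1 := by
  rw [← sub_nonneg]
  have : (1 : H →L[ℂ] H) - EE b = star (1 - EE b) * (1 - EE b) := by
    rw [star_sub, star_one, EE_star, mul_sub, sub_mul, sub_mul, EE_mul_EE]
    simp
  rw [this]
  exact star_mul_self_nonneg _

lemma el_norm (i j : ℕ) : ‖el b i j‖ ≤ 1 := by
  refine ContinuousLinearMap.opNorm_le_bound _ zero_le_one fun v => ?_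
  rw [el_apply, norm_smul, b.orthonormal.1 i, mul_one, one_mul]
  calc _ ≤ ‖b j‖ * ‖v‖ := norm_inner_le_norm _ _
    _ = ‖v‖ := by rw [b.orthonormal.1 j, one_mul]

lemma ent_norm (i : ℕ) (x : H →L[ℂ] H) : ‖⟪b i, x (b i)⟫_ℂ‖ ≤ ‖x‖ := by
  calc _ ≤ ‖b i‖ * ‖x (b i)‖ := norm_inner_le_norm _ _
    _ ≤ 1 * (‖x‖ * ‖b i‖) := by
        rw [b.orthonormal.1 i]
        gcongr
        have := x.le_opNorm (b i)
        rwa [b.orthonormal.1 i] at this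
    _ = ‖x‖ := by rw [b.orthonormal.1 i]; ring

lemma Cm_bdd (p q r : ℕ) (x : H →L[ℂ] H) : ‖Cm b p q r x‖ ≤ 5 * ‖x‖ := by
  have hE : ‖EE b‖ ≤ 1 := ContinuousLinearMap.opNorm_le_bound _ zero_le_one fun v => by
    rw [one_mul]; exact EE_norm b v
  have h1 : ∀ i k j : ℕ, ‖(2 * ⟪b i, x (b i)⟫_ℂ + ⟪b k, x (b k)⟫_ℂ) • el b j j‖ ≤ 3 * ‖x‖ := by
    intro i k j
    rw [norm_smul]
    calc _ ≤ ‖2 * ⟪b i, x (b i)⟫_ℂ + ⟪b k, x (b k)⟫_ℂ‖ * 1 := by gcongr; exact el_norm b j j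
      _ ≤ ‖2 * ⟪b i, x (b i)⟫_ℂ‖ + ‖⟪b k, x (b k)⟫_ℂ‖ := by rw [mul_one]; exact norm_add_le _ _
      _ ≤ 2 * ‖x‖ + ‖x‖ := by
          rw [norm_mul]
          gcongr
          · simp
          · exact ent_norm b i x
          · exact ent_norm b k x
      _ = _ := by ring
  have h2 : ‖EE b * x * EE b‖ ≤ ‖x‖ := by
    calc _ ≤ ‖EE b * x‖ * ‖EE b‖ := norm_mul_le _ _
      _ ≤ (‖EE b‖ * ‖x‖) * ‖EE b‖ := by gcongr; exact norm_mul_le _ _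
      _ ≤ (1 * ‖x‖) * 1 := by gcongr
      _ = _ := by ring
  rw [Cm_apply, norm_smul]
  have h3 : ‖(1 / 2 : ℂ)‖ = 1 / 2 := by norm_num
  rw [h3]
  have h4 : ‖(2 * ⟪b 0, x (b 0)⟫_ℂ + ⟪b p, x (b p)⟫_ℂ) • el b 0 0
    + (2 * ⟪b 1, x (b 1)⟫_ℂ + ⟪b q, x (b q)⟫_ℂ) • el b 1 1
    + (2 * ⟪b 2, x (b 2)⟫_ℂ + ⟪b r, x (b r)⟫_ℂ) • el b 2 2 - EE b * x * EE b‖ ≤ 10 * ‖x‖ := by
    refine (norm_sub_le _ _).trans ?_
    have a1 := norm_add_le ((2 * ⟪b 0, x (b 0)⟫_ℂ + ⟪b p, x (b p)⟫_ℂ) • el b 0 0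
      + (2 * ⟪b 1, x (b 1)⟫_ℂ + ⟪b q, x (b q)⟫_ℂ) • el b 1 1)
      ((2 * ⟪b 2, x (b 2)⟫_ℂ + ⟪b r, x (b r)⟫_ℂ) • el b 2 2)
    have a2 := norm_add_le ((2 * ⟪b 0, x (b 0)⟫_ℂ + ⟪b p, x (b p)⟫_ℂ) • el b 0 0)
      ((2 * ⟪b 1, x (b 1)⟫_ℂ + ⟪b q, x (b q)⟫_ℂ) • el b 1 1)
    have := h1 0 p 0
    have := h1 1 q 1
    have := h1 2 r 2
    linarith
  linarith

lemma TT_norm (x : H →L[ℂ] H) : ‖TT b x‖ ≤ ‖x‖ :=
  RD (TT_pos b) (by unfold TT; rw [Cm_one]; exact EE_le_one b) (Cm_bdd b 2 0 1) x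

lemma TA_norm (x : H →L[ℂ] H) : ‖TA b x‖ ≤ ‖x‖ :=
  RD (TA_pos b) (by unfold TA; rw [Cm_one]; exact EE_le_one b) (Cm_bdd b 1 2 0) x

lemma Cm_corner (p q r : ℕ) (x : H →L[ℂ] H) : InC (EE b) (Cm b p q r x) := by
  constructor
  · rw [Cm_apply, mul_smul_comm, mul_sub, mul_add, mul_add, mul_smul_comm, mul_smul_comm,
      mul_smul_comm, EE_mul_el b (by norm_num), EE_mul_el b (by norm_num),
      EE_mul_el b (by norm_num), ← mul_assoc, ← mul_assoc, EE_mul_EE]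
  · rw [Cm_apply, smul_mul_assoc, sub_mul, add_mul, add_mul, smul_mul_assoc, smul_mul_assoc,
      smul_mul_assoc, el_mul_EE b (by norm_num), el_mul_EE b (by norm_num),
      el_mul_EE b (by norm_num), mul_assoc _ (EE b) (EE b), EE_mul_EE]

/-- the three dimensional trace pairing -/
noncomputable def tr3 (x : H →L[ℂ] H) : ℂ := ⟪b 0, x (b 0)⟫_ℂ + ⟪b 1, x (b 1)⟫_ℂ + ⟪b 2, x (b 2)⟫_ℂ

lemma tr_adj (g x : H →L[ℂ] H) : tr3 b (g * TT b x) = tr3 b (TA b g * x) := by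
  unfold tr3 TT TA
  have hb : ∀ {i : ℕ}, i < 3 → ∀ v : H, ⟪b i, EE b v⟫_ℂ = ⟪b i, v⟫_ℂ := by
    intro i hi v
    rw [← inner_EE, EE_basis b hi]
  simp only [ContinuousLinearMap.mul_apply, Cm_apply, ContinuousLinearMap.smul_apply,
    ContinuousLinearMap.sub_apply, ContinuousLinearMap.add_apply, map_smul, map_sub, map_add,
    inner_smul_right, inner_sub_right, inner_add_right, el_apply, on,
    EE_basis b (show 0 < 3 by norm_num), EE_basis b (show 1 < 3 by norm_num),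
    EE_basis b (show 2 < 3 by norm_num), hb (show 0 < 3 by norm_num), hb (show 1 < 3 by norm_num),
    hb (show 2 < 3 by norm_num)]
  simp
  ring

end Pool.Agent.H415R3.HS
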