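import Mathlib

set_option autoImplicit false

namespace Pool.Agent.H415R3.NP

open Complex Metric Set Filter Topology

/-- `Nr u t`: the number `u` is within `exp t - 1` of `1`. -/
def Nr (u : ℂ) (t : ℝ) : Prop := ‖u - 1‖ ≤ Real.exp t - 1

theorem Nr.nonneg {u : ℂ} {t : ℝ} (h : Nr u t) : 0 ≤ t := by
  have h0 : 0 ≤ Real.exp t - 1 := (norm_nonneg _).trans h
  have : Real.exp 0 ≤ Real.exp t := by rw [Real.exp_zero]; linarith
  exact Real.exp_le_exp.mp this

theorem Nr.mono {u : ℂ} {s t : ℝ} (h : Nr u s) (hst : s ≤ t) : Nr u t :=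
  le_trans h (by have := Real.exp_le_exp.mpr hst; linarith)

theorem Nr.one : Nr 1 0 := by simp [Nr]

theorem Nr.mul {u v : ℂ} {s t : ℝ} (hu : Nr u s) (hv : Nr v t) : Nr (u * v) (s + t) := by
  unfold Nr at *
  have e : u * v - 1 = (u - 1) * (v - 1) + (u - 1) + (v - 1) := by ring
  rw [e, Real.exp_add]
  have h1 : ‖(u - 1) * (v - 1) + (u - 1) + (v - 1)‖ ≤ ‖u - 1‖ * ‖v - 1‖ + ‖u - 1‖ + ‖v - 1‖ := by
    calc _ ≤ ‖(u - 1) * (v - 1) + (u - 1)‖ + ‖v - 1‖ := norm_add_le _ _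
      _ ≤ ‖(u - 1) * (v - 1)‖ + ‖u - 1‖ + ‖v - 1‖ := by gcongr; exact norm_add_le _ _
      _ = _ := by rw [norm_mul]
  refine h1.trans ?_
  have a := norm_nonneg (u - 1)
  have b := norm_nonneg (v - 1)
  nlinarith [mul_le_mul hu hv b (a.trans hu)]

theorem Nr.pow {u : ℂ} {s : ℝ} (hu : Nr u s) (m : ℕ) : Nr (u ^ m) (m * s) := by
  induction m with
  | zero => simpa using Nr.one
  | succ n ih =>
    rw [pow_succ]
    have := ih.mul hu
    convert this using 1
    push_cast; ring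

theorem Nr.one_sub (w : ℂ) : Nr (1 - w) ‖w‖ := by
  unfold Nr
  have : ‖1 - w - 1‖ = ‖w‖ := by
    rw [show 1 - w - 1 = -w by ring, norm_neg]
  rw [this]
  have := Real.add_one_le_exp ‖w‖
  linarith

theorem Nr.one_add (w : ℂ) : Nr (1 + w) ‖w‖ := by
  have := Nr.one_sub (-w)
  simpa using this

theorem Nr.norm_le {u : ℂ} {t : ℝ} (h : Nr u t) : ‖u‖ ≤ Real.exp t := by
  have : ‖u‖ ≤ ‖u - 1‖ + ‖(1 : ℂ)‖ := by
    calc ‖u‖ = ‖(u - 1) + 1‖ := by congr 1; ring
      _ ≤ _ := norm_add_le _ _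
  rw [norm_one] at this
  unfold Nr at h
  linarith

theorem exp_sub_one_le (t T : ℝ) (h0 : 0 ≤ t) (h : t ≤ T) : Real.exp t - 1 ≤ t * Real.exp T := by
  have h1 := Real.add_one_le_exp (-t)
  have h2 : Real.exp t * Real.exp (-t) = 1 := by rw [← Real.exp_add]; simp
  have h3 : Real.exp t ≤ Real.exp T := Real.exp_le_exp.mpr h
  have h4 := Real.exp_pos t
  nlinarith

theorem summable_exp_sub_one {t : ℕ → ℝ} (h0 : ∀ i, 0 ≤ t i) (ht : Summable t) :
    Summable (fun i => Real.exp (t i) - 1) := by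
  refine Summable.of_nonneg_of_le (fun i => ?_) (fun i => ?_) (ht.mul_right (Real.exp (∑' i, t i)))
  · have := Real.one_le_exp (h0 i); linarith
  · exact exp_sub_one_le _ _ (h0 i) (ht.le_tsum i (fun j _ => h0 j))

theorem Nr.summable {u : ℕ → ℂ} {t : ℕ → ℝ} (h : ∀ i, Nr (u i) (t i)) (ht : Summable t) :
    Summable (fun i => ‖u i - 1‖) :=
  Summable.of_nonneg_of_le (fun _ => norm_nonneg _) h
    (summable_exp_sub_one (fun i => (h i).nonneg) ht)

theorem Nr.multipliable {u : ℕ → ℂ} {t : ℕ → ℝ} (h : ∀ i, Nr (u i) (t i)) (ht : Summable t) :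
    Multipliable u := by
  have := multipliable_one_add_of_summable (Nr.summable h ht)
  simpa using this

theorem Nr.prod {u : ℕ → ℂ} {t : ℕ → ℝ} (h : ∀ i, Nr (u i) (t i)) (s : Finset ℕ) :
    Nr (∏ i ∈ s, u i) (∑ i ∈ s, t i) := by
  classical
  induction s using Finset.induction_on with
  | empty => simpa using Nr.one
  | insert a s ha ih => rw [Finset.prod_insert ha, Finset.sum_insert ha]; exact (h a).mul ih

theorem Nr.tprod {u : ℕ → ℂ} {t : ℕ → ℝ} (h : ∀ i, Nr (u i) (t i)) (ht : Summable t) :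
    Nr (∏' i, u i) (∑' i, t i) := by
  have hm := (Nr.multipliable h ht).hasProd
  have hl : Tendsto (fun s : Finset ℕ => ‖(∏ i ∈ s, u i) - 1‖) atTop (𝓝 ‖(∏' i, u i) - 1‖) :=
    ((hm : Tendsto _ _ _).sub_const 1).norm
  refine le_of_tendsto hl (Eventually.of_forall fun s => ?_)
  have h1 := Nr.prod h s
  have h2 : ∑ i ∈ s, t i ≤ ∑' i, t i := ht.sum_le_tsum s (fun i _ => (h i).nonneg)
  exact (h1.mono h2)

theorem Nr.tprod_ne_zero {u : ℕ → ℂ} {t : ℕ → ℝ} (h : ∀ i, Nr (u i) (t i)) (ht : Summable t)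
    (hu : ∀ i, u i ≠ 0) : ∏' i, u i ≠ 0 := by
  have := tprod_one_add_ne_zero_of_summable (f := fun i => u i - 1) (by simpa using hu)
    (Nr.summable h ht)
  simpa using this

/-- Norm version of the upper bound. -/
theorem tprod_norm_le {u : ℕ → ℂ} {t : ℕ → ℝ} (hm : Multipliable u) (h0 : ∀ i, 0 ≤ t i)
    (h : ∀ i, ‖u i‖ ≤ Real.exp (t i)) (ht : Summable t) :
    ‖∏' i, u i‖ ≤ Real.exp (∑' i, t i) := by
  have hh : Tendsto (fun s : Finset ℕ => (∏ i ∈ s, u i)) atTop (𝓝 (∏' i, u i)) := hm.hasProd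
  have hl : Tendsto (fun s : Finset ℕ => ‖(∏ i ∈ s, u i)‖) atTop (𝓝 ‖(∏' i, u i)‖) := hh.norm
  refine le_of_tendsto hl (Eventually.of_forall fun s => ?_)
  rw [norm_prod]
  calc ∏ i ∈ s, ‖u i‖ ≤ ∏ i ∈ s, Real.exp (t i) :=
        Finset.prod_le_prod (fun i _ => norm_nonneg _) (fun i _ => h i)
    _ = Real.exp (∑ i ∈ s, t i) := (Real.exp_sum _ _).symm
    _ ≤ _ := Real.exp_le_exp.mpr (ht.sum_le_tsum s (fun i _ => h0 i))

/-- Norm version of a lower bound. -/
theorem le_tprod_norm {u : ℕ → ℂ} (hm : Multipliable u)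
    (h : ∀ i, 1 ≤ ‖u i‖) (k : ℕ) :
    ‖u k‖ ≤ ‖∏' i, u i‖ := by
  classical
  have hh : Tendsto (fun s : Finset ℕ => (∏ i ∈ s, u i)) atTop (𝓝 (∏' i, u i)) := hm.hasProd
  have hl : Tendsto (fun s : Finset ℕ => ‖(∏ i ∈ s, u i)‖) atTop (𝓝 ‖(∏' i, u i)‖) := hh.norm
  refine ge_of_tendsto hl ?_
  filter_upwards [eventually_ge_atTop ({k} : Finset ℕ)] with s hs
  rw [norm_prod]
  have hk : k ∈ s := hs (Finset.mem_singleton_self k)
  rw [← Finset.mul_prod_erase s _ hk]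
  have : 1 ≤ ∏ i ∈ s.erase k, ‖u i‖ := by
    simpa using Finset.prod_le_prod (s := s.erase k) (f := fun _ => (1:ℝ)) (g := fun i => ‖u i‖)
      (fun i _ => zero_le_one) (fun i _ => h i)
  nlinarith [norm_nonneg (u k)]

theorem tprod_im {u : ℕ → ℂ} (hm : Multipliable u) (h : ∀ i, (u i).im = 0) :
    (∏' i, u i).im = 0 := by
  have hl : Tendsto (fun s : Finset ℕ => ((∏ i ∈ s, u i)).im) atTop (𝓝 (∏' i, u i).im) :=
    (Complex.continuous_im.tendsto _).comp (hm.hasProd : Tendsto _ _ _)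
  have hs : ∀ s : Finset ℕ, (∏ i ∈ s, u i).im = 0 := by
    classical
    intro s
    induction s using Finset.induction_on with
    | empty => simp
    | insert a s ha ih => rw [Finset.prod_insert ha, Complex.mul_im, ih, h a]; simp
  simp only [hs] at hl
  exact tendsto_nhds_unique hl tendsto_const_nhds

/-- Holomorphy of a product of blocks on a ball. -/
theorem differentiable_tprod {B : ℕ → ℂ → ℂ} (hB : ∀ i, Differentiable ℂ (B i))
    (h : ∀ R : ℝ, ∃ t : ℕ → ℝ, Summable t ∧ ∀ i, ∀ z : ℂ, ‖z‖ ≤ R → Nr (B i z) (t i)) :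
    Differentiable ℂ (fun z => ∏' i, B i z) := by
  intro z
  obtain ⟨t, ht, hN⟩ := h (‖z‖ + 1)
  have h0 : ∀ i, 0 ≤ t i := fun i => (hN i z (by linarith)).nonneg
  have hs := summable_exp_sub_one h0 ht
  have hloc := Summable.hasProdLocallyUniformlyOn_one_add (f := fun i z => B i z - 1)
    (K := ball (0:ℂ) (‖z‖ + 1)) isOpen_ball hs
    (Eventually.of_forall fun i w hw => hN i w (mem_ball_zero_iff.mp hw).le)
    (fun i => ((hB i).sub_const 1).continuous.continuousOn)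
  rw [hasProdLocallyUniformlyOn_iff_tendstoLocallyUniformlyOn] at hloc
  have hd := hloc.differentiableOn (Eventually.of_forall fun s => by
    apply DifferentiableOn.fun_finsetProd
    intro i _
    exact (((hB i).sub_const 1).const_add 1).differentiableOn) isOpen_ball
  have hz : z ∈ ball (0:ℂ) (‖z‖ + 1) := by rw [mem_ball_zero_iff]; linarith
  have := hd.differentiableAt (isOpen_ball.mem_nhds hz)
  simpa using this

end Pool.Agent.H415R3.NP
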