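import Mathlib
import Pool.Agent.H415R3.NrProd

set_option autoImplicit false

namespace Pool.Agent.H415R3.Heat

open Complex Metric Set Filter Topology Pool.Agent.H415R3.NP

noncomputable def X (i : ℕ) : ℝ := 4 ^ ((i + 1) ^ 2)
def m (i : ℕ) : ℕ := (i + 1) * 4 ^ ((i + 1) ^ 2)
noncomputable def Y (i : ℕ) : ℝ := 4 ^ ((i + 1) ^ 2 + (i + 1))
noncomputable def q (Y : ℝ) (z : ℂ) : ℂ :=
  ((z ^ 2 - ((Y : ℂ) ^ 2 - 4)) ^ 2 + 16 * (Y : ℂ) ^ 2) / ((Y : ℂ) ^ 2 + 4) ^ 2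
noncomputable def B (i : ℕ) (z : ℂ) : ℂ := (1 - z ^ 2 / (X i : ℂ) ^ 2) ^ (m i) * q (Y i) z
noncomputable def f (z : ℂ) : ℂ := ∏' i, B i z

theorem X_pos (i : ℕ) : 0 < X i := by unfold X; positivity
theorem Y_pos (i : ℕ) : 0 < Y i := by unfold Y; positivity

theorem four_le_X (i : ℕ) : 4 ≤ X i := by
  unfold X
  have : (4:ℝ) ^ 1 ≤ 4 ^ ((i + 1) ^ 2) := by
    apply pow_le_pow_right₀ (by norm_num)
    exact Nat.one_le_pow _ _ (Nat.succ_pos i)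
  simpa using this

theorem sixteen_le_Y (i : ℕ) : 16 ≤ Y i := by
  unfold Y
  have : (4:ℝ) ^ 2 ≤ 4 ^ ((i + 1) ^ 2 + (i + 1)) := by
    apply pow_le_pow_right₀ (by norm_num)
    nlinarith
  calc (16:ℝ) = 4 ^ 2 := by norm_num
    _ ≤ _ := this

theorem m_cast (i : ℕ) : ((m i : ℕ) : ℝ) = (i + 1) * X i := by
  unfold m X; push_cast; ring

theorem X_mul_le {i k : ℕ} (h : i ≤ k) : X i * 4 ^ (k + 1) ≤ Y k := by
  unfold X Y
  rw [← pow_add]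
  apply pow_le_pow_right₀ (by norm_num)
  have : (i + 1) ^ 2 ≤ (k + 1) ^ 2 := Nat.pow_le_pow_left (by omega) 2
  omega

theorem Y_mul_le_X {i k : ℕ} (h : k < i) : Y k * 4 ^ (i + 1) ≤ X i := by
  unfold X Y
  rw [← pow_add]
  apply pow_le_pow_right₀ (by norm_num)
  nlinarith

theorem Y_mul_le {i k : ℕ} (h : i < k) : Y i * 4 ^ (k + 1) ≤ Y k := by
  unfold Y
  rw [← pow_add]
  apply pow_le_pow_right₀ (by norm_num)
  nlinarith

theorem Y_ge (k : ℕ) : (4:ℝ) ^ (k + 1) ≤ Y k := by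
  unfold Y
  apply pow_le_pow_right₀ (by norm_num)
  omega

theorem four_pow_ge {a b c : ℕ} (h1 : a ≤ c) (h2 : b ≤ c) : (2:ℝ) ^ a * 2 ^ b ≤ 4 ^ c := by
  have : (4:ℝ) ^ c = 2 ^ c * 2 ^ c := by rw [← mul_pow]; norm_num
  rw [this]
  gcongr <;> norm_num

/-- the weights -/
noncomputable def wt (i : ℕ) : ℝ := (4 * (i + 1) + 8) / 2 ^ (i + 1)

theorem wt_nonneg (i : ℕ) : 0 ≤ wt i := by unfold wt; positivity

theorem wt_summable : Summable wt := by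
  have h1 : Summable (fun n : ℕ => ((n:ℝ) ^ 1 * (1 / 2 : ℝ) ^ n)) :=
    summable_pow_mul_geometric_of_norm_lt_one 1 (by norm_num)
  have h2 : Summable (fun n : ℕ => ((1 / 2 : ℝ) ^ n)) :=
    summable_geometric_of_lt_one (by norm_num) (by norm_num)
  have h3 := (h1.mul_left 2).add (h2.mul_left 6)
  refine h3.congr fun i => ?_
  unfold wt
  rw [one_div_pow, pow_succ]
  field_simp
  ring

theorem sq_gap {x y : ℝ} (hx : 0 < x) (h : 4 * x ≤ y) : y ^ 2 / 2 ≤ y ^ 2 - x ^ 2 := by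
  nlinarith

/-- estimate for real zeros -/
theorem est_real (i k : ℕ) : X i ^ 2 - Y k ^ 2 ≠ 0 ∧
    2 * Y k * (m i : ℝ) / |X i ^ 2 - Y k ^ 2| ≤ 4 * (i + 1) / 2 ^ (i + 1) / 2 ^ (k + 1) := by
  have hX := X_pos i
  have hY := Y_pos k
  rw [m_cast]
  rcases le_or_gt i k with h | h
  · have h1 := X_mul_le h
    have h4 : (4:ℝ) ≤ 4 ^ (k + 1) := by
      have : (4:ℝ) ^ 1 ≤ 4 ^ (k + 1) := pow_le_pow_right₀ (by norm_num) (by omega)
      simpa using this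
    have h2 : 4 * X i ≤ Y k := by nlinarith
    have h3 := sq_gap hX h2
    have hpos : 0 < Y k ^ 2 - X i ^ 2 := by
      have : 0 < Y k ^ 2 / 2 := by positivity
      linarith
    refine ⟨by linarith, ?_⟩
    rw [abs_sub_comm, abs_of_pos hpos]
    have h5 := four_pow_ge (a := i + 1) (b := k + 1) (c := k + 1) (by omega) le_rfl
    calc 2 * Y k * ((i + 1) * X i) / (Y k ^ 2 - X i ^ 2)
        ≤ 2 * Y k * ((i + 1) * X i) / (Y k ^ 2 / 2) := by gcongr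
      _ = 4 * (i + 1) * (X i / Y k) := by field_simp; ring
      _ ≤ 4 * (i + 1) * (1 / 4 ^ (k + 1)) := by
          have hh : X i / Y k ≤ 1 / 4 ^ (k + 1) := by
            rw [div_le_div_iff₀ hY (by positivity)]
            linarith
          exact mul_le_mul_of_nonneg_left hh (by positivity)
      _ ≤ 4 * (i + 1) * (1 / (2 ^ (i + 1) * 2 ^ (k + 1))) := by gcongr
      _ = _ := by field_simp
  · have h1 := Y_mul_le_X h
    have h4 : (4:ℝ) ≤ 4 ^ (i + 1) := by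
      have : (4:ℝ) ^ 1 ≤ 4 ^ (i + 1) := pow_le_pow_right₀ (by norm_num) (by omega)
      simpa using this
    have h2 : 4 * Y k ≤ X i := by nlinarith
    have h3 := sq_gap hY h2
    have hpos : 0 < X i ^ 2 - Y k ^ 2 := by
      have : 0 < X i ^ 2 / 2 := by positivity
      linarith
    refine ⟨hpos.ne', ?_⟩
    rw [abs_of_pos hpos]
    have h5 := four_pow_ge (a := i + 1) (b := k + 1) (c := i + 1) le_rfl (by omega)
    calc 2 * Y k * ((i + 1) * X i) / (X i ^ 2 - Y k ^ 2)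
        ≤ 2 * Y k * ((i + 1) * X i) / (X i ^ 2 / 2) := by gcongr
      _ = 4 * (i + 1) * (Y k / X i) := by field_simp; ring
      _ ≤ 4 * (i + 1) * (1 / 4 ^ (i + 1)) := by
          have hh : Y k / X i ≤ 1 / 4 ^ (i + 1) := by
            rw [div_le_div_iff₀ hX (by positivity)]
            linarith
          exact mul_le_mul_of_nonneg_left hh (by positivity)
      _ ≤ 4 * (i + 1) * (1 / (2 ^ (i + 1) * 2 ^ (k + 1))) := by gcongr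
      _ = _ := by field_simp

/-- estimate for pairs -/
theorem est_pair (i k : ℕ) (hik : i ≠ k) : Y i ^ 2 + 4 - Y k ^ 2 ≠ 0 ∧
    2 * Y k * 2 / |Y i ^ 2 + 4 - Y k ^ 2| ≤ 8 / 2 ^ (i + 1) / 2 ^ (k + 1) := by
  have hYi := Y_pos i
  have hY := Y_pos k
  have hi16 := sixteen_le_Y i
  have hk16 := sixteen_le_Y k
  rcases lt_or_gt_of_ne hik with h | h
  · have h1 := Y_mul_le h
    have h4 : (16:ℝ) ≤ 4 ^ (k + 1) := by
      have : (4:ℝ) ^ 2 ≤ 4 ^ (k + 1) := pow_le_pow_right₀ (by norm_num) (by omega)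
      norm_num at this ⊢
      linarith
    have h2 : 16 * Y i ≤ Y k := by nlinarith
    have hgap : Y k ^ 2 / 2 ≤ Y k ^ 2 - (Y i ^ 2 + 4) := by nlinarith
    have hpos : 0 < Y k ^ 2 - (Y i ^ 2 + 4) := by
      have : 0 < Y k ^ 2 / 2 := by positivity
      linarith
    refine ⟨by linarith, ?_⟩
    rw [abs_sub_comm, abs_of_pos hpos]
    have h5 := four_pow_ge (a := i + 1) (b := k + 1) (c := k + 1) (by omega) le_rfl
    have h6 := Y_ge k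
    calc 2 * Y k * 2 / (Y k ^ 2 - (Y i ^ 2 + 4))
        ≤ 2 * Y k * 2 / (Y k ^ 2 / 2) := by gcongr
      _ = 8 * (1 / Y k) := by field_simp; ring
      _ ≤ 8 * (1 / (2 ^ (i + 1) * 2 ^ (k + 1))) := by
          gcongr
          linarith
      _ = _ := by field_simp
  · have h1 := Y_mul_le h
    have h4 : (16:ℝ) ≤ 4 ^ (i + 1) := by
      have : (4:ℝ) ^ 2 ≤ 4 ^ (i + 1) := pow_le_pow_right₀ (by norm_num) (by omega)
      norm_num at this ⊢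
      linarith
    have h2 : 16 * Y k ≤ Y i := by nlinarith
    have hgap : Y i ^ 2 / 2 ≤ Y i ^ 2 + 4 - Y k ^ 2 := by nlinarith
    have hpos : 0 < Y i ^ 2 + 4 - Y k ^ 2 := by
      have : 0 < Y i ^ 2 / 2 := by positivity
      linarith
    refine ⟨hpos.ne', ?_⟩
    rw [abs_of_pos hpos]
    have h5 := four_pow_ge (a := i + 1) (b := k + 1) (c := i + 1) le_rfl (by omega)
    have h6 := Y_ge i
    calc 2 * Y k * 2 / (Y i ^ 2 + 4 - Y k ^ 2)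
        ≤ 2 * Y k * 2 / (Y i ^ 2 / 2) := by gcongr
      _ = 8 * (Y k / Y i) * (1 / Y i) := by field_simp; ring
      _ ≤ 8 * 1 * (1 / (2 ^ (i + 1) * 2 ^ (k + 1))) := by
          have : Y k / Y i ≤ 1 := by rw [div_le_one hYi]; linarith
          gcongr
          linarith
      _ = _ := by field_simp

/-- multiplicative shift of the real factor -/
theorem real_shift (i : ℕ) (y : ℝ) (hy : X i ^ 2 - y ^ 2 ≠ 0) (z : ℂ) :
    ∃ u : ℂ, Nr u ((m i : ℝ) * (‖z ^ 2 - (y : ℂ) ^ 2‖ / |X i ^ 2 - y ^ 2|)) ∧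
      (1 - z ^ 2 / (X i : ℂ) ^ 2) ^ (m i) = (1 - (y : ℂ) ^ 2 / (X i : ℂ) ^ 2) ^ (m i) * u := by
  have hX : (X i : ℂ) ≠ 0 := by exact_mod_cast (X_pos i).ne'
  have hyc : ((X i : ℂ) ^ 2 - (y : ℂ) ^ 2) ≠ 0 := by exact_mod_cast hy
  refine ⟨(1 - (z ^ 2 - (y : ℂ) ^ 2) / ((X i : ℂ) ^ 2 - (y : ℂ) ^ 2)) ^ (m i), ?_, ?_⟩
  · have h := (Nr.one_sub ((z ^ 2 - (y : ℂ) ^ 2) / ((X i : ℂ) ^ 2 - (y : ℂ) ^ 2))).pow (m i)
    convert h using 3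
    rw [norm_div]
    congr 1
    rw [← Complex.ofReal_pow, ← Complex.ofReal_pow, ← Complex.ofReal_sub, Complex.norm_real,
      Real.norm_eq_abs]
  · rw [← mul_pow]
    congr 1
    field_simp
    ring

theorem norm_c (Y : ℝ) (s : ℝ) (hs : s ^ 2 = 4) :
    ‖((Y : ℂ) + s * I) ^ 2‖ = Y ^ 2 + 4 := by
  rw [norm_pow, ← Complex.normSq_eq_norm_sq, Complex.normSq_apply]
  simp
  nlinarith

theorem q_eq (Y : ℝ) (z : ℂ) : q Y z =
    ((((Y : ℂ) + ((2 : ℝ) : ℂ) * I) ^ 2 - z ^ 2) * (((Y : ℂ) + ((-2 : ℝ) : ℂ) * I) ^ 2 - z ^ 2))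
      / ((Y : ℂ) ^ 2 + 4) ^ 2 := by
  unfold q
  congr 1
  push_cast
  linear_combination (16 * (1 - I ^ 2) + 8 * (z ^ 2 + (Y : ℂ) ^ 2)) * Complex.I_sq

/-- multiplicative shift of the pair factor -/
theorem pair_shift (Y : ℝ) (y : ℝ) (hy : Y ^ 2 + 4 - y ^ 2 ≠ 0) (z : ℂ) :
    ∃ u : ℂ, Nr u (2 * (‖z ^ 2 - (y : ℂ) ^ 2‖ / |Y ^ 2 + 4 - y ^ 2|)) ∧
      q Y z = q Y y * u := by
  set c₁ : ℂ := ((Y : ℂ) + ((2 : ℝ) : ℂ) * I) ^ 2 with hc₁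
  set c₂ : ℂ := ((Y : ℂ) + ((-2 : ℝ) : ℂ) * I) ^ 2 with hc₂
  have n1 : |Y ^ 2 + 4 - y ^ 2| ≤ ‖c₁ - (y : ℂ) ^ 2‖ := by
    have h := abs_norm_sub_norm_le c₁ ((y : ℂ) ^ 2)
    rw [norm_c Y 2 (by norm_num), norm_pow, Complex.norm_real, Real.norm_eq_abs, sq_abs] at h
    exact h
  have n2 : |Y ^ 2 + 4 - y ^ 2| ≤ ‖c₂ - (y : ℂ) ^ 2‖ := by
    have h := abs_norm_sub_norm_le c₂ ((y : ℂ) ^ 2)
    rw [norm_c Y (-2) (by norm_num), norm_pow, Complex.norm_real, Real.norm_eq_abs, sq_abs] at h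
    exact h
  have hpos : 0 < |Y ^ 2 + 4 - y ^ 2| := abs_pos.mpr hy
  have d1 : c₁ - (y : ℂ) ^ 2 ≠ 0 := norm_pos_iff.mp (hpos.trans_le n1)
  have d2 : c₂ - (y : ℂ) ^ 2 ≠ 0 := norm_pos_iff.mp (hpos.trans_le n2)
  have hYY : ((Y : ℂ) ^ 2 + 4) ≠ 0 := by
    have : (Y ^ 2 + 4 : ℝ) ≠ 0 := by positivity
    exact_mod_cast this
  refine ⟨(1 - (z ^ 2 - (y : ℂ) ^ 2) / (c₁ - (y : ℂ) ^ 2)) *
    (1 - (z ^ 2 - (y : ℂ) ^ 2) / (c₂ - (y : ℂ) ^ 2)), ?_, ?_⟩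
  · have h := (Nr.one_sub ((z ^ 2 - (y : ℂ) ^ 2) / (c₁ - (y : ℂ) ^ 2))).mul
      (Nr.one_sub ((z ^ 2 - (y : ℂ) ^ 2) / (c₂ - (y : ℂ) ^ 2)))
    refine h.mono ?_
    rw [norm_div, norm_div]
    have a1 : ‖z ^ 2 - (y : ℂ) ^ 2‖ / ‖c₁ - (y : ℂ) ^ 2‖ ≤
      ‖z ^ 2 - (y : ℂ) ^ 2‖ / |Y ^ 2 + 4 - y ^ 2| := by gcongr
    have a2 : ‖z ^ 2 - (y : ℂ) ^ 2‖ / ‖c₂ - (y : ℂ) ^ 2‖ ≤
      ‖z ^ 2 - (y : ℂ) ^ 2‖ / |Y ^ 2 + 4 - y ^ 2| := by gcongr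
    linarith
  · rw [q_eq, q_eq]
    rw [← hc₁, ← hc₂]
    field_simp
    ring

end Pool.Agent.H415R3.Heat
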