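import Mathlib

set_option autoImplicit false

namespace Pool.Agent.H415R3.Heat

open Complex Metric Set Filter Topology

theorem fact_two_mul_le (j : ℕ) : (Nat.factorial (2 * j)) ≤ 4 ^ j * (Nat.factorial j) ^ 2 := by
  induction j with
  | zero => simp
  | succ n ih =>
    have e : 2 * (n + 1) = (2 * n + 1) + 1 := by ring
    rw [e, Nat.factorial_succ, Nat.factorial_succ, Nat.factorial_succ]
    calc (2 * n + 1 + 1) * ((2 * n + 1) * Nat.factorial (2 * n))
        ≤ (2 * n + 2) * ((2 * n + 2) * (4 ^ n * (Nat.factorial n) ^ 2)) := by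
          gcongr; omega
      _ = 4 ^ (n + 1) * ((n + 1) * Nat.factorial n) ^ 2 := by ring

theorem fact_quot_le (j : ℕ) :
    ((Nat.factorial (2 * j) : ℕ) : ℝ) ≤ 4 ^ j * (j + 1 : ℝ) ^ j * ((Nat.factorial j : ℕ) : ℝ) := by
  have h1 := fact_two_mul_le j
  have h2 : (Nat.factorial j) ≤ (j + 1) ^ j :=
    (Nat.factorial_le_pow j).trans (Nat.pow_le_pow_left (by omega) j)
  have h3 : Nat.factorial (2 * j) ≤ 4 ^ j * (j + 1) ^ j * Nat.factorial j := by
    calc Nat.factorial (2 * j) ≤ 4 ^ j * (Nat.factorial j) ^ 2 := h1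
      _ = 4 ^ j * Nat.factorial j * Nat.factorial j := by ring
      _ ≤ 4 ^ j * (j + 1) ^ j * Nat.factorial j := by gcongr
  exact_mod_cast h3

theorem heat_term_bound (D : ℂ → ℂ) (hD : Differentiable ℂ D) (δ : ℝ) (hδ : 0 ≤ δ)
    (hb : ∀ z, ‖D z‖ ≤ δ * Real.exp (‖z‖ ^ 2 / 100)) (j : ℕ) (z : ℂ) (hz : ‖z‖ ≤ 2) :
    ‖(-(((3 / 2 : ℝ)) : ℂ)) ^ j / ((Nat.factorial j : ℕ) : ℂ) * iteratedDeriv (2 * j) D z‖
      ≤ 2 * δ * (1 / 2) ^ j := by
  set r : ℝ := Real.sqrt (24 * (j + 1)) with hr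
  have hr0 : 0 < r := Real.sqrt_pos.mpr (by positivity)
  have hr2 : r ^ 2 = 24 * (j + 1) := Real.sq_sqrt (by positivity)
  have hC : ∀ w ∈ sphere z r, ‖D w‖ ≤ δ * (2 * 2 ^ j) := by
    intro w hw
    have hwr : ‖w - z‖ = r := by simpa [mem_sphere_iff_norm] using hw
    have hw1 : ‖w‖ ≤ 2 + r := by
      calc ‖w‖ = ‖(w - z) + z‖ := by congr 1; ring
        _ ≤ ‖w - z‖ + ‖z‖ := norm_add_le _ _
        _ ≤ 2 + r := by rw [hwr]; linarith
    have hw2 : ‖w‖ ^ 2 ≤ 56 + 48 * j := by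
      have h0 := norm_nonneg w
      have : ‖w‖ ^ 2 ≤ (2 + r) ^ 2 := by gcongr
      nlinarith [sq_nonneg (2 - r)]
    refine (hb w).trans ?_
    gcongr
    have e1 : Real.exp (‖w‖ ^ 2 / 100) ≤ Real.exp (56 / 100 + (j : ℝ) * (48 / 100)) := by
      apply Real.exp_le_exp.mpr; linarith
    refine e1.trans ?_
    rw [Real.exp_add, Real.exp_nat_mul]
    have l2 := Real.exp_log (show (0:ℝ) < 2 by norm_num)
    have l2' := Real.log_two_gt_d9
    have a1 : Real.exp (56 / 100) ≤ 2 := by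
      rw [← l2]; apply Real.exp_le_exp.mpr; linarith
    have a2 : Real.exp (48 / 100) ≤ 2 := by
      rw [← l2]; apply Real.exp_le_exp.mpr; linarith
    gcongr
  have key := Complex.norm_iteratedDeriv_le_of_forall_mem_sphere_norm_le (2 * j) hr0
    (hD.diffContOnCl) hC
  have hrp : r ^ (2 * j) = (24 * (j + 1 : ℝ)) ^ j := by rw [pow_mul, hr2]
  rw [hrp] at key
  have hjf : (0 : ℝ) < ((Nat.factorial j : ℕ) : ℝ) := by exact_mod_cast Nat.factorial_pos j
  have hn : ‖(-(((3 / 2 : ℝ)) : ℂ)) ^ j / ((Nat.factorial j : ℕ) : ℂ)‖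
      = (3 / 2) ^ j / ((Nat.factorial j : ℕ) : ℝ) := by
    rw [norm_div, norm_pow, norm_neg, Complex.norm_real, Complex.norm_natCast,
      Real.norm_of_nonneg (by norm_num)]
  rw [norm_mul, hn]
  have hfq := fact_quot_le j
  have hp : (0:ℝ) < (24 * (j + 1 : ℝ)) ^ j := by positivity
  calc (3 / 2) ^ j / ((Nat.factorial j : ℕ) : ℝ) * ‖iteratedDeriv (2 * j) D z‖
      ≤ (3 / 2) ^ j / ((Nat.factorial j : ℕ) : ℝ) *
        (((Nat.factorial (2 * j) : ℕ) : ℝ) * (δ * (2 * 2 ^ j)) / (24 * (j + 1 : ℝ)) ^ j) := by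
        gcongr
    _ ≤ (3 / 2) ^ j / ((Nat.factorial j : ℕ) : ℝ) *
        ((4 ^ j * (j + 1 : ℝ) ^ j * ((Nat.factorial j : ℕ) : ℝ)) * (δ * (2 * 2 ^ j))
          / (24 * (j + 1 : ℝ)) ^ j) := by
        gcongr
    _ = 2 * δ * (1 / 2) ^ j := by
        have h24 : (24 : ℝ) ^ j = (3/2) ^ j * 4 ^ j * 2 ^ j * 2 ^ j := by
          rw [← mul_pow, ← mul_pow, ← mul_pow]; norm_num
        have hj1 : (0:ℝ) < (j + 1 : ℝ) ^ j := by positivity
        rw [mul_pow, h24, one_div_pow]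
        field_simp

theorem iterDeriv_quad (k : ℕ) (z : ℂ) : iteratedDeriv (2 * k) (fun z : ℂ => z ^ 2 + 4) z
    = if k = 0 then z ^ 2 + 4 else if k = 1 then 2 else 0 := by
  have d1 : deriv (fun z : ℂ => z ^ 2 + 4) = fun z => 2 * z := by
    funext z; simp
  have d2 : deriv (fun z : ℂ => 2 * z) = fun _ => 2 := by
    funext z
    simpa using ((hasDerivAt_id z).const_mul 2).deriv
  have d3 : deriv (fun _ : ℂ => (2:ℂ)) = fun _ => 0 := by
    funext z; simp
  have d4 : ∀ n : ℕ, iteratedDeriv n (fun _ : ℂ => (0:ℂ)) = fun _ => 0 := by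
    intro n
    induction n with
    | zero => funext z; simp
    | succ n ih => rw [iteratedDeriv_succ, ih]; funext z; simp
  match k with
  | 0 => simp
  | 1 =>
    rw [show 2 * 1 = 1 + 1 by norm_num, iteratedDeriv_succ', d1, iteratedDeriv_one, d2]
    simp
  | (n + 2) =>
    rw [show 2 * (n + 2) = (2 * n + 1) + 1 + 1 + 1 by ring, iteratedDeriv_succ',
      iteratedDeriv_succ', iteratedDeriv_succ', d1, d2, d3, d4]
    simp

theorem heat_quad (z : ℂ) :
    HasSum (fun k : ℕ => (-(((3 / 2 : ℝ)) : ℂ)) ^ k / ((Nat.factorial k : ℕ) : ℂ) *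
      iteratedDeriv (2 * k) (fun z : ℂ => z ^ 2 + 4) z) (z ^ 2 + 1) := by
  have h : ∀ k ∉ ({0, 1} : Finset ℕ), (-(((3 / 2 : ℝ)) : ℂ)) ^ k / ((Nat.factorial k : ℕ) : ℂ) *
      iteratedDeriv (2 * k) (fun z : ℂ => z ^ 2 + 4) z = 0 := by
    intro k hk
    rw [iterDeriv_quad]
    simp at hk
    simp [hk.1, hk.2]
  have := hasSum_sum_of_ne_finset_zero (f := fun k : ℕ => (-(((3 / 2 : ℝ)) : ℂ)) ^ k /
      ((Nat.factorial k : ℕ) : ℂ) * iteratedDeriv (2 * k) (fun z : ℂ => z ^ 2 + 4) z)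
      (L := SummationFilter.unconditional ℕ) h
  convert this using 1
  rw [Finset.sum_pair (by norm_num), iterDeriv_quad, iterDeriv_quad]
  simp
  ring

/-- The local statement: an entire function close to `z^2+4` (with a weak gaussian weight) has a
heat evolution (time `3/2`) with a zero in the disc of radius `1/2` around `I`. -/
theorem heat_zero (F : ℂ → ℂ) (hF : Differentiable ℂ F)
    (hb : ∀ z, ‖F z - (z ^ 2 + 4)‖ ≤ (1 / 32) * Real.exp (‖z‖ ^ 2 / 100)) (G : ℂ → ℂ)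
    (hG : ∀ z, G z = ∑' k : ℕ, (-(((3 / 2 : ℝ)) : ℂ)) ^ k / ((Nat.factorial k : ℕ) : ℂ) *
      iteratedDeriv (2 * k) F z) :
    ∃ z : ℂ, ‖z - I‖ ≤ 1 / 2 ∧ G z = 0 := by
  set D : ℂ → ℂ := fun z => F z - (z ^ 2 + 4) with hDdef
  have hq : Differentiable ℂ (fun z : ℂ => z ^ 2 + 4) := by fun_prop
  have hD : Differentiable ℂ D := hF.sub hq
  set T : ℕ → ℂ → ℂ := fun k z => (-(((3 / 2 : ℝ)) : ℂ)) ^ k / ((Nat.factorial k : ℕ) : ℂ) *
      iteratedDeriv (2 * k) D z with hT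
  have hTb : ∀ k : ℕ, ∀ z : ℂ, ‖z‖ ≤ 2 → ‖T k z‖ ≤ 2 * (1 / 32) * (1 / 2) ^ k := fun k z hz =>
    heat_term_bound D hD (1 / 32) (by norm_num) hb k z hz
  have hsum : Summable (fun k : ℕ => (2 * (1 / 32) * (1 / 2) ^ k : ℝ)) :=
    (summable_geometric_of_lt_one (by norm_num) (by norm_num)).mul_left _
  have hsumv : ∑' k : ℕ, (2 * (1 / 32) * (1 / 2) ^ k : ℝ) = 1 / 8 := by
    rw [tsum_mul_left, tsum_geometric_of_lt_one (by norm_num) (by norm_num)]; norm_num
  set E : ℂ → ℂ := fun z => ∑' k, T k z with hE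
  have hTs : ∀ z : ℂ, ‖z‖ ≤ 2 → Summable (fun k => T k z) := fun z hz =>
    Summable.of_norm_bounded hsum (fun k => hTb k z hz)
  have hEb : ∀ z : ℂ, ‖z‖ ≤ 2 → ‖E z‖ ≤ 1 / 8 := by
    intro z hz
    rw [← hsumv]
    exact tsum_of_norm_bounded hsum.hasSum (fun k => hTb k z hz)
  have hDk : ∀ n, Differentiable ℂ (iteratedDeriv n D) := by
    intro n
    exact (hD.contDiff (n := ⊤)).differentiable_iteratedDeriv n (by exact WithTop.coe_lt_top _)
  have hEd : DifferentiableOn ℂ E (ball 0 2) := by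
    apply differentiableOn_tsum_of_summable_norm hsum _ isOpen_ball
    · intro k w hw
      exact hTb k w (by simpa using (mem_ball_zero_iff.mp hw).le)
    · intro k
      exact ((hDk (2 * k)).const_mul _).differentiableOn
  have hFD : ∀ k z, iteratedDeriv k F z = iteratedDeriv k D z
      + iteratedDeriv k (fun z : ℂ => z ^ 2 + 4) z := by
    intro k z
    have : F = D + (fun z : ℂ => z ^ 2 + 4) := by
      funext z; simp [hDdef]
    conv_lhs => rw [this]
    exact iteratedDeriv_add ((hD.contDiff).contDiffAt) ((hq.contDiff).contDiffAt)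
  have hGE : ∀ z : ℂ, ‖z‖ ≤ 2 → G z = E z + (z ^ 2 + 1) := by
    intro z hz
    rw [hG z]
    have h1 := (hTs z hz).hasSum.add (heat_quad z)
    rw [← h1.tsum_eq]
    congr 1
    funext k
    rw [hFD, hT]
    ring
  -- zero
  have hsub : closedBall I (1 / 2 : ℝ) ⊆ ball (0 : ℂ) 2 := by
    intro z hz
    have h1 : ‖z - I‖ ≤ 1 / 2 := by simpa [dist_eq_norm] using hz
    have h2 : ‖z‖ ≤ ‖z - I‖ + ‖I‖ := by
      calc ‖z‖ = ‖(z - I) + I‖ := by congr 1; ring
        _ ≤ _ := norm_add_le _ _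
    rw [Complex.norm_I] at h2
    rw [mem_ball_zero_iff]; linarith
  have hGd : DiffContOnCl ℂ G (ball I (1 / 2 : ℝ)) := by
    have hG2 : DifferentiableOn ℂ G (ball 0 2) := by
      have : DifferentiableOn ℂ (fun z => E z + (z ^ 2 + 1)) (ball 0 2) :=
        hEd.add (by fun_prop)
      exact this.congr (fun z hz => hGE z (mem_ball_zero_iff.mp hz).le)
    apply DifferentiableOn.diffContOnCl
    rw [closure_ball _ (by norm_num)]
    exact hG2.mono hsub
  have hI2 : ‖(I : ℂ)‖ ≤ 2 := by rw [Complex.norm_I]; norm_num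
  have hGI : G I = E I := by
    rw [hGE I hI2]; simp
  have hsph : ∀ z ∈ sphere I (1 / 2 : ℝ), (1 / 2 : ℝ) ≤ ‖G z - G I‖ := by
    intro z hz
    have hz1 : ‖z - I‖ = 1 / 2 := by simpa [mem_sphere_iff_norm] using hz
    have hz2 : ‖z‖ ≤ 2 := (mem_ball_zero_iff.mp (hsub (sphere_subset_closedBall hz))).le
    rw [hGE z hz2, hGI]
    have h3 : ‖z ^ 2 + 1‖ ≥ 3 / 4 := by
      have : z ^ 2 + 1 = (z - I) * (z + I) := by
        linear_combination Complex.I_sq
      rw [this, norm_mul, hz1]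
      have h4 : ‖z + I‖ ≥ 3 / 2 := by
        have h5 : ‖(2 * I : ℂ)‖ ≤ ‖z + I‖ + ‖z - I‖ := by
          calc ‖(2 * I : ℂ)‖ = ‖(z + I) - (z - I)‖ := by congr 1; ring
            _ ≤ _ := norm_sub_le _ _
        rw [norm_mul, Complex.norm_I, hz1] at h5
        norm_num at h5
        linarith
      linarith
    have h6 := hEb z hz2
    have h7 := hEb I hI2
    have h8 : ‖z ^ 2 + 1‖ ≤ ‖E z + (z ^ 2 + 1) - E I‖ + ‖E z‖ + ‖E I‖ := by
      calc ‖z ^ 2 + 1‖ = ‖(E z + (z ^ 2 + 1) - E I) - E z + E I‖ := by congr 1; ring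
        _ ≤ ‖(E z + (z ^ 2 + 1) - E I) - E z‖ + ‖E I‖ := norm_add_le _ _
        _ ≤ _ := by gcongr; exact norm_sub_le _ _
    linarith
  have hfr : ∃ᶠ z in 𝓝 (I : ℂ), G z ≠ G I := by
    -- otherwise G is locally constant, hence constant on the ball
    rw [Filter.Frequently]
    intro hcon
    have hev : ∀ᶠ z in 𝓝 (I : ℂ), G z = G I := by
      filter_upwards [hcon] with z hz
      by_contra h; exact hz h
    have hGa : AnalyticOnNhd ℂ G (ball 0 2) := by
      have hG2 : DifferentiableOn ℂ G (ball 0 2) := by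
        have : DifferentiableOn ℂ (fun z => E z + (z ^ 2 + 1)) (ball 0 2) :=
          hEd.add (by fun_prop)
        exact this.congr (fun z hz => hGE z (mem_ball_zero_iff.mp hz).le)
      exact hG2.analyticOnNhd isOpen_ball
    have hca : AnalyticOnNhd ℂ (fun _ : ℂ => G I) (ball 0 2) := fun z _ => analyticAt_const
    have heq := hGa.eqOn_of_preconnected_of_eventuallyEq hca
      (convex_ball (0:ℂ) 2).isPreconnected (mem_ball_zero_iff.mpr (by rw [Complex.norm_I]; norm_num))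
      hev
    have hs : (I + (1/2 : ℝ)) ∈ sphere I (1 / 2 : ℝ) := by
      rw [mem_sphere_iff_norm]
      have : I + ((1/2 : ℝ) : ℂ) - I = ((1/2 : ℝ) : ℂ) := by ring
      rw [this, Complex.norm_real]; norm_num
    have h9 := hsph _ hs
    have h10 := heq (hsub (sphere_subset_closedBall hs))
    simp only at h10
    rw [h10] at h9
    simp at h9
    norm_num at h9
  have himg := DiffContOnCl.ball_subset_image_closedBall hGd (by norm_num) hsph hfr
  have h0 : (0 : ℂ) ∈ ball (G I) (1 / 2 / 2 : ℝ) := by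
    rw [mem_ball_iff_norm, zero_sub, norm_neg, hGI]
    have := hEb I hI2
    linarith
  obtain ⟨z, hz, hz0⟩ := himg h0
  exact ⟨z, by simpa [dist_eq_norm] using hz, hz0⟩

end Pool.Agent.H415R3.Heat
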