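import Mathlib
import Pool.Agent.H415R3.HeatF
import Pool.Agent.H415R3.HeatLocal

set_option autoImplicit false

namespace Pool.Agent.H415R3.Heat

open Complex Metric Set Filter Topology Pool.Agent.H415R3.NP

theorem q_zero (Y : ℝ) : q Y 0 = 1 := by
  unfold q
  have : ((Y : ℂ) ^ 2 + 4) ≠ 0 := by
    have : (Y ^ 2 + 4 : ℝ) ≠ 0 := by positivity
    exact_mod_cast this
  field_simp
  ring

theorem four_pow_le_X (i : ℕ) : (4 : ℝ) ^ (i + 1) ≤ X i := by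
  unfold X
  apply pow_le_pow_right₀ (by norm_num)
  nlinarith

theorem B_nr (i : ℕ) (z : ℂ) : Nr (B i z) (‖z‖ ^ 2 * wt i) := by
  obtain ⟨u, hu, hu'⟩ := real_shift i 0 (by have := X_pos i; simpa using this.ne') z
  obtain ⟨v, hv, hv'⟩ := pair_shift (Y i) 0 (by
    have : 0 < Y i ^ 2 + 4 := by positivity
    simpa using this.ne') z
  have e : B i z = u * v := by
    have h1 : ((0:ℝ):ℂ) = 0 := by simp
    unfold B
    rw [hu', hv', h1, q_zero]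
    simp
  rw [e]
  refine (hu.mul hv).mono ?_
  have hX := X_pos i
  have hY := Y_pos i
  have h2 : ((0:ℝ):ℂ) ^ 2 = 0 := by simp
  rw [h2, sub_zero, norm_pow, m_cast]
  have h3 : X i ^ 2 - (0:ℝ) ^ 2 = X i ^ 2 := by ring
  have h4 : Y i ^ 2 + 4 - (0:ℝ) ^ 2 = Y i ^ 2 + 4 := by ring
  rw [h3, h4, abs_of_pos (by positivity), abs_of_pos (by positivity)]
  have h5 : (2:ℝ) ^ (i + 1) ≤ X i := by
    refine le_trans ?_ (four_pow_le_X i)
    gcongr; norm_num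
  have h6 : (2:ℝ) ^ (i + 1) ≤ Y i := by
    refine le_trans ?_ (Y_ge i)
    gcongr; norm_num
  have h16 := sixteen_le_Y i
  have a1 : ((i:ℝ) + 1) * X i * (‖z‖ ^ 2 / X i ^ 2) ≤ ‖z‖ ^ 2 * ((i + 1) / 2 ^ (i + 1)) := by
    calc ((i:ℝ) + 1) * X i * (‖z‖ ^ 2 / X i ^ 2) = ‖z‖ ^ 2 * ((i + 1) / X i) := by
          field_simp
      _ ≤ _ := by gcongr
  have a2 : 2 * (‖z‖ ^ 2 / (Y i ^ 2 + 4)) ≤ ‖z‖ ^ 2 * (2 / 2 ^ (i + 1)) := by
    calc 2 * (‖z‖ ^ 2 / (Y i ^ 2 + 4)) = ‖z‖ ^ 2 * (2 / (Y i ^ 2 + 4)) := by ring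
      _ ≤ _ := by
        gcongr
        nlinarith
  refine (add_le_add a1 a2).trans ?_
  rw [← mul_add]
  gcongr
  unfold wt
  rw [← add_div]
  have : (0:ℝ) ≤ i := Nat.cast_nonneg i
  apply div_le_div_of_nonneg_right _ (by positivity)
  linarith

theorem wtz_summable (R : ℝ) : Summable (fun i => R * wt i) := wt_summable.mul_left R

theorem B_multipliable (z : ℂ) : Multipliable (fun i => B i z) :=
  Nr.multipliable (fun i => B_nr i z) (wtz_summable _)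

theorem B_diff (i : ℕ) : Differentiable ℂ (B i) := by
  unfold B q
  fun_prop

theorem f_diff : Differentiable ℂ f := by
  apply differentiable_tprod B_diff
  intro R
  refine ⟨fun i => R ^ 2 * wt i, wtz_summable _, fun i z hz => (B_nr i z).mono ?_⟩
  have := wt_nonneg i
  show ‖z‖ ^ 2 * wt i ≤ R ^ 2 * wt i
  gcongr

theorem f_even (z : ℂ) : f (-z) = f z := by
  unfold f
  congr 1
  funext i
  unfold B q
  rw [neg_sq]

theorem B_real (i : ℕ) (x : ℝ) : (B i (x : ℂ)).im = 0 := by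
  have : B i (x : ℂ) = (((1 - x ^ 2 / (X i) ^ 2) ^ (m i) *
    (((x ^ 2 - ((Y i) ^ 2 - 4)) ^ 2 + 16 * (Y i) ^ 2) / ((Y i) ^ 2 + 4) ^ 2) : ℝ) : ℂ) := by
    unfold B q
    push_cast
    rfl
  rw [this, Complex.ofReal_im]

theorem f_real (x : ℝ) : (f (x : ℂ)).im = 0 :=
  tprod_im (B_multipliable _) (fun i => B_real i x)

theorem q_ne_zero_of (Y : ℝ) (z : ℂ) (hz : 3 ≤ |z.im|) : q Y z ≠ 0 := by
  intro h
  have hYY : ((Y : ℂ) ^ 2 + 4) ^ 2 ≠ 0 := by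
    have : ((Y ^ 2 + 4) ^ 2 : ℝ) ≠ 0 := by positivity
    exact_mod_cast this
  unfold q at h
  rw [div_eq_zero_iff] at h
  rcases h with h | h
  · have e : (z ^ 2 - ((Y : ℂ) ^ 2 - 4)) ^ 2 + 16 * (Y : ℂ) ^ 2 =
      (z - Y - 2 * I) * (z - Y + 2 * I) * ((z + Y - 2 * I) * (z + Y + 2 * I)) := by
      linear_combination (16 * (1 - I ^ 2) + 8 * (z ^ 2 + (Y : ℂ) ^ 2)) * Complex.I_sq
    rw [e] at h
    have cases : z - Y - 2 * I = 0 ∨ z - Y + 2 * I = 0 ∨ z + Y - 2 * I = 0 ∨ z + Y + 2 * I = 0 := by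
      rcases mul_eq_zero.mp h with h | h
      · rcases mul_eq_zero.mp h with h | h <;> tauto
      · rcases mul_eq_zero.mp h with h | h <;> tauto
    have him : z.im = 2 ∨ z.im = -2 := by
      rcases cases with h | h | h | h
      · left; have := congrArg Complex.im h; simp at this; linarith
      · right; have := congrArg Complex.im h; simp at this; linarith
      · left; have := congrArg Complex.im h; simp at this; linarith
      · right; have := congrArg Complex.im h; simp at this; linarith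
    rcases him with h | h <;> rw [h] at hz <;> norm_num at hz
  · exact hYY h

theorem B_ne_zero_of (i : ℕ) (z : ℂ) (hz : 3 ≤ |z.im|) : B i z ≠ 0 := by
  unfold B
  refine mul_ne_zero (pow_ne_zero _ ?_) (q_ne_zero_of _ z hz)
  intro h
  have hX : (X i : ℂ) ≠ 0 := by exact_mod_cast (X_pos i).ne'
  have h1 : z ^ 2 = (X i : ℂ) ^ 2 := by
    field_simp at h
    linear_combination -h
  have h2 : (z - X i) * (z + X i) = 0 := by linear_combination h1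
  have him : z.im = 0 := by
    rcases mul_eq_zero.mp h2 with h | h
    · have := congrArg Complex.im h; simpa using this
    · have := congrArg Complex.im h; simpa using this
  rw [him] at hz
  norm_num at hz

theorem f_zero (z : ℂ) (hz : f z = 0) : |z.im| < 3 := by
  by_contra hcon
  push Not at hcon
  exact Nr.tprod_ne_zero (fun i => B_nr i z) (wtz_summable _) (fun i => B_ne_zero_of i z hcon) hz

theorem f_Y_ne (k : ℕ) : f (Y k : ℂ) ≠ 0 := by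
  apply Nr.tprod_ne_zero (fun i => B_nr i _) (wtz_summable _)
  intro i
  unfold B
  refine mul_ne_zero (pow_ne_zero _ ?_) ?_
  · intro h
    have hX : (X i : ℂ) ≠ 0 := by exact_mod_cast (X_pos i).ne'
    have h1 : X i ^ 2 - Y k ^ 2 = 0 := by
      field_simp at h
      have h0 : X i ^ 2 - Y k ^ 2 = X i ^ 2 * 0 := by exact_mod_cast h
      simpa using h0
    exact (est_real i k).1 h1
  · unfold q
    have h : (((((Y k) ^ 2 - ((Y i) ^ 2 - 4)) ^ 2 + 16 * (Y i) ^ 2) / ((Y i) ^ 2 + 4) ^ 2 : ℝ) : ℂ)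
        ≠ 0 := by
      have h1 := Y_pos i
      have : ((((Y k) ^ 2 - ((Y i) ^ 2 - 4)) ^ 2 + 16 * (Y i) ^ 2) / ((Y i) ^ 2 + 4) ^ 2 : ℝ) ≠ 0 := by
        positivity
      exact_mod_cast this
    push_cast at h
    exact h

theorem norm_w_le (k : ℕ) (ζ : ℂ) :
    ‖((Y k : ℂ) + ζ) ^ 2 - (Y k : ℂ) ^ 2‖ ≤ 2 * Y k * (‖ζ‖ + ‖ζ‖ ^ 2) := by
  have e : ((Y k : ℂ) + ζ) ^ 2 - (Y k : ℂ) ^ 2 = 2 * Y k * ζ + ζ ^ 2 := by ring
  rw [e]
  have hY := sixteen_le_Y k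
  have h1 : ‖2 * (Y k : ℂ) * ζ + ζ ^ 2‖ ≤ 2 * Y k * ‖ζ‖ + ‖ζ‖ ^ 2 := by
    refine (norm_add_le _ _).trans ?_
    rw [norm_mul, norm_mul, norm_pow, Complex.norm_real, Real.norm_of_nonneg (Y_pos k).le]
    simp
  nlinarith [sq_nonneg ‖ζ‖]

theorem B_shift_ne (i k : ℕ) (hik : i ≠ k) (ζ : ℂ) :
    ∃ u : ℂ, Nr u ((‖ζ‖ + ‖ζ‖ ^ 2) / 2 ^ (k + 1) * wt i) ∧
      B i ((Y k : ℂ) + ζ) = B i (Y k) * u := by
  obtain ⟨u, hu, hu'⟩ := real_shift i (Y k) (est_real i k).1 ((Y k : ℂ) + ζ)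
  obtain ⟨v, hv, hv'⟩ := pair_shift (Y i) (Y k) (est_pair i k hik).1 ((Y k : ℂ) + ζ)
  refine ⟨u * v, (hu.mul hv).mono ?_, ?_⟩
  · have hw := norm_w_le k ζ
    set V := ‖ζ‖ + ‖ζ‖ ^ 2 with hV
    have hV0 : 0 ≤ V := by positivity
    have h1 := (est_real i k).2
    have h2 := (est_pair i k hik).2
    have p1 : 0 < |X i ^ 2 - Y k ^ 2| := abs_pos.mpr (est_real i k).1
    have p2 : 0 < |Y i ^ 2 + 4 - Y k ^ 2| := abs_pos.mpr (est_pair i k hik).1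
    have a1 : (m i : ℝ) * (‖((Y k : ℂ) + ζ) ^ 2 - (Y k : ℂ) ^ 2‖ / |X i ^ 2 - Y k ^ 2|)
        ≤ V * (4 * (i + 1) / 2 ^ (i + 1) / 2 ^ (k + 1)) := by
      calc _ ≤ (m i : ℝ) * ((2 * Y k * V) / |X i ^ 2 - Y k ^ 2|) := by gcongr
        _ = V * (2 * Y k * (m i : ℝ) / |X i ^ 2 - Y k ^ 2|) := by ring
        _ ≤ _ := by gcongr
    have a2 : 2 * (‖((Y k : ℂ) + ζ) ^ 2 - (Y k : ℂ) ^ 2‖ / |Y i ^ 2 + 4 - Y k ^ 2|)
        ≤ V * (8 / 2 ^ (i + 1) / 2 ^ (k + 1)) := by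
      calc _ ≤ 2 * ((2 * Y k * V) / |Y i ^ 2 + 4 - Y k ^ 2|) := by gcongr
        _ = V * (2 * Y k * 2 / |Y i ^ 2 + 4 - Y k ^ 2|) := by ring
        _ ≤ _ := by gcongr
    refine (add_le_add a1 a2).trans (le_of_eq ?_)
    unfold wt
    field_simp
  · unfold B
    rw [hu', hv']
    ring

theorem B_shift_eq (k : ℕ) (ζ : ℂ) :
    ∃ u : ℂ, Nr u ((‖ζ‖ + ‖ζ‖ ^ 2) / 2 ^ (k + 1) * wt k) ∧
      B k ((Y k : ℂ) + ζ) = B k (Y k) * u * ((ζ ^ 2 + 4) / 4) := by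
  obtain ⟨u, hu, hu'⟩ := real_shift k (Y k) (est_real k k).1 ((Y k : ℂ) + ζ)
  have hYp := Y_pos k
  have hden : (4 * (Y k : ℂ) ^ 2 + 4) ≠ 0 := by
    have : (4 * (Y k) ^ 2 + 4 : ℝ) ≠ 0 := by positivity
    exact_mod_cast this
  have hden2 : ((Y k : ℂ) ^ 2 + 4) ≠ 0 := by
    have : ((Y k) ^ 2 + 4 : ℝ) ≠ 0 := by positivity
    exact_mod_cast this
  have hden3 : ((Y k : ℂ) ^ 2 + 1) ≠ 0 := by
    have : ((Y k) ^ 2 + 1 : ℝ) ≠ 0 := by positivity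
    exact_mod_cast this
  set s : ℂ := (4 * Y k * ζ + ζ ^ 2) / (4 * (Y k : ℂ) ^ 2 + 4) with hs
  refine ⟨u * (1 + s), (hu.mul (Nr.one_add s)).mono ?_, ?_⟩
  · have hw := norm_w_le k ζ
    set V := ‖ζ‖ + ‖ζ‖ ^ 2 with hV
    have hV0 : 0 ≤ V := by positivity
    have h1 := (est_real k k).2
    have p1 : 0 < |X k ^ 2 - Y k ^ 2| := abs_pos.mpr (est_real k k).1
    have a1 : (m k : ℝ) * (‖((Y k : ℂ) + ζ) ^ 2 - (Y k : ℂ) ^ 2‖ / |X k ^ 2 - Y k ^ 2|)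
        ≤ V * (4 * (k + 1) / 2 ^ (k + 1) / 2 ^ (k + 1)) := by
      calc _ ≤ (m k : ℝ) * ((2 * Y k * V) / |X k ^ 2 - Y k ^ 2|) := by gcongr
        _ = V * (2 * Y k * (m k : ℝ) / |X k ^ 2 - Y k ^ 2|) := by ring
        _ ≤ _ := by gcongr
    have a2 : ‖s‖ ≤ V * (8 / 2 ^ (k + 1) / 2 ^ (k + 1)) := by
      have h16 := sixteen_le_Y k
      have n1 : ‖(4 * (Y k : ℂ) * ζ + ζ ^ 2)‖ ≤ 4 * Y k * V := by
        have h1 : ‖4 * (Y k : ℂ) * ζ + ζ ^ 2‖ ≤ 4 * Y k * ‖ζ‖ + ‖ζ‖ ^ 2 := by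
          refine (norm_add_le _ _).trans ?_
          rw [norm_mul, norm_mul, norm_pow, Complex.norm_real, Real.norm_of_nonneg (Y_pos k).le]
          simp
        rw [hV]
        nlinarith [sq_nonneg ‖ζ‖]
      have n2 : ‖(4 * (Y k : ℂ) ^ 2 + 4)‖ = 4 * Y k ^ 2 + 4 := by
        have : (4 * (Y k : ℂ) ^ 2 + 4) = ((4 * Y k ^ 2 + 4 : ℝ) : ℂ) := by push_cast; ring
        rw [this, Complex.norm_real, Real.norm_of_nonneg (by positivity)]
      rw [hs, norm_div, n2]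
      have h4 := Y_ge k
      have h5 := four_pow_ge (a := k + 1) (b := k + 1) (c := k + 1) le_rfl le_rfl
      calc ‖4 * (Y k : ℂ) * ζ + ζ ^ 2‖ / (4 * Y k ^ 2 + 4)
          ≤ 4 * Y k * V / (4 * Y k ^ 2) := by
            gcongr
            linarith
        _ = V * (1 / Y k) := by field_simp
        _ ≤ V * (8 / (2 ^ (k + 1) * 2 ^ (k + 1))) := by
            gcongr
            · norm_num
            · linarith
        _ = _ := by field_simp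
    refine (add_le_add a1 a2).trans (le_of_eq ?_)
    unfold wt
    field_simp
  · unfold B
    rw [hu']
    have e : q (Y k) ((Y k : ℂ) + ζ) = q (Y k) (Y k) * (1 + s) * ((ζ ^ 2 + 4) / 4) := by
      unfold q
      rw [hs]
      field_simp
      ring
    rw [e]
    ring

/-- Structure of `f` near `Y k`. -/
theorem f_shift (k : ℕ) (ζ : ℂ) :
    ∃ P : ℂ, Nr P ((‖ζ‖ + ‖ζ‖ ^ 2) / 2 ^ (k + 1) * ∑' i, wt i) ∧
      f ((Y k : ℂ) + ζ) = f (Y k) * P * ((ζ ^ 2 + 4) / 4) := by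
  have h : ∀ i, ∃ u : ℂ, Nr u ((‖ζ‖ + ‖ζ‖ ^ 2) / 2 ^ (k + 1) * wt i) ∧
      B i ((Y k : ℂ) + ζ) = B i (Y k) * u * (if i = k then ((ζ ^ 2 + 4) / 4) else 1) := by
    intro i
    by_cases hik : i = k
    · subst hik
      obtain ⟨u, h1, h2⟩ := B_shift_eq i ζ
      exact ⟨u, h1, by simpa using h2⟩
    · obtain ⟨u, h1, h2⟩ := B_shift_ne i k hik ζ
      exact ⟨u, h1, by simpa [hik] using h2⟩
  choose u hu1 hu2 using h
  have hS : Summable (fun i => (‖ζ‖ + ‖ζ‖ ^ 2) / 2 ^ (k + 1) * wt i) := wtz_summable _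
  refine ⟨∏' i, u i, ?_, ?_⟩
  · have := Nr.tprod hu1 hS
    rwa [tsum_mul_left] at this
  · unfold f
    have hite : Multipliable (fun i : ℕ => (if i = k then ((ζ ^ 2 + 4) / 4) else (1:ℂ))) :=
      (hasProd_ite_eq k ((ζ ^ 2 + 4) / 4 : ℂ)).multipliable
    have hB := B_multipliable (Y k : ℂ)
    have hu := Nr.multipliable hu1 hS
    calc ∏' i, B i ((Y k : ℂ) + ζ)
        = ∏' i, (B i (Y k) * u i * (if i = k then ((ζ ^ 2 + 4) / 4) else 1)) := by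
          congr 1; funext i; exact hu2 i
      _ = (∏' i, (B i (Y k) * u i)) * ∏' i, (if i = k then ((ζ ^ 2 + 4) / 4) else (1:ℂ)) :=
          (hB.mul hu).tprod_mul hite
      _ = (∏' i, B i (Y k)) * (∏' i, u i) * ((ζ ^ 2 + 4) / 4) := by
          rw [hB.tprod_mul hu, tprod_ite_eq]

end Pool.Agent.H415R3.Heat
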