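import Mathlib
import Pool.Agent.H415R3.HeatG

set_option autoImplicit false

namespace Pool.Agent.H415R3.Heat

open Complex Metric Set Filter Topology Pool.Agent.H415R3.NP

theorem small_est (x e : ℝ) (hx : 0 ≤ x) (he0 : 0 ≤ e) (he : e ≤ 1 / 10 ^ 8) :
    (x ^ 2 + 4) * (Real.exp ((x + x ^ 2) * e) - 1) ≤ (1 / 32) * Real.exp (x ^ 2 / 100) := by
  have hv : x + x ^ 2 ≤ 1 + 2 * x ^ 2 := by nlinarith [sq_nonneg (x - 1)]
  have hv0 : 0 ≤ x + x ^ 2 := by positivity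
  have h1 : Real.exp ((x + x ^ 2) * e) - 1 ≤ ((x + x ^ 2) * e) * Real.exp ((x + x ^ 2) * e) :=
    exp_sub_one_le _ _ (by positivity) le_rfl
  have h2 : (x + x ^ 2) * e ≤ (1 + 2 * x ^ 2) * e := by gcongr
  have h3 : Real.exp ((x + x ^ 2) * e) ≤ 2 * Real.exp (x ^ 2 / 500) := by
    have l2 := Real.exp_log (show (0:ℝ) < 2 by norm_num)
    have l2' := Real.log_two_gt_d9
    rw [← l2, ← Real.exp_add]
    apply Real.exp_le_exp.mpr
    nlinarith [sq_nonneg x]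
  have h4 : 1 + x ^ 2 ≤ 400 * Real.exp (x ^ 2 / 400) := by
    have := Real.add_one_le_exp (x ^ 2 / 400)
    nlinarith [sq_nonneg x]
  have h5 : (1 + x ^ 2) ^ 2 ≤ 160000 * Real.exp (x ^ 2 / 200) := by
    calc (1 + x ^ 2) ^ 2 ≤ (400 * Real.exp (x ^ 2 / 400)) ^ 2 := by gcongr
      _ = 160000 * (Real.exp (x ^ 2 / 400) * Real.exp (x ^ 2 / 400)) := by ring
      _ = 160000 * Real.exp (x ^ 2 / 200) := by rw [← Real.exp_add]; ring_nf
  have hp : 0 < Real.exp (x ^ 2 / 500) := Real.exp_pos _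
  calc (x ^ 2 + 4) * (Real.exp ((x + x ^ 2) * e) - 1)
      ≤ (x ^ 2 + 4) * (((1 + 2 * x ^ 2) * e) * (2 * Real.exp (x ^ 2 / 500))) := by
        gcongr
        refine h1.trans ?_
        gcongr
    _ = e * 2 * ((x ^ 2 + 4) * (1 + 2 * x ^ 2)) * Real.exp (x ^ 2 / 500) := by ring
    _ ≤ e * 2 * (8 * (1 + x ^ 2) ^ 2) * Real.exp (x ^ 2 / 500) := by
        have h6 : (x ^ 2 + 4) * (1 + 2 * x ^ 2) ≤ 8 * (1 + x ^ 2) ^ 2 := by
          nlinarith [sq_nonneg x, sq_nonneg (x ^ 2)]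
        exact mul_le_mul_of_nonneg_right (mul_le_mul_of_nonneg_left h6 (by positivity)) hp.le
    _ ≤ e * 2 * (8 * (160000 * Real.exp (x ^ 2 / 200))) * Real.exp (x ^ 2 / 500) := by
        gcongr
    _ = (e * 2560000) * (Real.exp (x ^ 2 / 200) * Real.exp (x ^ 2 / 500)) := by ring
    _ = (e * 2560000) * Real.exp (x ^ 2 / 200 + x ^ 2 / 500) := by rw [Real.exp_add]
    _ ≤ (1 / 32) * Real.exp (x ^ 2 / 100) := by
        gcongr
        · linarith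
        · nlinarith [sq_nonneg x]

theorem tsum_wt_nonneg : 0 ≤ ∑' i, wt i := tsum_nonneg wt_nonneg

theorem exists_large (M : ℝ) : ∃ k : ℕ, M < Y k ∧ (∑' i, wt i) / 2 ^ (k + 1) ≤ 1 / 10 ^ 8 := by
  obtain ⟨k, hk⟩ := pow_unbounded_of_one_lt (max M ((∑' i, wt i) * 10 ^ 8)) (show (1:ℝ) < 2 by norm_num)
  have h1 : (2:ℝ) ^ k ≤ 2 ^ (k + 1) := pow_le_pow_right₀ (by norm_num) (by omega)
  refine ⟨k, ?_, ?_⟩
  · have h2 : (2:ℝ) ^ (k + 1) ≤ 4 ^ (k + 1) := by gcongr; norm_num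
    have h3 := Y_ge k
    have h4 := le_max_left M ((∑' i, wt i) * 10 ^ 8)
    linarith
  · rw [div_le_div_iff₀ (by positivity) (by norm_num)]
    have h4 := le_max_right M ((∑' i, wt i) * 10 ^ 8)
    linarith

/-- For large `k` the evolved function vanishes near `Y k + I`. -/
theorem zero_near (g : ℂ → ℂ)
    (hg : ∀ z : ℂ, g z = ∑' k : ℕ,
          (-(((3 / 2 : ℝ)) : ℂ)) ^ k / ((Nat.factorial k : ℕ) : ℂ) * iteratedDeriv (2 * k) f z)
    (k : ℕ) (hk : (∑' i, wt i) / 2 ^ (k + 1) ≤ 1 / 10 ^ 8) :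
    ∃ ζ : ℂ, ‖ζ - I‖ ≤ 1 / 2 ∧ g ((Y k : ℂ) + ζ) = 0 := by
  set c : ℂ := 4 / f (Y k) with hc
  have hfY := f_Y_ne k
  have hc0 : c ≠ 0 := div_ne_zero (by norm_num) hfY
  set F : ℂ → ℂ := fun ζ => c * f ((Y k : ℂ) + ζ) with hF
  have hFd : Differentiable ℂ F := by
    apply Differentiable.const_mul
    exact f_diff.comp (by fun_prop)
  have hb : ∀ z, ‖F z - (z ^ 2 + 4)‖ ≤ (1 / 32) * Real.exp (‖z‖ ^ 2 / 100) := by
    intro z
    obtain ⟨P, hP, hP'⟩ := f_shift k z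
    have e : F z - (z ^ 2 + 4) = (z ^ 2 + 4) * (P - 1) := by
      simp only [hF]
      rw [hP', hc]
      field_simp
    rw [e, norm_mul]
    have h1 : ‖z ^ 2 + 4‖ ≤ ‖z‖ ^ 2 + 4 := by
      refine (norm_add_le _ _).trans ?_
      rw [norm_pow]; simp
    unfold Nr at hP
    have e2 : (‖z‖ + ‖z‖ ^ 2) / 2 ^ (k + 1) * ∑' i, wt i
        = (‖z‖ + ‖z‖ ^ 2) * ((∑' i, wt i) / 2 ^ (k + 1)) := by ring
    rw [e2] at hP
    have h2 := small_est ‖z‖ ((∑' i, wt i) / 2 ^ (k + 1)) (norm_nonneg _)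
      (div_nonneg tsum_wt_nonneg (by positivity)) hk
    exact (mul_le_mul h1 hP (norm_nonneg _) (by positivity)).trans h2
  obtain ⟨ζ, hζ, hz⟩ := heat_zero F hFd hb (fun ζ => c * g ((Y k : ℂ) + ζ)) (by
    intro z
    rw [hg, ← tsum_mul_left]
    congr 1
    funext j
    have h1 : iteratedDeriv (2 * j) F z = c * iteratedDeriv (2 * j) f ((Y k : ℂ) + z) := by
      have h2 : F = fun ζ => c * (fun ζ => f ((Y k : ℂ) + ζ)) ζ := rfl
      rw [h2, iteratedDeriv_const_mul_field, iteratedDeriv_comp_const_add]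
    rw [h1]
    ring)
  refine ⟨ζ, hζ, ?_⟩
  rcases mul_eq_zero.mp hz with h | h
  · exact absurd h hc0
  · exact h

/-! ### growth: upper bound -/

theorem one_add_sq_le {x p : ℝ} (hx : 0 ≤ x) (hp1 : 1 ≤ p) (hp2 : p ≤ 2) :
    1 + x ^ 2 ≤ Real.exp (x ^ p) := by
  rcases le_or_gt x 1 with h | h
  · rcases eq_or_lt_of_le hx with h0 | h0
    · rw [← h0]
      simp only [ne_eq, OfNat.ofNat_ne_zero, not_false_eq_true, zero_pow, add_zero]
      exact Real.one_le_exp (Real.rpow_nonneg le_rfl _)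
    · have h1 : x ^ (2:ℝ) ≤ x ^ p := Real.rpow_le_rpow_of_exponent_ge h0 h hp2
      have h2 : x ^ (2:ℝ) = x ^ 2 := by norm_cast
      rw [h2] at h1
      have h3 := Real.add_one_le_exp (x ^ 2)
      have h4 := Real.exp_le_exp.mpr h1
      linarith
  · have h1 : x ^ (1:ℝ) ≤ x ^ p := Real.rpow_le_rpow_of_exponent_le h.le hp1
    rw [Real.rpow_one] at h1
    have h4 := Real.exp_le_exp.mpr h1
    have h5 : 1 + x ^ 2 ≤ Real.exp x := by
      have h7 : 1 + x ^ 2 ≤ Real.exp x := by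
        have h8 : (1 + x / 3 + (x / 3) ^ 2 / 2) ≤ Real.exp (x / 3) :=
          Real.quadratic_le_exp_of_nonneg (by positivity)
        have h9 : Real.exp x = Real.exp (x / 3) ^ 3 := by
          rw [← Real.exp_nat_mul]; congr 1; push_cast; ring
        rw [h9]
        have h10 : (1 + x / 3 + (x / 3) ^ 2 / 2) ^ 3 ≤ Real.exp (x / 3) ^ 3 := by gcongr
        refine le_trans ?_ h10
        have : 0 ≤ (1 + x / 3 + (x / 3) ^ 2 / 2) ^ 3 - (1 + x ^ 2) := by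
          have e2 : (1 + x / 3 + (x / 3) ^ 2 / 2) ^ 3 = 1 + x + x ^ 2 / 2 + 4 / 27 * x ^ 3 + x ^ 4 / 36 + x ^ 5 / 324 + x ^ 6 / 5832 := by ring
          rw [e2]
          nlinarith [mul_nonneg hx (sq_nonneg (x - 2)), mul_nonneg hx (sq_nonneg (x - 3)), mul_nonneg (mul_nonneg hx hx) (sq_nonneg (x - 2)), pow_nonneg hx 3, pow_nonneg hx 4, pow_nonneg hx 5, pow_nonneg hx 6, sq_nonneg (x*(x-2))]
        linarith
      exact h7
    linarith

/-- the coefficients of the growth bound -/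
noncomputable def gw (p : ℝ) (i : ℕ) : ℝ := (m i : ℝ) / X i ^ p + 2 / Y i ^ p

theorem gw_nonneg (p : ℝ) (i : ℕ) : 0 ≤ gw p i := by
  unfold gw
  have := X_pos i
  have := Y_pos i
  positivity

theorem gw_summable {p : ℝ} (hp : 1 < p) : Summable (gw p) := by
  set ρ : ℝ := (4 : ℝ) ^ (-(p - 1)) with hρ
  have hρ0 : 0 < ρ := Real.rpow_pos_of_pos (by norm_num) _
  have hρ1 : ρ < 1 := Real.rpow_lt_one_of_one_lt_of_neg (by norm_num) (by linarith)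
  have h1 : Summable (fun n : ℕ => ((n:ℝ) ^ 1 * ρ ^ n)) :=
    summable_pow_mul_geometric_of_norm_lt_one 1 (by rwa [Real.norm_of_nonneg hρ0.le])
  have h2 : Summable (fun n : ℕ => (ρ ^ n)) :=
    summable_geometric_of_lt_one hρ0.le hρ1
  have h3 := (h1.mul_left ρ).add (h2.mul_left (3 * ρ))
  refine Summable.of_nonneg_of_le (gw_nonneg p) (fun i => ?_) h3
  have hX := X_pos i
  have hY := Y_pos i
  have key : ∀ T : ℝ, (4:ℝ) ^ (i + 1) ≤ T → T ^ (-(p - 1)) ≤ ρ ^ (i + 1) := by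
    intro T hT
    have hpow : ρ ^ (i + 1) = ((4:ℝ) ^ (i + 1)) ^ (-(p - 1)) := by
      rw [hρ, ← Real.rpow_natCast, ← Real.rpow_natCast, ← Real.rpow_mul (by norm_num),
        ← Real.rpow_mul (by norm_num)]
      congr 1; ring
    rw [hpow]
    exact Real.rpow_le_rpow_of_nonpos (by positivity) hT (by linarith)
  have e1 : (m i : ℝ) / X i ^ p ≤ (i + 1) * ρ ^ (i + 1) := by
    have : (m i : ℝ) / X i ^ p = (i + 1) * X i ^ (-(p - 1)) := by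
      rw [m_cast, show (-(p - 1)) = 1 - p by ring, Real.rpow_sub hX, Real.rpow_one]
      ring
    rw [this]
    gcongr
    exact key _ (four_pow_le_X i)
  have e2 : 2 / Y i ^ p ≤ 2 * ρ ^ (i + 1) := by
    have h4 : 1 / Y i ^ p ≤ Y i ^ (-(p - 1)) := by
      rw [show (-(p - 1)) = 1 - p by ring, Real.rpow_sub hY, Real.rpow_one]
      gcongr
      linarith [sixteen_le_Y i]
    have h5 := key _ (Y_ge i)
    calc 2 / Y i ^ p = 2 * (1 / Y i ^ p) := by ring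
      _ ≤ 2 * ρ ^ (i + 1) := by gcongr; exact h4.trans h5
  calc gw p i ≤ (i + 1) * ρ ^ (i + 1) + 2 * ρ ^ (i + 1) := add_le_add e1 e2
    _ = ρ * ((i:ℝ) ^ 1 * ρ ^ i) + 3 * ρ * ρ ^ i := by ring

theorem B_growth {p : ℝ} (hp1 : 1 ≤ p) (hp2 : p ≤ 2) (i : ℕ) (z : ℂ) :
    ‖B i z‖ ≤ Real.exp (‖z‖ ^ p * gw p i) := by
  have hX := X_pos i
  have hY := Y_pos i
  have a1 : ‖1 - z ^ 2 / (X i : ℂ) ^ 2‖ ≤ Real.exp (‖z‖ ^ p / X i ^ p) := by
    have h1 : ‖1 - z ^ 2 / (X i : ℂ) ^ 2‖ ≤ 1 + (‖z‖ / X i) ^ 2 := by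
      refine (norm_sub_le _ _).trans ?_
      rw [norm_one, norm_div, norm_pow, norm_pow, Complex.norm_real, Real.norm_of_nonneg hX.le,
        div_pow]
    have h2 := one_add_sq_le (x := ‖z‖ / X i) (by positivity) hp1 hp2
    rw [Real.div_rpow (norm_nonneg _) hX.le] at h2
    exact h1.trans h2
  have a2 : ‖q (Y i) z‖ ≤ Real.exp (‖z‖ ^ p / Y i ^ p) ^ 2 := by
    have h2 := one_add_sq_le (x := ‖z‖ / Y i) (by positivity) hp1 hp2
    rw [Real.div_rpow (norm_nonneg _) hY.le] at h2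
    have h3 : ‖q (Y i) z‖ ≤ (1 + (‖z‖ / Y i) ^ 2) ^ 2 := by
      rw [q_eq, norm_div, norm_mul]
      have n0 : ‖((Y i : ℂ) ^ 2 + 4) ^ 2‖ = (Y i ^ 2 + 4) ^ 2 := by
        have : ((Y i : ℂ) ^ 2 + 4) ^ 2 = (((Y i ^ 2 + 4) ^ 2 : ℝ) : ℂ) := by push_cast; ring
        rw [this, Complex.norm_real, Real.norm_of_nonneg (by positivity)]
      have n1 : ‖((Y i : ℂ) + ((2 : ℝ) : ℂ) * I) ^ 2 - z ^ 2‖ ≤ (Y i ^ 2 + 4) + ‖z‖ ^ 2 := by
        refine (norm_sub_le _ _).trans ?_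
        rw [norm_c _ _ (by norm_num), norm_pow]
      have n2 : ‖((Y i : ℂ) + ((-2 : ℝ) : ℂ) * I) ^ 2 - z ^ 2‖ ≤ (Y i ^ 2 + 4) + ‖z‖ ^ 2 := by
        refine (norm_sub_le _ _).trans ?_
        rw [norm_c _ _ (by norm_num), norm_pow]
      rw [n0]
      calc _ ≤ ((Y i ^ 2 + 4) + ‖z‖ ^ 2) * ((Y i ^ 2 + 4) + ‖z‖ ^ 2) / (Y i ^ 2 + 4) ^ 2 := by
            gcongr
        _ = (1 + ‖z‖ ^ 2 / (Y i ^ 2 + 4)) ^ 2 := by field_simp
        _ ≤ (1 + (‖z‖ / Y i) ^ 2) ^ 2 := by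
            rw [div_pow]
            gcongr
            linarith
    exact h3.trans (by gcongr)
  unfold B
  rw [norm_mul, norm_pow]
  calc ‖1 - z ^ 2 / (X i : ℂ) ^ 2‖ ^ (m i) * ‖q (Y i) z‖
      ≤ (Real.exp (‖z‖ ^ p / X i ^ p)) ^ (m i) * Real.exp (‖z‖ ^ p / Y i ^ p) ^ 2 := by gcongr
    _ = Real.exp (‖z‖ ^ p * gw p i) := by
      rw [← Real.exp_nat_mul, ← Real.exp_nat_mul, ← Real.exp_add]
      unfold gw
      congr 1
      push_cast
      ring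

theorem f_growth {p : ℝ} (hp1 : 1 < p) (hp2 : p ≤ 2) (z : ℂ) :
    ‖f z‖ ≤ Real.exp (‖z‖ ^ p * ∑' i, gw p i) := by
  have h := tprod_norm_le (B_multipliable z) (t := fun i => ‖z‖ ^ p * gw p i)
    (fun i => mul_nonneg (Real.rpow_nonneg (norm_nonneg _) _) (gw_nonneg p i))
    (fun i => B_growth hp1.le hp2 i z) ((gw_summable hp1).mul_left _)
  rwa [tsum_mul_left] at h

theorem f_order (ε : ℝ) (hε : 0 < ε) :
    ∃ R : ℝ, ∀ z : ℂ, R ≤ ‖z‖ → ‖f z‖ ≤ Real.exp (‖z‖ ^ (1 + ε)) := by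
  set δ : ℝ := min ε 1 with hδ
  have hδ0 : 0 < δ := lt_min hε one_pos
  have hδ1 : δ ≤ 1 := min_le_right _ _
  have hδε : δ ≤ ε := min_le_left _ _
  set S : ℝ := ∑' i, gw (1 + δ / 2) i with hS
  have ht := (tendsto_rpow_atTop (show 0 < δ / 2 by linarith)).eventually_ge_atTop S
  obtain ⟨R, hR⟩ := (ht.and (eventually_ge_atTop (1:ℝ))).exists_forall_of_atTop
  refine ⟨R, fun z hz => ?_⟩
  obtain ⟨h1, h2⟩ := hR ‖z‖ hz
  refine (f_growth (p := 1 + δ / 2) (by linarith) (by linarith) z).trans ?_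
  apply Real.exp_le_exp.mpr
  have hz0 : 0 < ‖z‖ := by linarith
  calc ‖z‖ ^ (1 + δ / 2) * ∑' i, gw (1 + δ / 2) i
      ≤ ‖z‖ ^ (1 + δ / 2) * ‖z‖ ^ (δ / 2) := by gcongr
    _ = ‖z‖ ^ (1 + δ) := by
        rw [← Real.rpow_add hz0]; congr 1; ring
    _ ≤ ‖z‖ ^ (1 + ε) := Real.rpow_le_rpow_of_exponent_le h2 (by linarith)

/-! ### growth: lower bound -/

theorem B_imag (i : ℕ) (y : ℝ) : ‖B i ((y : ℂ) * I)‖ = (1 + y ^ 2 / X i ^ 2) ^ (m i) *
    (((y ^ 2 + (Y i ^ 2 - 4)) ^ 2 + 16 * Y i ^ 2) / (Y i ^ 2 + 4) ^ 2) := by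
  have hX := X_pos i
  have hY := Y_pos i
  have e : B i ((y : ℂ) * I) = (((1 + y ^ 2 / X i ^ 2) ^ (m i) *
    (((y ^ 2 + (Y i ^ 2 - 4)) ^ 2 + 16 * Y i ^ 2) / (Y i ^ 2 + 4) ^ 2) : ℝ) : ℂ) := by
    unfold B q
    push_cast
    rw [mul_pow, Complex.I_sq]
    congr 1
    · congr 1
      ring
    · congr 1
      ring
  rw [e, Complex.norm_real, Real.norm_of_nonneg (by positivity)]

theorem q_imag_ge (i : ℕ) (y : ℝ) :
    1 ≤ ((y ^ 2 + (Y i ^ 2 - 4)) ^ 2 + 16 * Y i ^ 2) / (Y i ^ 2 + 4) ^ 2 := by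
  have h16 := sixteen_le_Y i
  rw [one_le_div (by positivity)]
  have : 0 ≤ Y i ^ 2 - 4 := by nlinarith
  nlinarith [sq_nonneg y, mul_nonneg (sq_nonneg y) this, sq_nonneg (y ^ 2)]

theorem B_imag_ge (i : ℕ) (y : ℝ) : 1 ≤ ‖B i ((y : ℂ) * I)‖ := by
  rw [B_imag]
  have hX := X_pos i
  have h1 : (1:ℝ) ≤ (1 + y ^ 2 / X i ^ 2) ^ (m i) := by
    apply one_le_pow₀
    have : 0 ≤ y ^ 2 / X i ^ 2 := by positivity
    linarith
  have h2 := q_imag_ge i y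
  nlinarith

theorem f_lower (k : ℕ) : (2:ℝ) ^ (m k) ≤ ‖f ((X k : ℂ) * I)‖ := by
  have h := le_tprod_norm (B_multipliable ((X k : ℂ) * I)) (fun i => B_imag_ge i (X k)) k
  refine le_trans ?_ h
  rw [B_imag]
  have hX := X_pos k
  have h2 := q_imag_ge k (X k)
  have h3 : (1:ℝ) + X k ^ 2 / X k ^ 2 = 2 := by
    rw [div_self (by positivity)]; norm_num
  rw [h3]
  have : (0:ℝ) < 2 ^ (m k) := by positivity
  nlinarith

theorem f_maxtype (C R : ℝ) : ∃ z : ℂ, R ≤ ‖z‖ ∧ Real.exp (C * ‖z‖) < ‖f z‖ := by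
  obtain ⟨k, hk⟩ := exists_nat_gt (max R (2 * C))
  have hk1 : R < k := (le_max_left _ _).trans_lt hk
  have hk2 : 2 * C < k := (le_max_right _ _).trans_lt hk
  have hX := X_pos k
  have hkX : (k : ℝ) ≤ X k := by
    have h1 := four_pow_le_X k
    have h2 : ((k + 1 : ℕ) : ℝ) < 2 ^ (k + 1) := by exact_mod_cast Nat.lt_two_pow_self
    have h3 : (2:ℝ) ^ (k + 1) ≤ 4 ^ (k + 1) := by gcongr; norm_num
    push_cast at h2
    linarith
  have hn : ‖(X k : ℂ) * I‖ = X k := by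
    rw [norm_mul, Complex.norm_I, mul_one, Complex.norm_real, Real.norm_of_nonneg hX.le]
  refine ⟨(X k : ℂ) * I, by rw [hn]; linarith, ?_⟩
  rw [hn]
  refine lt_of_lt_of_le ?_ (f_lower k)
  have h2 : (2:ℝ) ^ (m k) = Real.exp ((m k : ℝ) * Real.log 2) := by
    rw [mul_comm, Real.exp_mul, Real.exp_log (by norm_num), Real.rpow_natCast]
  rw [h2, m_cast]
  apply Real.exp_lt_exp.mpr
  have hl := Real.log_two_gt_d9
  have hk0 : (0:ℝ) ≤ k := Nat.cast_nonneg k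
  have : C < (k + 1) * Real.log 2 := by nlinarith
  nlinarith

end Pool.Agent.H415R3.Heat
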