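import Mathlib
import Pool.Agent.H415R3.Approx

set_option autoImplicit false

/-! Sign patterns of classical multiplier sequences, and the final assembly. -/

namespace Pool.Agent.H415R3.FP

open Polynomial

/-- classical multiplier sequence -/
def MS (γ : ℕ → ℝ) : Prop := ∀ p : ℝ[X], RR p →
  RR (∑ n ∈ Finset.range (p.natDegree + 1), C (γ n * p.coeff n) * X ^ n)

theorem G_of_MS {γ : ℕ → ℝ} (h : MS γ) : G γ 1 := by
  intro n
  have hRR : RR ((X + C 1 : ℝ[X]) ^ n) := by
    right
    intro z hz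
    rw [map_pow] at hz
    rcases Nat.eq_zero_or_pos n with h0 | h0
    · subst h0; simp at hz
    · have h2 := (pow_eq_zero_iff (by omega : n ≠ 0)).mp hz
      have h3 := congrArg Complex.im h2
      simpa using h3
  have hJ := h _ hRR
  have hdeg : ((X + C 1 : ℝ[X]) ^ n).natDegree = n := by
    rw [natDegree_pow_X_add_C]
  rw [hdeg] at hJ
  have hco : ∀ j, ((X + C 1 : ℝ[X]) ^ n).coeff j = (n.choose j : ℝ) := by
    intro j
    rw [C_1, coeff_X_add_one_pow]
  simp only [hco] at hJ
  set J : ℝ[X] := ∑ j ∈ Finset.range (n + 1), C (γ j * (n.choose j : ℝ)) * X ^ j with hJdef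
  rcases hJ with hJ | hJ
  · left
    ext j
    rcases Nat.lt_or_ge n j with hj | hj
    · rw [F_coeff_gt _ _ _ _ hj, coeff_zero]
    · rw [F_coeff _ _ _ _ hj, one_mul, L_X_pow, coeff_zero]
      have h2 : J.coeff (n - j) = γ (n - j) * (n.choose (n - j) : ℝ) := by
        rw [hJdef, finsetSum_coeff]
        simp only [coeff_C_mul, coeff_X_pow]
        rw [Finset.sum_eq_single (n - j)]
        · simp
        · intro b _ hb
          rw [if_neg (by omega), mul_zero]
        · intro hb
          exact absurd (Finset.mem_range.mpr (by omega)) hb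
      rw [hJ, coeff_zero, Nat.choose_symm hj] at h2
      linarith
  · right
    intro z hz
    by_contra him
    have hz0 : z ≠ 0 := by rintro rfl; simp at him
    have e : aeval z (F γ 1 n) = z ^ n * aeval z⁻¹ J := by
      unfold F
      rw [map_sum, hJdef, map_sum, Finset.mul_sum,
        ← Finset.sum_range_reflect (fun j => z ^ n * aeval z⁻¹ (C (γ j * (n.choose j : ℝ)) * X ^ j : ℝ[X]))]
      refine Finset.sum_congr rfl fun j hj => ?_
      have hj' : j ≤ n := by have := Finset.mem_range.mp hj; omega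
      have e1 : n + 1 - 1 - j = n - j := by omega
      rw [e1, Nat.choose_symm hj', one_mul, L_X_pow]
      simp only [map_mul, aeval_C, map_pow, aeval_X, Complex.coe_algebraMap]
      push_cast
      have e3 : z ^ n = z ^ j * z ^ (n - j) := by
        rw [← pow_add]; congr 1; omega
      rw [e3]
      have e4 : z ^ (n - j) * z⁻¹ ^ (n - j) = 1 := by
        rw [← mul_pow, mul_inv_cancel₀ hz0, one_pow]
      linear_combination (-((n.choose j : ℂ) * (γ (n - j) : ℂ) * z ^ j)) * e4
    rw [e] at hz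
    rcases mul_eq_zero.mp hz with h1 | h1
    · exact pow_ne_zero n hz0 h1
    · have h2 := hJ _ h1
      rw [Complex.inv_im] at h2
      have hn : 0 < Complex.normSq z := Complex.normSq_pos.mpr hz0
      rcases div_eq_zero_iff.mp h2 with h4 | h4
      · exact him (by linarith)
      · exact hn.ne' h4

theorem MS_two {γ : ℕ → ℝ} (h : MS γ) (m : ℕ) : 0 ≤ γ m * γ (m + 2) := by
  by_contra hcon
  push Not at hcon
  have hp : RR (X ^ m * (1 - X ^ 2) : ℝ[X]) := by
    right
    intro z hz
    rw [map_mul, map_pow, aeval_X] at hz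
    rcases mul_eq_zero.mp hz with h1 | h1
    · rcases Nat.eq_zero_or_pos m with h0 | h0
      · subst h0; simp at h1
      · have := (pow_eq_zero_iff (by omega : m ≠ 0)).mp h1
        rw [this]; simp
    · simp only [map_sub, map_one, map_pow, aeval_X] at h1
      have h2 : (z - 1) * (z + 1) = 0 := by linear_combination -h1
      rcases mul_eq_zero.mp h2 with h3 | h3
      · have := congrArg Complex.im h3
        simpa using this
      · have := congrArg Complex.im h3
        simpa using this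
  have hco : ∀ j, (X ^ m * (1 - X ^ 2) : ℝ[X]).coeff j = (if j = m then 1 else 0) - (if j = m + 2 then 1 else 0) := by
    intro j
    have : (X ^ m * (1 - X ^ 2) : ℝ[X]) = X ^ m - X ^ (m + 2) := by ring
    rw [this, coeff_sub, coeff_X_pow, coeff_X_pow]
  have hdeg : (X ^ m * (1 - X ^ 2) : ℝ[X]).natDegree = m + 2 := by
    apply le_antisymm
    · rw [natDegree_le_iff_coeff_eq_zero]
      intro N hN
      rw [hco, if_neg (by omega), if_neg (by omega), sub_zero]
    · apply le_natDegree_of_ne_zero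
      rw [hco, if_neg (by omega), if_pos rfl]; norm_num
  have h1 := h _ hp
  rw [hdeg] at h1
  set J : ℝ[X] := ∑ n ∈ Finset.range (m + 2 + 1), C (γ n * (X ^ m * (1 - X ^ 2) : ℝ[X]).coeff n) * X ^ n with hJ
  have hJ2 : J = C (γ m) * X ^ m - C (γ (m + 2)) * X ^ (m + 2) := by
    rw [hJ]
    simp only [hco]
    have e : ∀ n, C (γ n * ((if n = m then (1:ℝ) else 0) - (if n = m + 2 then 1 else 0))) * (X : ℝ[X]) ^ n
        = (if n = m then C (γ n) * X ^ n else 0) - (if n = m + 2 then C (γ n) * X ^ n else 0) := by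
      intro n
      by_cases h1 : n = m
      · subst h1; simp
      · by_cases h2 : n = m + 2
        · subst h2; simp
        · simp [h1, h2]
    simp only [e]
    rw [Finset.sum_sub_distrib, Finset.sum_ite_eq', Finset.sum_ite_eq',
      if_pos (Finset.mem_range.mpr (by omega)), if_pos (Finset.mem_range.mpr (by omega))]
  have hm0 : γ m ≠ 0 := by intro h; rw [h] at hcon; simp at hcon
  have hm2 : γ (m + 2) ≠ 0 := by intro h; rw [h] at hcon; simp at hcon
  have hJ0 : J ≠ 0 := by
    intro h0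
    have : J.coeff m = γ m := by rw [hJ2]; simp [coeff_X_pow]
    rw [h0] at this
    simp at this
    exact hm0 this.symm
  have hNV := h1.resolve_left hJ0
  -- nonreal root
  have hq : 0 < -(γ m / γ (m + 2)) := by
    have : γ m / γ (m + 2) = (γ m * γ (m + 2)) / (γ (m + 2)) ^ 2 := by
      field_simp
    rw [this, neg_pos]
    exact div_neg_of_neg_of_pos hcon (by positivity)
  set s := Real.sqrt (-(γ m / γ (m + 2))) with hs
  have hs0 : 0 < s := Real.sqrt_pos.mpr hq
  have hs2 : s ^ 2 = -(γ m / γ (m + 2)) := Real.sq_sqrt hq.le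
  have hroot : aeval ((s : ℂ) * Complex.I) J = 0 := by
    rw [hJ2]
    simp only [map_sub, map_mul, aeval_C, map_pow, aeval_X, Complex.coe_algebraMap]
    have e1 : ((s : ℂ) * Complex.I) ^ 2 = (γ m : ℂ) / γ (m + 2) := by
      rw [mul_pow, Complex.I_sq]
      have : ((s : ℂ)) ^ 2 = ((-(γ m / γ (m + 2)) : ℝ) : ℂ) := by rw [← hs2]; push_cast; rfl
      rw [this]; push_cast; ring
    rw [pow_add, e1]
    have : (γ (m + 2) : ℂ) ≠ 0 := by exact_mod_cast hm2
    field_simp
    ring
  have := hNV _ hroot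
  simp at this
  exact hs0.ne' this

theorem turan_seq {γ : ℕ → ℝ} (h : G γ 1) (m : ℕ) : γ m * γ (m + 2) ≤ γ (m + 1) ^ 2 := by
  have h := G_turan (K := (X : ℝ[X]) ^ m) (by simpa using G_mul_X_pow h m)
  rw [← pow_add, L_X_pow, L_X_pow] at h
  have : (X : ℝ[X]) ^ m * X = X ^ (m + 1) := by ring
  rwa [this, L_X_pow] at h

theorem zero_seq {γ : ℕ → ℝ} (hMS : MS γ) (h : G γ 1) (m : ℕ) (h0 : γ m ≠ 0) (h1 : γ (m + 1) = 0)
    (n : ℕ) (hn : 1 ≤ n) : γ (m + n) = 0 := by
  have h2 : γ (m + 2) = 0 := by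
    have t := turan_seq h m
    rw [h1] at t
    have t2 := MS_two hMS m
    have : γ m * γ (m + 2) = 0 := by
      apply le_antisymm _ t2
      simpa using t
    rcases mul_eq_zero.mp this with h | h
    · exact absurd h h0
    · exact h
  have e : ∀ i, (X : ℝ[X]) ^ m * X ^ i = X ^ (m + i) := fun i => by ring
  have h3 := G_zero (K := (X : ℝ[X]) ^ m) (by simpa using G_mul_X_pow h m)
    (by rwa [L_X_pow]) (by rw [← pow_succ, L_X_pow]; exact h1) (by rw [e, L_X_pow]; exact h2) n hn
  rwa [e, L_X_pow] at h3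

/-- sign pattern -/
theorem sign_pattern {γ : ℕ → ℝ} (hMS : MS γ) (h : G γ 1) :
    ∃ ε σ : ℝ, (ε = 1 ∨ ε = -1) ∧ (σ = 1 ∨ σ = -1) ∧ ∀ n, 0 ≤ ε * σ ^ n * γ n := by
  by_cases hz : ∀ n, γ n = 0
  · exact ⟨1, 1, Or.inl rfl, Or.inl rfl, fun n => by rw [hz n]; simp⟩
  push Not at hz
  classical
  set m := Nat.find hz with hm
  have hm0 : γ m ≠ 0 := Nat.find_spec hz
  have hlt : ∀ n, n < m → γ n = 0 := fun n hn => by
    by_contra hne
    exact Nat.find_min hz hn hne
  -- choose σ
  obtain ⟨σ, hσ, hσ1⟩ : ∃ σ : ℝ, (σ = 1 ∨ σ = -1) ∧ 0 ≤ σ * (γ m * γ (m + 1)) := by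
    rcases le_total 0 (γ m * γ (m + 1)) with h1 | h1
    · exact ⟨1, Or.inl rfl, by simpa using h1⟩
    · exact ⟨-1, Or.inr rfl, by linarith⟩
  have hσ2 : σ * σ = 1 := by rcases hσ with rfl | rfl <;> norm_num
  obtain ⟨ε, hε, hε1⟩ : ∃ ε : ℝ, (ε = 1 ∨ ε = -1) ∧ 0 < ε * σ ^ m * γ m := by
    have hne : σ ^ m * γ m ≠ 0 := by
      apply mul_ne_zero _ hm0
      apply pow_ne_zero
      rintro rfl
      simp at hσ2
    rcases lt_or_gt_of_ne hne with h1 | h1
    · exact ⟨-1, Or.inr rfl, by nlinarith⟩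
    · exact ⟨1, Or.inl rfl, by nlinarith⟩
  refine ⟨ε, σ, hε, hσ, ?_⟩
  have hε2 : ε * ε = 1 := by rcases hε with rfl | rfl <;> norm_num
  -- pairwise induction
  have key : ∀ i, 0 ≤ ε * σ ^ (m + i) * γ (m + i) ∧ 0 ≤ ε * σ ^ (m + i + 1) * γ (m + i + 1) := by
    intro i
    induction i with
    | zero =>
      refine ⟨by simpa using hε1.le, ?_⟩
      rw [add_zero, pow_succ]
      -- (ε σ^m γ m) * (ε σ^(m+1) γ(m+1)) ≥ 0
      have h1 : 0 ≤ (ε * σ ^ m * γ m) * (ε * (σ ^ m * σ) * γ (m + 1)) := by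
        have e : (ε * σ ^ m * γ m) * (ε * (σ ^ m * σ) * γ (m + 1)) =
            (ε * ε) * (σ * σ) ^ m * (σ * (γ m * γ (m + 1))) := by ring
        rw [e, hε2, hσ2]; simpa using hσ1
      exact nonneg_of_mul_nonneg_right h1 hε1
    | succ i ih =>
      obtain ⟨ih1, ih2⟩ := ih
      refine ⟨by simpa [add_assoc] using ih2, ?_⟩
      have e0 : m + (i + 1) + 1 = m + i + 2 := by ring
      rw [e0]
      by_cases h2 : γ (m + i + 2) = 0
      · rw [h2]; simp
      have h1 : γ (m + i) ≠ 0 := by
        intro h0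
        -- find the first zero index between m and m+i
        have : ∃ k, γ (m + k) = 0 ∧ k ≤ i := ⟨i, h0, le_rfl⟩
        have hk := Nat.find_spec this
        set k := Nat.find this with hkdef
        have hk0 : k ≠ 0 := by
          intro hk0
          rw [hk0] at hk
          exact hm0 (by simpa using hk.1)
        have hk1 : γ (m + (k - 1)) ≠ 0 := by
          intro h3
          have := Nat.find_min this (m := k - 1) (by omega)
          exact this ⟨h3, by omega⟩
        have h4 := zero_seq hMS h (m + (k - 1)) hk1 (by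
          have : m + (k - 1) + 1 = m + k := by omega
          rw [this]; exact hk.1) (i + 2 - (k - 1)) (by omega)
        have e5 : m + (k - 1) + (i + 2 - (k - 1)) = m + i + 2 := by omega
        rw [e5] at h4
        exact h2 h4
      have hpos : 0 < ε * σ ^ (m + i) * γ (m + i) := by
        apply lt_of_le_of_ne ih1
        intro h5
        have : ε * σ ^ (m + i) * γ (m + i) ≠ 0 := by
          apply mul_ne_zero _ h1
          apply mul_ne_zero
          · rintro rfl; simp at hε2
          · apply pow_ne_zero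
            rintro rfl
            simp at hσ2
        exact this h5.symm
      have h6 := MS_two hMS (m + i)
      have h7 : 0 ≤ (ε * σ ^ (m + i) * γ (m + i)) * (ε * σ ^ (m + i + 2) * γ (m + i + 2)) := by
        have e : (ε * σ ^ (m + i) * γ (m + i)) * (ε * σ ^ (m + i + 2) * γ (m + i + 2)) =
            (ε * ε) * (σ * σ) ^ (m + i + 1) * (γ (m + i) * γ (m + i + 2)) := by ring
        rw [e, hε2, hσ2]; simpa using h6
      exact nonneg_of_mul_nonneg_right h7 hpos
  intro n
  rcases Nat.lt_or_ge n m with h1 | h1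
  · rw [hlt n h1]; simp
  · have := (key (n - m)).1
    have e : m + (n - m) = n := by omega
    rwa [e] at this

theorem comp_A (σ : ℝ) (hσ2 : σ * σ = 1) (p : ℝ[X]) :
    (2 * X * p - derivative p).comp (C σ * X) =
      C σ * (2 * X * p.comp (C σ * X) - derivative (p.comp (C σ * X))) := by
  rw [derivative_comp, derivative_C_mul, derivative_X, sub_comp, mul_comp, mul_comp, X_comp]
  have h2 : (2 : ℝ[X]).comp (C σ * X) = 2 := by
    rw [show (2 : ℝ[X]) = C 2 from (map_ofNat C 2).symm, C_comp]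
  have hs : (C σ : ℝ[X]) * C σ = 1 := by rw [← C_mul, hσ2, C_1]
  rw [h2]
  linear_combination ((derivative p).comp (C σ * X)) * hs

theorem comp_hh (σ : ℝ) (hσ2 : σ * σ = 1) (n : ℕ) :
    (hh n).comp (C σ * X) = C (σ ^ n) * hh n := by
  induction n with
  | zero => rw [hh_zero]; simp
  | succ n ih =>
    apply mul_left_cancel₀ sqrt2_ne
    have h := congrArg (fun p => p.comp (C σ * X)) (hh_succ n)
    simp only [mul_comp, C_comp] at h
    have h' : C (Real.sqrt 2) * (hh (n + 1)).comp (C σ * X) =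
        (2 * X * hh n - derivative (hh n)).comp (C σ * X) := by
      rw [← hh_succ, mul_comp, C_comp]
    rw [h', comp_A σ hσ2, ih, derivative_C_mul, pow_succ, C_mul]
    linear_combination (-(C (σ ^ n) * C σ)) * hh_succ n

theorem RR_comp {σ : ℝ} (hσ2 : σ * σ = 1) {p : ℝ[X]} (h : RR p) : RR (p.comp (C σ * X)) := by
  rcases h with h | h
  · left; rw [h, zero_comp]
  · right
    intro z hz
    rw [aeval_comp] at hz
    have h1 := h _ hz
    simp only [map_mul, aeval_C, aeval_X, Complex.coe_algebraMap, Complex.im_ofReal_mul] at h1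
    rcases mul_eq_zero.mp h1 with h2 | h2
    · rw [h2] at hσ2; simp at hσ2
    · exact h2

theorem RR_C_mul' {p : ℝ[X]} (c : ℝ) (h : RR p) : RR (C c * p) := by
  by_cases hc : c = 0
  · left; rw [hc]; simp
  rcases h with h | h
  · left; rw [h, mul_zero]
  · right
    intro z hz
    rw [map_mul, aeval_C] at hz
    rcases mul_eq_zero.mp hz with h1 | h1
    · exact absurd (by simpa using h1) hc
    · exact h z h1

theorem L_comp (γ β : ℕ → ℝ) (ε σ : ℝ) (h : ∀ n, γ n = ε * σ ^ n * β n) (P : ℝ[X]) :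
    L γ P = ε * L β (P.comp (C σ * X)) := by
  induction P using Polynomial.induction_on' with
  | add p q hp hq => rw [map_add, add_comp, map_add, hp, hq]; ring
  | monomial n a =>
    rw [← C_mul_X_pow_eq_monomial, L_C_mul, L_X_pow, h n, mul_comp, C_comp, pow_comp, X_comp,
      mul_pow, ← C_pow, L_C_mul, L_C_mul, L_X_pow]
    ring

/-- main theorem -/
theorem main (T : ℝ[X] →ₗ[ℝ] ℝ[X]) (γ : ℕ → ℝ) (Q : ℕ → ℝ[X])
    (hT : ∀ n : ℕ, T (hh n) = γ n • hh n) (hMS : MS γ)
    (hQ : ∀ p : ℝ[X], T p = ∑ k ∈ Finset.range (p.natDegree + 1), Q k * (⇑derivative)^[k] p)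
    (hRR : ∀ k, RR (Q k)) (p : ℝ[X]) (hp : RR p) : RR (T p) := by
  have hGγ := G_of_MS hMS
  obtain ⟨ε, σ, hε, hσ, hsgn⟩ := sign_pattern hMS hGγ
  have hε2 : ε * ε = 1 := by rcases hε with rfl | rfl <;> norm_num
  have hσ2 : σ * σ = 1 := by rcases hσ with rfl | rfl <;> norm_num
  set β : ℕ → ℝ := fun n => ε * σ ^ n * γ n with hβ
  have hγβ : ∀ n, γ n = ε * σ ^ n * β n := by
    intro n
    simp only [hβ]
    have : ε * σ ^ n * (ε * σ ^ n * γ n) = (ε * ε) * (σ * σ) ^ n * γ n := by ring
    rw [this, hε2, hσ2]; simp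
  -- G β 1
  have hGβ : G β 1 := by
    intro n
    have e : F β 1 n = C (ε * σ ^ n) * (F γ 1 n).comp (C σ * X) := by
      apply Polynomial.funext
      intro z
      rw [F_eval, one_mul, eval_mul, eval_C, eval_comp, F_eval, one_mul]
      have h1 := L_comp β γ ε σ (fun n => rfl) ((X + C z) ^ n)
      rw [h1, pow_comp, add_comp, X_comp, C_comp]
      have h2 : (C σ * X + C z : ℝ[X]) = C σ * (X + C (eval z (C σ * X : ℝ[X]))) := by
        simp only [eval_mul, eval_C, eval_X, C_mul]
        have hs : (C σ : ℝ[X]) * C σ = 1 := by rw [← C_mul, hσ2, C_1]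
        linear_combination (-(C z)) * hs
      rw [h2, mul_pow, ← C_pow, L_C_mul]
      ring
    rw [e]
    exact RR_C_mul' _ (RR_comp hσ2 (hGγ n))
  -- sign condition
  have hSC : SC β σ := by
    intro k
    have hk : RR (Qh γ k 1) := by
      rw [← Q_eq T γ Q hT hQ k]; exact hRR k
    have h1 := sign_cond γ k hk
    have e : ∀ a l : ℕ, a + 2 * l = k → L γ ((X - 1) ^ a * (X ^ 2 - 1) ^ l) =
        ε * σ ^ k * L β ((X - C σ) ^ a * (X ^ 2 - 1) ^ l) := by
      intro a l hal
      rw [L_comp γ β ε σ hγβ]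
      have hs : (C σ : ℝ[X]) * C σ = 1 := by rw [← C_mul, hσ2, C_1]
      have e1 : ((X - 1 : ℝ[X]) ^ a * (X ^ 2 - 1) ^ l).comp (C σ * X) =
          C (σ ^ a) * ((X - C σ) ^ a * (X ^ 2 - 1) ^ l) := by
        rw [mul_comp, pow_comp, pow_comp, sub_comp, sub_comp, pow_comp, X_comp, one_comp]
        have e2 : (C σ * X - 1 : ℝ[X]) = C σ * (X - C σ) := by linear_combination hs
        have e3 : ((C σ * X) ^ 2 - 1 : ℝ[X]) = X ^ 2 - 1 := by linear_combination (X ^ 2) * hs
        rw [e2, e3, mul_pow, C_pow]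
        ring
      rw [e1, L_C_mul]
      have e4 : σ ^ k = σ ^ a := by
        rw [← hal, pow_add, pow_mul, pow_two, hσ2]; simp
      rw [e4]; ring
    have hsg : ε * σ ^ k = 1 ∨ ε * σ ^ k = -1 := by
      have : (ε * σ ^ k) * (ε * σ ^ k) = 1 := by
        have : (ε * σ ^ k) * (ε * σ ^ k) = (ε * ε) * (σ * σ) ^ k := by ring
        rw [this, hε2, hσ2]; simp
      exact mul_self_eq_one_iff.mp this
    rcases hsg with hs | hs <;> rcases h1 with h1 | h1
    · left; intro a l hal; have := h1 a l hal; rw [e a l hal, hs] at this; linarith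
    · right; intro a l hal; have := h1 a l hal; rw [e a l hal, hs] at this; linarith
    · right; intro a l hal; have := h1 a l hal; rw [e a l hal, hs] at this; linarith
    · left; intro a l hal; have := h1 a l hal; rw [e a l hal, hs] at this; linarith
  have hmono := mono hsgn hGβ hσ hSC
  -- identify T
  set N := p.natDegree with hN
  set g : ℕ → ℝ := fun j => bb β j / (j.factorial : ℝ) with hg
  have hid : T p = C ε * W g N (p.comp (C σ * X)) := by
    refine ext_hh (S := T) (S' := fun p => C ε * W g N (p.comp (C σ * X)))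
      (by intro p q; exact map_add T p q) (by intro p q; simp only [add_comp, W_add]; ring)
      (by intro c p; rw [← smul_eq_C_mul, map_smul, smul_eq_C_mul])
      (by intro c p; simp only [mul_comp, C_comp, W_C_mul]; ring) N ?_ p le_rfl
    intro n hn
    rw [hT, comp_hh σ hσ2, W_C_mul, W_hh, eig_bb β N n hn, smul_eq_C_mul, hγβ n, C_mul, C_mul]
    ring
  rw [hid]
  apply RR_C_mul'
  have hdeg : (p.comp (C σ * X)).natDegree = N := by
    rw [natDegree_comp, natDegree_C_mul_X _ (by rintro rfl; simp at hσ2), mul_one]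
  have := W_RR hsgn hGβ hmono (p.comp (C σ * X)) (RR_comp hσ2 hp)
  rwa [hdeg] at this

end Pool.Agent.H415R3.FP
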