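import Mathlib

set_option autoImplicit false

open Complex NormedSpace

namespace Pool.Agent.H415R3.OpLip

variable {𝒜 : Type*} [CStarAlgebra 𝒜]

/-- norm of the exponential of a skew-adjoint element -/
theorem norm_exp_le {x : 𝒜} (hx : x ∈ skewAdjoint 𝒜) : ‖exp x‖ ≤ 1 := by
  rcases subsingleton_or_nontrivial 𝒜 with h | h
  · rw [Subsingleton.elim (exp x) 0]; simp
  · let +nondep : NormedAlgebra ℚ 𝒜 := NormedAlgebra.restrictScalars ℚ ℂ 𝒜
    exact (CStarRing.norm_of_mem_unitary (exp_mem_unitary_of_mem_skewAdjoint hx)).le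

/-- Duhamel estimate: `‖A (e^X - e^Y) B‖ ≤ K` if `‖A (X - Y) B‖ ≤ K` and `X`, `Y` are skew-adjoint
and commute with `A`, `B` respectively. -/
theorem duhamel {A B X Y : 𝒜} (hX : X ∈ skewAdjoint 𝒜) (hY : Y ∈ skewAdjoint 𝒜)
    (hAX : Commute A X) (hBY : Commute B Y) {K : ℝ} (hK : ‖A * (X - Y) * B‖ ≤ K) :
    ‖A * (exp X - exp Y) * B‖ ≤ K := by
  set Φ : ℝ → 𝒜 := fun t => A * (exp (t • X) * exp ((1 - t) • Y)) * B with hΦ
  have hsX : ∀ t : ℝ, t • X ∈ skewAdjoint 𝒜 := fun t => skewAdjoint.smul_mem t hX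
  have hsY : ∀ t : ℝ, t • Y ∈ skewAdjoint 𝒜 := fun t => skewAdjoint.smul_mem t hY
  have hd : ∀ t : ℝ, HasDerivAt Φ (exp (t • X) * (A * (X - Y) * B) * exp ((1 - t) • Y)) t := by
    intro t
    have h1 : HasDerivAt (fun u : ℝ => exp (u • X)) (exp (t • X) * X) t :=
      hasDerivAt_exp_smul_const X t
    have h2 : HasDerivAt (fun u : ℝ => exp (u • Y)) (Y * exp ((1 - t) • Y)) (1 - t) :=
      hasDerivAt_exp_smul_const' Y (1 - t)
    have h3 : HasDerivAt (fun u : ℝ => exp ((1 - u) • Y)) (-(Y * exp ((1 - t) • Y))) t := by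
      have h4 : HasDerivAt (fun u : ℝ => 1 - u) (-1) t := by
        simpa using (hasDerivAt_id t).const_sub 1
      have h5 := HasDerivAt.scomp t h2 h4
      refine (h5.congr_deriv ?_)
      rw [neg_smul, one_smul]
    have h6 := ((h1.mul h3).const_mul A).mul_const B
    refine h6.congr_deriv ?_
    have c1 : A * exp (t • X) = exp (t • X) * A := (Commute.exp_right (hAX.smul_right t)).eq
    have c2 : exp ((1 - t) • Y) * B = B * exp ((1 - t) • Y) :=
      ((Commute.exp_right (hBY.smul_right (1 - t))).eq).symm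
    have e1 : A * (exp (t • X) * X * exp ((1 - t) • Y) + exp (t • X) * -(Y * exp ((1 - t) • Y))) * B
        = (A * exp (t • X)) * (X - Y) * (exp ((1 - t) • Y) * B) := by noncomm_ring
    rw [e1, c1, c2]
    noncomm_ring
  have hb : ∀ t : ℝ, ‖exp (t • X) * (A * (X - Y) * B) * exp ((1 - t) • Y)‖ ≤ K := by
    intro t
    have hK0 : 0 ≤ K := (norm_nonneg _).trans hK
    calc _ ≤ ‖exp (t • X) * (A * (X - Y) * B)‖ * ‖exp ((1 - t) • Y)‖ := norm_mul_le _ _
      _ ≤ (‖exp (t • X)‖ * ‖A * (X - Y) * B‖) * ‖exp ((1 - t) • Y)‖ := by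
          gcongr; exact norm_mul_le _ _
      _ ≤ (1 * K) * 1 := by
          gcongr
          · exact norm_exp_le (hsX t)
          · exact norm_exp_le (hsY (1 - t))
      _ = K := by ring
  have hmv := Convex.norm_image_sub_le_of_norm_hasDerivWithin_le (f := Φ) (s := Set.univ)
    (C := K) (x := 0) (y := 1) (fun t _ => (hd t).hasDerivWithinAt) (fun t _ => hb t)
    convex_univ (Set.mem_univ _) (Set.mem_univ _)
  have h1 : Φ 1 - Φ 0 = A * (exp X - exp Y) * B := by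
    simp only [hΦ, one_smul, sub_self, zero_smul, NormedSpace.exp_zero, sub_zero, mul_one, one_mul]
    noncomm_ring
  rw [h1] at hmv
  simpa using hmv

/-- The main estimate for `x^2 e^{s i / x}`. -/
theorem core {A B SA SB : 𝒜}
    (hSA : IsSelfAdjoint SA) (hSB : IsSelfAdjoint SB) (h1 : A * SA = 1) (h1' : SA * A = 1)
    (h2 : B * SB = 1) (h2' : SB * B = 1) (hnA : ‖A‖ ≤ 2) (hnB : ‖B‖ ≤ 2) (s : ℝ) (hs : |s| = 1) :
    ‖A * A * exp (((s : ℂ) * I) • SA) - B * B * exp (((s : ℂ) * I) • SB)‖ ≤ 5 * ‖A - B‖ := by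
  have hskew : ∀ S : 𝒜, IsSelfAdjoint S → ((s : ℂ) * I) • S ∈ skewAdjoint 𝒜 := by
    intro S hS
    rw [skewAdjoint.mem_iff, star_smul, hS.star_eq]
    simp
  have cA : Commute A SA := by rw [Commute, SemiconjBy, h1, h1']
  have cB : Commute B SB := by rw [Commute, SemiconjBy, h2, h2']
  set EA := exp (((s : ℂ) * I) • SA) with hEA
  set EB := exp (((s : ℂ) * I) • SB) with hEB
  have nEA : ‖EA‖ ≤ 1 := norm_exp_le (hskew SA hSA)
  have nEB : ‖EB‖ ≤ 1 := norm_exp_le (hskew SB hSB)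
  have cEA : A * EA = EA * A := (Commute.exp_right (cA.smul_right _)).eq
  have cEB : B * EB = EB * B := (Commute.exp_right (cB.smul_right _)).eq
  have hdu : ‖A * (EA - EB) * B‖ ≤ ‖A - B‖ := by
    apply duhamel (hskew SA hSA) (hskew SB hSB) (cA.smul_right _) (cB.smul_right _)
    have e1 : A * (((s : ℂ) * I) • SA - ((s : ℂ) * I) • SB) * B = ((s : ℂ) * I) • (B - A) := by
      rw [← smul_sub, mul_smul_comm, smul_mul_assoc]
      congr 1
      have : A * (SA - SB) * B = (A * SA) * B - A * (SB * B) := by noncomm_ring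
      rw [this, h1, h2', one_mul, mul_one]
    rw [e1, norm_smul]
    have : ‖(s : ℂ) * I‖ = 1 := by
      rw [norm_mul, Complex.norm_I, mul_one, Complex.norm_real, Real.norm_eq_abs, hs]
    rw [this, one_mul, norm_sub_rev]
  have e2 : A * A * EA - B * B * EB = A * (EA - EB) * B + A * EA * (A - B) + (A - B) * EB * B := by
    have : A * (EA - EB) * B + A * EA * (A - B) + (A - B) * EB * B =
        A * (EA * A) - B * (EB * B) := by noncomm_ring
    rw [this, ← cEA, ← cEB]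
    noncomm_ring
  rw [e2]
  have t2 : ‖A * EA * (A - B)‖ ≤ 2 * ‖A - B‖ := by
    calc _ ≤ ‖A * EA‖ * ‖A - B‖ := norm_mul_le _ _
      _ ≤ (‖A‖ * ‖EA‖) * ‖A - B‖ := by gcongr; exact norm_mul_le _ _
      _ ≤ (2 * 1) * ‖A - B‖ := by gcongr
      _ = _ := by ring
  have t3 : ‖(A - B) * EB * B‖ ≤ 2 * ‖A - B‖ := by
    calc _ ≤ ‖(A - B) * EB‖ * ‖B‖ := norm_mul_le _ _
      _ ≤ (‖A - B‖ * ‖EB‖) * ‖B‖ := by gcongr; exact norm_mul_le _ _
      _ ≤ (‖A - B‖ * 1) * 2 := by gcongr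
      _ = _ := by ring
  calc _ ≤ ‖A * (EA - EB) * B + A * EA * (A - B)‖ + ‖(A - B) * EB * B‖ := norm_add_le _ _
    _ ≤ (‖A * (EA - EB) * B‖ + ‖A * EA * (A - B)‖) + ‖(A - B) * EB * B‖ := by
        gcongr; exact norm_add_le _ _
    _ ≤ (‖A - B‖ + 2 * ‖A - B‖) + 2 * ‖A - B‖ := by gcongr
    _ = _ := by ring

end Pool.Agent.H415R3.OpLip
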