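import Mathlib
import Pool.Agent.H415R3.OpLip

set_option autoImplicit false

open Complex NormedSpace

namespace Pool.Agent.H415R3.OpLip

variable {𝒜 : Type*} [CStarAlgebra 𝒜]

/-- the function `x^2 sin (1/x)` -/
noncomputable def g1 (x : ℝ) : ℝ := x ^ 2 * Real.sin x⁻¹

theorem g1_lip (x y : ℝ) (hx : x ∈ Set.Icc (0:ℝ) 2) (hy : y ∈ Set.Icc (0:ℝ) 2) :
    |g1 x - g1 y| ≤ 5 * |x - y| := by
  have hd : ∀ t : ℝ, HasDerivAt g1 (if t = 0 then 0 else 2 * t * Real.sin t⁻¹ - Real.cos t⁻¹) t := by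
    intro t
    by_cases ht : t = 0
    · rw [if_pos ht, ht]
      rw [hasDerivAt_iff_isLittleO_nhds_zero]
      have : (fun h : ℝ => g1 (0 + h) - g1 0 - h • (0:ℝ)) = fun h => h ^ 2 * Real.sin h⁻¹ := by
        funext h; simp [g1]
      rw [this]
      have h1 : (fun h : ℝ => h ^ 2 * Real.sin h⁻¹) =O[nhds 0] fun h : ℝ => h ^ 2 := by
        apply Asymptotics.IsBigO.of_bound 1
        filter_upwards with h
        rw [norm_mul, one_mul]
        have : ‖Real.sin h⁻¹‖ ≤ 1 := by rw [Real.norm_eq_abs]; exact Real.abs_sin_le_one _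
        nlinarith [norm_nonneg (h ^ 2)]
      refine h1.trans_isLittleO ?_
      exact (Asymptotics.isLittleO_pow_id (by norm_num : 1 < 2))
    · rw [if_neg ht]
      have h1 : HasDerivAt (fun x : ℝ => Real.sin x⁻¹) (Real.cos t⁻¹ * (-(t ^ 2)⁻¹)) t :=
        (Real.hasDerivAt_sin t⁻¹).comp t (hasDerivAt_inv ht)
      have h2 := (hasDerivAt_pow 2 t).mul h1
      refine h2.congr_deriv ?_
      field_simp
      simp
      ring
  have hb : ∀ t ∈ Set.Icc (0:ℝ) 2, ‖(if t = 0 then 0 else 2 * t * Real.sin t⁻¹ - Real.cos t⁻¹)‖ ≤ 5 := by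
    intro t ht
    split_ifs with h
    · simp
    · rw [Real.norm_eq_abs]
      calc |2 * t * Real.sin t⁻¹ - Real.cos t⁻¹| ≤ |2 * t * Real.sin t⁻¹| + |Real.cos t⁻¹| := abs_sub _ _
        _ = 2 * t * |Real.sin t⁻¹| + |Real.cos t⁻¹| := by
            rw [abs_mul, abs_of_nonneg (by linarith [ht.1] : 0 ≤ 2 * t)]
        _ ≤ 2 * 2 * 1 + 1 := by
            have := Real.abs_sin_le_one t⁻¹
            have := Real.abs_cos_le_one t⁻¹
            have := ht.1
            have := ht.2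
            gcongr
        _ = 5 := by norm_num
  have := Convex.norm_image_sub_le_of_norm_hasDerivWithin_le (f := g1) (s := Set.Icc (0:ℝ) 2)
    (C := 5) (fun t _ => (hd t).hasDerivWithinAt) hb (convex_Icc 0 2) hy hx
  simpa [Real.norm_eq_abs] using this

theorem g1_cont : ContinuousOn g1 (Set.Icc (0:ℝ) 2) := by
  intro x hx
  rw [Metric.continuousWithinAt_iff]
  intro ε hε
  refine ⟨ε / 5, by positivity, fun y hy hxy => ?_⟩
  rw [Real.dist_eq] at *
  have := g1_lip y x hy hx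
  linarith

theorem spec_complex {A : 𝒜} (hA : IsSelfAdjoint A) {S : Set ℝ} (hs : spectrum ℝ A ⊆ S)
    {z : ℂ} (hz : z ∈ spectrum ℂ A) : z = (z.re : ℂ) ∧ z.re ∈ S := by
  have h1 := hA.mem_spectrum_eq_re hz
  refine ⟨h1, hs ?_⟩
  rw [← spectrum.preimage_algebraMap (R := ℝ) ℂ]
  change ((z.re : ℝ) : ℂ) ∈ spectrum ℂ A
  rw [← h1]
  exact hz

section

variable {A : 𝒜} (hA : IsSelfAdjoint A) {δ : ℝ} (hδ : 0 < δ) (hs : spectrum ℝ A ⊆ Set.Icc δ 2)

include hA hδ hs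

theorem inv_cont : ContinuousOn (fun x : ℝ => x⁻¹) (spectrum ℝ A) := by
  apply continuousOn_inv₀.mono
  intro x hx h
  have := (hs hx).1
  rw [h] at this
  linarith

theorem inv_cont_complex : ContinuousOn (fun z : ℂ => z⁻¹) (spectrum ℂ A) := by
  apply continuousOn_inv₀.mono
  intro z hz h
  obtain ⟨-, h2⟩ := spec_complex hA hs hz
  have := h2.1
  rw [show z = 0 from h] at this
  simp at this
  linarith

theorem mul_inv : A * cfc (fun x : ℝ => x⁻¹) A = 1 ∧ cfc (fun x : ℝ => x⁻¹) A * A = 1 := by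
  have hc := inv_cont hA hδ hs
  have hone : cfc (fun x : ℝ => x * x⁻¹) A = 1 := by
    rw [← cfc_one ℝ A]
    apply cfc_congr
    intro x hx
    have := (hs hx).1
    have hx0 : x ≠ 0 := by intro h; rw [h] at this; linarith
    simp [hx0]
  constructor
  · have h := cfc_mul (fun x : ℝ => x) (fun x : ℝ => x⁻¹) A
    rw [hone, cfc_id' ℝ A] at h
    exact h.symm
  · have h := cfc_mul (fun x : ℝ => x⁻¹) (fun x : ℝ => x) A
    have h2 : (fun x : ℝ => x⁻¹ * x) = fun x : ℝ => x * x⁻¹ := by funext x; ring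
    rw [h2, hone, cfc_id' ℝ A] at h
    exact h.symm

theorem inv_eq_complex : cfc (fun x : ℝ => x⁻¹) A = cfc (fun z : ℂ => z⁻¹) A := by
  rw [cfc_real_eq_complex]
  apply cfc_congr
  intro z hz
  obtain ⟨h1, h2⟩ := spec_complex hA hs hz
  simp only
  rw [h1]
  simp

theorem exp_eq (c : ℂ) : exp (c • cfc (fun x : ℝ => x⁻¹) A) = cfc (fun z : ℂ => Complex.exp (c * z⁻¹)) A := by
  have hc := inv_cont_complex hA hδ hs
  have hn : IsStarNormal A := hA.isStarNormal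
  rw [inv_eq_complex hA hδ hs, ← cfc_const_mul c (fun z : ℂ => z⁻¹) A]
  rw [← CFC.complex_exp_eq_normedSpace_exp (a := cfc (fun z : ℂ => c * z⁻¹) A) (cfc_predicate _ _)]
  rw [← cfc_comp' Complex.exp (fun z : ℂ => c * z⁻¹) A]

theorem g1_eq : cfc g1 A = (1 / (2 * I)) • (A * A * exp ((((1:ℝ) : ℂ) * I) • cfc (fun x : ℝ => x⁻¹) A) -
    A * A * exp ((((-1:ℝ) : ℂ) * I) • cfc (fun x : ℝ => x⁻¹) A)) := by
  have hc := inv_cont_complex hA hδ hs
  have hn : IsStarNormal A := hA.isStarNormal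
  rw [exp_eq hA hδ hs, exp_eq hA hδ hs]
  have hcc : ∀ c : ℂ, ContinuousOn (fun z : ℂ => Complex.exp (c * z⁻¹)) (spectrum ℂ A) := fun c =>
    Complex.continuous_exp.comp_continuousOn (continuousOn_const.mul hc)
  have hprod : ∀ c : ℂ, A * A * cfc (fun z : ℂ => Complex.exp (c * z⁻¹)) A =
      cfc (fun z : ℂ => z * z * Complex.exp (c * z⁻¹)) A := by
    intro c
    have hcc' := hcc c
    rw [cfc_mul (fun z : ℂ => z * z) (fun z : ℂ => Complex.exp (c * z⁻¹)) A,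
      cfc_mul (fun z : ℂ => z) (fun z : ℂ => z) A, cfc_id' ℂ A]
  rw [hprod, hprod]
  have h1 := hcc (((1:ℝ):ℂ) * I)
  have h2 := hcc (((-1:ℝ):ℂ) * I)
  rw [← cfc_sub (fun z : ℂ => z * z * Complex.exp (((1:ℝ):ℂ) * I * z⁻¹))
    (fun z : ℂ => z * z * Complex.exp (((-1:ℝ):ℂ) * I * z⁻¹)) A
    ((continuousOn_id.mul continuousOn_id).mul h1) ((continuousOn_id.mul continuousOn_id).mul h2)]
  rw [← cfc_const_mul (1 / (2 * I)) (fun z : ℂ => z * z * Complex.exp (((1:ℝ):ℂ) * I * z⁻¹) -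
    z * z * Complex.exp (((-1:ℝ):ℂ) * I * z⁻¹)) A
    (((continuousOn_id.mul continuousOn_id).mul h1).sub ((continuousOn_id.mul continuousOn_id).mul h2))]
  rw [cfc_real_eq_complex]
  apply cfc_congr
  intro z hz
  obtain ⟨e1, e2⟩ := spec_complex hA hs hz
  simp only
  rw [e1]
  set x := z.re with hx
  unfold g1
  simp only [Complex.ofReal_re]
  push_cast
  rw [Complex.sin]
  have hI : (I : ℂ) ≠ 0 := I_ne_zero
  have e3 : ((-1:ℂ)) * I * (x:ℂ)⁻¹ = -(x:ℂ)⁻¹ * I := by ring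
  have e4 : (1:ℂ) * I * (x:ℂ)⁻¹ = (x:ℂ)⁻¹ * I := by ring
  have e5 : (1 / (2 * I) : ℂ) = -I / 2 := by
    rw [div_eq_div_iff (mul_ne_zero two_ne_zero hI) two_ne_zero]
    linear_combination (2 : ℂ) * I_sq
  rw [e3, e4, e5]
  generalize cexp (-(x:ℂ)⁻¹ * I) = p
  generalize cexp ((x:ℂ)⁻¹ * I) = q
  ring

end

end Pool.Agent.H415R3.OpLip
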